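import Pool.Agent.Helper79.CU.StatC
import Pool.Agent.Helper64.Per.Defs

/-!
# BB: definitions for the statement of the theorem on families over bases of any dimension

`k` is a field (a number field with an embedding in `ℂ`), `t_1, …, t_m` are coordinates of the base.
-/

namespace Pool.Agent.Helper79.BB

open Pool.Agent.Helper79.CU Pool.Agent.Helper64.Per

/-- A family of varieties of dimension `d` over `k`, with `m` parameters, with a basis of a Gauss-Manin
stable part of its de Rham cohomology in degree `d`.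

`L` is the function field of the total space of the family, `t_1, …, t_m` the parameters, `x_1, …, x_d`
local coordinates of the fibres (a separating transcendence basis): `L` is finite over `k(t, x)`, `D_i` and
`dx_j` are the extensions of `∂/∂t_i` and `∂/∂x_j` to `L`. The differential forms of degree `d` relative to
`t` are `f dx_1 ∧ … ∧ dx_d`, `f ∈ L`, and the exact ones are those with `f ∈ dx_1 L + … + dx_d L`.
`gm`: `T(t) D_i ω_l = ∑ A_i,ln(t) ω_n + ∑ dx_j g_ilj`: the span of the classes of the forms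
`ω_l dx_1 ∧ … ∧ dx_d` is stable under the Gauss-Manin connection, with matrices `A_i / T`.
`ind`: their classes are linearly independent over `k(t)`. -/
structure FunctionFormsM (m : ℕ) (k L : Type) [Field k] [Field L] [Algebra k L]
    (T : MvPolynomial (Fin m) k) (d : ℕ) (ι : Type) [Fintype ι] where
  /-- the coordinates of the base -/
  t : Fin m → L
  /-- the coordinates of the fibres -/
  x : Fin d → L
  /-- the partial derivatives with respect to the `t_i` -/
  D : Fin m → Derivation k L L
  /-- the partial derivatives with respect to the `x_j` -/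
  dx : Fin d → Derivation k L L
  /-- the forms -/
  ω : ι → L
  /-- the functions in `gm` -/
  g : Fin m → ι → Fin d → L
  /-- the numerators of the matrices of the Gauss-Manin connection -/
  A : Fin m → Matrix ι ι (MvPolynomial (Fin m) k)
  indep : AlgebraicIndependent k (Sum.elim t x)
  finite : FiniteDimensional (IntermediateField.adjoin k (Set.range (Sum.elim t x))) L
  D_t : ∀ i j, D i (t j) = if i = j then 1 else 0
  D_x : ∀ i j, D i (x j) = 0
  dx_t : ∀ i j, dx i (t j) = 0
  dx_x : ∀ i j, dx i (x j) = if i = j then 1 else 0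
  gm : ∀ i l, MvPolynomial.aeval t T * D i (ω l) =
    ∑ n, MvPolynomial.aeval t (A i l n) * ω n + ∑ j, dx j (g i l j)
  ind : ∀ c : ι → MvPolynomial (Fin m) k, (∃ u : Fin d → L,
    ∑ l, MvPolynomial.aeval t (c l) * ω l = ∑ j, dx j (u j)) → c = 0

/-- A sub-connection of the `r`-th tensor power of the connection with matrices `A_s / T`, given by the
rows of `M` (linearly independent over `k(t)`), with matrices `B_s / T`. The rows have indices `(l, a)`,
`l < μ`: they are the elements `w^l ω_a` of the push-forward to the affine space of a connection with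
basis `ω_a` over a variety of degree `μ` over this space, `w` a primitive element. -/
structure SubTensorM {m : ℕ} {k : Type} [Field k] {ι₀ : Type} [Fintype ι₀] [DecidableEq ι₀]
    (T : MvPolynomial (Fin m) k) (A : Fin m → Matrix ι₀ ι₀ (MvPolynomial (Fin m) k)) (μ r : ℕ)
    (ι : Type) [Fintype ι] [DecidableEq ι] where
  /-- the elements of the tensor power -/
  M : Matrix (Fin μ × ι) (Fin r → ι₀) (MvPolynomial (Fin m) k)
  /-- the numerators of the matrices of the sub-connection -/
  B : Fin m → Matrix (Fin μ × ι) (Fin μ × ι) (MvPolynomial (Fin m) k)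
  stable : ∀ s p I, T * MvPolynomial.pderiv s (M p I) + (M * tens r (A s)) p I = (B s * M) p I
  ind : ∀ f : Fin μ × ι → MvPolynomial (Fin m) k, Matrix.vecMul f M = 0 → f = 0

/-- The partial derivative `∂f/∂t_i`. -/
noncomputable def pd {m : ℕ} (i : Fin m) (f : (Fin m → ℂ) → ℂ) (u : Fin m → ℂ) : ℂ :=
  fderiv ℂ f u (Pi.single i 1)

section

variable {m : ℕ} {k : Type} [Field k] [Algebra k ℂ]

/-- `V` is a matrix of analytic solutions of the Picard-Fuchs system `T ∂V/∂t_s = A_s V` on `U` (for example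
the matrix of the integrals of the forms over locally constant cycles). -/
def IsSolutionM {ι₀ : Type} [Fintype ι₀] (T : MvPolynomial (Fin m) k)
    (A : Fin m → Matrix ι₀ ι₀ (MvPolynomial (Fin m) k)) {g : ℕ} (U : Set (Fin m → ℂ))
    (V : (Fin m → ℂ) → Matrix ι₀ (Fin g) ℂ) : Prop :=
  (∀ i j, AnalyticOnNhd ℂ (fun t => V t i j) U) ∧
  ∀ t ∈ U, ∀ s i j, MvPolynomial.aeval t T * pd s (fun t => V t i j) t =
    ∑ l, MvPolynomial.aeval t (A s i l) * V t l j

/-- `P` is a matrix of periods of the sub-connection along the branch `t ↦ (t, w t)`, `t ∈ U`: the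
functions `w^l P_{ab}` are `(M V^{⊗r} c)_{(l, a), b}` for a matrix `V` of solutions and a constant
matrix `c` (which expresses cycles by tensors of cycles). -/
def IsPeriodM {ι₀ : Type} [Fintype ι₀] [DecidableEq ι₀] {T : MvPolynomial (Fin m) k}
    {A : Fin m → Matrix ι₀ ι₀ (MvPolynomial (Fin m) k)} {μ r : ℕ} {ι : Type} [Fintype ι]
    [DecidableEq ι] (E : SubTensorM T A μ r ι) (U : Set (Fin m → ℂ)) (w : (Fin m → ℂ) → ℂ)
    (P : (Fin m → ℂ) → Matrix ι ι ℂ) : Prop :=
  ∃ (g : ℕ) (V : (Fin m → ℂ) → Matrix ι₀ (Fin g) ℂ) (c : Matrix (Fin r → Fin g) ι ℂ),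
    IsSolutionM T A U V ∧ ∀ t ∈ U, ∀ (l : Fin μ) (a b : ι),
      w t ^ (l : ℕ) * P t a b = ∑ I, MvPolynomial.aeval t (E.M (l, a) I) * (tpow r (V t) * c) I b

/-- `t ↦ (t, w t)`, `t ∈ U`, is an analytic branch of a variety of degree `μ` over the affine space. -/
structure IsBranchM (k : Type) [Field k] [Algebra k ℂ] (U : Set (Fin m → ℂ)) (μ : ℕ)
    (w : (Fin m → ℂ) → ℂ) : Prop where
  analytic : AnalyticOnNhd ℂ w U
  eqn : ∃ f : Fin μ → MvPolynomial (Fin m) k,
    ∀ t ∈ U, w t ^ μ = ∑ l : Fin μ, MvPolynomial.aeval t (f l) * w t ^ (l : ℕ)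

end

/-- A nonzero polynomial `T` and finitely many families `Φ_s`, `s ∈ β`, with `m` parameters over the field
`κ`, with function fields `L_s`, relative dimensions `d_s`, and forms with indices in `γ_s`, whose
Gauss-Manin connections have denominator `T`. -/
structure FamiliesM (κ : IntermediateField ℚ Qbar) (m : ℕ) where
  /-- the denominator of the Gauss-Manin connections -/
  T : MvPolynomial (Fin m) κ
  T_ne : T ≠ 0
  /-- the indices of the families -/
  β : Type
  [fβ : Fintype β]
  [dβ : DecidableEq β]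
  /-- the function fields -/
  L : β → Type
  [fL : ∀ s, Field (L s)]
  [aL : ∀ s, Algebra κ (L s)]
  /-- the relative dimensions -/
  d : β → ℕ
  /-- the indices of the forms -/
  γ : β → Type
  [fγ : ∀ s, Fintype (γ s)]
  [dγ : ∀ s, DecidableEq (γ s)]
  /-- the families and forms -/
  Φ : ∀ s, FunctionFormsM m κ (L s) T (d s) (γ s)

attribute [instance] FamiliesM.fβ FamiliesM.dβ FamiliesM.fL FamiliesM.aL FamiliesM.fγ FamiliesM.dγ

namespace FamiliesM

variable {κ : IntermediateField ℚ Qbar} {m : ℕ} (F : FamiliesM κ m)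

/-- The numerators of the matrices of the direct sum of the Gauss-Manin connections. -/
noncomputable def A (i : Fin m) :
    Matrix (Σ s, F.γ s) (Σ s, F.γ s) (MvPolynomial (Fin m) κ) :=
  Matrix.blockDiagonal' fun s => (F.Φ s).A i

/-- The sub-connections (over varieties of degree `μ` over the affine space, with basis indexed by `ι`) of
the `r`-th tensor power of the direct sum of the Gauss-Manin connections. -/
def Sub (μ r : ℕ) (ι : Type) [Fintype ι] [DecidableEq ι] : Type :=
  SubTensorM F.T F.A μ r ι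

/-- `P` is a matrix of periods of the sub-connection along the branch `t ↦ (t, w t)`, `t ∈ U`. -/
def Sub.IsPeriod {F : FamiliesM κ m} {μ r : ℕ} {ι : Type} [Fintype ι] [DecidableEq ι]
    (E : F.Sub μ r ι) (U : Set (Fin m → ℂ)) (w : (Fin m → ℂ) → ℂ)
    (P : (Fin m → ℂ) → Matrix ι ι ℂ) : Prop :=
  IsPeriodM (T := F.T) (A := F.A) E U w P

end FamiliesM

/-! ### Relations -/

section Rel

variable {m : ℕ} {ι : Type} [Fintype ι] [DecidableEq ι]

/-- The field generated over `κ` by those of the numbers `x_1, …, x_m`, `y` which are algebraic. -/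
noncomputable def kapM (κ : IntermediateField ℚ Qbar) (x : Fin m → ℂ) (y : ℂ) :
    IntermediateField ℚ Qbar :=
  κ ⊔ IntermediateField.adjoin ℚ {z : Qbar | (∃ i, (z : ℂ) = x i) ∨ (z : ℂ) = y}

/-- Value at `(x, y, M)` of a polynomial in the coordinates `x_1, …, x_m`, `y` and the entries of `M`, with
algebraic coefficients. -/
noncomputable def evP (q : MvPolynomial ((Fin m ⊕ Unit) ⊕ ι × ι) Qbar) (x : Fin m → ℂ) (y : ℂ)
    (M : Matrix ι ι ℂ) : ℂ :=
  MvPolynomial.aeval (Sum.elim (Sum.elim x fun _ => y) fun p => M p.1 p.2) q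

/-- The fibre over `(s, w s)` of the `ℚ̄`-Zariski closure in `S × GL` of the graph of the
matrix-valued function `P` along the branch `t ↦ (t, w t)`, `t ∈ U`, of the variety `S`. -/
def BFibreM (U : Set (Fin m → ℂ)) (w : (Fin m → ℂ) → ℂ) (P : (Fin m → ℂ) → Matrix ι ι ℂ)
    (s : Fin m → ℂ) : Set (Matrix ι ι ℂ) :=
  {M | IsUnit M.det ∧ ∀ q : MvPolynomial ((Fin m ⊕ Unit) ⊕ ι × ι) Qbar,
    (∀ t ∈ U, evP q t (w t) (P t) = 0) → evP q s (w s) M = 0}

/-- There is a relation of degree at most `δ` over `κ(s, w s)` at the point `(s, w s)`: a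
polynomial over this field of total degree at most `δ` which vanishes on the `ℚ̄`-Zariski closure of
`P s` but not on `BFibreM U w P s`. -/
def HasRelationM (U : Set (Fin m → ℂ)) (w : (Fin m → ℂ) → ℂ) (P : (Fin m → ℂ) → Matrix ι ι ℂ)
    (s : Fin m → ℂ) (κ : IntermediateField ℚ Qbar) (δ : ℕ) : Prop :=
  ∃ r : MvPolynomial (ι × ι) (kapM κ s (w s)), r.totalDegree ≤ δ ∧
    (∀ M ∈ ZClosure (P s), evK (kapM κ s (w s)) r M = 0) ∧
    ¬ ∀ M ∈ BFibreM U w P s, evK (kapM κ s (w s)) r M = 0

end Rel

/-! ### Algebraic points of bounded degree -/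

/-- The indices of the integer parameters of a point: the coefficients of `F_a`, of `G_1, …, G_m`, and
`q`. -/
abbrev Px (m D : ℕ) (J : Type) : Type :=
  (Fin (D + 1) × J) ⊕ ((Fin m × (Fin (D + 1) × J)) ⊕ Unit)

section Pts

variable {κ : IntermediateField ℚ Qbar} {J : Type} [Fintype J] (ω : Module.Basis J ℚ κ)
  {m D : ℕ}

/-- The value at `θ` of the polynomial `F_a = ∑_k (∑_j a_(k,j) ω_j) θ^k` of degree at most `D` over `κ`. -/
noncomputable def polyM (a : Px m D J → ℤ) (θ : ℂ) : ℂ :=
  ∑ l : Fin (D + 1) × J, (a (Sum.inl l) : ℂ) * algebraMap κ ℂ (ω l.2) * θ ^ (l.1 : ℕ)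

/-- The point `(G_1(θ) / q, …, G_m(θ) / q)`, where `G_i = ∑_k (∑_j a_(i,k,j) ω_j) θ^k`. -/
noncomputable def pointM (a : Px m D J → ℤ) (θ : ℂ) : Fin m → ℂ := fun i =>
  (∑ l : Fin (D + 1) × J, (a (Sum.inr (Sum.inl (i, l))) : ℂ) * algebraMap κ ℂ (ω l.2) *
    θ ^ (l.1 : ℕ)) / (a (Sum.inr (Sum.inr ())) : ℂ)

/-- The integer parameters `a` with coordinates of absolute value at most `X` such that for a root `θ` of
`F_a` the point `t = (G_1(θ) / q, …, G_m(θ) / q)` is in `V` and there is a relation of degree at most `δ`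
over `κ(s)` at the point `s = (t, w t)`. -/
def RelPointM {ι : Type} [Fintype ι] [DecidableEq ι] (U V : Set (Fin m → ℂ))
    (w : (Fin m → ℂ) → ℂ) (P : (Fin m → ℂ) → Matrix ι ι ℂ) (δ D X : ℕ) :
    Set (Px m D J → ℤ) :=
  {a | (∀ p, |a p| ≤ X) ∧ a (Sum.inr (Sum.inr ())) ≠ 0 ∧ ∃ θ : ℂ, polyM ω a θ = 0 ∧
    pointM ω a θ ∈ V ∧ HasRelationM U w P (pointM ω a θ) κ δ}

/-- The indices of the integer parameters of a point over `κ`: the coefficients of the numerators of the
coordinates, and the denominator. -/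
abbrev Pk (m : ℕ) (J : Type) : Type := (Fin m × J) ⊕ Unit

/-- The point over `κ` with coordinates `(∑_j a_(i,j) ω_j) / q`. -/
noncomputable def pointK (a : Pk m J → ℤ) : Fin m → ℂ := fun i =>
  (∑ j, (a (Sum.inl (i, j)) : ℂ) * algebraMap κ ℂ (ω j)) / (a (Sum.inr ()) : ℂ)

/-- The integer parameters `a` with coordinates of absolute value at most `X` such that the point `t` over
`κ` with parameters `a` is in `V` and there is a relation of degree at most `δ` over `κ(s)` at the point
`s = (t, w t)`. -/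
def RelPointK {ι : Type} [Fintype ι] [DecidableEq ι] (U V : Set (Fin m → ℂ))
    (w : (Fin m → ℂ) → ℂ) (P : (Fin m → ℂ) → Matrix ι ι ℂ) (δ X : ℕ) : Set (Pk m J → ℤ) :=
  {a | (∀ p, |a p| ≤ X) ∧ a (Sum.inr ()) ≠ 0 ∧ pointK ω a ∈ V ∧
    HasRelationM U w P (pointK ω a) κ δ}

/-- The distance of a point `x` of `V` from the complement of `U` is at least a constant times a power of
`|T(x)| / (1 + |x|)`. -/
def Deep (T : MvPolynomial (Fin m) κ) (U V : Set (Fin m → ℂ)) : Prop :=
  ∃ (N : ℕ) (c : ℝ), 0 < c ∧ ∀ x ∈ V, ∀ y : Fin m → ℂ,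
    ‖y - x‖ * (1 + ‖x‖) ^ N ≤ c * ‖MvPolynomial.aeval x T‖ ^ N → y ∈ U

end Pts

end Pool.Agent.Helper79.BB
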