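import Mathlib

/-!
# BB-09: counting along coordinate lines

For `k ≤ m` let `B_k` be the set of the points `u` of the box with `u j = u₀ j` for all `j ≥ k` (`j : Fin m`, `k : ℕ`) which are not good. By induction on `k`:
`ncard B_k ≤ k b (2K+1)^(k-1)`. Step: for `u ∈ B_(k+1)` let `u' = update u k (u₀ k)`. If `u'` is not good, `u' ∈ B_k`, and there are at most
`2K+1` such `u` for every `u'`. If `u'` is good (it is one of at most `(2K+1)^k` points) then there are at most `b` such `u` (`hstep u' k`).
So `ncard B_(k+1) ≤ (2K+1) ncard B_k + b (2K+1)^k`.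
-/

namespace Pool.Agent.Helper79.BB

section

variable {m : ℕ} (K : ℕ) (u₀ : Fin m → ℤ)

private noncomputable def box : Finset (Fin m → ℤ) := Fintype.piFinset (fun _ => Finset.Icc (-(K : ℤ)) K)

private lemma mem_box (u : Fin m → ℤ) : u ∈ box K ↔ ∀ j, |u j| ≤ K := by
  simp only [box, Fintype.mem_piFinset, Finset.mem_Icc, abs_le]

open Classical in
private noncomputable def tl (k : ℕ) : Finset (Fin m → ℤ) :=
  (box K).filter fun u => ∀ j : Fin m, k ≤ (j : ℕ) → u j = u₀ j

private lemma mem_tl (k : ℕ) (u : Fin m → ℤ) :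
    u ∈ tl K u₀ k ↔ (∀ j, |u j| ≤ K) ∧ ∀ j : Fin m, k ≤ (j : ℕ) → u j = u₀ j := by
  simp only [tl, Finset.mem_filter, mem_box]

private lemma upd_tl (hu₀ : ∀ j, |u₀ j| ≤ K) (k : ℕ) (hk : k < m) (u : Fin m → ℤ)
    (hu : u ∈ tl K u₀ (k + 1)) : Function.update u ⟨k, hk⟩ (u₀ ⟨k, hk⟩) ∈ tl K u₀ k := by
  rw [mem_tl] at hu ⊢
  constructor
  · intro j
    by_cases hj : j = ⟨k, hk⟩
    · subst hj; simpa using hu₀ _
    · rw [Function.update_of_ne hj]; exact hu.1 j
  · intro j hkj
    by_cases hj : j = ⟨k, hk⟩
    · subst hj; simp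
    · rw [Function.update_of_ne hj]
      apply hu.2 j
      rcases Nat.lt_or_ge k j with h | h
      · omega
      · exact absurd (Fin.ext (le_antisymm h hkj)) hj

private lemma fib (i : Fin m) (c : ℤ) (s : Finset (Fin m → ℤ)) (t : Finset ℤ) (a : Fin m → ℤ)
    (h : ∀ x ∈ s, Function.update x i c = a → x i ∈ t) :
    (s.filter fun x => Function.update x i c = a).card ≤ t.card := by
  classical
  refine Finset.card_le_card_of_injOn (fun x => x i) ?_ ?_
  · intro x hx
    have hx' := Finset.mem_filter.1 (Finset.mem_coe.1 hx)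
    exact Finset.mem_coe.2 (h x hx'.1 hx'.2)
  · intro x hx y hy hxy
    have hx' := (Finset.mem_filter.1 (Finset.mem_coe.1 hx)).2
    have hy' := (Finset.mem_filter.1 (Finset.mem_coe.1 hy)).2
    funext j
    by_cases hj : j = i
    · subst hj; exact hxy
    · have := congrFun (hx'.trans hy'.symm) j
      rwa [Function.update_of_ne hj, Function.update_of_ne hj] at this

private lemma card_Icc : (Finset.Icc (-(K : ℤ)) K).card = 2 * K + 1 := by
  rw [Int.card_Icc]; omega

private lemma card_tl (hu₀ : ∀ j, |u₀ j| ≤ K) : ∀ k, k ≤ m → (tl K u₀ k).card ≤ (2 * K + 1) ^ k := by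
  intro k
  induction k with
  | zero =>
    intro _
    rw [pow_zero, Finset.card_le_one]
    intro a ha b hb
    rw [mem_tl] at ha hb
    funext j
    rw [ha.2 j (Nat.zero_le _), hb.2 j (Nat.zero_le _)]
  | succ k ih =>
    intro hk
    classical
    have h := Finset.card_le_mul_card_image (f := fun u => Function.update u ⟨k, hk⟩ (u₀ ⟨k, hk⟩))
      (tl K u₀ (k + 1)) (2 * K + 1) (fun a _ => by
        rw [← card_Icc K]
        refine fib _ _ _ _ a (fun x hx _ => ?_)
        rw [mem_tl] at hx
        rw [Finset.mem_Icc]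
        exact abs_le.1 (hx.1 _))
    have h2 : ((tl K u₀ (k + 1)).image fun u => Function.update u ⟨k, hk⟩ (u₀ ⟨k, hk⟩)).card ≤
        (tl K u₀ k).card := by
      refine Finset.card_le_card ?_
      intro a ha
      obtain ⟨u, hu, rfl⟩ := Finset.mem_image.1 ha
      exact upd_tl K u₀ hu₀ k hk u hu
    calc (tl K u₀ (k + 1)).card ≤ (2 * K + 1) * (tl K u₀ k).card := h.trans (Nat.mul_le_mul_left _ h2)
      _ ≤ (2 * K + 1) * (2 * K + 1) ^ k := Nat.mul_le_mul_left _ (ih (by omega))
      _ = (2 * K + 1) ^ (k + 1) := by ring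

end

theorem chain_count {m : ℕ} (K b : ℕ) (good : (Fin m → ℤ) → Prop)
    (hstep : ∀ (u : Fin m → ℤ) (i : Fin m), (∀ j, |u j| ≤ K) → good u →
      Set.ncard {s : ℤ | |s| ≤ K ∧ ¬ good (Function.update u i s)} ≤ b)
    (u₀ : Fin m → ℤ) (hu₀ : ∀ j, |u₀ j| ≤ K) (h₀ : good u₀) :
    Set.ncard {u : Fin m → ℤ | (∀ j, |u j| ≤ K) ∧ ¬ good u} ≤ m * b * (2 * K + 1) ^ (m - 1) := by
  classical
  have key : ∀ k, k ≤ m → ((tl K u₀ k).filter fun u => ¬ good u).card ≤ k * b * (2 * K + 1) ^ (k - 1) := by
    intro k
    induction k with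
    | zero =>
      intro _
      rw [Nat.zero_mul, Nat.zero_mul, Nat.le_zero, Finset.card_eq_zero, Finset.filter_eq_empty_iff]
      intro u hu
      rw [mem_tl] at hu
      have : u = u₀ := by
        funext j
        exact hu.2 j (Nat.zero_le _)
      rw [this]
      simpa using h₀
    | succ k ih =>
      intro hk
      set i : Fin m := ⟨k, hk⟩ with hi
      set f : (Fin m → ℤ) → (Fin m → ℤ) := fun u => Function.update u i (u₀ i) with hf
      set S := (tl K u₀ (k + 1)).filter fun u => ¬ good u with hS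
      have hsplit : S.card = (S.filter fun u => good (f u)).card + (S.filter fun u => ¬ good (f u)).card :=
        (Finset.card_filter_add_card_filter_not _).symm
      have hback : ∀ x a : Fin m → ℤ, f x = a → Function.update a i (x i) = x := by
        intro x a h
        rw [← h, hf]
        simp
      have h1 : (S.filter fun u => good (f u)).card ≤ b * (2 * K + 1) ^ k := by
        have h := Finset.card_le_mul_card_image (f := f) (S.filter fun u => good (f u)) b (fun a ha => by
          obtain ⟨u, hu, hua⟩ := Finset.mem_image.1 ha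
          rw [Finset.mem_filter, hS, Finset.mem_filter] at hu
          have hfin : {s : ℤ | |s| ≤ K ∧ ¬ good (Function.update a i s)}.Finite :=
            (Finset.Icc (-(K : ℤ)) K).finite_toSet.subset (fun s hs => by
              rw [Finset.mem_coe, Finset.mem_Icc]; exact abs_le.1 hs.1)
          have ha1 := upd_tl K u₀ hu₀ k hk u hu.1.1
          rw [mem_tl] at ha1
          have hb := hstep a i (by rw [← hua]; exact ha1.1) (by rw [← hua]; exact hu.2)
          rw [Set.ncard_eq_toFinset_card _ hfin] at hb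
          refine le_trans (fib i (u₀ i) _ _ a (fun x hx hxa => ?_)) hb
          rw [Finset.mem_filter, hS, Finset.mem_filter, mem_tl] at hx
          rw [Set.Finite.mem_toFinset]
          refine ⟨hx.1.1.1 i, ?_⟩
          rw [hback x a hxa]
          exact hx.1.2)
        refine h.trans (Nat.mul_le_mul_left _ (le_trans (Finset.card_le_card ?_) (card_tl K u₀ hu₀ k (by omega))))
        intro a ha
        obtain ⟨u, hu, hua⟩ := Finset.mem_image.1 ha
        rw [Finset.mem_filter, hS, Finset.mem_filter] at hu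
        rw [← hua]
        exact upd_tl K u₀ hu₀ k hk u hu.1.1
      have h2 : (S.filter fun u => ¬ good (f u)).card ≤
          (2 * K + 1) * ((tl K u₀ k).filter fun u => ¬ good u).card := by
        have h := Finset.card_le_mul_card_image (f := f) (S.filter fun u => ¬ good (f u)) (2 * K + 1)
          (fun a _ => by
            rw [← card_Icc K]
            refine fib i (u₀ i) _ _ a (fun x hx _ => ?_)
            rw [Finset.mem_filter, hS, Finset.mem_filter, mem_tl] at hx
            rw [Finset.mem_Icc]
            exact abs_le.1 (hx.1.1.1 i))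
        refine h.trans (Nat.mul_le_mul_left _ (Finset.card_le_card ?_))
        intro a ha
        obtain ⟨u, hu, hua⟩ := Finset.mem_image.1 ha
        rw [Finset.mem_filter, hS, Finset.mem_filter] at hu
        rw [← hua, Finset.mem_filter]
        exact ⟨upd_tl K u₀ hu₀ k hk u hu.1.1, hu.2⟩
      have h3 := ih (by omega)
      rw [hsplit]
      have h4 : (2 * K + 1) * (k * b * (2 * K + 1) ^ (k - 1)) ≤ k * b * (2 * K + 1) ^ k := by
        rcases k with _ | k
        · simp
        · rw [Nat.add_sub_cancel, pow_succ (2 * K + 1) k]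
          apply le_of_eq
          ring
      calc (S.filter fun u => good (f u)).card + (S.filter fun u => ¬ good (f u)).card
          ≤ b * (2 * K + 1) ^ k + (2 * K + 1) * (k * b * (2 * K + 1) ^ (k - 1)) :=
            Nat.add_le_add h1 (h2.trans (Nat.mul_le_mul_left _ h3))
        _ ≤ b * (2 * K + 1) ^ k + k * b * (2 * K + 1) ^ k := Nat.add_le_add_left h4 _
        _ = (k + 1) * b * (2 * K + 1) ^ (k + 1 - 1) := by rw [Nat.add_sub_cancel]; ring
  have hm := key m le_rfl
  have hset : {u : Fin m → ℤ | (∀ j, |u j| ≤ K) ∧ ¬ good u} =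
      (((tl K u₀ m).filter fun u => ¬ good u : Finset (Fin m → ℤ)) : Set (Fin m → ℤ)) := by
    ext u
    simp only [Set.mem_ofPred_eq, Finset.coe_filter, mem_tl]
    constructor
    · rintro ⟨h1, h2⟩
      exact ⟨⟨h1, fun j hj => absurd j.2 (by omega)⟩, h2⟩
    · rintro ⟨⟨h1, _⟩, h2⟩
      exact ⟨h1, h2⟩
  rw [hset, Set.ncard_coe_finset]
  exact hm

end Pool.Agent.Helper79.BB
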