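import Mathlib

/-!
# BB-08: a grid which avoids a small set

The cubes `w + {0, …, B-1}^m` with `w ∈ {-K, …, K - B}^m` are in the box; there are `(2K - B + 1)^m` of them and a point of the box lies in at most `B^m` of them. If all of them
meet `S` then `(2K - B + 1)^m ≤ B^m · b (2K+1)^(m-1)`, which is false for large `K` (for `K ≥ B`: `2K - B + 1 ≥ (2K+1)/2`, so the left side is at least
`((2K+1)/2)^m`).
-/

namespace Pool.Agent.Helper79.BB

theorem grid_sel (m b B : ℕ) (hm : 1 ≤ m) : ∃ K₀ : ℕ, ∀ K : ℕ, K₀ ≤ K →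
    ∀ S : Set (Fin m → ℤ),
      Set.ncard {u : Fin m → ℤ | (∀ j, |u j| ≤ K) ∧ u ∈ S} ≤ b * (2 * K + 1) ^ (m - 1) →
      ∃ w : Fin m → ℤ, ∀ e : Fin m → ℕ, (∀ j, e j < B) →
        (∀ j, |w j + (e j : ℤ)| ≤ K) ∧ (fun j => w j + (e j : ℤ)) ∉ S := by
  classical
  refine ⟨B + b * B ^ m * 2 ^ (m - 1), fun K hK S hS => ?_⟩
  by_contra hcon
  have hcon2 : ∀ w : Fin m → ℤ, ∃ e : Fin m → ℕ, (∀ j, e j < B) ∧
      ((∀ j, |w j + (e j : ℤ)| ≤ K) → (fun j => w j + (e j : ℤ)) ∈ S) := by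
    intro w
    by_contra hw
    apply hcon
    refine ⟨w, fun e he => ?_⟩
    by_contra h2
    apply hw
    refine ⟨e, he, fun h3 => ?_⟩
    by_contra h4
    exact h2 ⟨h3, h4⟩
  choose e he1 he2 using hcon2
  set SK : Set (Fin m → ℤ) := {u : Fin m → ℤ | (∀ j, |u j| ≤ K) ∧ u ∈ S} with hSK
  have hfin : SK.Finite := by
    apply Set.Finite.subset (Finset.finite_toSet
      (Fintype.piFinset fun _ : Fin m => Finset.Icc (-(K : ℤ)) K))
    intro u hu
    rw [Finset.mem_coe, Fintype.mem_piFinset]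
    intro j
    rw [Finset.mem_Icc]
    exact abs_le.1 (hu.1 j)
  set W : Finset (Fin m → ℤ) := Fintype.piFinset fun _ : Fin m =>
    Finset.Icc (-(K : ℤ)) ((K : ℤ) - B) with hW
  have hBK : B ≤ K := le_trans (Nat.le_add_right _ _) hK
  have hWcard : W.card = (2 * K + 1 - B) ^ m := by
    rw [hW, Fintype.card_piFinset, Finset.prod_const, Finset.card_univ, Fintype.card_fin,
      Int.card_Icc]
    congr 1
    omega
  have hle : W.card ≤ (hfin.toFinset ×ˢ (Fintype.piFinset fun _ : Fin m => Finset.range B)).card := by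
    apply Finset.card_le_card_of_injOn
      (fun w => ((fun j => w j + ((e w j : ℕ) : ℤ), e w) : (Fin m → ℤ) × (Fin m → ℕ)))
    · intro w hw
      have hw' : w ∈ W := hw
      rw [hW, Fintype.mem_piFinset] at hw'
      rw [Finset.mem_coe, Finset.mem_product, Set.Finite.mem_toFinset, Fintype.mem_piFinset]
      have hK2 : ∀ j, |w j + ((e w j : ℕ) : ℤ)| ≤ K := by
        intro j
        have h1 := Finset.mem_Icc.1 (hw' j)
        have h2 := he1 w j
        rw [abs_le]
        constructor <;> omega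
      refine ⟨⟨hK2, he2 w hK2⟩, fun j => Finset.mem_range.2 (he1 w j)⟩
    · intro w _ w' _ h
      have h1 := congrArg Prod.fst h
      have h2 := congrArg Prod.snd h
      dsimp only at h1 h2
      funext j
      have h3 := congrFun h1 j
      have h4 := congrFun h2 j
      rw [h4] at h3
      exact add_right_cancel h3
  rw [hWcard, Finset.card_product, Fintype.card_piFinset, Finset.prod_const, Finset.card_univ,
    Fintype.card_fin, Finset.card_range, ← Set.ncard_eq_toFinset_card SK hfin] at hle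
  obtain ⟨m', rfl⟩ : ∃ m', m = m' + 1 := ⟨m - 1, by omega⟩
  rw [Nat.add_sub_cancel] at hS hK
  set N : ℕ := 2 * K + 1 - B with hN
  have hN1 : K + 1 ≤ N := by omega
  have hN2 : 2 * K + 1 ≤ 2 * N := by omega
  have h5 : N ^ m' * N ≤ N ^ m' * (b * B ^ (m' + 1) * 2 ^ m') := by
    calc N ^ m' * N = N ^ (m' + 1) := by rw [pow_succ]
      _ ≤ SK.ncard * B ^ (m' + 1) := hle
      _ ≤ b * (2 * K + 1) ^ m' * B ^ (m' + 1) := Nat.mul_le_mul_right _ hS
      _ ≤ b * (2 * N) ^ m' * B ^ (m' + 1) :=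
          Nat.mul_le_mul_right _ (Nat.mul_le_mul_left _ (Nat.pow_le_pow_left hN2 m'))
      _ = N ^ m' * (b * B ^ (m' + 1) * 2 ^ m') := by rw [mul_pow]; ring
  have h6 : N ≤ b * B ^ (m' + 1) * 2 ^ m' :=
    Nat.le_of_mul_le_mul_left h5 (Nat.pow_pos (by omega))
  omega

end Pool.Agent.Helper79.BB
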