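import Pool.Agent.Helper79.BB.Defs

/-!
# BB-10: a maximal independent set of components

`IndepM R z ∅` holds. Choose `I` maximal (finite type `ι`). For `k ∉ I` the set `insert k I` is not independent: there is a relation `v ≠ 0` supported on
`insert k I`; `v k ≠ 0`, otherwise `v` is supported on `I`.
-/

namespace Pool.Agent.Helper79.BB

theorem exists_indepM {m : ℕ} {ι : Type} [Fintype ι] [DecidableEq ι] (R : ℝ)
    (z : (Fin m → ℂ) → ι → ℂ) :
    ∃ I : Finset ι, IndepM R z I ∧ ∃ v : ι → ι → MvPolynomial (Fin m) ℚ,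
      ∀ k, k ∉ I → IsRel R z (v k) ∧ v k k ≠ 0 ∧ ∀ l, l ∉ I → l ≠ k → v k l = 0 := by
  classical
  have h0 : IndepM R z (∅ : Finset ι) := by
    intro v hv _
    funext k
    exact hv k (by simp)
  obtain ⟨I, hI, hmax⟩ := Finset.exists_max_image
    ((Finset.univ : Finset (Finset ι)).filter fun J => IndepM R z J) Finset.card
    ⟨∅, by simpa using h0⟩
  have hI' : IndepM R z I := (Finset.mem_filter.1 hI).2
  refine ⟨I, hI', ?_⟩
  have hex : ∀ k, ∃ w : ι → MvPolynomial (Fin m) ℚ,
      k ∉ I → IsRel R z w ∧ w k ≠ 0 ∧ ∀ l, l ∉ I → l ≠ k → w l = 0 := by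
    intro k
    by_cases hk : k ∈ I
    · exact ⟨0, fun h => absurd hk h⟩
    · have hn : ¬ IndepM R z (insert k I) := by
        intro h
        have := hmax (insert k I) (Finset.mem_filter.2 ⟨Finset.mem_univ _, h⟩)
        rw [Finset.card_insert_of_notMem hk] at this
        omega
      unfold IndepM at hn
      push Not at hn
      obtain ⟨w, hw1, hw2, hw3⟩ := hn
      refine ⟨w, fun _ => ⟨hw2, ?_, ?_⟩⟩
      · intro hwk
        apply hw3
        apply hI' w _ hw2
        intro l hl
        by_cases hlk : l = k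
        · rw [hlk]; exact hwk
        · exact hw1 l (by simp [hlk, hl])
      · intro l hl hlk
        exact hw1 l (by simp [hlk, hl])
  choose v hv using hex
  exact ⟨v, hv⟩

end Pool.Agent.Helper79.BB
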