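import Pool.Agent.Helper79.BB.Pd

/-!
# BB-11: the values of the functional relations

Relations are stable under `v ↦ D_i v := T ∂_i v + v A_i` (`(D_i v)_k = T ∂_i v_k + ∑_l v_l (A_i)_lk`): differentiate `∑ v_k z_k = 0` and multiply by `T`.
For `w : Fin r → (ι → ℚ[u])` (relations) and `e : Fin r → ι` let `Δ(w, e) = det (w_i (e_j))`. By hypothesis some `Δ(w, e) ≠ 0`; choose a direction `η ∈ ℤ^m` such that it is
not zero on the line `u + λ η` (a nonzero polynomial has an integral point `u'` where it does not vanish, `η = u' - u`). Let `φ : ℚ[u] → ℚ[λ]` be the restriction to this line. Among all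
pairs `(w, e)`, `w` relations, `e : Fin r → ι` any map, with `φ(Δ(w, e)) ≠ 0` choose one with the smallest multiplicity `μ` of the root
`λ = 0` of `φ(Δ(w, e))`. Claim `μ = 0` (then the values `w_i(u)` are linearly independent, as a minor is not zero).
If `μ ≥ 1`: `(φ Δ)' = ∑_i η_i φ(∂_i Δ)` has multiplicity `μ - 1` at `0` and `φ(T)(0) = T(u) ≠ 0`. But
`T ∂_i Δ(w, e) = ∑_j det(row j replaced by (D_i w_j)_e) - ∑_j det(row j replaced by (w_j A_i)_e)`. The first summands are `Δ(w', e)` with relations `w'`. The second sum is
`∑_k det(column k replaced by (∑_l (w_·)_l (A_i)_(l, e_k)))` (both sums are `∑_(j,k) (w_j A_i)_(e_k) cof_jk`, Laplace expansion, `Matrix.det_eq_sum_mul_adjugate_row`, `Matrix.adjugate`) `= ∑_k ∑_l (A_i)_(l, e_k) Δ(w, update e k l)`. All these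
`φ(Δ)` are `0` or have multiplicity `≥ μ`, so `φ(T) (φ Δ)'` is divisible by `λ^μ`: a contradiction.
-/

namespace Pool.Agent.Helper79.BB

open Polynomial in
private lemma ra_der_det {r : ℕ} (N : Matrix (Fin r) (Fin r) ℚ[X]) :
    derivative N.det = ∑ a, (N.updateRow a (fun b => derivative (N a b))).det := by
  have h1 : ∀ M : Matrix (Fin r) (Fin r) ℚ[X], M.det =
      ∑ σ : Equiv.Perm (Fin r), ((Equiv.Perm.sign σ : ℤ) : ℚ[X]) * ∏ i, M i (σ i) := by
    intro M
    rw [← Matrix.det_transpose, Matrix.det_apply']
    rfl
  rw [h1 N, derivative_sum]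
  have h2 : ∀ a, (N.updateRow a (fun b => derivative (N a b))).det =
      ∑ σ : Equiv.Perm (Fin r), ((Equiv.Perm.sign σ : ℤ) : ℚ[X]) *
        ((∏ i ∈ Finset.univ.erase a, N i (σ i)) * derivative (N a (σ a))) := by
    intro a
    rw [h1]
    apply Finset.sum_congr rfl
    intro σ _
    congr 1
    rw [← Finset.mul_prod_erase Finset.univ _ (Finset.mem_univ a), Matrix.updateRow_self, mul_comm]
    congr 1
    apply Finset.prod_congr rfl
    intro i hi
    rw [Matrix.updateRow_ne (Finset.ne_of_mem_erase hi)]
  simp_rw [h2]
  rw [Finset.sum_comm]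
  apply Finset.sum_congr rfl
  intro σ _
  rw [derivative_mul, derivative_intCast, zero_mul, zero_add, derivative_prod_finset,
    Finset.mul_sum]

private lemma ra_swap {r : ℕ} {S : Type} [CommRing S] (N : Matrix (Fin r) (Fin r) S)
    (c : Fin r → Fin r → S) :
    ∑ a, (N.updateRow a (c a)).det = ∑ b, (N.updateCol b (fun a => c a b)).det := by
  have h1 : ∀ a, (N.updateRow a (c a)).det = ∑ b, N.adjugate b a * c a b := by
    intro a
    rw [← Matrix.cramer_transpose_apply, Matrix.cramer_eq_adjugate_mulVec,
      ← Matrix.adjugate_transpose]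
    rfl
  have h2 : ∀ b, (N.updateCol b (fun a => c a b)).det = ∑ a, N.adjugate b a * c a b := by
    intro b
    rw [← Matrix.cramer_apply, Matrix.cramer_eq_adjugate_mulVec]
    rfl
  simp_rw [h1, h2]
  exact Finset.sum_comm

private lemma ra_rel {m : ℕ} {ι : Type} [Fintype ι] {T : MvPolynomial (Fin m) ℚ}
    {A : Fin m → Matrix ι ι (MvPolynomial (Fin m) ℚ)} {R : ℝ} {z : (Fin m → ℂ) → ι → ℂ}
    (hz : IsSysM T A R z) {v : ι → MvPolynomial (Fin m) ℚ} (hv : IsRel R z v) (i : Fin m) :
    IsRel R z (fun k => T * MvPolynomial.pderiv i (v k) + ∑ l, v l * A i l k) := by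
  intro s hs
  have hd : ∀ k, DifferentiableAt ℂ (fun u => z u k) s := fun k => (hz.an k s hs).differentiableAt
  have hd2 : ∀ P : MvPolynomial (Fin m) ℚ, DifferentiableAt ℂ
      (fun u : Fin m → ℂ => MvPolynomial.aeval u P) s :=
    fun P => (analytic_aeval P s).differentiableAt
  have h1 : pd i (fun u : Fin m → ℂ => ∑ k, MvPolynomial.aeval u (v k) * z u k) s = 0 := by
    have h2 : (fun u : Fin m → ℂ => ∑ k, MvPolynomial.aeval u (v k) * z u k) =ᶠ[nhds s]
        fun _ => (0 : ℂ) := by
      filter_upwards [Metric.isOpen_ball.mem_nhds hs] with u hu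
      exact hv u hu
    rw [pd_congr h2]
    unfold pd
    rw [(hasFDerivAt_const _ s).fderiv]
    rfl
  have hdd : ∀ k ∈ (Finset.univ : Finset ι), DifferentiableAt ℂ
      (fun u : Fin m → ℂ => MvPolynomial.aeval u (v k) * z u k) s := fun k _ => (hd2 (v k)).mul (hd k)
  rw [pd_sum _ hdd] at h1
  have h3 : ∀ k, pd i (fun u : Fin m → ℂ => MvPolynomial.aeval u (v k) * z u k) s =
      MvPolynomial.aeval s (MvPolynomial.pderiv i (v k)) * z s k +
        MvPolynomial.aeval s (v k) * pd i (fun u => z u k) s := by
    intro k
    rw [pd_mul (hd2 (v k)) (hd k), pd_aeval]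
  simp_rw [h3] at h1
  have h4 : MvPolynomial.aeval s T * ∑ k, (MvPolynomial.aeval s (MvPolynomial.pderiv i (v k)) * z s k +
        MvPolynomial.aeval s (v k) * pd i (fun u => z u k) s) = 0 := by
    rw [h1, mul_zero]
  rw [← h4, Finset.mul_sum]
  have h5 : ∀ k, MvPolynomial.aeval s T * (MvPolynomial.aeval s (MvPolynomial.pderiv i (v k)) * z s k +
        MvPolynomial.aeval s (v k) * pd i (fun u => z u k) s) =
      MvPolynomial.aeval s T * MvPolynomial.aeval s (MvPolynomial.pderiv i (v k)) * z s k +
        ∑ l, MvPolynomial.aeval s (v k) * MvPolynomial.aeval s (A i k l) * z s l := by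
    intro k
    have h6 := hz.ode s hs i k
    rw [mul_add, mul_left_comm _ (MvPolynomial.aeval s (v k)), h6, Finset.mul_sum]
    congr 1
    · ring
    · apply Finset.sum_congr rfl
      intro l _
      ring
  simp_rw [h5]
  rw [Finset.sum_add_distrib, Finset.sum_comm, ← Finset.sum_add_distrib]
  apply Finset.sum_congr rfl
  intro k _
  rw [map_add, map_mul, map_sum, add_mul, Finset.sum_mul]
  congr 1
  apply Finset.sum_congr rfl
  intro l _
  rw [map_mul]

section

open Polynomial

private noncomputable def ra_phi {m : ℕ} (u : Fin m → ℚ) (η : Fin m → ℚ) :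
    MvPolynomial (Fin m) ℚ →ₐ[ℚ] ℚ[X] := MvPolynomial.aeval (fun j => C (u j) + C (η j) * X)

private lemma ra_phi_eval {m : ℕ} (u : Fin m → ℚ) (η : Fin m → ℚ) (P : MvPolynomial (Fin m) ℚ)
    (t : ℚ) : (ra_phi u η P).eval t = MvPolynomial.eval (fun j => u j + η j * t) P := by
  induction P using MvPolynomial.induction_on with
  | C a =>
    rw [MvPolynomial.eval_C]
    unfold ra_phi
    rw [MvPolynomial.aeval_C, Polynomial.algebraMap_apply, Algebra.algebraMap_self_apply, eval_C]
  | add P Q hP hQ => rw [map_add, eval_add, hP, hQ, map_add]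
  | mul_X P j hP =>
    rw [map_mul, eval_mul, hP, map_mul, MvPolynomial.eval_X]
    unfold ra_phi
    rw [MvPolynomial.aeval_X]
    simp

private lemma ra_phi_der {m : ℕ} (u : Fin m → ℚ) (η : Fin m → ℚ) (P : MvPolynomial (Fin m) ℚ) :
    derivative (ra_phi u η P) = ∑ i, C (η i) * ra_phi u η (MvPolynomial.pderiv i P) := by
  induction P using MvPolynomial.induction_on with
  | C a =>
    unfold ra_phi
    rw [MvPolynomial.aeval_C, Polynomial.algebraMap_apply, Algebra.algebraMap_self_apply,
      derivative_C]
    simp
  | add P Q hP hQ =>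
    rw [map_add, derivative_add, hP, hQ, ← Finset.sum_add_distrib]
    apply Finset.sum_congr rfl
    intro i _
    rw [map_add, map_add, mul_add]
  | mul_X P j hP =>
    have h1 : ra_phi u η (MvPolynomial.X j) = C (u j) + C (η j) * X := by
      unfold ra_phi
      rw [MvPolynomial.aeval_X]
    rw [map_mul, derivative_mul, hP, h1]
    have h2 : ∀ i, ra_phi u η (MvPolynomial.pderiv i (P * MvPolynomial.X j)) =
        (if j = i then ra_phi u η P else 0) +
          (C (u j) + C (η j) * X) * ra_phi u η (MvPolynomial.pderiv i P) := by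
      intro i
      rw [Derivation.leibniz, MvPolynomial.pderiv_X, map_add]
      simp only [smul_eq_mul, map_mul]
      rw [h1]
      by_cases hji : j = i
      · subst hji
        rw [if_pos rfl, Pi.single_eq_same, map_one, mul_one]
      · rw [if_neg hji, Pi.single_eq_of_ne' (Ne.symm hji), map_zero, mul_zero]
    have h5 : ∑ i, C (η i) * ra_phi u η (MvPolynomial.pderiv i (P * MvPolynomial.X j)) =
        ∑ i, (C (η i) * (if j = i then ra_phi u η P else 0) +
          C (η i) * ((C (u j) + C (η j) * X) * ra_phi u η (MvPolynomial.pderiv i P))) :=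
      Finset.sum_congr rfl (fun i _ => by rw [h2 i, mul_add])
    rw [h5, Finset.sum_add_distrib]
    have h3 : ∑ i, C (η i) * (if j = i then ra_phi u η P else 0) = C (η j) * ra_phi u η P := by
      simp [Finset.sum_ite_eq]
    rw [h3]
    have h4 : derivative (C (u j) + C (η j) * X : ℚ[X]) = C (η j) := by simp
    rw [h4, Finset.sum_mul, add_comm]
    congr 1
    · ring
    · apply Finset.sum_congr rfl
      intro i _
      ring

end

theorem rank_at {m : ℕ} {ι : Type} [Fintype ι] [DecidableEq ι] {T : MvPolynomial (Fin m) ℚ}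
    {A : Fin m → Matrix ι ι (MvPolynomial (Fin m) ℚ)} {R : ℝ} {z : (Fin m → ℂ) → ι → ℂ}
    (hz : IsSysM T A R z) {r : ℕ} (v : Fin r → ι → MvPolynomial (Fin m) ℚ) (e : Fin r → ι)
    (hv : ∀ i, IsRel R z (v i)) (hdet : (Matrix.of fun i j => v i (e j)).det ≠ 0)
    {u : Fin m → ℤ} (hu : MvPolynomial.eval (fun i => ((u i : ℤ) : ℚ)) T ≠ 0) :
    ∃ w : Fin r → ι → MvPolynomial (Fin m) ℚ, (∀ i, IsRel R z (w i)) ∧
      LinearIndependent ℚ fun i => fun k =>
        MvPolynomial.eval (fun i => ((u i : ℤ) : ℚ)) (w i k) := by
  classical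
  obtain ⟨u', hu'⟩ : ∃ u' : Fin m → ℚ,
      MvPolynomial.eval u' (Matrix.of fun i j => v i (e j)).det ≠ 0 := by
    by_contra hcon
    apply hdet
    apply MvPolynomial.funext
    intro x
    rw [map_zero]
    by_contra hx
    exact hcon ⟨x, hx⟩
  set u0 : Fin m → ℚ := fun i => ((u i : ℤ) : ℚ) with hu0
  set φ : MvPolynomial (Fin m) ℚ →ₐ[ℚ] Polynomial ℚ := ra_phi u0 (fun j => u' j - u0 j) with hφ
  set Mt : (Fin r → ι → MvPolynomial (Fin m) ℚ) → (Fin r → ι) →
      Matrix (Fin r) (Fin r) (Polynomial ℚ) := fun w e => Matrix.of fun a b => φ (w a (e b)) with hMt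
  have hφ0 : ∀ P, (φ P).eval 0 = MvPolynomial.eval u0 P := by
    intro P
    rw [hφ, ra_phi_eval]
    congr 2
    funext j
    ring
  have hex : ∃ n : ℕ, ∃ (w : Fin r → ι → MvPolynomial (Fin m) ℚ) (e : Fin r → ι),
      (∀ i, IsRel R z (w i)) ∧ (Mt w e).det ≠ 0 ∧ (Mt w e).det.rootMultiplicity 0 = n := by
    refine ⟨_, v, e, hv, ?_, rfl⟩
    intro h0
    apply hu'
    have h1 : (Mt v e).det = φ (Matrix.of fun i j => v i (e j)).det := by
      rw [AlgHom.map_det]
      rfl
    rw [h1] at h0
    have h2 := congrArg (Polynomial.eval 1) h0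
    rw [hφ, ra_phi_eval, Polynomial.eval_zero] at h2
    rw [← h2]
    congr 2
    funext j
    ring
  set μ := Nat.find hex with hμ
  obtain ⟨w, e1, hw, hne, hmul⟩ := Nat.find_spec hex
  rw [← hμ] at hmul
  have hdvd : ∀ (w : Fin r → ι → MvPolynomial (Fin m) ℚ) (e : Fin r → ι),
      (∀ i, IsRel R z (w i)) → (Polynomial.X : Polynomial ℚ) ^ μ ∣ (Mt w e).det := by
    intro w e hw
    by_cases h0 : (Mt w e).det = 0
    · rw [h0]
      exact dvd_zero _
    · have h1 : μ ≤ (Mt w e).det.rootMultiplicity 0 := Nat.find_min' hex ⟨w, e, hw, h0, rfl⟩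
      have h2 := (Polynomial.le_rootMultiplicity_iff h0).1 h1
      rwa [Polynomial.C_0, sub_zero] at h2
  rcases Nat.eq_zero_or_pos μ with h0 | hpos
  · refine ⟨w, hw, ?_⟩
    have h1 : (Mt w e1).det.eval 0 ≠ 0 := by
      intro h2
      have h3 := (Polynomial.rootMultiplicity_pos hne).2 h2
      rw [hmul, h0] at h3
      exact lt_irrefl _ h3
    have h2 : (Matrix.of fun a b => MvPolynomial.eval u0 (w a (e1 b))).det ≠ 0 := by
      intro h3
      apply h1
      have h4 : (Mt w e1).det.eval 0 = ((Mt w e1).map (Polynomial.eval 0)).det := by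
        have := RingHom.map_det (Polynomial.evalRingHom (0 : ℚ)) (Mt w e1)
        exact this
      have h5 : (Mt w e1).map (Polynomial.eval 0) =
          Matrix.of fun a b => MvPolynomial.eval u0 (w a (e1 b)) := by
        ext a b
        exact hφ0 _
      rw [h4, h5, h3]
    have h3 := Matrix.linearIndependent_rows_of_det_ne_zero h2
    have h4 := LinearIndependent.of_comp (LinearMap.funLeft ℚ ℚ e1) (v := fun i => fun k =>
        MvPolynomial.eval u0 (w i k)) h3
    exact h4
  · exfalso
    set f : Polynomial ℚ := (Mt w e1).det with hf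
    have hroot : f.IsRoot 0 := by
      rw [← Polynomial.rootMultiplicity_pos hne, hmul]
      exact hpos
    have hf' : Polynomial.derivative f ≠ 0 := by
      intro h1
      have h2 := Polynomial.derivative_eq_zero.1 h1
      rw [Polynomial.natDegree_eq_zero] at h2
      obtain ⟨c, hc⟩ := h2
      rw [← hc, Polynomial.IsRoot, Polynomial.eval_C] at hroot
      apply hne
      rw [← hc, hroot, Polynomial.C_0]
    have hmf' : (Polynomial.derivative f).rootMultiplicity 0 = μ - 1 := by
      rw [Polynomial.derivative_rootMultiplicity_of_root hroot, hmul]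
    have hT0 : (φ T).eval 0 ≠ 0 := by
      rw [hφ0]
      exact hu
    have hTne : φ T ≠ 0 := by
      intro h1
      apply hT0
      rw [h1, Polynomial.eval_zero]
    have hmT : (φ T).rootMultiplicity 0 = 0 := Polynomial.rootMultiplicity_eq_zero hT0
    have key : (Polynomial.X : Polynomial ℚ) ^ μ ∣ φ T * Polynomial.derivative f := by
      have h1 : φ T * Polynomial.derivative f = ∑ i, Polynomial.C (u' i - u0 i) *
          (∑ a, (Mt (Function.update w a
              (fun k => T * MvPolynomial.pderiv i (w a k) + ∑ l, w a l * A i l k)) e1).det -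
            ∑ b, ∑ l, φ (A i l (e1 b)) * (Mt w (Function.update e1 b l)).det) := by
        have hrow : ∀ a, φ T * ((Mt w e1).updateRow a
            (fun b => Polynomial.derivative ((Mt w e1) a b))).det =
            ∑ i, Polynomial.C (u' i - u0 i) * (((Mt w e1).updateRow a (fun b =>
              φ (T * MvPolynomial.pderiv i (w a (e1 b)) + ∑ l, w a l * A i l (e1 b)))).det -
              ((Mt w e1).updateRow a (fun b => ∑ l, φ (w a l) * φ (A i l (e1 b)))).det) := by
          intro a
          have h2 : φ T • (fun b => Polynomial.derivative ((Mt w e1) a b)) =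
              ∑ i, Polynomial.C (u' i - u0 i) • ((fun b =>
                φ (T * MvPolynomial.pderiv i (w a (e1 b)) + ∑ l, w a l * A i l (e1 b))) -
                (fun b => ∑ l, φ (w a l) * φ (A i l (e1 b)))) := by
            funext b
            rw [Finset.sum_apply]
            simp only [Pi.smul_apply, Pi.sub_apply, smul_eq_mul]
            have h3 : Polynomial.derivative ((Mt w e1) a b) =
                ∑ i, Polynomial.C (u' i - u0 i) * φ (MvPolynomial.pderiv i (w a (e1 b))) :=
              ra_phi_der u0 (fun j => u' j - u0 j) (w a (e1 b))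
            rw [h3, Finset.mul_sum]
            apply Finset.sum_congr rfl
            intro i _
            rw [map_add, map_mul, map_sum]
            simp only [map_mul]
            ring
          have h4 : ∀ x : Fin r → Polynomial ℚ, ((Mt w e1).updateRow a x).det =
              Matrix.cramer (Mt w e1).transpose x a := fun x =>
            (Matrix.cramer_transpose_apply _ _ _).symm
          rw [← Matrix.det_updateRow_smul, h2, h4, map_sum, Finset.sum_apply]
          apply Finset.sum_congr rfl
          intro i _
          rw [map_smul, Pi.smul_apply, smul_eq_mul]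
          congr 1
          rw [map_sub, Pi.sub_apply, h4, h4]
        have hder : Polynomial.derivative f = ∑ a, ((Mt w e1).updateRow a
            (fun b => Polynomial.derivative ((Mt w e1) a b))).det := ra_der_det _
        rw [hder, Finset.mul_sum, Finset.sum_congr rfl (fun a _ => hrow a), Finset.sum_comm]
        apply Finset.sum_congr rfl
        intro i _
        rw [← Finset.mul_sum, Finset.sum_sub_distrib]
        congr 2
        · apply Finset.sum_congr rfl
          intro a _
          congr 1
          ext a' b : 2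
          by_cases ha : a' = a
          · subst ha
            rw [Matrix.updateRow_self, hMt]
            simp only [Matrix.of_apply, Function.update_self]
          · rw [Matrix.updateRow_ne ha, hMt]
            simp only [Matrix.of_apply, Function.update_of_ne ha]
        · rw [ra_swap]
          apply Finset.sum_congr rfl
          intro b _
          have h5 : ∀ x : Fin r → Polynomial ℚ, ((Mt w e1).updateCol b x).det =
              Matrix.cramer (Mt w e1) x b := fun x => (Matrix.cramer_apply _ _ _).symm
          have h6 : (fun a => ∑ l, φ (w a l) * φ (A i l (e1 b))) =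
              ∑ l, φ (A i l (e1 b)) • (fun a => φ (w a l)) := by
            funext a
            rw [Finset.sum_apply]
            apply Finset.sum_congr rfl
            intro l _
            rw [Pi.smul_apply, smul_eq_mul, mul_comm]
          rw [h5, h6, map_sum, Finset.sum_apply]
          apply Finset.sum_congr rfl
          intro l _
          rw [map_smul, Pi.smul_apply, smul_eq_mul, ← h5]
          congr 2
          ext a b' : 2
          by_cases hb : b' = b
          · subst hb
            rw [Matrix.updateCol_self, hMt]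
            simp only [Matrix.of_apply, Function.update_self]
          · rw [Matrix.updateCol_ne hb, hMt]
            simp only [Matrix.of_apply, Function.update_of_ne hb]
      rw [h1]
      apply Finset.dvd_sum
      intro i _
      apply Dvd.dvd.mul_left
      apply dvd_sub
      · apply Finset.dvd_sum
        intro a _
        apply hdvd
        intro j
        by_cases hj : j = a
        · subst hj
          rw [Function.update_self]
          exact ra_rel hz (hw j) i
        · rw [Function.update_of_ne hj]
          exact hw j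
      · apply Finset.dvd_sum
        intro b _
        apply Finset.dvd_sum
        intro l _
        exact Dvd.dvd.mul_left (hdvd w _ hw) _
    have hne2 : φ T * Polynomial.derivative f ≠ 0 := mul_ne_zero hTne hf'
    have h2 : μ ≤ (φ T * Polynomial.derivative f).rootMultiplicity 0 := by
      rw [Polynomial.le_rootMultiplicity_iff hne2, Polynomial.C_0, sub_zero]
      exact key
    rw [Polynomial.rootMultiplicity_mul hne2, hmT, hmf'] at h2
    omega

end Pool.Agent.Helper79.BB
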