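import Pool.Agent.Helper79.BB.GridCore
import Pool.Agent.Helper79.BB.GridSel
import Pool.Agent.Helper79.BB.ChainCount
import Pool.Agent.Helper79.BB.Indep
import Pool.Agent.Helper79.BB.RankAt
import Pool.Agent.Helper79.AA.Core
import Pool.Agent.Helper79.AA.PS

/-!
# BB: the core theorem on boxes (helper79)
-/

open Polynomial

namespace Pool.Agent.Helper79.BB

open Pool.Agent.Helper79.AA

/-- The value at `u` of a functional relation is a rational relation. -/
theorem rel_mem {m : ℕ} {ι : Type} [Fintype ι] {R : ℝ} {z : (Fin m → ℂ) → ι → ℂ}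
    {v : ι → MvPolynomial (Fin m) ℚ} (hv : IsRel R z v) {u : Fin m → ℤ}
    (hu : ip u ∈ Metric.ball (0 : Fin m → ℂ) R) :
    (fun k => MvPolynomial.eval (fun i => ((u i : ℤ) : ℚ)) (v k)) ∈ relQ (z (ip u)) := by
  have h1 := hv (ip u) hu
  change ∑ k, ((MvPolynomial.eval (fun i => ((u i : ℤ) : ℚ)) (v k) : ℚ) : ℂ) * z (ip u) k = 0
  rw [← h1]
  exact Finset.sum_congr rfl fun k _ => by rw [aeval_ip]

/-- At a regular point with few rational relations there is no bad relation. -/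
theorem not_bad {m : ℕ} {ι : Type} [Fintype ι] [DecidableEq ι] {T : MvPolynomial (Fin m) ℚ}
    {A : Fin m → Matrix ι ι (MvPolynomial (Fin m) ℚ)} {R : ℝ} {z : (Fin m → ℂ) → ι → ℂ}
    (hz : IsSysM T A R z) {I : Finset ι} {v : ι → ι → MvPolynomial (Fin m) ℚ}
    (hv : ∀ k, k ∉ I → IsRel R z (v k) ∧ v k k ≠ 0 ∧ ∀ l, l ∉ I → l ≠ k → v k l = 0)
    {ρ : ℕ} (hI : I.card + ρ ≤ Fintype.card ι) {u : Fin m → ℤ}
    (hu : ip u ∈ Metric.ball (0 : Fin m → ℂ) R)
    (hT : MvPolynomial.eval (fun i => ((u i : ℤ) : ℚ)) T ≠ 0)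
    (hρ : Module.finrank ℚ (relQ (z (ip u))) = ρ) : ¬ BadM R z u := by
  classical
  have hcard : Fintype.card {k // k ∉ I} = Fintype.card ι - I.card := by
    rw [Fintype.card_subtype_compl, Fintype.card_coe]
  set r : ℕ := Fintype.card ι - I.card with hr
  let e : Fin r ≃ {k // k ∉ I} := (Fintype.equivFinOfCardEq hcard).symm
  have hdet : (Matrix.of fun i j => v (e i) (e j : ι)).det ≠ 0 := by
    have h1 : (Matrix.of fun i j => v (e i) (e j : ι)) =
        Matrix.diagonal fun i => v (e i) (e i : ι) := by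
      ext1 i j
      rw [Matrix.of_apply, Matrix.diagonal_apply]
      split_ifs with h
      · rw [h]
      · refine (hv (e i) (e i).2).2.2 (e j) (e j).2 fun h2 => h ?_
        exact (e.injective (Subtype.ext h2)).symm
    rw [h1, Matrix.det_diagonal]
    exact Finset.prod_ne_zero_iff.2 fun i _ => (hv (e i) (e i).2).2.1
  obtain ⟨w, hw, hli⟩ := rank_at hz (fun i => v (e i)) (fun j => (e j : ι))
    (fun i => (hv (e i) (e i).2).1) hdet hT
  set x : Fin r → ι → ℚ := fun i k => MvPolynomial.eval (fun i => ((u i : ℤ) : ℚ)) (w i k)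
    with hx
  have hspan : Submodule.span ℚ (Set.range x) = relQ (z (ip u)) := by
    refine Submodule.eq_of_le_of_finrank_le ?_ ?_
    · rw [Submodule.span_le]
      rintro _ ⟨i, rfl⟩
      exact rel_mem (hw i) hu
    · rw [finrank_span_eq_card hli, Fintype.card_fin, hρ]
      omega
  rintro ⟨y, hy, hnot⟩
  apply hnot
  rw [← hspan, Submodule.mem_span_range_iff_exists_fun] at hy
  obtain ⟨c, hc⟩ := hy
  refine ⟨fun k => ∑ i, MvPolynomial.C (c i) * w i k, fun k => ?_, fun s hs => ?_⟩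
  · rw [← hc, map_sum, Finset.sum_apply]
    refine Finset.sum_congr rfl fun i _ => ?_
    rw [map_mul, MvPolynomial.eval_C, Pi.smul_apply, smul_eq_mul]
  · simp only [map_sum, map_mul, MvPolynomial.aeval_C, Finset.sum_mul]
    rw [Finset.sum_comm]
    refine Finset.sum_eq_zero fun i _ => ?_
    have h1 := hw i s hs
    simp only [mul_assoc]
    rw [← Finset.mul_sum, h1, mul_zero]

theorem int_roots_ncard {p : ℚ[X]} (hp : p ≠ 0) (K : ℕ) :
    Set.ncard {s : ℤ | |s| ≤ K ∧ p.eval (s : ℚ) = 0} ≤ p.natDegree := by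
  classical
  have h1 : ((fun s : ℤ => (s : ℚ)) '' {s : ℤ | |s| ≤ K ∧ p.eval (s : ℚ) = 0}) ⊆
      (p.roots.toFinset : Set ℚ) := by
    rintro _ ⟨s, ⟨-, hs⟩, rfl⟩
    rw [Finset.mem_coe, Multiset.mem_toFinset, mem_roots hp]
    exact hs
  rw [← Set.ncard_image_of_injective _ (Int.cast_injective (α := ℚ))]
  refine (Set.ncard_le_ncard h1 (Finset.finite_toSet _)).trans ?_
  rw [Set.ncard_coe_finset]
  exact (Multiset.toFinset_card_le _).trans (card_roots' p)

theorem box_core (m n δ c : ℕ) (hm : 1 ≤ m) : ∃ B E : ℕ, ∀ {ι : Type} [Fintype ι]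
    [DecidableEq ι], Fintype.card ι ≤ n → ∀ (K : ℕ) (Λ R : ℝ), 2 ≤ K → (K : ℝ) ^ E ≤ Λ →
    Λ ≤ R * K → ∀ (T : MvPolynomial (Fin m) ℚ)
    (A : Fin m → Matrix ι ι (MvPolynomial (Fin m) ℚ)) (z : (Fin m → ℂ) → ι → ℂ),
    IsSysM T A R z → (∀ j, T.degreeOf j ≤ δ) → (∀ i k l j, (A i k l).degreeOf j ≤ δ) →
    (∀ (i : Fin m) (a : Fin m → ℤ) (s : ℤ), (∀ j, |pt i a s j| ≤ K) →
      MvPolynomial.eval (fun j => ((pt i a s j : ℤ) : ℚ)) T ≠ 0 →
      Gr (spec i a T) ((A i).map (spec i a)) (s : ℚ) (Λ ^ c)) →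
    Set.ncard {u : Fin m → ℤ | (∀ j, |u j| ≤ K) ∧
      MvPolynomial.eval (fun j => ((u j : ℤ) : ℚ)) T ≠ 0 ∧ BadM R z u} ≤ B * K ^ (m - 1) := by
  classical
  obtain ⟨B₁, E₁, hcore⟩ := core n c
  set b : ℕ := B₁ + δ with hb
  set Bg : ℕ := 2 * (n + 1) * m * (m * δ + 2) with hBg
  obtain ⟨K₀, hK₀⟩ := grid_sel m (m * b) Bg hm
  set K₁ : ℕ := max K₀ (b + 1) with hK₁
  refine ⟨(2 * K₁ + 1 + m * b) * 3 ^ (m - 1), E₁ + 3,
    fun {ι} _ _ hn K Λ R hK hKΛ hΛR T A z hz hT hA hG => ?_⟩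
  have hK1 : (1 : ℝ) ≤ K := by exact_mod_cast (by omega : 1 ≤ K)
  have hK2 : (2 : ℝ) ≤ K := by exact_mod_cast hK
  have hK0 : (0 : ℝ) < K := by linarith
  have hE₁ : (K : ℝ) ^ E₁ ≤ Λ := (pow_le_pow_right₀ hK1 (by omega)).trans hKΛ
  have hRK : (K : ℝ) < R := by
    have h4 : (K : ℝ) ^ 2 * K ≤ R * K := by
      calc (K : ℝ) ^ 2 * K = (K : ℝ) ^ 3 := by ring
        _ ≤ (K : ℝ) ^ (E₁ + 3) := pow_le_pow_right₀ hK1 (by omega)
        _ ≤ _ := hKΛ.trans hΛR
    have h5 : (K : ℝ) ^ 2 ≤ R := le_of_mul_le_mul_right h4 hK0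
    nlinarith
  have hR0 : 0 < R := by linarith
  set S : Set (Fin m → ℤ) := {u : Fin m → ℤ | (∀ j, |u j| ≤ K) ∧
      MvPolynomial.eval (fun j => ((u j : ℤ) : ℚ)) T ≠ 0 ∧ BadM R z u} with hS
  have h3K : 2 * K + 1 ≤ 3 * K := by omega
  rcases Nat.lt_or_ge K K₁ with hlt | hge
  · -- small `K`
    have h1 := (box_card K S fun a ha => ha.1).2
    rw [Fintype.card_fin] at h1
    refine h1.trans ?_
    obtain ⟨k, rfl⟩ : ∃ k, m = k + 1 := ⟨m - 1, by omega⟩
    rw [Nat.add_sub_cancel, pow_succ]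
    calc (2 * K + 1) ^ k * (2 * K + 1) ≤ (3 * K) ^ k * (2 * K₁ + 1) :=
          Nat.mul_le_mul (Nat.pow_le_pow_left h3K _) (by omega)
      _ = (2 * K₁ + 1) * 3 ^ k * K ^ k := by
          rw [mul_pow]
          ring
      _ ≤ (2 * K₁ + 1 + (k + 1) * b) * 3 ^ k * K ^ k :=
          Nat.mul_le_mul_right _ (Nat.mul_le_mul_right _ (by omega))
  -- large `K`
  have hmem : ∀ u : Fin m → ℤ, (∀ j, |u j| ≤ K) → ip u ∈ Metric.ball (0 : Fin m → ℂ) R := by
    intro u hu
    rw [Metric.mem_ball, dist_zero_right, pi_norm_lt_iff hR0]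
    intro j
    rw [ip, Complex.norm_intCast]
    have h1 : |(u j : ℝ)| ≤ K := by exact_mod_cast hu j
    linarith
  by_cases hex : ∃ ρ : ℕ, ∃ u : Fin m → ℤ, (∀ j, |u j| ≤ K) ∧
      MvPolynomial.eval (fun j => ((u j : ℤ) : ℚ)) T ≠ 0 ∧
      Module.finrank ℚ (relQ (z (ip u))) = ρ
  swap
  · have h1 : S = ∅ := by
      rw [Set.eq_empty_iff_forall_notMem]
      rintro u ⟨hu1, hu2, -⟩
      exact hex ⟨_, u, hu1, hu2, rfl⟩
    rw [h1, Set.ncard_empty]
    exact Nat.zero_le _
  set ρ : ℕ := Nat.find hex with hρ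
  obtain ⟨u₀, hu₀, hTu₀, hρu₀⟩ := Nat.find_spec hex
  rw [← hρ] at hρu₀
  have hmin : ∀ u : Fin m → ℤ, (∀ j, |u j| ≤ K) →
      MvPolynomial.eval (fun j => ((u j : ℤ) : ℚ)) T ≠ 0 →
      ρ ≤ Module.finrank ℚ (relQ (z (ip u))) := by
    intro u hu hTu
    exact Nat.find_min' hex ⟨u, hu, hTu, rfl⟩
  -- lines
  have hupdip : ∀ (u : Fin m → ℤ) (i : Fin m) (s : ℤ),
      Function.update (ip u) i (s : ℂ) = ip (Function.update u i s) := fun u i s =>
    (ip_update u i s).symm
  have hline : ∀ (u : Fin m → ℤ) (i : Fin m), (∀ j, |u j| ≤ K) →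
      MvPolynomial.eval (fun j => ((u j : ℤ) : ℚ)) T ≠ 0 →
      Set.ncard {s : ℤ | |s| ≤ K ∧
        (MvPolynomial.eval (fun j => ((Function.update u i s j : ℤ) : ℚ)) T = 0 ∨
          BadAt R (fun s => z (Function.update (ip u) i s)) (s : ℚ))} ≤ b ∧
      ∀ s : ℤ, |s| ≤ K →
        MvPolynomial.eval (fun j => ((Function.update u i s j : ℤ) : ℚ)) T ≠ 0 →
        ¬ BadAt R (fun s => z (Function.update (ip u) i s)) (s : ℚ) →
        Module.finrank ℚ (relQ (z (ip (Function.update u i s)))) ≤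
          Module.finrank ℚ (relQ (z (ip u))) := by
    intro u i hu hTu
    set c' : Fin m → ℤ := Function.update u i 0 with hc'
    have hcb : ∀ j, |(c' j : ℝ)| < R := by
      intro j
      by_cases hj : j = i
      · rw [hc', hj, Function.update_self]
        simpa using hR0
      · rw [hc', Function.update_of_ne hj]
        have h1 : |(u j : ℝ)| ≤ K := by exact_mod_cast hu j
        linarith
    have hci : c' i = 0 := by rw [hc', Function.update_self]
    have hsys := line_sys (i := i) hz hcb hci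
    have hupd : ∀ s : ℤ, Function.update c' i s = Function.update u i s := by
      intro s
      rw [hc', Function.update_idem]
    have hfun : (fun s : ℂ => z (Function.update (ip c') i s)) =
        fun s : ℂ => z (Function.update (ip u) i s) := by
      funext s
      rw [hc', ip_update, Function.update_idem]
    rw [hfun] at hsys
    have hpt : ∀ s : ℤ, pt i c' s = Function.update u i s := by
      intro s
      funext j
      rw [pt]
      by_cases hj : j = i
      · rw [if_pos hj, hj, hci, zero_add, Function.update_self]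
      · rw [if_neg hj, add_zero, hc', Function.update_of_ne hj, Function.update_of_ne hj]
    have hbox : ∀ s : ℤ, |s| ≤ K → ∀ j, |pt i c' s j| ≤ K := by
      intro s hs j
      rw [hpt]
      by_cases hj : j = i
      · rw [hj, Function.update_self]
        exact hs
      · rw [Function.update_of_ne hj]
        exact hu j
    have hev : ∀ s : ℤ, (spec i c' T).eval (s : ℚ) =
        MvPolynomial.eval (fun j => ((Function.update u i s j : ℤ) : ℚ)) T := by
      intro s
      rw [spec_evalZ hci]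
      simp only [hupd]
    have hself : Function.update u i (u i) = u := Function.update_eq_self i u
    refine ⟨?_, ?_⟩
    · have hpne : spec i c' T ≠ 0 := by
        intro h0
        have h1 := hev (u i)
        rw [h0, eval_zero, hself] at h1
        exact hTu h1.symm
      have hf1 : {s : ℤ | |s| ≤ K ∧ (spec i c' T).eval (s : ℚ) = 0}.Finite :=
        (Set.finite_Icc (-(K : ℤ)) K).subset fun l hl => Set.mem_Icc.2 (abs_le.1 hl.1)
      have hf2 : {s : ℤ | |s| ≤ K ∧ (spec i c' T).eval (s : ℚ) ≠ 0 ∧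
          BadAt R (fun s => z (Function.update (ip u) i s)) (s : ℚ)}.Finite :=
        (Set.finite_Icc (-(K : ℤ)) K).subset fun l hl => Set.mem_Icc.2 (abs_le.1 hl.1)
      have h1 : {s : ℤ | |s| ≤ K ∧
          (MvPolynomial.eval (fun j => ((Function.update u i s j : ℤ) : ℚ)) T = 0 ∨
          BadAt R (fun s => z (Function.update (ip u) i s)) (s : ℚ))} ⊆
          {s : ℤ | |s| ≤ K ∧ (spec i c' T).eval (s : ℚ) = 0} ∪
          {s : ℤ | |s| ≤ K ∧ (spec i c' T).eval (s : ℚ) ≠ 0 ∧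
          BadAt R (fun s => z (Function.update (ip u) i s)) (s : ℚ)} := by
        rintro s ⟨hs1, hs2⟩
        by_cases h0 : (spec i c' T).eval (s : ℚ) = 0
        · exact Or.inl ⟨hs1, h0⟩
        · refine Or.inr ⟨hs1, h0, ?_⟩
          rcases hs2 with h2 | h2
          · rw [hev] at h0
            exact absurd h2 h0
          · exact h2
      refine (Set.ncard_le_ncard h1 (hf1.union hf2)).trans ((Set.ncard_union_le _ _).trans ?_)
      have h2 := (int_roots_ncard hpne K).trans ((spec_natDegree c' T).trans (hT i))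
      have h3 : Set.ncard {s : ℤ | |s| ≤ K ∧ (spec i c' T).eval (s : ℚ) ≠ 0 ∧
          BadAt R (fun s => z (Function.update (ip u) i s)) (s : ℚ)} ≤ B₁ := by
        rw [Set.ncard_eq_toFinset_card _ hf2]
        refine hcore hn K Λ R hK hE₁ hΛR _ _ _ hsys _ (fun s hs => ?_) (fun s hs => ?_)
          (fun s hs => ?_) (fun s hs => ?_)
        · exact ((Set.Finite.mem_toFinset hf2).1 hs).1
        · exact ((Set.Finite.mem_toFinset hf2).1 hs).2.1
        · have hs' := (Set.Finite.mem_toFinset hf2).1 hs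
          refine hG i c' s (hbox s hs'.1) ?_
          have h4 := hs'.2.1
          rw [hev] at h4
          simp only [hpt]
          exact h4
        · exact ((Set.Finite.mem_toFinset hf2).1 hs).2.2
      omega
    · intro s hs _ hsb
      obtain ⟨ρ', ψ, h1, h2, -⟩ := line_vanish hR0 hsys
      have hmemZ : ∀ s : ℤ, |s| ≤ K → (s : ℂ) ∈ Metric.ball (0 : ℂ) R := by
        intro s hs
        rw [Metric.mem_ball, dist_zero_right, Complex.norm_intCast]
        have h1 : |(s : ℝ)| ≤ K := by exact_mod_cast hs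
        linarith
      have h3 := h2 s (hmemZ s hs) hsb
      have h4 := h1 (u i) (hmemZ _ (hu i))
      rw [hupdip, hself] at h4
      rw [hupdip] at h3
      rw [h3]
      exact h4
  set good : (Fin m → ℤ) → Prop := fun u =>
    MvPolynomial.eval (fun j => ((u j : ℤ) : ℚ)) T ≠ 0 ∧
      Module.finrank ℚ (relQ (z (ip u))) = ρ with hgood
  have hboxu : ∀ (u : Fin m → ℤ) (i : Fin m) (s : ℤ), (∀ j, |u j| ≤ K) → |s| ≤ K →
      ∀ j, |Function.update u i s j| ≤ K := by
    intro u i s hu hs j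
    by_cases hj : j = i
    · rw [hj, Function.update_self]
      exact hs
    · rw [Function.update_of_ne hj]
      exact hu j
  have hstep : ∀ (u : Fin m → ℤ) (i : Fin m), (∀ j, |u j| ≤ K) → good u →
      Set.ncard {s : ℤ | |s| ≤ K ∧ ¬ good (Function.update u i s)} ≤ b := by
    rintro u i hu ⟨hgT, hgρ⟩
    obtain ⟨h1, h2⟩ := hline u i hu hgT
    refine le_trans (Set.ncard_le_ncard ?_ ?_) h1
    · rintro s ⟨hs, hng⟩
      refine ⟨hs, ?_⟩
      by_contra hcon
      push Not at hcon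
      obtain ⟨hc1, hc2⟩ := hcon
      apply hng
      refine ⟨hc1, le_antisymm ?_ (hmin _ (hboxu u i s hu hs) hc1)⟩
      exact (h2 s hs hc1 hc2).trans hgρ.le
    · exact (Set.finite_Icc (-(K : ℤ)) K).subset fun l hl => Set.mem_Icc.2 (abs_le.1 hl.1)
  have hcount := chain_count K b good hstep u₀ hu₀ ⟨hTu₀, hρu₀⟩
  have hKK : K₀ ≤ K ∧ b + 1 ≤ K := ⟨(le_max_left _ _).trans hge, (le_max_right _ _).trans hge⟩
  obtain ⟨w, hw⟩ := hK₀ K hKK.1 {u | ¬ good u} (by
    refine hcount.trans (le_of_eq ?_)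
    rfl)
  have hwg : ∀ e : Fin m → ℕ, (∀ j, e j < Bg) → (∀ j, |w j + (e j : ℤ)| ≤ K) ∧
      good fun j => w j + (e j : ℤ) := by
    intro e he
    obtain ⟨h1, h2⟩ := hw e he
    refine ⟨h1, ?_⟩
    by_contra h3
    exact h2 h3
  obtain ⟨I, hI, v, hv⟩ := exists_indepM R z
  have hIρ : I.card + ρ ≤ Fintype.card ι := by
    by_contra hcon
    push Not at hcon
    refine grid_core hm hBg hn hR0 hz hT hA (w := w) (ρ := ρ) (fun e he => ?_) (fun e he i => ?_)
      hcon hI
    · obtain ⟨h1, h2, h3⟩ := hwg e he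
      refine ⟨fun j => ?_, h2, h3⟩
      have h4 : |((w j + (e j : ℤ) : ℤ) : ℝ)| ≤ K := by exact_mod_cast h1 j
      linarith
    · obtain ⟨h1, h2, h3⟩ := hwg e he
      obtain ⟨h4, -⟩ := hline (fun j => w j + (e j : ℤ)) i h1 h2
      -- a point outside of the exceptional set
      have hex2 : ∃ s : ℤ, |s| ≤ K ∧ ¬ (MvPolynomial.eval (fun j => ((Function.update
          (fun j => w j + (e j : ℤ)) i s j : ℤ) : ℚ)) T = 0 ∨
          BadAt R (fun s => z (Function.update (ip fun j => w j + (e j : ℤ)) i s)) (s : ℚ)) := by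
        by_contra hcon2
        push Not at hcon2
        have h5 : {s : ℤ | |s| ≤ K ∧ (MvPolynomial.eval (fun j => ((Function.update
          (fun j => w j + (e j : ℤ)) i s j : ℤ) : ℚ)) T = 0 ∨
          BadAt R (fun s => z (Function.update (ip fun j => w j + (e j : ℤ)) i s)) (s : ℚ))} =
          Set.Icc (-(K : ℤ)) K := by
          ext s
          constructor
          · intro hs
            exact Set.mem_Icc.2 (abs_le.1 hs.1)
          · intro hs
            have h6 := abs_le.2 (Set.mem_Icc.1 hs)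
            exact ⟨h6, hcon2 s h6⟩
        rw [h5] at h4
        have h6 : (Set.Icc (-(K : ℤ)) K).ncard = 2 * K + 1 := by
          rw [← Finset.coe_Icc, Set.ncard_coe_finset, Int.card_Icc]
          omega
        rw [h6] at h4
        omega
      obtain ⟨s, hs, hs2⟩ := hex2
      rw [not_or] at hs2
      refine ⟨s, ?_, hs2.2, ?_⟩
      · have h5 : |(s : ℝ)| ≤ K := by exact_mod_cast hs
        linarith
      · rw [hupdip]
        exact hmin _ (hboxu _ i s h1 hs) hs2.1
  -- the conclusion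
  have hsub : S ⊆ {u : Fin m → ℤ | (∀ j, |u j| ≤ K) ∧ ¬ good u} := by
    rintro u ⟨hu1, hu2, hu3⟩
    refine ⟨hu1, fun hg => ?_⟩
    exact not_bad hz hv hIρ (hmem u hu1) hu2 hg.2 hu3
  have hfin : {u : Fin m → ℤ | (∀ j, |u j| ≤ K) ∧ ¬ good u}.Finite :=
    (box_card K _ fun a ha => ha.1).1
  refine ((Set.ncard_le_ncard hsub hfin).trans hcount).trans ?_
  calc m * b * (2 * K + 1) ^ (m - 1) ≤ m * b * (3 * K) ^ (m - 1) :=
        Nat.mul_le_mul_left _ (Nat.pow_le_pow_left h3K _)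
    _ = m * b * 3 ^ (m - 1) * K ^ (m - 1) := by
        rw [mul_pow]
        ring
    _ ≤ (2 * K₁ + 1 + m * b) * 3 ^ (m - 1) * K ^ (m - 1) :=
        Nat.mul_le_mul_right _ (Nat.mul_le_mul_right _ (by omega))

end Pool.Agent.Helper79.BB
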