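import Pool.Agent.Helper79.BB.MPol
import Pool.Agent.Helper79.GA.StatG

/-!
# BB-13: a family with `m` parameters as a family with one parameter

`K_i = κ(t_l, l ≠ i)` embeds in `L` by `t_l` (`Φ.indep`: the `t_l` are algebraically independent; `IsFractionRing.lift` of `MvPolynomial.aeval`; take the algebra structure
`RingHom.toAlgebra`). Then: coordinates `Fin.cons (t_i) x`, derivations `D_i`, `dx_j` (`K_i`-linear, because they vanish on `κ` and on the `t_l`, `l ≠ i`:
a derivation `δ` of `L` over `κ` with `δ t_l = 0` for `l ≠ i` vanishes on the image of `K_i` (quotients); build the `K_i`-derivation with `Derivation.mk'`).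
* `indep`: `Fin.cons t_i x` is algebraically independent over `K_i`: over the polynomial ring this is `Φ.indep` (`MvPolynomial.sumAlgEquiv`), and `K_i` is algebraic over the
  polynomial ring (`AlgebraicIndependent.extendScalars`).
* `finite`: `adjoin κ (range (Sum.elim t x)) ⊆ adjoin K_i (range (cons t_i x))` as sets, so `L` is generated as a module by the same finite set.
* `gm`: `aeval (t i) (tauP i P) = aeval t P` (`tauP_aeval`).
* `ind`: for `c : ι → K_i[X]` let `tauP i (Q l) = C d * c l` (`tauP_clear`); the relation multiplied by (the image of) `d` (`K_i`-linearity of the derivations) and `Φ.ind` give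
  `Q = 0`, so `c = 0`.
-/

open Polynomial

namespace Pool.Agent.Helper79.BB

open Pool.Agent.Helper79.GA

section

variable {m : ℕ} {k L : Type} [Field k] [Field L] [Algebra k L] (i : Fin m)

private theorem convf_sum {d : ℕ} {y : Fin (d + 1) → L} {s : {l : Fin m // l ≠ i} → L}
    [Algebra (MvPolynomial {l : Fin m // l ≠ i} k) L]
    (hs : ∀ l, algebraMap (MvPolynomial {l : Fin m // l ≠ i} k) L (MvPolynomial.X l) = s l)
    (hc : ∀ c : k, algebraMap (MvPolynomial {l : Fin m // l ≠ i} k) L (MvPolynomial.C c) =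
      algebraMap k L c)
    (P : MvPolynomial (Fin (d + 1) ⊕ {l : Fin m // l ≠ i}) k) :
    MvPolynomial.aeval y (MvPolynomial.sumAlgEquiv k (Fin (d + 1)) {l : Fin m // l ≠ i} P) =
      MvPolynomial.aeval (Sum.elim y s) P := by
  induction P using MvPolynomial.induction_on with
  | C c =>
    rw [MvPolynomial.sumAlgEquiv_C_inl, MvPolynomial.aeval_C, MvPolynomial.aeval_C, hc]
  | add p q hp hq => rw [map_add, map_add, map_add, hp, hq]
  | mul_X p n hp =>
    rw [map_mul, map_mul, map_mul, hp, MvPolynomial.aeval_X]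
    cases n with
    | inl n => rw [MvPolynomial.sumAlgEquiv_X_inl, MvPolynomial.aeval_X, Sum.elim_inl]
    | inr n => rw [MvPolynomial.sumAlgEquiv_X_inr, MvPolynomial.aeval_C, hs, Sum.elim_inr]

variable {t : Fin m → L} [Algebra (Ki k i) L]

private theorem convf_indep {d : ℕ} {x : Fin d → L}
    (h : AlgebraicIndependent k (Sum.elim t x))
    (hc : ∀ c : k, algebraMap (Ki k i) L (algebraMap k (Ki k i) c) = algebraMap k L c)
    (hx : ∀ l (h : l ≠ i), algebraMap (Ki k i) L (algebraMap (MvPolynomial {l : Fin m // l ≠ i} k)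
      (Ki k i) (MvPolynomial.X ⟨l, h⟩)) = t l) :
    AlgebraicIndependent (Ki k i) (Fin.cons (t i) x : Fin (d + 1) → L) := by
  letI : Algebra (MvPolynomial {l : Fin m // l ≠ i} k) L :=
    ((algebraMap (Ki k i) L).comp
      (algebraMap (MvPolynomial {l : Fin m // l ≠ i} k) (Ki k i))).toAlgebra
  haveI : IsScalarTower (MvPolynomial {l : Fin m // l ≠ i} k) (Ki k i) L :=
    IsScalarTower.of_algebraMap_eq fun _ => rfl
  haveI : Algebra.IsAlgebraic (MvPolynomial {l : Fin m // l ≠ i} k) (Ki k i) :=
    IsLocalization.isAlgebraic _ (nonZeroDivisors (MvPolynomial {l : Fin m // l ≠ i} k))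
  have h1 : AlgebraicIndependent (MvPolynomial {l : Fin m // l ≠ i} k)
      (Fin.cons (t i) x : Fin (d + 1) → L) := by
    let e : Fin (d + 1) ⊕ {l : Fin m // l ≠ i} → Fin m ⊕ Fin d :=
      Sum.elim (Fin.cons (Sum.inl i) Sum.inr) fun l => Sum.inl l
    have he : Function.Injective e := by
      have he0 : e (Sum.inl 0) = Sum.inl i := rfl
      have he1 : ∀ a : Fin d, e (Sum.inl a.succ) = Sum.inr a := fun _ => rfl
      have he2 : ∀ a : {l : Fin m // l ≠ i}, e (Sum.inr a) = Sum.inl (a : Fin m) := fun _ => rfl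
      rintro (a | a) (b | b) hab
      · rcases Fin.eq_zero_or_eq_succ a with rfl | ⟨a, rfl⟩ <;>
          rcases Fin.eq_zero_or_eq_succ b with rfl | ⟨b, rfl⟩
        · rfl
        · rw [he0, he1] at hab
          exact absurd hab (by simp)
        · rw [he0, he1] at hab
          exact absurd hab (by simp)
        · rw [he1, he1] at hab
          rw [Sum.inr_injective hab]
      · rcases Fin.eq_zero_or_eq_succ a with rfl | ⟨a, rfl⟩
        · rw [he0, he2] at hab
          exact absurd (Sum.inl_injective hab).symm b.2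
        · rw [he1, he2] at hab
          exact absurd hab (by simp)
      · rcases Fin.eq_zero_or_eq_succ b with rfl | ⟨b, rfl⟩
        · rw [he0, he2] at hab
          exact absurd (Sum.inl_injective hab) a.2
        · rw [he1, he2] at hab
          exact absurd hab (by simp)
      · rw [he2, he2] at hab
        rw [Subtype.ext (Sum.inl_injective hab)]
    have h2 : AlgebraicIndependent k (Sum.elim (Fin.cons (t i) x : Fin (d + 1) → L)
        fun l : {l : Fin m // l ≠ i} => t l) := by
      have h3 := h.comp e he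
      have h4 : Sum.elim t x ∘ e = Sum.elim (Fin.cons (t i) x : Fin (d + 1) → L)
          fun l : {l : Fin m // l ≠ i} => t l := by
        funext a
        rcases a with a | a
        · refine Fin.cases ?_ (fun a => ?_) a
          · rfl
          · rfl
        · rfl
      rwa [h4] at h3
    intro P Q hPQ
    obtain ⟨P, rfl⟩ := (MvPolynomial.sumAlgEquiv k (Fin (d + 1)) {l : Fin m // l ≠ i}).surjective P
    obtain ⟨Q, rfl⟩ := (MvPolynomial.sumAlgEquiv k (Fin (d + 1)) {l : Fin m // l ≠ i}).surjective Q
    have hs : ∀ l : {l : Fin m // l ≠ i},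
        algebraMap (MvPolynomial {l : Fin m // l ≠ i} k) L (MvPolynomial.X l) = t l :=
      fun l => hx l l.2
    have hcc : ∀ c : k, algebraMap (MvPolynomial {l : Fin m // l ≠ i} k) L (MvPolynomial.C c) =
        algebraMap k L c := by
      intro c
      rw [← hc c]
      rfl
    rw [convf_sum i hs hcc, convf_sum i hs hcc] at hPQ
    rw [h2 hPQ]
  exact h1.extendScalars (Ki k i)

private theorem convf_der (δ : Derivation k L L)
    (hc : ∀ c : k, algebraMap (Ki k i) L (algebraMap k (Ki k i) c) = algebraMap k L c)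
    (hx : ∀ l (h : l ≠ i), algebraMap (Ki k i) L (algebraMap (MvPolynomial {l : Fin m // l ≠ i} k)
      (Ki k i) (MvPolynomial.X ⟨l, h⟩)) = t l)
    (hδ : ∀ l, l ≠ i → δ (t l) = 0) (a : Ki k i) : δ (algebraMap (Ki k i) L a) = 0 := by
  have h1 : ∀ P : MvPolynomial {l : Fin m // l ≠ i} k,
      δ (algebraMap (Ki k i) L (algebraMap (MvPolynomial {l : Fin m // l ≠ i} k) (Ki k i) P)) =
        0 := by
    intro P
    induction P using MvPolynomial.induction_on with
    | C c =>
      have h2 : algebraMap (MvPolynomial {l : Fin m // l ≠ i} k) (Ki k i) (MvPolynomial.C c) =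
          algebraMap k (Ki k i) c := by
        rw [← MvPolynomial.algebraMap_eq, ← IsScalarTower.algebraMap_apply]
      rw [h2, hc, Derivation.map_algebraMap]
    | add p q hp hq => rw [map_add, map_add, map_add, hp, hq, add_zero]
    | mul_X p n hp =>
      rw [map_mul, map_mul, Derivation.leibniz, hp, hx n n.2, hδ n n.2, smul_zero, smul_zero,
        add_zero]
  obtain ⟨a, b, hb, rfl⟩ := IsFractionRing.div_surjective
    (A := MvPolynomial {l : Fin m // l ≠ i} k) a
  have hb1 : algebraMap (MvPolynomial {l : Fin m // l ≠ i} k) (Ki k i) b ≠ 0 :=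
    IsFractionRing.to_map_ne_zero_of_mem_nonZeroDivisors hb
  have hb2 : algebraMap (Ki k i) L
      (algebraMap (MvPolynomial {l : Fin m // l ≠ i} k) (Ki k i) b) ≠ 0 := by
    rwa [Ne, map_eq_zero]
  have h3 := h1 a
  rw [← div_mul_cancel₀ (algebraMap (MvPolynomial {l : Fin m // l ≠ i} k) (Ki k i) a) hb1, map_mul,
    Derivation.leibniz, h1 b, smul_zero, zero_add, smul_eq_mul] at h3
  exact (mul_eq_zero.1 h3).resolve_left hb2

/-- The derivation over `K_i`. -/
private noncomputable def convf_mk (δ : Derivation k L L)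
    (h : ∀ a : Ki k i, δ (algebraMap (Ki k i) L a) = 0) : Derivation (Ki k i) L L :=
  Derivation.mk'
    { toFun := δ
      map_add' := fun a b => map_add δ a b
      map_smul' := fun c a => by
        rw [Algebra.smul_def, Derivation.leibniz, h, smul_zero, add_zero, RingHom.id_apply,
          smul_eq_mul, Algebra.smul_def] }
    fun a b => δ.leibniz a b

private theorem convf_mk_apply (δ : Derivation k L L)
    (h : ∀ a : Ki k i, δ (algebraMap (Ki k i) L a) = 0) (f : L) : convf_mk i δ h f = δ f := rfl

private theorem fin_gen {K M : Type} [Field K] [Field M] [Algebra k K] [Algebra K M] [Algebra k M]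
    [IsScalarTower k K M] {t : Fin m → M} {d : ℕ} {x : Fin d → M}
    (h : FiniteDimensional (IntermediateField.adjoin k (Set.range (Sum.elim t x))) M)
    (ht : ∀ l, l ≠ i → ∃ a : K, algebraMap K M a = t l) :
    FiniteDimensional (IntermediateField.adjoin K
      (Set.range (Fin.cons (t i) x : Fin (d + 1) → M))) M := by
  set F := IntermediateField.adjoin K (Set.range (Fin.cons (t i) x : Fin (d + 1) → M))
    with hF
  have hmem : ∀ n : Fin (d + 1), (Fin.cons (t i) x : Fin (d + 1) → M) n ∈ F := fun n =>
    IntermediateField.subset_adjoin K _ (Set.mem_range_self n)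
  have hle : IntermediateField.adjoin k (Set.range (Sum.elim t x)) ≤
      F.restrictScalars k := by
    rw [IntermediateField.adjoin_le_iff]
    rintro _ ⟨l | l, rfl⟩
    · rw [Sum.elim_inl]
      by_cases hl : l = i
      · subst hl
        have h0 := hmem 0
        rw [Fin.cons_zero] at h0
        exact h0
      · obtain ⟨a, ha⟩ := ht l hl
        rw [← ha]
        exact F.algebraMap_mem a
    · rw [Sum.elim_inr]
      have h0 := hmem (Fin.succ l)
      rw [Fin.cons_succ] at h0
      exact h0
  obtain ⟨S, hS⟩ := h.fg_top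
  refine ⟨⟨S, ?_⟩⟩
  rw [eq_top_iff]
  intro a _
  have ha : a ∈ Submodule.span (IntermediateField.adjoin k (Set.range (Sum.elim t x)))
      (S : Set M) := by rw [hS]; trivial
  induction ha using Submodule.span_induction with
  | mem a ha => exact Submodule.subset_span ha
  | zero => exact zero_mem _
  | add a b _ _ ha hb => exact add_mem (ha trivial) (hb trivial)
  | smul c a _ ha =>
    have h1 : (c : M) ∈ F := hle c.2
    have h2 := Submodule.smul_mem _ (⟨(c : M), h1⟩ : F) (ha trivial)
    exact h2

private theorem convf_fin {d : ℕ} {x : Fin d → L}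
    (h : FiniteDimensional (IntermediateField.adjoin k (Set.range (Sum.elim t x))) L)
    (hc : ∀ c : k, algebraMap (Ki k i) L (algebraMap k (Ki k i) c) = algebraMap k L c)
    (hx : ∀ l (h : l ≠ i), algebraMap (Ki k i) L (algebraMap (MvPolynomial {l : Fin m // l ≠ i} k)
      (Ki k i) (MvPolynomial.X ⟨l, h⟩)) = t l) :
    FiniteDimensional (IntermediateField.adjoin (Ki k i)
      (Set.range (Fin.cons (t i) x : Fin (d + 1) → L))) L :=
  haveI : IsScalarTower k (Ki k i) L := IsScalarTower.of_algebraMap_eq fun c => (hc c).symm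
  fin_gen (K := Ki k i) i h fun l hl => ⟨_, hx l hl⟩

end

theorem conv_forms {m : ℕ} {k L : Type} [Field k] [CharZero k] [Field L] [Algebra k L]
    {T : MvPolynomial (Fin m) k} {d : ℕ} {ι : Type} [Fintype ι]
    (Φ : FunctionFormsM m k L T d ι) (i : Fin m) :
    ∃ (_ : Algebra (Ki k i) L) (Ψ : FunctionForms (Ki k i) L (tauP i T) d ι),
      Ψ.A = (Φ.A i).map (tauP i) := by
  classical
  let ρ : MvPolynomial {l : Fin m // l ≠ i} k →+* L :=
    (MvPolynomial.aeval (R := k) fun l : {l : Fin m // l ≠ i} => Φ.t l).toRingHom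
  have hρ : Function.Injective ρ :=
    Φ.indep.comp (fun l : {l : Fin m // l ≠ i} => (Sum.inl (l : Fin m) : Fin m ⊕ Fin d))
      (Sum.inl_injective.comp Subtype.val_injective)
  letI inst : Algebra (Ki k i) L := (IsFractionRing.lift (K := Ki k i) hρ).toAlgebra
  have hlift : ∀ P, algebraMap (Ki k i) L
      (algebraMap (MvPolynomial {l : Fin m // l ≠ i} k) (Ki k i) P) = ρ P :=
    fun P => IsFractionRing.lift_algebraMap hρ P
  have hρX : ∀ l, ρ (MvPolynomial.X l) = Φ.t l := fun l => MvPolynomial.aeval_X _ l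
  have hρC : ∀ c, ρ (MvPolynomial.C c) = algebraMap k L c := fun c => MvPolynomial.aeval_C _ c
  have hc : ∀ c : k, algebraMap (Ki k i) L (algebraMap k (Ki k i) c) = algebraMap k L c := by
    intro c
    have h1 : algebraMap k (Ki k i) c = algebraMap (MvPolynomial {l : Fin m // l ≠ i} k) (Ki k i)
        (MvPolynomial.C c) := by
      rw [← MvPolynomial.algebraMap_eq, ← IsScalarTower.algebraMap_apply]
    rw [h1, hlift, hρC]
  have hx : ∀ l (h : l ≠ i), algebraMap (Ki k i) L
      (algebraMap (MvPolynomial {l : Fin m // l ≠ i} k) (Ki k i) (MvPolynomial.X ⟨l, h⟩)) =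
        Φ.t l := by
    intro l h
    rw [hlift, hρX]
  have hD : ∀ a : Ki k i, Φ.D i (algebraMap (Ki k i) L a) = 0 :=
    convf_der i (Φ.D i) hc hx fun l hl => by rw [Φ.D_t, if_neg (Ne.symm hl)]
  have hdx : ∀ j, ∀ a : Ki k i, Φ.dx j (algebraMap (Ki k i) L a) = 0 :=
    fun j => convf_der i (Φ.dx j) hc hx fun l _ => Φ.dx_t j l
  refine ⟨inst,
    { x := Fin.cons (Φ.t i) Φ.x
      D := Fin.cons (convf_mk i (Φ.D i) hD) fun j => convf_mk i (Φ.dx j) (hdx j)
      ω := Φ.ω
      g := Φ.g i
      A := (Φ.A i).map (tauP i)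
      indep := convf_indep i Φ.indep hc hx
      finite := convf_fin i Φ.finite hc hx
      D_x := ?_
      gm := ?_
      ind := ?_ }, rfl⟩
  · intro a b
    rcases Fin.eq_zero_or_eq_succ a with rfl | ⟨a, rfl⟩ <;>
      rcases Fin.eq_zero_or_eq_succ b with rfl | ⟨b, rfl⟩
    · rw [Fin.cons_zero, Fin.cons_zero, convf_mk_apply, Φ.D_t, if_pos rfl, if_pos rfl]
    · rw [Fin.cons_zero, Fin.cons_succ, convf_mk_apply, Φ.D_x, if_neg (Fin.succ_ne_zero b).symm]
    · rw [Fin.cons_succ, Fin.cons_zero, convf_mk_apply, Φ.dx_t, if_neg (Fin.succ_ne_zero a)]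
    · rw [Fin.cons_succ, Fin.cons_succ, convf_mk_apply, Φ.dx_x]
      simp only [Fin.succ_inj]
  · intro l
    have h := Φ.gm i l
    rw [Fin.cons_zero, Fin.cons_zero, convf_mk_apply, tauP_aeval i hc hx, h]
    congr 1
    refine Finset.sum_congr rfl fun n _ => ?_
    rw [Matrix.map_apply, tauP_aeval i hc hx]
  · rintro c ⟨u, hu⟩
    obtain ⟨p, hp, Q, hQ⟩ := tauP_clear i c
    have hQ0 : Q = 0 := by
      refine Φ.ind Q ⟨fun j => ρ p * u j, ?_⟩
      have h1 : ∀ l, MvPolynomial.aeval Φ.t (Q l) = ρ p * aeval (Φ.t i) (c l) := by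
        intro l
        rw [← tauP_aeval i hc hx, hQ, map_mul, Polynomial.aeval_C, hlift]
      have h2 : ∀ j, Φ.dx j (ρ p * u j) = ρ p * Φ.dx j (u j) := by
        intro j
        rw [Derivation.leibniz, ← hlift, hdx, smul_zero, add_zero, smul_eq_mul]
      simp only [h1, h2, mul_assoc]
      rw [← Finset.mul_sum, ← Finset.mul_sum]
      congr 1
    funext l
    have h3 := hQ l
    rw [hQ0, Pi.zero_apply, map_zero] at h3
    have h4 : Polynomial.C (algebraMap (MvPolynomial {l : Fin m // l ≠ i} k) (Ki k i) p) ≠ 0 := by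
      rw [Ne, Polynomial.C_eq_zero]
      exact fun h => hp (IsFractionRing.injective _ _ (by rw [h, map_zero]))
    exact (mul_eq_zero.1 h3.symm).resolve_left h4

end Pool.Agent.Helper79.BB
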