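import Pool.Agent.Helper79.BB.MPol
import Pool.Agent.Helper79.GA.StatG

/-!
# BB-14: a sub-connection with `m` parameters as a sub-connection with one parameter

`M' = M.map (tauP i)`, `B' = (B i).map (tauP i)`. `stable`: apply `tauP i` to `E.stable i` (`tauP_pderiv`, `tens_map` in `Helper79`: grep; it may also be proved directly from the definition of `tens`).
`ind`: clear denominators (`tauP_clear`), injectivity of `tauP i`, `E.ind`.
-/

open Polynomial

namespace Pool.Agent.Helper79.BB

open Pool.Agent.Helper79.GA Pool.Agent.Helper79.CU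

private lemma convS_tens {m : ℕ} {k : Type} [Field k] {ι₀ : Type} [DecidableEq ι₀] (i : Fin m)
    (r : ℕ) (a : Matrix ι₀ ι₀ (MvPolynomial (Fin m) k)) :
    tens r (a.map (tauP i)) = (tens r a).map (tauP i) := by
  ext1 I J
  rw [Matrix.map_apply]
  unfold tens
  rw [map_sum]
  refine Finset.sum_congr rfl fun s _ => ?_
  split_ifs
  · rw [Matrix.map_apply]
  · rw [map_zero]

theorem conv_sub {m : ℕ} {k : Type} [Field k] [CharZero k] {ι₀ : Type} [Fintype ι₀]
    [DecidableEq ι₀] {T : MvPolynomial (Fin m) k}
    {A : Fin m → Matrix ι₀ ι₀ (MvPolynomial (Fin m) k)} {μ r : ℕ} {ι : Type} [Fintype ι]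
    [DecidableEq ι] (E : SubTensorM T A μ r ι) (i : Fin m) :
    ∃ E' : SubTensor (tauP i T) ((A i).map (tauP i)) μ r ι, E'.B = (E.B i).map (tauP i) := by
  refine ⟨{ M := E.M.map (tauP i)
            B := (E.B i).map (tauP i)
            stable := ?_
            ind := ?_ }, rfl⟩
  · intro p I
    have h := congrArg (tauP i) (E.stable i p I)
    rw [map_add, map_mul, tauP_pderiv] at h
    rw [convS_tens, Matrix.map_apply]
    have h1 : (E.M.map (tauP i) * (tens r (A i)).map (tauP i)) p I =
        tauP i ((E.M * tens r (A i)) p I) := by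
      rw [Matrix.mul_apply, Matrix.mul_apply, map_sum]
      refine Finset.sum_congr rfl fun J _ => ?_
      rw [map_mul, Matrix.map_apply, Matrix.map_apply]
    have h2 : ((E.B i).map (tauP i) * E.M.map (tauP i)) p I =
        tauP i ((E.B i * E.M) p I) := by
      rw [Matrix.mul_apply, Matrix.mul_apply, map_sum]
      refine Finset.sum_congr rfl fun J _ => ?_
      rw [map_mul, Matrix.map_apply, Matrix.map_apply]
    rw [h1, h2, ← h]
  · intro f hf
    obtain ⟨d, hd, Q, hQ⟩ := tauP_clear i f
    have h1 : Matrix.vecMul Q E.M = 0 := by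
      funext I
      apply tauP_injective i
      rw [Pi.zero_apply, map_zero]
      have h2 := congrFun hf I
      rw [Pi.zero_apply] at h2
      unfold Matrix.vecMul dotProduct at h2 ⊢
      rw [map_sum]
      have h3 : ∀ p, tauP i (Q p * E.M p I) =
          Polynomial.C (algebraMap (MvPolynomial {l : Fin m // l ≠ i} k) (Ki k i) d) *
            (f p * (E.M.map (tauP i)) p I) := by
        intro p
        rw [map_mul, hQ, Matrix.map_apply, mul_assoc]
      simp only [h3]
      rw [← Finset.mul_sum, h2, mul_zero]
    have h2 := E.ind Q h1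
    funext p
    have h3 := hQ p
    rw [h2, Pi.zero_apply, map_zero] at h3
    rcases mul_eq_zero.1 h3.symm with h4 | h4
    · exfalso
      rw [Polynomial.C_eq_zero] at h4
      apply hd
      exact (map_eq_zero_iff _ (IsFractionRing.injective (MvPolynomial {l : Fin m // l ≠ i} k)
        (Ki k i))).1 h4
    · exact h4

end Pool.Agent.Helper79.BB
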