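import Pool.Agent.Helper79.BB.KDefs

/-!
# BB-32: the universal identities over `κ` at complex points

Let `E` be at least the total degrees of `T` and `A r r'`. For a polynomial `P ∈ κ[X_1, …, X_m]` of total degree `≤ E` there is `P^h ∈ κ[y]` with `aeval y P^h = q^E * aeval (ptK ω y) P` for every field
`F ⊇ κ` and `y : Pk m J → F` with `q = y (inr ()) ≠ 0` (`MvPolynomial.induction_on'`, or `P^h = ∑_e c_e (∏_l (∑_j y_(l,j) ω_j)^(e_l)) q^(E - |e|)`). The hypothesis `hM`, multiplied by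
`Θ q · q^E T(x)`, is `aeval yK P = 0` for the polynomial `P = Θ ω_(j₀) ω_j A^h - q T^h ∑ M_((j, r), (j', r')) ω_(j')` over `κ` (`Θ`, `M` have coefficients in `ℚ ⊆ κ`: `MvPolynomial.map`), so `P = 0` by
`ModK.ind`; evaluate at `y'` and divide by `q'^E`.
-/

open Polynomial

namespace Pool.Agent.Helper79.BB

open Pool.Agent.Helper79.AA Pool.Agent.Helper79.GX Pool.Agent.Helper64.Per

/-- Homogenisation. -/
theorem kIdent_hom {κ : IntermediateField ℚ Qbar} {J : Type} [Fintype J] (ω : J → κ) {m : ℕ}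
    (P : MvPolynomial (Fin m) κ) :
    ∃ (E : ℕ) (Ph : MvPolynomial (Pk m J) κ), ∀ (F : Type) [Field F] [Algebra κ F]
      (y : Pk m J → F), y (Sum.inr ()) ≠ 0 →
      MvPolynomial.aeval y Ph = y (Sum.inr ()) ^ E * MvPolynomial.aeval (ptK ω y) P := by
  induction P using MvPolynomial.induction_on with
  | C a =>
    refine ⟨0, MvPolynomial.C a, ?_⟩
    intro F _ _ y hy
    simp
  | add p q hp hq =>
    obtain ⟨E1, P1, h1⟩ := hp
    obtain ⟨E2, P2, h2⟩ := hq
    refine ⟨E1 + E2, P1 * MvPolynomial.X (Sum.inr ()) ^ E2 +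
      P2 * MvPolynomial.X (Sum.inr ()) ^ E1, ?_⟩
    intro F _ _ y hy
    simp only [map_add, map_mul, map_pow, MvPolynomial.aeval_X]
    rw [h1 F y hy, h2 F y hy]
    ring
  | mul_X p i hp =>
    obtain ⟨E1, P1, h1⟩ := hp
    refine ⟨E1 + 1, P1 * ∑ j, MvPolynomial.X (Sum.inl (i, j)) * MvPolynomial.C (ω j), ?_⟩
    intro F _ _ y hy
    simp only [map_mul, map_sum, MvPolynomial.aeval_X, MvPolynomial.aeval_C]
    rw [h1 F y hy]
    simp only [ptK]
    field_simp
    ring

variable {κ : IntermediateField ℚ Qbar} {J : Type} [Fintype J] [DecidableEq J] {ω : J → κ}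
  {m : ℕ} {j₀ : J} {k L : Type} [Field k] [CharZero k] [Algebra (MvPolynomial (Pk m J) ℚ) k]
  [Field L] [CharZero L] [Algebra k L] [Algebra κ L] {Dk : Fin m → Derivation ℚ k k}
  {D : Fin m → Derivation ℚ L L} (h : ModK ω m j₀ Dk D)

theorem kIdent_aeval (m : ℕ) (J k L : Type) [Field k] [CharZero k]
    [Algebra (MvPolynomial (Pk m J) ℚ) k] [Field L] [CharZero L] [Algebra k L]
    (Θ : MvPolynomial (Pk m J) ℚ) :
    algebraMap k L (algebraMap (MvPolynomial (Pk m J) ℚ) k Θ) =
      MvPolynomial.aeval (yK m J k L) Θ := by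
  have h1 : (algebraMap k L).comp (algebraMap (MvPolynomial (Pk m J) ℚ) k) =
      ((MvPolynomial.aeval (yK m J k L) : MvPolynomial (Pk m J) ℚ →ₐ[ℚ] L) :
        MvPolynomial (Pk m J) ℚ →+* L) := by
    apply MvPolynomial.ringHom_ext
    · intro r
      have h2 : ((algebraMap k L).comp (algebraMap (MvPolynomial (Pk m J) ℚ) k)).comp
          (MvPolynomial.C) = (algebraMap ℚ L) := Subsingleton.elim _ _
      have h3 := RingHom.congr_fun h2 r
      simp only [RingHom.comp_apply] at h3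
      simp only [RingHom.comp_apply, h3, RingHom.coe_coe, MvPolynomial.aeval_C]
    · intro p
      simp only [RingHom.comp_apply, RingHom.coe_coe, MvPolynomial.aeval_X]
      rfl
  exact RingHom.congr_fun h1 Θ

include h

theorem modK_ident {β : Type} [Fintype β] [DecidableEq β] {T : MvPolynomial (Fin m) κ}
    (hT : T ≠ 0) (htrx : AlgebraicIndependent κ (ptK ω (yK m J k L)))
    {A : Matrix β β (MvPolynomial (Fin m) κ)} {Θ : MvPolynomial (Pk m J) ℚ}
    (hΘ : Θ ≠ 0) {M : Matrix (J × β) (J × β) (MvPolynomial (Pk m J) ℚ)}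
    (hM : ∀ (j : J) (r r' : β),
      algebraMap κ L (ω j) * (algebraMap κ L (ω j₀) / yK m J k L (Sum.inr ()) *
          (MvPolynomial.aeval (ptK ω (yK m J k L)) (A r r') /
            MvPolynomial.aeval (ptK ω (yK m J k L)) T)) =
      ∑ j', algebraMap k L (algebraMap (MvPolynomial (Pk m J) ℚ) k (M (j, r) (j', r')) /
        algebraMap (MvPolynomial (Pk m J) ℚ) k Θ) * algebraMap κ L (ω j'))
    (y' : Pk m J → ℂ) (hq : y' (Sum.inr ()) ≠ 0) (j : J) (r r' : β) :
    MvPolynomial.aeval y' Θ * algebraMap κ ℂ (ω j₀) * (algebraMap κ ℂ (ω j) *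
      MvPolynomial.aeval (ptK ω y') (A r r')) =
    y' (Sum.inr ()) * MvPolynomial.aeval (ptK ω y') T *
      ∑ j', MvPolynomial.aeval y' (M (j, r) (j', r')) * algebraMap κ ℂ (ω j') := by
  obtain ⟨E1, A1, hA1⟩ := kIdent_hom ω (A r r')
  obtain ⟨E2, T1, hT1⟩ := kIdent_hom ω T
  have hTx : MvPolynomial.aeval (ptK ω (yK m J k L)) T ≠ 0 := by
    intro h0
    exact hT (htrx.eq_zero_of_aeval_eq_zero T h0)
  have hΘL : MvPolynomial.aeval (yK m J k L) Θ ≠ 0 := by
    rw [← kIdent_aeval]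
    have := h.frac
    intro h0
    rw [map_eq_zero] at h0
    exact hΘ ((IsFractionRing.injective (MvPolynomial (Pk m J) ℚ) k) (by rw [h0, map_zero]))
  have hqL : yK m J k L (Sum.inr ()) ≠ 0 := by
    have h0 := h.ind.ne_zero (Sum.inr ())
    exact h0
  set P : MvPolynomial (Pk m J) κ :=
    MvPolynomial.map (algebraMap ℚ κ) Θ * MvPolynomial.C (ω j₀) * (MvPolynomial.C (ω j) *
      (A1 * MvPolynomial.X (Sum.inr ()) ^ E2)) -
    MvPolynomial.X (Sum.inr ()) * (T1 * MvPolynomial.X (Sum.inr ()) ^ E1) *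
      ∑ j', MvPolynomial.map (algebraMap ℚ κ) (M (j, r) (j', r')) * MvPolynomial.C (ω j') with hP
  have hPF : ∀ (F : Type) [Field F] [CharZero F] [Algebra κ F] (y : Pk m J → F),
      y (Sum.inr ()) ≠ 0 →
      MvPolynomial.aeval y P = y (Sum.inr ()) ^ (E1 + E2) * 
      (MvPolynomial.aeval y Θ * algebraMap κ F (ω j₀) * (algebraMap κ F (ω j) *
      MvPolynomial.aeval (ptK ω y) (A r r')) -
    y (Sum.inr ()) * MvPolynomial.aeval (ptK ω y) T *
      ∑ j', MvPolynomial.aeval y (M (j, r) (j', r')) * algebraMap κ F (ω j')) := by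
    intro F _ _ _ y hy
    rw [hP]
    simp only [map_sub, map_mul, map_pow, map_sum, MvPolynomial.aeval_X, MvPolynomial.aeval_C,
      MvPolynomial.aeval_map_algebraMap]
    rw [hA1 F y hy, hT1 F y hy]
    ring
  have hP0 : P = 0 := by
    apply h.ind.eq_zero_of_aeval_eq_zero P
    rw [hPF L (yK m J k L) hqL]
    have h1 := hM j r r'
    have h2 : ∀ j', algebraMap k L (algebraMap (MvPolynomial (Pk m J) ℚ) k (M (j, r) (j', r')) /
        algebraMap (MvPolynomial (Pk m J) ℚ) k Θ) * algebraMap κ L (ω j') =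
        (MvPolynomial.aeval (yK m J k L) (M (j, r) (j', r')) * algebraMap κ L (ω j')) /
          MvPolynomial.aeval (yK m J k L) Θ := by
      intro j'
      rw [map_div₀, kIdent_aeval, kIdent_aeval]
      ring
    simp only [h2] at h1
    rw [← Finset.sum_div, eq_div_iff hΘL] at h1
    rw [← h1]
    field_simp
    ring
  have h3 := hPF ℂ y' hq
  rw [hP0, map_zero] at h3
  have h4 := (mul_eq_zero.mp h3.symm).resolve_left (pow_ne_zero _ hq)
  have h5 := sub_eq_zero.mp h4
  convert h5 using 2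

end Pool.Agent.Helper79.BB
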