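import Pool.Agent.Helper79.BB.KDefs
import Pool.Agent.Helper79.AA.ModPG

/-!
# BB-31: properties of the model over `κ`

* `modK_PG`: copy of `AA/ModPG.lean` (or `BB/ModPG.lean`) with `pderiv (dirK j₀ i)`.
* `yK_ne`: `yK` is algebraically independent.
* `ptK_der`: quotient rule: `D_i (yK p) = δ_(p, dirK j₀ i)` (`ModK.ext`, `ModK.der`).
* `ptK_ind`: if `P(x) = 0`, `P ≠ 0` of minimal total degree in `κ[X_1, …, X_m]`, then applying `D_i` gives `(∂_i P)(x) ω_(j₀) / q = 0`, so `∂_i P = 0` for all `i` by minimality and `P` is constant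
  (characteristic `0`), a contradiction. (`BB/Mod0.lean` contains a proof of the same statement for its point: copy it. `hω : ω j₀ ≠ 0`.)
-/

open Polynomial

namespace Pool.Agent.Helper79.BB

open Pool.Agent.Helper79.CU Pool.Agent.Helper79.SE Pool.Agent.Helper79.GA Pool.Agent.Helper64.Per

private theorem kprops_chain {κ L : Type} [Field κ] [Field L] [CharZero L] [Algebra κ L] {m : ℕ}
    (D : Derivation ℚ L L) (hc : ∀ c : κ, D (algebraMap κ L c) = 0) (x : Fin m → L) (c : L)
    (i : Fin m) (hD : ∀ l, D (x l) = if l = i then c else 0) (P : MvPolynomial (Fin m) κ) :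
    D (MvPolynomial.aeval x P) = MvPolynomial.aeval x (MvPolynomial.pderiv i P) * c := by
  induction P using MvPolynomial.induction_on with
  | C a => rw [MvPolynomial.aeval_C, hc, MvPolynomial.pderiv_C, map_zero, zero_mul]
  | add p q hp hq => rw [map_add, map_add, hp, hq, map_add, map_add, add_mul]
  | mul_X p l hp =>
    rw [map_mul, MvPolynomial.aeval_X, D.leibniz, hp, hD, Derivation.leibniz, map_add]
    by_cases hl : l = i
    · subst hl
      rw [if_pos rfl, MvPolynomial.pderiv_X_self]
      simp only [smul_eq_mul, mul_one, map_mul, MvPolynomial.aeval_X]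
      ring
    · rw [if_neg hl, MvPolynomial.pderiv_X_of_ne hl]
      simp only [smul_eq_mul, mul_zero, map_zero, zero_add, map_mul, MvPolynomial.aeval_X]
      ring

private theorem kprops_trx {κ L : Type} [Field κ] [CharZero κ] [Field L] [CharZero L]
    [Algebra κ L] {m : ℕ} (D : Fin m → Derivation ℚ L L)
    (hκ : ∀ i (c : κ), D i (algebraMap κ L c) = 0) (x : Fin m → L) (c : L) (hc : c ≠ 0)
    (hD : ∀ i l, D i (x l) = if l = i then c else 0) : AlgebraicIndependent κ x := by
  have key : ∀ n : ℕ, ∀ P : MvPolynomial (Fin m) κ, (∀ s ∈ P.support, s.degree < n) →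
      MvPolynomial.aeval x P = 0 → P = 0 := by
    intro n
    induction n with
    | zero =>
      intro P hP _
      rw [← MvPolynomial.support_eq_empty]
      exact Finset.eq_empty_of_forall_notMem fun s hs => absurd (hP s hs) (Nat.not_lt_zero _)
    | succ n ih =>
      intro P hP h0
      have h1 : ∀ i, MvPolynomial.pderiv i P = 0 := by
        intro i
        refine ih _ ?_ ?_
        · intro s hs
          rw [MvPolynomial.mem_support_iff, MvPolynomial.coeff_pderiv] at hs
          have h2 := hP (s + Finsupp.single i 1)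
            (MvPolynomial.mem_support_iff.2 fun h => hs (by rw [h]; simp))
          rw [map_add, Finsupp.degree_single] at h2
          omega
        · have h2 := kprops_chain (D i) (hκ i) x c i (hD i) P
          rw [h0, map_zero] at h2
          exact (mul_eq_zero.1 h2.symm).resolve_right hc
      have h2 : P = MvPolynomial.C (MvPolynomial.coeff 0 P) := by
        refine MvPolynomial.ext _ _ fun s => ?_
        rw [MvPolynomial.coeff_C]
        by_cases hs : 0 = s
        · rw [if_pos hs, hs]
        · rw [if_neg hs]
          obtain ⟨i, hi⟩ : ∃ i, s i ≠ 0 := by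
            by_contra hcon
            push Not at hcon
            exact hs (Finsupp.ext fun i => (hcon i).symm)
          have h3 := congrArg (MvPolynomial.coeff (s - Finsupp.single i 1)) (h1 i)
          rw [MvPolynomial.coeff_pderiv, MvPolynomial.coeff_zero] at h3
          have h4 : s - Finsupp.single i 1 + Finsupp.single i 1 = s :=
            tsub_add_cancel_of_le (Finsupp.single_le_iff.2 (Nat.one_le_iff_ne_zero.2 hi))
          rw [h4] at h3
          refine (mul_eq_zero.1 h3).resolve_right ?_
          exact Nat.cast_add_one_ne_zero _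
      rw [h2, MvPolynomial.aeval_C] at h0
      rw [h2, (algebraMap κ L).injective (h0.trans (map_zero _).symm), MvPolynomial.C_0]
  refine algebraicIndependent_iff.2 fun P hP => key (P.totalDegree + 1) P (fun s hs => ?_) hP
  exact Nat.lt_succ_of_le (MvPolynomial.le_totalDegree hs)

variable {κ : IntermediateField ℚ Qbar} {J : Type} [Fintype J] [DecidableEq J] {ω : J → κ}
  {m : ℕ} {j₀ : J} {k L : Type} [Field k] [CharZero k] [Algebra (MvPolynomial (Pk m J) ℚ) k]
  [Field L] [CharZero L] [Algebra k L] [Algebra κ L] {Dk : Fin m → Derivation ℚ k k}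
  {D : Fin m → Derivation ℚ L L} (h : ModK ω m j₀ Dk D)

include h

theorem modK_PG (i : Fin m) : ∀ f : L, PG (tL (D i) f) := by
  have hfr := h.frac
  have hfin := h.fin
  have hpoly : ∀ P : MvPolynomial (Pk m J) ℚ,
      PG (tLH (Dk i) (algebraMap (MvPolynomial (Pk m J) ℚ) k P)) := by
    intro P
    induction P using MvPolynomial.induction_on with
    | C c =>
      have h1 : Dk i (algebraMap (MvPolynomial (Pk m J) ℚ) k (MvPolynomial.C c)) = 0 := by
        rw [h.der, MvPolynomial.pderiv_C, map_zero]
      rw [tLH_apply, tL_const (Dk i) h1]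
      exact PG_C _
    | add p q hp hq =>
      rw [map_add, map_add]
      exact PG_add hp hq
    | mul_X p l hp =>
      rw [map_mul, map_mul]
      refine PG_mul hp ?_
      rw [tLH_apply]
      by_cases hl : l = dirK j₀ i
      · have h1 : Dk i (algebraMap (MvPolynomial (Pk m J) ℚ) k (MvPolynomial.X l)) = 1 := by
          rw [h.der, hl, MvPolynomial.pderiv_X_self, map_one]
        rw [tL_var (Dk i) h1]
        exact PG_add (PG_C _) (PG_single _ _)
      · have h1 : Dk i (algebraMap (MvPolynomial (Pk m J) ℚ) k (MvPolynomial.X l)) = 0 := by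
          rw [h.der, MvPolynomial.pderiv_X_of_ne (fun h2 => hl h2), map_zero]
        rw [tL_const (Dk i) h1]
        exact PG_C _
  have hk : ∀ f : k, PG (tL (Dk i) f) := by
    intro f
    obtain ⟨a, b, hb, rfl⟩ := IsFractionRing.div_surjective (A := MvPolynomial (Pk m J) ℚ) f
    rw [← tLH_apply, map_div₀, div_eq_mul_inv]
    exact PG_mul (hpoly a) (PG_inv (hpoly b))
  exact alg_tame (F := k) (L := L) (D := Dk i) (D' := D i) (h.ext i) hk

theorem yK_ne (p : Pk m J) : yK m J k L p ≠ 0 := h.ind.ne_zero p

private theorem yK_der (i : Fin m) (p : Pk m J) :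
    D i (yK m J k L p) = if p = dirK j₀ i then 1 else 0 := by
  change D i (algebraMap k L (algebraMap (MvPolynomial (Pk m J) ℚ) k (MvPolynomial.X p))) = _
  rw [h.ext, h.der]
  by_cases hp : p = dirK j₀ i
  · rw [if_pos hp, hp, MvPolynomial.pderiv_X_self, map_one, map_one]
  · rw [if_neg hp, MvPolynomial.pderiv_X_of_ne hp, map_zero, map_zero]

theorem ptK_der (i l : Fin m) : D i (ptK ω (yK m J k L) l) =
    if l = i then algebraMap κ L (ω j₀) / yK m J k L (Sum.inr ()) else 0 := by
  have hnum : D i (∑ j, yK m J k L (Sum.inl (l, j)) * algebraMap κ L (ω j)) =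
      if l = i then algebraMap κ L (ω j₀) else 0 := by
    rw [map_sum]
    have hterm : ∀ j : J, D i (yK m J k L (Sum.inl (l, j)) * algebraMap κ L (ω j)) =
        (if l = i then (if j = j₀ then algebraMap κ L (ω j₀) else 0) else 0) := by
      intro j
      rw [Derivation.leibniz, h.const, yK_der h]
      by_cases hl : l = i
      · by_cases hj : j = j₀
        · subst hl
          subst hj
          simp [smul_eq_mul]
        · rw [if_pos hl, if_neg hj, if_neg]
          · simp
          · intro h'
            apply hj
            have := Sum.inl.inj h'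
            exact (Prod.ext_iff.1 this).2
      · rw [if_neg hl, if_neg]
        · simp
        · intro h'
          apply hl
          have := Sum.inl.inj h'
          exact (Prod.ext_iff.1 this).1
    rw [Finset.sum_congr rfl fun j _ => hterm j]
    by_cases hl : l = i
    · simp [hl]
    · simp [hl]
  have hdq : D i (yK m J k L (Sum.inr ())) = 0 := by
    rw [yK_der h, if_neg (fun h' => by cases h')]
  change D i ((∑ j, yK m J k L (Sum.inl (l, j)) * algebraMap κ L (ω j)) /
    yK m J k L (Sum.inr ())) = _
  rw [div_eq_mul_inv, Derivation.leibniz, hnum, Derivation.leibniz_inv, hdq, smul_zero,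
    smul_zero, zero_add, smul_eq_mul]
  by_cases hl : l = i
  · rw [if_pos hl, if_pos hl, div_eq_mul_inv]
    ring
  · rw [if_neg hl, if_neg hl, mul_zero]

theorem ptK_ind (hω : ω j₀ ≠ 0) : AlgebraicIndependent κ (ptK ω (yK m J k L)) := by
  have hω0 : algebraMap κ L (ω j₀) ≠ 0 := fun h0 =>
    hω ((algebraMap κ L).injective (h0.trans (map_zero _).symm))
  exact kprops_trx D h.const _ _ (div_ne_zero hω0 (yK_ne h _)) fun i l => ptK_der h i l

end Pool.Agent.Helper79.BB
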