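import Pool.Agent.Helper79.BB.KDefs
import Pool.Agent.Helper79.BB.SpecM

/-!
# BB-33: the parameters of a point over `κ` as parameters with `D = 0`

All elementary. `spec_rename`: both sides are homomorphisms (`MvPolynomial.algHom_ext`), `embK p = dirM j₀ i ↔ p = dirK j₀ i`. `extK a` is the extension by `0`.
-/

open Polynomial

namespace Pool.Agent.Helper79.BB

open Pool.Agent.Helper79.AA Pool.Agent.Helper79.GX Pool.Agent.Helper64.Per

/-- Extension by `0`. -/
def extK {m : ℕ} {J : Type} {R : Type} [Zero R] (a : Pk m J → R) : Px m 0 J → R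
  | Sum.inl _ => 0
  | Sum.inr (Sum.inl (i, (_, j))) => a (Sum.inl (i, j))
  | Sum.inr (Sum.inr _) => a (Sum.inr ())

section

variable {J : Type} [DecidableEq J] {m : ℕ} (j₀ : J)

theorem embK_injective : Function.Injective (embK (m := m) (J := J)) := by
  intro p q h
  rcases p with ⟨i, j⟩ | ⟨⟩ <;> rcases q with ⟨i', j'⟩ | ⟨⟩
  · have h1 : (i, ((0 : Fin (0 + 1)), j)) = (i', ((0 : Fin (0 + 1)), j')) :=
      Sum.inl.inj (Sum.inr.inj h)
    have h2 := congrArg Prod.fst h1
    have h3 := congrArg (fun x : Fin m × (Fin (0 + 1) × J) => x.2.2) h1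
    simp only at h2 h3
    rw [h2, h3]
  · exact absurd (Sum.inr.inj h) (by intro h'; cases h')
  · exact absurd (Sum.inr.inj h) (by intro h'; cases h')
  · rfl

private theorem krename_iff (i : Fin m) (p : Pk m J) :
    (embK p : Px m 0 J) = dirM j₀ i ↔ p = dirK j₀ i := by
  constructor
  · intro h
    exact embK_injective (h.trans (rfl : (dirM j₀ i : Px m 0 J) = embK (dirK j₀ i)))
  · rintro rfl
    rfl

theorem extK_embK {R : Type} [Zero R] (a : Pk m J → R) (p : Pk m J) : extK a (embK p) = a p := by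
  rcases p with ⟨i, j⟩ | ⟨⟩ <;> rfl

theorem spec_rename (i : Fin m) (a : Px m 0 J → ℤ) (P : MvPolynomial (Pk m J) ℚ) :
    spec (dirM j₀ i) a (MvPolynomial.rename embK P) =
      spec (dirK j₀ i) (fun p => a (embK p)) P := by
  have h : (spec (dirM j₀ i) a).comp (MvPolynomial.rename embK) =
      spec (dirK j₀ i) (fun p => a (embK p)) := by
    apply MvPolynomial.algHom_ext
    intro p
    rw [AlgHom.comp_apply, MvPolynomial.rename_X, spec, spec, MvPolynomial.aeval_X,
      MvPolynomial.aeval_X]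
    by_cases hp : p = dirK j₀ i
    · rw [if_pos hp, if_pos ((krename_iff j₀ i p).2 hp)]
    · rw [if_neg hp, if_neg (fun h => hp ((krename_iff j₀ i p).1 h))]
  exact congrArg (fun f => f P) h

theorem pt_embK (i : Fin m) (a : Px m 0 J → ℤ) (u : ℤ) (p : Pk m J) :
    pt (dirK j₀ i) (fun p => a (embK p)) u p = pt (dirM j₀ i) a u (embK p) := by
  unfold pt
  by_cases hp : p = dirK j₀ i
  · rw [if_pos hp, if_pos ((krename_iff j₀ i p).2 hp)]
  · rw [if_neg hp, if_neg (fun h => hp ((krename_iff j₀ i p).1 h))]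

/-- The extension of a shifted point. -/
theorem shM_extK (a : Pk m J → ℤ) (u : Fin m → ℤ) :
    shM j₀ (extK a) u = extK (fun p => a p + ∑ i, if p = dirK j₀ i then u i else 0) := by
  funext p
  rcases p with l | ⟨i, ⟨k, j⟩⟩ | ⟨⟩
  · change (0 : ℤ) + (∑ i, if (Sum.inl l : Px m 0 J) = dirM j₀ i then u i else 0) = 0
    rw [Finset.sum_eq_zero fun i _ => if_neg (by intro h; cases h), add_zero]
  · have hk : k = 0 := Fin.ext (by have := k.isLt; rw [Fin.val_zero]; omega)
    subst hk
    change a (Sum.inl (i, j)) + (∑ i', if embK (Sum.inl (i, j) : Pk m J) = dirM j₀ i' then u i'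
      else 0) = a (Sum.inl (i, j)) + ∑ i', if (Sum.inl (i, j) : Pk m J) = dirK j₀ i' then u i'
      else 0
    refine congrArg (fun x => a (Sum.inl (i, j)) + x) (Finset.sum_congr rfl fun i' _ => ?_)
    by_cases hp : (Sum.inl (i, j) : Pk m J) = dirK j₀ i'
    · rw [if_pos hp, if_pos ((krename_iff j₀ i' _).2 hp)]
    · rw [if_neg hp, if_neg (fun h => hp ((krename_iff j₀ i' _).1 h))]
  · change a (Sum.inr ()) + (∑ i', if embK (Sum.inr () : Pk m J) = dirM j₀ i' then u i'
      else 0) = a (Sum.inr ()) + ∑ i', if (Sum.inr () : Pk m J) = dirK j₀ i' then u i'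
      else 0
    refine congrArg (fun x => a (Sum.inr ()) + x) (Finset.sum_congr rfl fun i' _ => ?_)
    by_cases hp : (Sum.inr () : Pk m J) = dirK j₀ i'
    · rw [if_pos hp, if_pos ((krename_iff j₀ i' _).2 hp)]
    · rw [if_neg hp, if_neg (fun h => hp ((krename_iff j₀ i' _).1 h))]

section

variable {κ : IntermediateField ℚ Qbar} [Fintype J] {L : Type} [Field L] [Algebra κ L]

theorem ptM_embK (ω : J → κ) (y : Px m 0 J → L) (t : L) :
    ptM ω y t = ptK ω (fun p => y (embK p)) := by
  funext i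
  change (∑ l : Fin (0 + 1) × J, y (Sum.inr (Sum.inl (i, l))) * algebraMap κ L (ω l.2) *
    t ^ (l.1 : ℕ)) / y (Sum.inr (Sum.inr ())) =
    (∑ j, y (Sum.inr (Sum.inl (i, (0, j)))) * algebraMap κ L (ω j)) / y (Sum.inr (Sum.inr ()))
  rw [Fintype.sum_prod_type]
  simp

theorem FvM_extK (ω : J → κ) (y : Pk m J → L) (t : L) : FvM ω (extK y) t = 0 := by
  unfold FvM
  refine Finset.sum_eq_zero fun l _ => ?_
  change (0 : L) * _ * _ = 0
  rw [zero_mul, zero_mul]

end

end

end Pool.Agent.Helper79.BB
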