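import Pool.Agent.Helper79.BB.UDefs

/-!
# BB-16: the subfield of the coordinates

As `AA/Mod1.lean` (copy its proof), `k = FractionRing (MvPolynomial (Px m dg J) ℚ)` with the homomorphism to `L` given by `Mod0M.ind`; `Dk i` is the restriction of `D i`.
`L` is generated over `k` by `t` (algebraic over `k(κ)`: root of the polynomial `∑_l y_(inl l) ω_(l.2) X^(l.1)`) and `κ`. This polynomial is not `0`: otherwise its coefficient of degree `1`,
`∑_j y_(inl (1, j)) ω_j` (here `dg ≥ 1`), is `0`; apply `gen` to the polynomial `∑_j X_(some (inl (1, j))) ω_j`, `t' = 1`, `y'_(inl (1, j₀)) = 1`,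
`y'_(inl (0, j₀)) = -1`, the other coordinates `0` (`FvM ω y' 1 = 0`): `ω_(j₀) = 0`, a contradiction with `ω.ne_zero j₀`.
-/

open Polynomial

namespace Pool.Agent.Helper79.BB

open Pool.Agent.Helper79.AA Pool.Agent.Helper79.GX Pool.Agent.Helper64.Per

section core

variable {κ : IntermediateField ℚ Qbar} [FiniteDimensional ℚ κ] {J : Type} [Fintype J]
    [DecidableEq J] (ω : Module.Basis J ℚ κ) {m dg : ℕ} {j₀ : J} {L : Type} [Field L] [CharZero L]
    [Algebra κ L] {D : Fin m → Derivation ℚ L L} {t : L} {y : Px m dg J → L}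

private theorem mod1M_der (h : Mod0M (fun j => ω j) m dg j₀ D t y) (i : Fin m)
    (P : MvPolynomial (Px m dg J) ℚ) :
    D i (MvPolynomial.aeval y P) =
      MvPolynomial.aeval y (MvPolynomial.pderiv (dirM j₀ i) P) := by
  classical
  induction P using MvPolynomial.induction_on with
  | C q =>
    rw [MvPolynomial.aeval_C, MvPolynomial.pderiv_C, map_zero, Derivation.map_algebraMap]
  | add p q hp hq => rw [map_add, map_add, map_add, map_add, hp, hq]
  | mul_X p l hp =>
    rw [map_mul, MvPolynomial.aeval_X, Derivation.leibniz, hp, h.der, Derivation.leibniz,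
      MvPolynomial.pderiv_X, map_add]
    simp only [smul_eq_mul, map_mul, MvPolynomial.aeval_X]
    by_cases hi : l = dirM j₀ i
    · subst hi
      simp
    · rw [if_neg hi, Pi.single_eq_of_ne' (Ne.symm hi)]
      simp

private theorem mod1M_one_ne (h : Mod0M (fun j => ω j) m dg j₀ D t y) (hdg : 1 ≤ dg) :
    ∑ j : J, algebraMap κ L (ω j) * y (Sum.inl (⟨1, by omega⟩, j)) ≠ 0 := by
  intro h0
  have h1lt : 1 < dg + 1 := by omega
  have h1 := h.gen (∑ j : J, MvPolynomial.C (ω j) *
    MvPolynomial.X (some (Sum.inl ((⟨1, h1lt⟩ : Fin (dg + 1)), j)))) (by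
      rw [map_sum, ← h0]
      refine Finset.sum_congr rfl fun j _ => ?_
      rw [map_mul, MvPolynomial.aeval_C, MvPolynomial.aeval_X]
      rfl) 1 (fun p => match p with
        | Sum.inl l => if l.2 = j₀ then (if (l.1 : ℕ) = 1 then 1 else if (l.1 : ℕ) = 0 then -1
            else 0) else 0
        | Sum.inr _ => 0) (by
      unfold FvM
      simp only [one_pow, mul_one, ite_mul, zero_mul, one_mul, neg_mul]
      rw [Fintype.sum_prod_type]
      simp only [Finset.sum_ite_eq', Finset.mem_univ, if_true]
      have hsplit : ∀ x : Fin (dg + 1), (if (x : ℕ) = 1 then algebraMap κ ℂ (ω j₀)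
          else if (x : ℕ) = 0 then -algebraMap κ ℂ (ω j₀) else 0) =
          (if x = ⟨1, by omega⟩ then algebraMap κ ℂ (ω j₀) else 0) +
          (if x = ⟨0, by omega⟩ then -algebraMap κ ℂ (ω j₀) else 0) := by
        intro x
        by_cases h1 : (x : ℕ) = 1
        · have h2 : x = ⟨1, by omega⟩ := Fin.ext h1
          have h3 : x ≠ ⟨0, by omega⟩ := by
            intro h4
            have := congrArg Fin.val h4
            simp only at this
            omega
          rw [if_pos h1, if_pos h2, if_neg h3, add_zero]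
        · have h2 : x ≠ ⟨1, by omega⟩ := fun h4 => h1 (congrArg Fin.val h4)
          rw [if_neg h1, if_neg h2, zero_add]
          by_cases h5 : (x : ℕ) = 0
          · rw [if_pos h5, if_pos (Fin.ext h5)]
          · rw [if_neg h5, if_neg fun h4 => h5 (congrArg Fin.val h4)]
      rw [Finset.sum_congr rfl fun x _ => hsplit x, Finset.sum_add_distrib,
        Finset.sum_ite_eq' Finset.univ, Finset.sum_ite_eq' Finset.univ,
        if_pos (Finset.mem_univ _), if_pos (Finset.mem_univ _), add_neg_cancel])
  rw [map_sum] at h1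
  simp only [map_mul, MvPolynomial.aeval_C, MvPolynomial.aeval_X, Option.elim_some,
    mul_ite, mul_one, mul_zero] at h1
  rw [Finset.sum_ite_eq' Finset.univ, if_pos (Finset.mem_univ _)] at h1
  exact ω.ne_zero j₀ ((map_eq_zero (algebraMap κ ℂ)).mp h1)

variable {k : Type} [Field k] [CharZero k] [Algebra (MvPolynomial (Px m dg J) ℚ) k]
    [IsFractionRing (MvPolynomial (Px m dg J) ℚ) k] [Algebra k L]

private theorem mod1M_exD (h : Mod0M (fun j => ω j) m dg j₀ D t y)
    (hk : ∀ P, algebraMap k L (algebraMap (MvPolynomial (Px m dg J) ℚ) k P) =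
      MvPolynomial.aeval y P) (i : Fin m) (c : k) :
    ∃ c' : k, algebraMap k L c' = D i (algebraMap k L c) := by
  obtain ⟨x, z, hz, rfl⟩ := IsFractionRing.div_surjective (MvPolynomial (Px m dg J) ℚ) c
  refine ⟨(algebraMap (MvPolynomial (Px m dg J) ℚ) k z)⁻¹ ^ 2 *
    (algebraMap (MvPolynomial (Px m dg J) ℚ) k z *
      algebraMap (MvPolynomial (Px m dg J) ℚ) k (MvPolynomial.pderiv (dirM j₀ i) x) -
    algebraMap (MvPolynomial (Px m dg J) ℚ) k x *
      algebraMap (MvPolynomial (Px m dg J) ℚ) k (MvPolynomial.pderiv (dirM j₀ i) z)), ?_⟩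
  rw [map_div₀, Derivation.leibniz_div]
  simp only [map_mul, map_pow, map_inv₀, map_sub, hk, smul_eq_mul, mod1M_der ω h]

private theorem mod1M_alg_t (h : Mod0M (fun j => ω j) m dg j₀ D t y) (hdg : 1 ≤ dg)
    (hk : ∀ P, algebraMap k L (algebraMap (MvPolynomial (Px m dg J) ℚ) k P) =
      MvPolynomial.aeval y P) (hκ : ∀ c : κ, IsAlgebraic k (algebraMap κ L c)) :
    IsAlgebraic k t := by
  have hmem : ∀ l : Fin (dg + 1) × J, y (Sum.inl l) * algebraMap κ L (ω l.2) ∈
      algebraicClosure k L := by
    intro l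
    apply mul_mem
    · have h1 := hk (MvPolynomial.X (Sum.inl l))
      rw [MvPolynomial.aeval_X] at h1
      rw [← h1]
      exact (algebraicClosure k L).algebraMap_mem _
    · exact mem_algebraicClosure_iff.mpr (hκ _)
  have h2 : IsAlgebraic (algebraicClosure k L) t := by
    refine ⟨∑ l : Fin (dg + 1) × J, Polynomial.C (⟨_, hmem l⟩ : algebraicClosure k L) *
      Polynomial.X ^ (l.1 : ℕ), ?_, ?_⟩
    · intro h0
      apply mod1M_one_ne ω h hdg
      have h3 := congrArg (fun p => ((Polynomial.coeff p 1 : algebraicClosure k L) : L)) h0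
      simp only [Polynomial.finsetSum_coeff, Polynomial.coeff_C_mul, Polynomial.coeff_X_pow,
        Polynomial.coeff_zero, mul_ite, mul_one, mul_zero] at h3
      have h4 : ((0 : algebraicClosure k L) : L) = 0 := rfl
      rw [h4] at h3
      rw [← h3]
      rw [Fintype.sum_prod_type]
      have h5 : ∀ x : Fin (dg + 1), (∑ j : J, if 1 = ((x, j).1 : ℕ) then
          (⟨_, hmem (x, j)⟩ : algebraicClosure k L) else 0) =
          if x = ⟨1, by omega⟩ then (∑ j : J, (⟨_, hmem (x, j)⟩ : algebraicClosure k L)) else 0 := by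
        intro x
        by_cases hx : x = ⟨1, by omega⟩
        · rw [if_pos hx]
          refine Finset.sum_congr rfl fun j _ => ?_
          rw [if_pos]
          rw [hx]
        · rw [if_neg hx]
          refine Finset.sum_eq_zero fun j _ => ?_
          rw [if_neg]
          intro h6
          exact hx (Fin.ext h6.symm)
      rw [Finset.sum_congr rfl fun x _ => h5 x, Finset.sum_ite_eq' Finset.univ,
        if_pos (Finset.mem_univ _)]
      rw [AddSubmonoidClass.coe_finsetSum]
      refine Finset.sum_congr rfl fun j _ => ?_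
      exact mul_comm _ _
    · simp only [map_sum, map_mul, Polynomial.aeval_C, map_pow, Polynomial.aeval_X]
      rw [← h.eqn]
      apply Finset.sum_congr rfl
      intro l _
      rfl
  exact h2.restrictScalars k

private theorem mod1M_core (h : Mod0M (fun j => ω j) m dg j₀ D t y) (hdg : 1 ≤ dg)
    (hk : ∀ P, algebraMap k L (algebraMap (MvPolynomial (Px m dg J) ℚ) k P) =
      MvPolynomial.aeval y P) :
    ∃ Dk : Fin m → Derivation ℚ k k, ModM (fun j => ω j) m dg j₀ Dk D t := by
  classical
  choose F hF using mod1M_exD ω h hk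
  have hinj : Function.Injective (algebraMap k L) := (algebraMap k L).injective
  let F0 : Fin m → (k →+ k) := fun i =>
    { toFun := F i
      map_zero' := by
        apply hinj
        rw [hF]
        simp
      map_add' := fun x z => by
        apply hinj
        rw [hF, map_add, map_add, map_add, hF, hF] }
  let Dk : Fin m → Derivation ℚ k k := fun i => Derivation.mk' (F0 i).toRatLinearMap (by
    intro x z
    apply hinj
    change algebraMap k L (F i (x * z)) = algebraMap k L (x • F i z + z • F i x)
    rw [hF, map_mul, Derivation.leibniz]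
    simp only [smul_eq_mul, map_add, map_mul, hF])
  have hDk : ∀ i c, Dk i c = F i c := fun _ _ => rfl
  have hX : ∀ i, algebraMap k L (algebraMap (MvPolynomial (Px m dg J) ℚ) k (MvPolynomial.X i)) = y i := by
    intro i
    rw [hk, MvPolynomial.aeval_X]
  have hyM : yM m dg J k L = y := by
    funext p
    exact hX p
  have hκ : ∀ c : κ, IsAlgebraic k (algebraMap κ L c) := by
    intro c
    have h1 : IsAlgebraic ℚ c := Algebra.IsAlgebraic.isAlgebraic c
    have h2 : IsAlgebraic ℚ (algebraMap κ L c) := h1.algebraMap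
    exact h2.tower_top k
  have ht : IsAlgebraic k t := mod1M_alg_t ω h hdg hk hκ
  -- the expansion of an element of `κ`
  have hexp : ∀ (W : Submodule k L) (n : ℕ), (∀ j, algebraMap κ L (ω j) * t ^ n ∈ W) →
      ∀ c : κ, algebraMap κ L c * t ^ n ∈ W := by
    intro W n hW c
    have h1 : algebraMap κ L c = ∑ j, (ω.repr c j) • algebraMap κ L (ω j) := by
      conv_lhs => rw [← ω.sum_repr c]
      rw [map_sum]
      apply Finset.sum_congr rfl
      intro j _
      exact map_rat_smul (algebraMap κ L) _ _
    rw [h1, Finset.sum_mul]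
    apply Submodule.sum_mem
    intro j _
    rw [smul_mul_assoc]
    exact Submodule.smul_of_tower_mem W _ (hW j)
  let M0 : Submonoid L :=
    { carrier := {x | ∃ (c : κ) (n : ℕ), x = algebraMap κ L c * t ^ n}
      one_mem' := ⟨1, 0, by simp⟩
      mul_mem' := by
        rintro _ _ ⟨c, n, rfl⟩ ⟨c', n', rfl⟩
        refine ⟨c * c', n + n', ?_⟩
        rw [map_mul, pow_add]
        ring }
  have hM0 : ∀ (c : κ) (n : ℕ), algebraMap κ L c * t ^ n ∈ M0 := fun c n => ⟨c, n, rfl⟩
  set A0 : Subalgebra k L := Algebra.adjoin k (M0 : Set L) with hA0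
  have hA0span : Subalgebra.toSubmodule A0 = Submodule.span k (M0 : Set L) := by
    rw [hA0, Algebra.adjoin_eq_span, Submonoid.closure_eq]
  have hA0alg : ∀ x ∈ A0, IsAlgebraic k x := by
    intro x hx
    have h1 : A0 ≤ (algebraicClosure k L).toSubalgebra := by
      apply Algebra.adjoin_le
      rintro _ ⟨c, n, rfl⟩
      change _ ∈ algebraicClosure k L
      exact mul_mem (mem_algebraicClosure_iff.mpr (hκ c))
        (pow_mem (mem_algebraicClosure_iff.mpr ht) n)
    exact mem_algebraicClosure_iff.mp (h1 hx)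
  have hpoly : ∀ P : MvPolynomial (Option (Px m dg J)) κ,
      MvPolynomial.aeval (fun o => o.elim t y) P ∈ A0 := by
    intro P
    induction P using MvPolynomial.induction_on with
    | C c =>
      rw [MvPolynomial.aeval_C]
      have := Algebra.subset_adjoin (R := k) (hM0 c 0)
      rwa [pow_zero, mul_one] at this
    | add p q hp hq => rw [map_add]; exact add_mem hp hq
    | mul_X p o hp =>
      rw [map_mul, MvPolynomial.aeval_X]
      refine mul_mem hp ?_
      cases o with
      | none =>
        have := Algebra.subset_adjoin (R := k) (hM0 1 1)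
        rwa [map_one, one_mul, pow_one] at this
      | some i =>
        change y i ∈ A0
        rw [← hX i]
        exact A0.algebraMap_mem _
  have hA0top : A0 = ⊤ := by
    rw [eq_top_iff]
    intro f _
    obtain ⟨P, Q, _, hf⟩ := h.quo f
    rw [hf, div_eq_mul_inv]
    refine mul_mem (hpoly P) ?_
    exact Subalgebra.inv_mem_of_algebraic A0 (x := ⟨_, hpoly Q⟩) (hA0alg _ (hpoly Q))
  refine ⟨Dk, ?_⟩
  refine ⟨inferInstance, ?_, ?_, ?_, h.const, h.dt, ?_, ?_, ?_, ?_⟩
  · -- finite
    set S : Set L := insert t (Set.range fun j => algebraMap κ L (ω j)) with hS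
    have hSfin : S.Finite := (Set.finite_range _).insert t
    have hSint : ∀ x ∈ S, IsIntegral k x := by
      intro x hx
      rcases hx with rfl | ⟨j, rfl⟩
      · exact ht.isIntegral
      · exact (hκ _).isIntegral
    have hStop : Algebra.adjoin k S = ⊤ := by
      rw [eq_top_iff, ← hA0top, hA0]
      apply Algebra.adjoin_le
      rintro _ ⟨c, n, rfl⟩
      have htS : t ∈ Algebra.adjoin k S := Algebra.subset_adjoin (Set.mem_insert _ _)
      exact hexp (Subalgebra.toSubmodule (Algebra.adjoin k S)) n
        (fun j => (Algebra.adjoin k S).mul_mem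
        (Algebra.subset_adjoin (Set.mem_insert_of_mem _ ⟨j, rfl⟩)) (pow_mem htS n)) c
    have hfg := fg_adjoin_of_finite hSfin hSint
    rw [hStop, Algebra.top_toSubmodule] at hfg
    exact ⟨hfg⟩
  · intro i P
    apply hinj
    rw [hDk, hF, hk, hk, mod1M_der ω h]
  · intro i c
    rw [hDk, hF]
  · rw [hyM]
    exact h.trx
  · rw [hyM]
    exact h.eqn
  · rw [eq_top_iff, ← Algebra.top_toSubmodule, ← hA0top, hA0span, Submodule.span_le]
    rintro _ ⟨c, n, rfl⟩
    exact hexp (Submodule.span k (Set.range fun p : J × ℕ => algebraMap κ L (ω p.1) * t ^ p.2)) n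
      (fun j => Submodule.subset_span ⟨(j, n), rfl⟩) c
  · rw [hyM]
    exact h.gen

end core

theorem exists_mod1M {κ : IntermediateField ℚ Qbar} [FiniteDimensional ℚ κ] {J : Type}
    [Fintype J] [DecidableEq J] (ω : Module.Basis J ℚ κ) {m dg : ℕ} (hdg : 1 ≤ dg) {j₀ : J}
    {L : Type} [Field L] [CharZero L] [Algebra κ L] {D : Fin m → Derivation ℚ L L} {t : L}
    {y : Px m dg J → L} (h : Mod0M (fun j => ω j) m dg j₀ D t y) :
    ∃ (k : Type) (_ : Field k) (_ : CharZero k) (_ : Algebra (MvPolynomial (Px m dg J) ℚ) k)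
      (_ : Algebra k L) (Dk : Fin m → Derivation ℚ k k),
      ModM (fun j => ω j) m dg j₀ Dk D t := by
  have hinj : Function.Injective (MvPolynomial.aeval y : MvPolynomial (Px m dg J) ℚ →ₐ[ℚ] L) := h.ind
  have hinj' : Function.Injective
      ((MvPolynomial.aeval y : MvPolynomial (Px m dg J) ℚ →ₐ[ℚ] L) : MvPolynomial (Px m dg J) ℚ →+* L) :=
    hinj
  let k := FractionRing (MvPolynomial (Px m dg J) ℚ)
  let φ : k →+* L := IsFractionRing.lift hinj'
  let _ : Algebra k L := φ.toAlgebra
  have hk : ∀ P, algebraMap k L (algebraMap (MvPolynomial (Px m dg J) ℚ) k P) =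
      MvPolynomial.aeval y P := fun P => IsFractionRing.lift_algebraMap hinj' P
  obtain ⟨Dk, hDk⟩ := mod1M_core ω h hdg hk
  exact ⟨k, inferInstance, inferInstance, inferInstance, inferInstance, Dk, hDk⟩

end Pool.Agent.Helper79.BB
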