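import Pool.Agent.Helper79.BB.MPol
import Pool.Agent.Helper79.AA.Hom
import Pool.Agent.Helper79.AA.Chain

/-!
# BB-18: the pull-back to the universal point

`K_i = κ(X_l, l ≠ i)` embeds in `L` by `X_l ↦ x_l` (`hx`; `IsFractionRing.lift` of `MvPolynomial.aeval`, `RingHom.toAlgebra`), `D` vanishes on the image (quotients of polynomials in the `x_l`, `l ≠ i`, over `κ`),
and `x_i` is transcendental over `K_i` (if `q(x_i) = 0`, `q ∈ K_i[X]`, `q ≠ 0`: by `tauP_clear` `C d * q = tauP i Q`, and `0 = aeval (x i) (tauP i Q) = aeval x Q` (`tauP_aeval`), `Q = 0` by `hx`, a contradiction).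
So `exists_hom hu …` of `AA/Hom.lean` (with `k = K_i`) gives `φ : K → L`, `φ u = x_i`, `φ (aeval u p) = aeval (x_i) p`, `D (φ f) = D x_i * φ (Du f)`. Now use
`chain φ … hPG ht` of `AA/Chain.lean`, and `φ (aeval u (tauP i P)) = aeval (x i) (tauP i P) = aeval x P`.
-/

open Polynomial

namespace Pool.Agent.Helper79.BB

open Pool.Agent.Helper79.CU Pool.Agent.Helper79.SE Pool.Agent.Helper79.GA Pool.Agent.Helper79.AA

theorem tame_pull {κ : Type} [Field κ] {m : ℕ} (i : Fin m) {K : Type} [Field K] [CharZero K]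
    [Algebra (Ki κ i) K] {u : K} {Du : Derivation ℚ K K} (hu : RatX (Ki κ i) u Du) {L : Type}
    [Field L] [CharZero L] [Algebra κ L] {D : Derivation ℚ L L} {x : Fin m → L}
    (hx : AlgebraicIndependent κ x) (hc : ∀ c : κ, D (algebraMap κ L c) = 0)
    (hD : ∀ l, l ≠ i → D (x l) = 0) (hPG : PG (tL D (x i))) {β : Type} [Fintype β]
    [DecidableEq β] {A : Matrix β β (MvPolynomial (Fin m) κ)} {T : MvPolynomial (Fin m) κ}
    (ht : TameM Du (fun r r' => aeval u (tauP i (A r r')) / aeval u (tauP i T))) :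
    TameM D (fun r r' => D (x i) * (MvPolynomial.aeval x (A r r') / MvPolynomial.aeval x T)) := by
  classical
  let g : MvPolynomial {l : Fin m // l ≠ i} κ →+* L :=
    (MvPolynomial.aeval (fun l : {l : Fin m // l ≠ i} => x l) :
      MvPolynomial {l : Fin m // l ≠ i} κ →ₐ[κ] L).toRingHom
  have hg : Function.Injective g := hx.comp (Subtype.val : {l : Fin m // l ≠ i} → Fin m) Subtype.val_injective
  letI : Algebra (Ki κ i) L := (IsFractionRing.lift (K := Ki κ i) hg).toAlgebra
  have hlift : ∀ d, algebraMap (Ki κ i) L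
      (algebraMap (MvPolynomial {l : Fin m // l ≠ i} κ) (Ki κ i) d) =
      MvPolynomial.aeval (fun l : {l : Fin m // l ≠ i} => x l) d :=
    fun d => IsFractionRing.lift_algebraMap hg d
  have hcc : ∀ c : κ, algebraMap (Ki κ i) L (algebraMap κ (Ki κ i) c) = algebraMap κ L c := by
    intro c
    have h1 : algebraMap κ (Ki κ i) c = algebraMap (MvPolynomial {l : Fin m // l ≠ i} κ) (Ki κ i)
        (MvPolynomial.C c) := by
      rw [← MvPolynomial.algebraMap_eq, ← IsScalarTower.algebraMap_apply]
    rw [h1, hlift, MvPolynomial.aeval_C]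
  have hxx : ∀ l (h : l ≠ i), algebraMap (Ki κ i) L (algebraMap
      (MvPolynomial {l : Fin m // l ≠ i} κ) (Ki κ i) (MvPolynomial.X ⟨l, h⟩)) = x l := by
    intro l h
    rw [hlift, MvPolynomial.aeval_X]
  have hDpol : ∀ d : MvPolynomial {l : Fin m // l ≠ i} κ,
      D (MvPolynomial.aeval (fun l : {l : Fin m // l ≠ i} => x l) d) = 0 := by
    intro d
    induction d using MvPolynomial.induction_on with
    | C c => rw [MvPolynomial.aeval_C]; exact hc c
    | add p q hp hq => rw [map_add, map_add, hp, hq, add_zero]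
    | mul_X p n hp =>
      rw [map_mul, MvPolynomial.aeval_X, Derivation.leibniz, hp, hD n n.2, smul_zero, smul_zero,
        add_zero]
  have hDc : ∀ c : Ki κ i, D (algebraMap (Ki κ i) L c) = 0 := by
    intro c
    obtain ⟨a, b, hb, rfl⟩ := IsFractionRing.div_surjective
      (A := MvPolynomial {l : Fin m // l ≠ i} κ) c
    have hb0 : MvPolynomial.aeval (fun l : {l : Fin m // l ≠ i} => x l) b ≠ 0 := by
      intro h0
      apply nonZeroDivisors.ne_zero hb
      apply hg
      rw [map_zero]
      exact h0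
    rw [map_div₀, hlift, hlift]
    have h1 := congrArg D (div_mul_cancel₀
      (MvPolynomial.aeval (fun l : {l : Fin m // l ≠ i} => x l) a) hb0)
    rw [Derivation.leibniz, hDpol, hDpol, smul_zero, zero_add, smul_eq_mul] at h1
    exact (mul_eq_zero.1 h1).resolve_left hb0
  have htr : Transcendental (Ki κ i) (x i) := by
    rintro ⟨q, hq, hq0⟩
    obtain ⟨d, hd, Q, hQ⟩ := mpol_clear_one i q
    have h1 : aeval (x i) (tauP i Q) = 0 := by rw [hQ, map_mul, hq0, mul_zero]
    rw [tauP_aeval i hcc hxx] at h1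
    have h2 : Q = 0 := by
      apply hx
      rw [h1, map_zero]
    rw [h2, map_zero] at hQ
    have h3 := mul_eq_zero.1 hQ.symm
    rcases h3 with h3 | h3
    · rw [Polynomial.C_eq_zero] at h3
      exact hd ((IsFractionRing.injective (MvPolynomial {l : Fin m // l ≠ i} κ) (Ki κ i))
        (by rw [h3, map_zero]))
    · exact hq h3
  obtain ⟨φ, -, h2, h3⟩ := exists_hom hu hDc htr
  have h4 := chain φ h3 hPG ht
  have h5 : ∀ P : MvPolynomial (Fin m) κ, φ (aeval u (tauP i P)) = MvPolynomial.aeval x P := by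
    intro P
    rw [h2, tauP_aeval i hcc hxx]
  have h6 : (fun r r' => D (x i) * φ (aeval u (tauP i (A r r')) / aeval u (tauP i T))) =
      fun r r' => D (x i) * (MvPolynomial.aeval x (A r r') / MvPolynomial.aeval x T) := by
    funext r r'
    rw [map_div₀, h5, h5]
  rw [← h6]
  exact h4

end Pool.Agent.Helper79.BB
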