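import Pool.Agent.Helper79.BB.Mod0
import Pool.Agent.Helper79.BB.Mod1
import Pool.Agent.Helper79.BB.ModPG
import Pool.Agent.Helper79.BB.UHom
import Pool.Agent.Helper79.BB.Ident
import Pool.Agent.Helper79.AA.Univ

/-!
# BB: the universal push-forward (assembly, helper79)
-/

open Polynomial

namespace Pool.Agent.Helper79.BB

open Pool.Agent.Helper79.CU Pool.Agent.Helper79.SE Pool.Agent.Helper79.GA
  Pool.Agent.Helper79.GX Pool.Agent.Helper79.AA Pool.Agent.Helper64.Per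

/-- The growth condition is monotone in the rate. -/
theorem gr_mono {ι : Type} [Fintype ι] [DecidableEq ι] {T : ℚ[X]} {A : Matrix ι ι ℚ[X]} {u : ℚ}
    {Q Q' : ℝ} (h : Gr T A u Q) (h0 : 0 ≤ Q) (hQ : Q ≤ Q') : Gr T A u Q' := by
  obtain ⟨C, hC⟩ := h
  have hC0 : 0 ≤ C := by
    obtain ⟨q, hq0, hq, -⟩ := hC 0
    rw [pow_zero, mul_one] at hq
    exact le_trans (Nat.cast_nonneg _) hq
  refine ⟨C, fun J => ?_⟩
  obtain ⟨q, hq0, hq, hj⟩ := hC J
  exact ⟨q, hq0, hq.trans (mul_le_mul_of_nonneg_left (pow_le_pow_left₀ h0 hQ _) hC0),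
    fun j hjJ a b => ⟨(hj j hjJ a b).1, (hj j hjJ a b).2.trans
      (mul_le_mul_of_nonneg_left (pow_le_pow_left₀ h0 hQ _) hC0)⟩⟩

theorem exists_uniM {κ : IntermediateField ℚ Qbar} [FiniteDimensional ℚ κ] {J : Type} [Fintype J]
    [DecidableEq J] (ω : Module.Basis J ℚ κ) {m dg : ℕ} (hdg : 1 ≤ dg) (j₀ : J) {β : Type}
    [Fintype β] [DecidableEq β] {T : MvPolynomial (Fin m) κ} (hT : T ≠ 0)
    {A : Fin m → Matrix β β (MvPolynomial (Fin m) κ)}
    (htame : ∀ i : Fin m, ∃ (K : Type) (_ : Field K) (_ : CharZero K) (_ : Algebra (Ki κ i) K)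
      (u : K) (Du : Derivation ℚ K K), RatX (Ki κ i) u Du ∧
        TameM Du (fun r r' => aeval u (tauP i (A i r r')) / aeval u (tauP i T))) :
    Nonempty (UniM (fun j => ω j) dg j₀ T A) := by
  classical
  obtain ⟨L, _, _, _, DL, t, y, h0⟩ := exists_mod0M (ω := fun j => ω j) (fun j => ω.ne_zero j) m
    hdg j₀
  obtain ⟨k, _, _, _, _, Dk, h⟩ := exists_mod1M ω hdg h0
  set x : Fin m → L := ptM (fun j => ω j) (yM m dg J k L) t with hx
  have hPG := fun i => modM_PG h i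
  have hder := ptM_der h
  have hchain : ∀ i, TameM (DL i) (fun r r' => DL i (x i) *
      (MvPolynomial.aeval x (A i r r') / MvPolynomial.aeval x T)) := by
    intro i
    obtain ⟨K, _, _, _, u, Du, hu, ht⟩ := htame i
    exact tame_pull i hu h.trx (h.const i) (fun l hl => by rw [hder, if_neg hl]) (hPG i (x i)) ht
  have := h.fin
  have := h.frac
  -- the basis
  set v : J × ℕ → L := fun p => algebraMap κ L (ω p.1) * t ^ p.2 with hv
  obtain ⟨Γ, bb, hinj, hspan, hli⟩ := exists_linearIndependent' k v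
  have hΓ : Finite Γ := hli.finite_of_isNoetherian
  have fΓ : Fintype Γ := Fintype.ofFinite Γ
  have hspan' : ⊤ ≤ Submodule.span k (Set.range (v ∘ bb)) := by
    rw [hspan, h.span]
  set b : Module.Basis Γ k L := Module.Basis.mk hli hspan' with hb
  have hbv : ∀ γ, b γ = v (bb γ) := fun γ => by
    rw [hb, Module.Basis.mk_apply]
    rfl
  have hDv : ∀ i p, DL i (v p) = 0 := by
    intro i p
    rw [hv]
    simp only
    rw [Derivation.leibniz, Derivation.leibniz_pow, h.const, h.dt]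
    simp
  have hpush := fun i => tame_push (h.ext i) (hPG i) b (hchain i)
  set α' : Fin m → Matrix (Γ × β) (Γ × β) k := fun i p q =>
    b.repr ((if p.2 = q.2 then DL i (b p.1) else 0) + b p.1 *
      (DL i (x i) * (MvPolynomial.aeval x (A i p.2 q.2) / MvPolynomial.aeval x T))) q.1 with hα'
  have hden := fun i => exists_den (h.der i) (hpush i)
  choose Θ₀ hΘ₀ cc H hden using hden
  -- the common denominator
  obtain ⟨Θ₁, hΘ₁⟩ := IsLocalization.exist_integer_multiples_of_finite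
    (nonZeroDivisors (MvPolynomial (Px m dg J) ℚ))
    (Sum.elim (fun x : Fin m × (Γ × β) × (Γ × β) => α' x.1 x.2.1 x.2.2)
      (fun x : (J × Fin (dg + 1)) × Γ => b.repr (v (x.1.1, x.1.2)) x.2))
  have hΘ₁0 : (Θ₁ : MvPolynomial (Px m dg J) ℚ) ≠ 0 := nonZeroDivisors.ne_zero Θ₁.2
  set R := MvPolynomial (Px m dg J) ℚ with hR
  have hinjR : Function.Injective (algebraMap R k) := IsFractionRing.injective R k
  have hM₁ : ∀ i x y, ∃ P : R, algebraMap R k P = algebraMap R k Θ₁ * α' i x y := by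
    intro i x y
    obtain ⟨P, hP⟩ := hΘ₁ (Sum.inl (i, x, y))
    refine ⟨P, ?_⟩
    rw [hP, Sum.elim_inl]
    exact Algebra.smul_def _ _
  have hρ₁ : ∀ (p : J × ℕ) (γ : Γ), ∃ P : R, p.2 ≤ dg →
      algebraMap R k P = algebraMap R k Θ₁ * b.repr (v p) γ := by
    intro p γ
    by_cases hp : p.2 ≤ dg
    · obtain ⟨P, hP⟩ := hΘ₁ (Sum.inr ((p.1, ⟨p.2, by omega⟩), γ))
      refine ⟨P, fun _ => ?_⟩
      rw [hP, Sum.elim_inr]
      exact Algebra.smul_def _ _
    · exact ⟨0, fun h => absurd h hp⟩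
  choose M₁ hM₁ using hM₁
  choose ρ₁ hρ₁ using hρ₁
  set Θ₂ : R := ∏ i, MvPolynomial.map (Int.castRingHom ℚ) (Θ₀ i) with hΘ₂
  have hΘ₂0 : Θ₂ ≠ 0 := by
    rw [hΘ₂]
    refine Finset.prod_ne_zero_iff.2 fun i _ h1 => hΘ₀ i ?_
    exact (MvPolynomial.map_injective _ (RingHom.injective_int (Int.castRingHom ℚ)))
      (by rw [map_zero]; exact h1)
  set Θ : R := (Θ₁ : R) * Θ₂ with hΘ
  have hΘ0 : Θ ≠ 0 := mul_ne_zero hΘ₁0 hΘ₂0
  have hne : ∀ P : R, P ≠ 0 → algebraMap R k P ≠ 0 := fun P hP h1 =>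
    hP (hinjR (by rw [h1, map_zero]))
  set M : Fin m → Matrix (Γ × β) (Γ × β) R := fun i x y => M₁ i x y * Θ₂ with hM
  have hMα : ∀ i x y, α' i x y = algebraMap R k (M i x y) / algebraMap R k Θ := by
    intro i x y
    rw [hM, hΘ, map_mul, map_mul, hM₁, mul_div_mul_right _ _ (hne _ hΘ₂0),
      mul_div_cancel_left₀ _ (hne _ hΘ₁0)]
  have hρα : ∀ (p : J × ℕ) (γ : Γ), p.2 ≤ dg →
      b.repr (v p) γ = algebraMap R k (ρ₁ p γ * Θ₂) / algebraMap R k Θ := by
    intro p γ hp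
    rw [hΘ, map_mul (algebraMap R k), map_mul (algebraMap R k), hρ₁ p γ hp, mul_div_mul_right _ _ (hne _ hΘ₂0),
      mul_div_cancel_left₀ _ (hne _ hΘ₁0)]
  have hΘ₀' : ∀ (i : Fin m) (a : Px m dg J → ℤ),
      MvPolynomial.eval (fun i => ((a i : ℤ) : ℚ)) Θ ≠ 0 →
      MvPolynomial.eval a (Θ₀ i) ≠ 0 := by
    intro i a h1 h2
    apply h1
    rw [hΘ, map_mul, hΘ₂, map_prod]
    have h3 : MvPolynomial.eval (fun i => ((a i : ℤ) : ℚ))
        (MvPolynomial.map (Int.castRingHom ℚ) (Θ₀ i)) =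
        ((MvPolynomial.eval a (Θ₀ i) : ℤ) : ℚ) := by
      rw [MvPolynomial.eval_map]
      have := MvPolynomial.eval₂_comp_left (Int.castRingHom ℚ) (RingHom.id ℤ) a (Θ₀ i)
      simp only [RingHomCompTriple.comp_eq] at this
      rw [MvPolynomial.eval, MvPolynomial.coe_eval₂Hom]
      exact this.symm
    rw [Finset.prod_eq_zero (Finset.mem_univ i) (by rw [h3, h2, Int.cast_zero]), mul_zero]
  have hgr := fun i => gr_of (dirM j₀ i) Θ (M i) (Θ₀ i) (cc i) (H i)
    (hden i Θ (M i) hΘ0 (hMα i)) (hΘ₀' i)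
  choose c' hc' using hgr
  -- sums
  have hsum : ∀ x : L, x = ∑ γ, algebraMap k L (b.repr x γ) * v (bb γ) := by
    intro x
    conv_lhs => rw [← b.sum_repr x]
    refine Finset.sum_congr rfl fun γ _ => ?_
    rw [Algebra.smul_def, hbv]
  refine ⟨{
    Γ := Γ
    b := bb
    Θ := Θ
    Θ_ne := hΘ0
    M := M
    ρ := fun p γ => ρ₁ p γ * Θ₂
    c := ∑ i, c' i
    growth := ?_
    ident := ?_
    span := ?_ }⟩
  · intro X hX i a u ha hu
    have hX1 : (1 : ℝ) ≤ X := by exact_mod_cast (by omega : 1 ≤ X)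
    refine gr_mono (hc' i X hX a u ha hu) (by positivity) (pow_le_pow_right₀ hX1 ?_)
    exact Finset.single_le_sum (f := c') (fun _ _ => Nat.zero_le _) (Finset.mem_univ i)
  · intro t' y' hF hq i γ r r'
    refine modM_ident h bb hT hΘ0 (A := A i) (M := M i) (fun γ r r' => ?_) t' y' hF hq γ r r'
    have h1 := hsum ((if r = r' then DL i (b γ) else 0) + b γ *
      (DL i (x i) * (MvPolynomial.aeval x (A i r r') / MvPolynomial.aeval x T)))
    have h2 : (if r = r' then DL i (b γ) else 0) = 0 := by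
      rw [hbv, hDv, ite_self]
    have h3 : DL i (x i) = algebraMap κ L (ω j₀) / yM m dg J k L (Sum.inr (Sum.inr ())) := by
      rw [hx, hder, if_pos rfl]
    have h4 : algebraMap κ L (ω (bb γ).1) * t ^ (bb γ).2 *
        (algebraMap κ L (ω j₀) / yM m dg J k L (Sum.inr (Sum.inr ())) *
          (MvPolynomial.aeval (ptM (fun j => ω j) (yM m dg J k L) t) (A i r r') /
            MvPolynomial.aeval (ptM (fun j => ω j) (yM m dg J k L) t) T)) =
        (if r = r' then DL i (b γ) else 0) + b γ *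
      (DL i (x i) * (MvPolynomial.aeval x (A i r r') / MvPolynomial.aeval x T)) := by
      rw [h2, zero_add, h3, hbv]
    rw [h4, h1]
    refine Finset.sum_congr rfl fun γ' _ => ?_
    rw [← hMα i (γ, r) (γ', r')]
  · intro t' y' hF p hp
    refine modM_span h bb hΘ0 (ρ := fun γ => ρ₁ p γ * Θ₂) ?_ t' y' hF
    rw [show algebraMap κ L (ω p.1) * t ^ p.2 = v p from rfl]
    conv_lhs => rw [hsum (v p)]
    refine Finset.sum_congr rfl fun γ _ => ?_
    rw [hρα p γ hp]

end Pool.Agent.Helper79.BB
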