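import Pool.Agent.Helper79.BB.KMod
import Pool.Agent.Helper79.BB.KProps
import Pool.Agent.Helper79.BB.KIdent
import Pool.Agent.Helper79.BB.KRename
import Pool.Agent.Helper79.BB.Univ

/-!
# BB: the universal push-forward over `κ` (assembly, helper79)
-/

open Polynomial

namespace Pool.Agent.Helper79.BB

open Pool.Agent.Helper79.CU Pool.Agent.Helper79.SE Pool.Agent.Helper79.GA
  Pool.Agent.Helper79.GX Pool.Agent.Helper79.AA Pool.Agent.Helper64.Per

/-- The `ω_j` are linearly independent over `k = ℚ(y)`. -/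
theorem modK_li {κ : IntermediateField ℚ Qbar} {J : Type} [Fintype J] [DecidableEq J]
    (ω : Module.Basis J ℚ κ) {m : ℕ} {j₀ : J} {k L : Type} [Field k] [CharZero k]
    [Algebra (MvPolynomial (Pk m J) ℚ) k] [Field L] [CharZero L] [Algebra k L] [Algebra κ L]
    {Dk : Fin m → Derivation ℚ k k} {D : Fin m → Derivation ℚ L L}
    (h : ModK (fun j => ω j) m j₀ Dk D) :
    LinearIndependent k fun j : J => algebraMap κ L (ω j) := by
  classical
  have := h.frac
  rw [Fintype.linearIndependent_iff]
  intro g hg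
  obtain ⟨d, hd⟩ := IsLocalization.exist_integer_multiples_of_finite
    (nonZeroDivisors (MvPolynomial (Pk m J) ℚ)) g
  have hd0 : (d : MvPolynomial (Pk m J) ℚ) ≠ 0 := nonZeroDivisors.ne_zero d.2
  have hinjR : Function.Injective (algebraMap (MvPolynomial (Pk m J) ℚ) k) :=
    IsFractionRing.injective _ k
  choose P hP using hd
  have hP' : ∀ j, algebraMap (MvPolynomial (Pk m J) ℚ) k (P j) =
      algebraMap (MvPolynomial (Pk m J) ℚ) k d * g j := by
    intro j
    rw [hP j]
    exact Algebra.smul_def _ _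
  -- the value of a rational polynomial
  have hval : ∀ Q : MvPolynomial (Pk m J) ℚ,
      algebraMap k L (algebraMap (MvPolynomial (Pk m J) ℚ) k Q) =
      MvPolynomial.aeval (yK m J k L) (MvPolynomial.map (algebraMap ℚ κ) Q) := by
    intro Q
    induction Q using MvPolynomial.induction_on with
    | C c =>
      rw [MvPolynomial.map_C, MvPolynomial.aeval_C]
      exact DFunLike.congr_fun (Subsingleton.elim
        (((algebraMap k L).comp (algebraMap (MvPolynomial (Pk m J) ℚ) k)).comp MvPolynomial.C)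
        ((algebraMap κ L).comp (algebraMap ℚ κ))) c
    | add p q hp hq => rw [map_add, map_add, map_add, map_add, hp, hq]
    | mul_X p i hp =>
      rw [map_mul, map_mul, map_mul, map_mul, hp, MvPolynomial.map_X, MvPolynomial.aeval_X]
      rfl
  have hsum : MvPolynomial.aeval (yK m J k L)
      (∑ j, MvPolynomial.map (algebraMap ℚ κ) (P j) * MvPolynomial.C (ω j)) = 0 := by
    rw [map_sum]
    have h1 : ∀ j, MvPolynomial.aeval (yK m J k L)
        (MvPolynomial.map (algebraMap ℚ κ) (P j) * MvPolynomial.C (ω j)) =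
        algebraMap k L (algebraMap (MvPolynomial (Pk m J) ℚ) k d) *
          (g j • algebraMap κ L (ω j)) := by
      intro j
      rw [map_mul, MvPolynomial.aeval_C, ← hval, hP', map_mul, Algebra.smul_def, mul_assoc]
    rw [Finset.sum_congr rfl fun j _ => h1 j, ← Finset.mul_sum, hg, mul_zero]
  have hinj : Function.Injective (MvPolynomial.aeval (yK m J k L) :
      MvPolynomial (Pk m J) κ →ₐ[κ] L) := h.ind
  have hzero := hinj (hsum.trans (map_zero _).symm)
  have hPz : ∀ j, P j = 0 := by
    intro j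
    ext n
    have h1 := congrArg (MvPolynomial.coeff n) hzero
    rw [MvPolynomial.coeff_sum, MvPolynomial.coeff_zero] at h1
    have h2 : ∑ j, (MvPolynomial.coeff n (P j)) • ω j = 0 := by
      rw [← h1]
      refine Finset.sum_congr rfl fun j _ => ?_
      rw [mul_comm, MvPolynomial.coeff_C_mul, MvPolynomial.coeff_map, Algebra.smul_def, mul_comm]
    rw [MvPolynomial.coeff_zero]
    exact Fintype.linearIndependent_iff.1 ω.linearIndependent _ h2 j
  intro j
  have h1 := hP' j
  rw [hPz j, map_zero] at h1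
  rcases mul_eq_zero.1 h1.symm with h2 | h2
  · exact absurd (hinjR (h2.trans (map_zero _).symm)) hd0
  · exact h2

theorem exists_uniK {κ : IntermediateField ℚ Qbar} [FiniteDimensional ℚ κ] {J : Type} [Fintype J]
    [DecidableEq J] (ω : Module.Basis J ℚ κ) {m : ℕ} (j₀ : J) {β : Type}
    [Fintype β] [DecidableEq β] {T : MvPolynomial (Fin m) κ} (hT : T ≠ 0)
    {A : Fin m → Matrix β β (MvPolynomial (Fin m) κ)}
    (htame : ∀ i : Fin m, ∃ (K : Type) (_ : Field K) (_ : CharZero K) (_ : Algebra (Ki κ i) K)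
      (u : K) (Du : Derivation ℚ K K), RatX (Ki κ i) u Du ∧
        TameM Du (fun r r' => aeval u (tauP i (A i r r')) / aeval u (tauP i T))) :
    ∃ (D : UniM (fun j => ω j) 0 j₀ T A) (Θ' : MvPolynomial (Pk m J) ℚ), Θ' ≠ 0 ∧
      D.Θ = MvPolynomial.rename embK Θ' := by
  classical
  obtain ⟨k, L, _, _, _, _, _, _, _, Dk, DL, h⟩ := exists_modK ω m j₀
  set x : Fin m → L := ptK (fun j => ω j) (yK m J k L) with hx
  have hPG := fun i => modK_PG h i
  have hder := ptK_der h
  have htrx : AlgebraicIndependent κ x := ptK_ind h (ω.ne_zero j₀)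
  have hchain : ∀ i, TameM (DL i) (fun r r' => DL i (x i) *
      (MvPolynomial.aeval x (A i r r') / MvPolynomial.aeval x T)) := by
    intro i
    obtain ⟨K, _, _, _, u, Du, hu, ht⟩ := htame i
    exact tame_pull i hu htrx (h.const i) (fun l hl => by rw [hder, if_neg hl]) (hPG i (x i)) ht
  have := h.fin
  have := h.frac
  -- the basis
  set v : J → L := fun j => algebraMap κ L (ω j) with hv
  have hspan' : ⊤ ≤ Submodule.span k (Set.range v) := by
    rw [h.span]
  set b : Module.Basis J k L := Module.Basis.mk (modK_li ω h) hspan' with hb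
  have hbv : ∀ j, b j = v j := fun j => by
    rw [hb, Module.Basis.mk_apply]
  have hDv : ∀ i j, DL i (v j) = 0 := fun i j => h.const i _
  have hpush := fun i => tame_push (h.ext i) (hPG i) b (hchain i)
  set α' : Fin m → Matrix (J × β) (J × β) k := fun i p q =>
    b.repr ((if p.2 = q.2 then DL i (b p.1) else 0) + b p.1 *
      (DL i (x i) * (MvPolynomial.aeval x (A i p.2 q.2) / MvPolynomial.aeval x T))) q.1 with hα'
  have hden := fun i => exists_den (h.der i) (hpush i)
  choose Θ₀ hΘ₀ cc H hden using hden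
  -- the common denominator
  obtain ⟨Θ₁, hΘ₁⟩ := IsLocalization.exist_integer_multiples_of_finite
    (nonZeroDivisors (MvPolynomial (Pk m J) ℚ))
    (fun x : Fin m × (J × β) × (J × β) => α' x.1 x.2.1 x.2.2)
  have hΘ₁0 : (Θ₁ : MvPolynomial (Pk m J) ℚ) ≠ 0 := nonZeroDivisors.ne_zero Θ₁.2
  set R := MvPolynomial (Pk m J) ℚ with hR
  have hinjR : Function.Injective (algebraMap R k) := IsFractionRing.injective R k
  have hM₁ : ∀ i x y, ∃ P : R, algebraMap R k P = algebraMap R k Θ₁ * α' i x y := by
    intro i x y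
    obtain ⟨P, hP⟩ := hΘ₁ (i, x, y)
    refine ⟨P, ?_⟩
    rw [hP]
    exact Algebra.smul_def _ _
  choose M₁ hM₁ using hM₁
  set Θ₂ : R := ∏ i, MvPolynomial.map (Int.castRingHom ℚ) (Θ₀ i) with hΘ₂
  have hΘ₂0 : Θ₂ ≠ 0 := by
    rw [hΘ₂]
    refine Finset.prod_ne_zero_iff.2 fun i _ h1 => hΘ₀ i ?_
    exact (MvPolynomial.map_injective _ (RingHom.injective_int (Int.castRingHom ℚ)))
      (by rw [map_zero]; exact h1)
  set Θ : R := (Θ₁ : R) * Θ₂ with hΘ
  have hΘ0 : Θ ≠ 0 := mul_ne_zero hΘ₁0 hΘ₂0
  have hne : ∀ P : R, P ≠ 0 → algebraMap R k P ≠ 0 := fun P hP h1 =>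
    hP (hinjR (by rw [h1, map_zero]))
  set M : Fin m → Matrix (J × β) (J × β) R := fun i x y => M₁ i x y * Θ₂ with hM
  have hMα : ∀ i x y, α' i x y = algebraMap R k (M i x y) / algebraMap R k Θ := by
    intro i x y
    rw [hM, hΘ, map_mul, map_mul, hM₁, mul_div_mul_right _ _ (hne _ hΘ₂0),
      mul_div_cancel_left₀ _ (hne _ hΘ₁0)]
  have hΘ₀' : ∀ (i : Fin m) (a : Pk m J → ℤ),
      MvPolynomial.eval (fun i => ((a i : ℤ) : ℚ)) Θ ≠ 0 →
      MvPolynomial.eval a (Θ₀ i) ≠ 0 := by
    intro i a h1 h2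
    apply h1
    rw [hΘ, map_mul, hΘ₂, map_prod]
    have h3 : MvPolynomial.eval (fun i => ((a i : ℤ) : ℚ))
        (MvPolynomial.map (Int.castRingHom ℚ) (Θ₀ i)) =
        ((MvPolynomial.eval a (Θ₀ i) : ℤ) : ℚ) := by
      rw [MvPolynomial.eval_map]
      have := MvPolynomial.eval₂_comp_left (Int.castRingHom ℚ) (RingHom.id ℤ) a (Θ₀ i)
      simp only [RingHomCompTriple.comp_eq] at this
      rw [MvPolynomial.eval, MvPolynomial.coe_eval₂Hom]
      exact this.symm
    rw [Finset.prod_eq_zero (Finset.mem_univ i) (by rw [h3, h2, Int.cast_zero]), mul_zero]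
  have hgr := fun i => gr_of (dirK j₀ i) Θ (M i) (Θ₀ i) (cc i) (H i)
    (hden i Θ (M i) hΘ0 (hMα i)) (hΘ₀' i)
  choose c' hc' using hgr
  -- sums
  have hsum : ∀ x : L, x = ∑ γ, algebraMap k L (b.repr x γ) * v γ := by
    intro x
    conv_lhs => rw [← b.sum_repr x]
    refine Finset.sum_congr rfl fun γ _ => ?_
    rw [Algebra.smul_def, hbv]
  have hid : ∀ (y' : Pk m J → ℂ), y' (Sum.inr ()) ≠ 0 → ∀ (i : Fin m) (j : J) (r r' : β),
      MvPolynomial.aeval y' Θ * algebraMap κ ℂ (ω j₀) * (algebraMap κ ℂ (ω j) *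
        MvPolynomial.aeval (ptK (fun j => ω j) y') (A i r r')) =
      y' (Sum.inr ()) * MvPolynomial.aeval (ptK (fun j => ω j) y') T *
        ∑ j', MvPolynomial.aeval y' (M i (j, r) (j', r')) * algebraMap κ ℂ (ω j') := by
    intro y' hq i j r r'
    refine modK_ident h hT htrx hΘ0 (A := A i) (M := M i) (fun j r r' => ?_) y' hq j r r'
    have h1 := hsum ((if r = r' then DL i (b j) else 0) + b j *
      (DL i (x i) * (MvPolynomial.aeval x (A i r r') / MvPolynomial.aeval x T)))
    have h2 : (if r = r' then DL i (b j) else 0) = 0 := by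
      rw [hbv, hDv, ite_self]
    have h3 : DL i (x i) = algebraMap κ L (ω j₀) / yK m J k L (Sum.inr ()) := by
      rw [hx, hder, if_pos rfl]
    have h4 : algebraMap κ L (ω j) * (algebraMap κ L (ω j₀) / yK m J k L (Sum.inr ()) *
          (MvPolynomial.aeval (ptK (fun j => ω j) (yK m J k L)) (A i r r') /
            MvPolynomial.aeval (ptK (fun j => ω j) (yK m J k L)) T)) =
        (if r = r' then DL i (b j) else 0) + b j *
      (DL i (x i) * (MvPolynomial.aeval x (A i r r') / MvPolynomial.aeval x T)) := by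
      rw [h2, zero_add, h3, hbv]
    rw [h4, h1]
    refine Finset.sum_congr rfl fun γ' _ => ?_
    rw [← hMα i (j, r) (γ', r')]
  have hren : ∀ (y : Px m 0 J → ℂ) (P : R), MvPolynomial.aeval y (MvPolynomial.rename embK P) =
      MvPolynomial.aeval (fun p => y (embK p)) P := by
    intro y P
    rw [MvPolynomial.aeval_rename]
    rfl
  refine ⟨{
    Γ := J
    b := fun j => (j, 0)
    Θ := MvPolynomial.rename embK Θ
    Θ_ne := fun h0 => hΘ0 (MvPolynomial.rename_injective _ embK_injective
      (by rw [map_zero]; exact h0))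
    M := fun i => (M i).map (MvPolynomial.rename embK)
    ρ := fun p γ => if γ = p.1 then MvPolynomial.rename embK Θ else 0
    c := ∑ i, c' i
    growth := ?_
    ident := ?_
    span := ?_ }, Θ, hΘ0, rfl⟩
  · intro X hX i a u ha hu
    have hX1 : (1 : ℝ) ≤ X := by exact_mod_cast (by omega : 1 ≤ X)
    have e1 : spec (dirM j₀ i) a (MvPolynomial.rename embK Θ) =
        spec (dirK j₀ i) (fun p => a (embK p)) Θ := spec_rename j₀ i a Θ
    have e2 : ((M i).map (MvPolynomial.rename embK)).map (spec (dirM j₀ i) a) =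
        (M i).map (spec (dirK j₀ i) fun p => a (embK p)) := by
      ext1 x y
      rw [Matrix.map_apply, Matrix.map_apply, Matrix.map_apply]
      exact spec_rename j₀ i a _
    rw [e1, e2]
    refine gr_mono (hc' i X hX (fun p => a (embK p)) u (fun p => ?_) ?_) (by positivity)
      (pow_le_pow_right₀ hX1 ?_)
    · rw [pt_embK]
      exact ha (embK p)
    · have h1 : MvPolynomial.eval (fun p => ((pt (dirM j₀ i) a u p : ℤ) : ℚ))
          (MvPolynomial.rename embK Θ) = MvPolynomial.eval
          (fun p => ((pt (dirK j₀ i) (fun p => a (embK p)) u p : ℤ) : ℚ)) Θ := by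
        rw [MvPolynomial.eval_rename]
        congr 2
        funext p
        simp only [Function.comp_apply, pt_embK]
      rw [← h1]
      exact hu
    · exact Finset.single_le_sum (f := c') (fun _ _ => Nat.zero_le _) (Finset.mem_univ i)
  · intro t' y' _ hq i γ r r'
    have h1 := hid (fun p => y' (embK p)) hq i γ r r'
    simp only [Matrix.map_apply, hren, ptM_embK, pow_zero, mul_one]
    exact h1
  · intro t' y' _ p hp
    have hp0 : p.2 = 0 := Nat.le_zero.1 hp
    rw [Finset.sum_eq_single p.1]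
    · simp only [if_true, hp0]
    · intro γ _ hγ
      simp only [if_neg hγ, map_zero, zero_mul]
    · intro hn
      exact absurd (Finset.mem_univ _) hn

end Pool.Agent.Helper79.BB
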