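import Pool.Agent.Helper79.BB.CountMain3
import Pool.Agent.Helper79.BB.UnivK

/-!
# BB: the number of bad points over `κ` (helper79)
-/

open Polynomial

namespace Pool.Agent.Helper79.BB

open Pool.Agent.Helper79.AA Pool.Agent.Helper79.GX Pool.Agent.Helper64.Per

theorem dirK_injective {J : Type} {m : ℕ} (j₀ : J) : Function.Injective (dirK (m := m) j₀) := by
  intro a b hab
  simpa using hab

theorem card_Pk {m : ℕ} {J : Type} [Fintype J] (j₀ : J) : m + 1 ≤ Fintype.card (Pk m J) := by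
  classical
  have h1 : Function.Injective (fun o : Option (Fin m) => (o.elim (Sum.inr ())
      (fun i => dirK j₀ i) : Pk m J)) := by
    intro a b hab
    cases a with
    | none =>
      cases b with
      | none => rfl
      | some b => simp at hab
    | some a =>
      cases b with
      | none => simp at hab
      | some b => simpa using hab
  have h2 := Fintype.card_le_of_injective _ h1
  simpa using h2

/-- The shifted parameters. -/
def shK {m : ℕ} {J : Type} [DecidableEq J] {R : Type} [CommRing R] (j₀ : J) (y : Pk m J → R)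
    (u : Fin m → R) : Pk m J → R := fun p => y p + ∑ i, if p = dirK j₀ i then u i else 0

theorem shK_q {m : ℕ} {J : Type} [DecidableEq J] {R : Type} [CommRing R] (j₀ : J)
    (y : Pk m J → R) (u : Fin m → R) : shK j₀ y u (Sum.inr ()) = y (Sum.inr ()) := by
  simp [shK]

section

variable {κ : IntermediateField ℚ Qbar} {J : Type} [Fintype J] [DecidableEq J]

theorem ptK_shK {m : ℕ} (ω : J → κ) (j₀ : J) {L : Type} [Field L] [Algebra κ L]
    (y : Pk m J → L) (u : Fin m → L) : ptK ω (shK j₀ y u) = fun i => ptK ω y i +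
      algebraMap κ L (ω j₀) / y (Sum.inr ()) * u i := by
  classical
  funext i
  unfold ptK
  rw [shK_q]
  have h1 : ∑ j, shK j₀ y u (Sum.inl (i, j)) * algebraMap κ L (ω j) =
      ∑ j, y (Sum.inl (i, j)) * algebraMap κ L (ω j) + algebraMap κ L (ω j₀) * u i := by
    have h2 : ∀ j, shK j₀ y u (Sum.inl (i, j)) = y (Sum.inl (i, j)) +
        if j = j₀ then u i else 0 := by
      intro j
      rw [shK]
      congr 1
      by_cases hj : j = j₀
      · subst hj
        rw [if_pos rfl, Finset.sum_eq_single i]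
        · rw [if_pos rfl]
        · intro b _ hb
          rw [if_neg]
          intro h
          apply hb
          simp only [dirK, Sum.inl.injEq, Prod.mk.injEq, and_true] at h
          exact h.symm
        · intro h
          exact absurd (Finset.mem_univ _) h
      · rw [if_neg hj]
        refine Finset.sum_eq_zero fun l _ => ?_
        rw [if_neg]
        intro h
        simp only [dirK, Sum.inl.injEq, Prod.mk.injEq] at h
        exact hj h.2
    simp only [h2, add_mul, Finset.sum_add_distrib]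
    congr 1
    rw [Finset.sum_eq_single j₀]
    · rw [if_pos rfl, mul_comm]
    · intro j _ hj
      rw [if_neg hj, zero_mul]
    · intro h
      exact absurd (Finset.mem_univ _) h
  rw [h1, add_div, div_mul_eq_mul_div]

theorem shK_cast {m : ℕ} (j₀ : J) (a : Pk m J → ℤ) (u : Fin m → ℤ) :
    (fun p => ((shK j₀ a u p : ℤ) : ℂ)) = shK j₀ (fun p => (a p : ℂ)) (ip u) := by
  funext p
  simp only [shK, ip]
  push_cast
  congr 1

end

/-- From a bound on the fibres to a power saving. -/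
theorem pts_leK {n m : ℕ} (hmn : m ≤ n) {X : ℕ} (hX : 1 ≤ X) {C θ s : ℝ} {N : ℕ}
    (hN : (N : ℝ) ≤ C * (X : ℝ) ^ ((m : ℝ) - θ)) (hs : s ≤ (2 * X + 1) ^ (n - m) * N) :
    s ≤ (3 ^ (n - m) * C) * (X : ℝ) ^ ((n : ℝ) - θ) := by
  have h1 := pts_le hmn hX 1 hN (s := s) (by simpa using hs)
  simpa using h1

section

variable {κ : IntermediateField ℚ Qbar} {J : Type} [Fintype J] [DecidableEq J]
  (ω : Module.Basis J ℚ κ) {m : ℕ}

theorem ps_subK (j₀ : J) {T : MvPolynomial (Fin m) κ} (hT : T ≠ 0) {η : ℝ} (hη : 0 < η) :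
    PS (Fintype.card (Pk m J)) fun X => (Set.ncard {a : Pk m J → ℤ | (∀ p, |a p| ≤ X) ∧
      a (Sum.inr ()) ≠ 0 ∧
      ‖MvPolynomial.aeval (ptK (fun j => ω j) (fun p => (a p : ℂ))) T‖ ≤ (X : ℝ) ^ (-η)} :
        ℝ) := by
  classical
  have hw : 0 < ‖algebraMap κ ℂ (ω j₀)‖ := norm_pos_iff.2 (by
    rw [Ne, map_eq_zero]
    exact ω.ne_zero j₀)
  have hTC : MvPolynomial.map (algebraMap κ ℂ) T ≠ 0 := fun h0 => hT
    (MvPolynomial.map_injective _ (algebraMap κ ℂ).injective (by rw [h0, map_zero]))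
  obtain ⟨θ', C, hθ0, hθ1, hC0, hC⟩ := sublevel hTC hη hw
  have hmn : m ≤ Fintype.card (Pk m J) := le_trans (Nat.le_succ m) (card_Pk j₀)
  refine PS.of (θ := θ') (C := 3 ^ (Fintype.card (Pk m J) - m) * C) hθ0 fun X hX => ?_
  have hX1 : (1 : ℝ) ≤ X := by exact_mod_cast hX
  have hX0 : (0 : ℝ) < X := by linarith
  set N : ℕ := ⌊C * (X : ℝ) ^ ((m : ℝ) - θ')⌋₊ with hN
  refine pts_leK hmn hX (N := N) (Nat.floor_le (by positivity)) ?_
  have h1 := count_fibM (dirK (m := m) j₀) (dirK_injective j₀) X N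
    {a : Pk m J → ℤ | (∀ p, |a p| ≤ X) ∧ a (Sum.inr ()) ≠ 0 ∧
      ‖MvPolynomial.aeval (ptK (fun j => ω j) (fun p => (a p : ℂ))) T‖ ≤ (X : ℝ) ^ (-η)}
    (fun a ha => ha.1) (fun a₀ ha₀ ha₀0 => by
      change Set.ncard {u : Fin m → ℤ | shK j₀ a₀ u ∈ _} ≤ N
      by_cases hq : a₀ (Sum.inr ()) = 0
      · have h2 : {u : Fin m → ℤ | shK j₀ a₀ u ∈ {a : Pk m J → ℤ | (∀ p, |a p| ≤ X) ∧
            a (Sum.inr ()) ≠ 0 ∧
            ‖MvPolynomial.aeval (ptK (fun j => ω j) (fun p => (a p : ℂ))) T‖ ≤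
              (X : ℝ) ^ (-η)}} = ∅ := by
          rw [Set.eq_empty_iff_forall_notMem]
          rintro u ⟨-, h3, -⟩
          rw [shK_q] at h3
          exact h3 hq
        rw [h2, Set.ncard_empty]
        exact Nat.zero_le _
      · refine Nat.le_floor ?_
        set l : ℂ := algebraMap κ ℂ (ω j₀) / (a₀ (Sum.inr ()) : ℂ) with hl
        have hql : (1 : ℝ) ≤ |(a₀ (Sum.inr ()) : ℝ)| := by
          exact_mod_cast Int.one_le_abs hq
        have hqX : |(a₀ (Sum.inr ()) : ℝ)| ≤ X := by exact_mod_cast ha₀ _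
        have hlX : ‖algebraMap κ ℂ (ω j₀)‖ ≤ ‖l‖ * X := by
          rw [hl, norm_div, Complex.norm_intCast, div_mul_eq_mul_div, le_div_iff₀ (by linarith)]
          exact mul_le_mul_of_nonneg_left hqX (norm_nonneg _)
        refine le_trans ?_ (hC X hX (ptK (fun j => ω j) (fun p => (a₀ p : ℂ))) l hlX)
        have hfin : {u : Fin m → ℤ | (∀ j, |u j| ≤ X) ∧ ‖MvPolynomial.eval (fun j =>
            ptK (fun j => ω j) (fun p => (a₀ p : ℂ)) j + l * (u j : ℂ))
            (MvPolynomial.map (algebraMap κ ℂ) T)‖ ≤ (X : ℝ) ^ (-η)}.Finite :=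
          (box_card X _ fun a ha => ha.1).1
        have h2 := Set.ncard_le_ncard (s := {u : Fin m → ℤ | shK j₀ a₀ u ∈
            {a : Pk m J → ℤ | (∀ p, |a p| ≤ X) ∧ a (Sum.inr ()) ≠ 0 ∧
            ‖MvPolynomial.aeval (ptK (fun j => ω j) (fun p => (a p : ℂ))) T‖ ≤
              (X : ℝ) ^ (-η)}}) (by
            rintro u ⟨hu1, -, hu2⟩
            refine ⟨fun i => ?_, ?_⟩
            · have h3 := hu1 (dirK j₀ i)
              have h4 : shK j₀ a₀ u (dirK j₀ i) = u i := by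
                rw [shK, ha₀0, zero_add, Finset.sum_eq_single i]
                · rw [if_pos rfl]
                · intro b _ hb
                  rw [if_neg fun h => hb (dirK_injective j₀ h).symm]
                · intro h
                  exact absurd (Finset.mem_univ _) h
              rw [h4] at h3
              exact h3
            · rw [shK_cast, ptK_shK] at hu2
              rw [MvPolynomial.eval_map]
              exact hu2) hfin
        exact_mod_cast h2)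
  exact_mod_cast h1

end

section

variable {κ : IntermediateField ℚ Qbar} [FiniteDimensional ℚ κ] {J : Type} [Fintype J]
  [DecidableEq J] (ω : Module.Basis J ℚ κ) {m : ℕ} {j₀ : J} {β : Type} [Fintype β]
  [DecidableEq β] {T : MvPolynomial (Fin m) κ}
  {A : Fin m → Matrix β β (MvPolynomial (Fin m) κ)}

/-- The condition for the main part. -/
def Q4K (Θ' : MvPolynomial (Pk m J) ℚ) (T : MvPolynomial (Fin m) κ) (U V : Set (Fin m → ℂ))
    (z : (Fin m → ℂ) → β → ℂ) (η : ℝ) (X : ℕ) (a : Pk m J → ℤ) : Prop :=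
  MvPolynomial.eval (fun p => ((a p : ℤ) : ℚ)) Θ' ≠ 0 ∧
    (X : ℝ) ^ (1 - η) < |(a (Sum.inr ()) : ℝ)| ∧
    ptK (fun j => ω j) (fun p => (a p : ℂ)) ∈ V ∧
    KBadM κ U z (ptK (fun j => ω j) (fun p => (a p : ℂ))) ∧
    (X : ℝ) ^ (-η) < ‖MvPolynomial.aeval (ptK (fun j => ω j) (fun p => (a p : ℂ))) T‖

theorem q4_extK (D : UniM (fun j => ω j) 0 j₀ T A) {Θ' : MvPolynomial (Pk m J) ℚ}
    (hΘ : D.Θ = MvPolynomial.rename embK Θ') {U V : Set (Fin m → ℂ)} {z : (Fin m → ℂ) → β → ℂ}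
    {η : ℝ} {X : ℕ} (a : Pk m J → ℤ) (h : Q4K ω Θ' T U V z η X a) :
    Q4 ω D U V z η X (extK a) 0 := by
  obtain ⟨h1, h2, h3, h4, h5⟩ := h
  have e1 : ptM (fun j => ω j) (fun p => ((extK a p : ℤ) : ℂ)) 0 =
      ptK (fun j => ω j) (fun p => (a p : ℂ)) := by
    rw [ptM_embK]
    simp only [extK_embK]
  refine ⟨?_, h2, ?_, ?_, ?_, ?_⟩
  · rw [hΘ, MvPolynomial.eval_rename]
    have e2 : ((fun p => ((extK a p : ℤ) : ℚ)) ∘ embK) = fun p => ((a p : ℤ) : ℚ) := by
      funext p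
      simp only [Function.comp_apply, extK_embK]
    rw [e2]
    exact h1
  · rw [norm_zero]
    positivity
  · rw [e1]
    exact h3
  · rw [e1]
    exact h4
  · rw [e1]
    exact h5

variable (hT : T ≠ 0) (D : UniM (fun j => ω j) 0 j₀ T A) {Θ' : MvPolynomial (Pk m J) ℚ}
  (hΘ0 : Θ' ≠ 0) (hΘ : D.Θ = MvPolynomial.rename embK Θ') {U V : Set (Fin m → ℂ)}
  (hU : IsOpen U) (hU' : IsPreconnected U) {z : (Fin m → ℂ) → β → ℂ}
  (hz : ∀ i, AnalyticOnNhd ℂ (fun t => z t i) U)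
  (hode : ∀ t ∈ U, ∀ s i, MvPolynomial.aeval t T * pd s (fun t => z t i) t =
    ∑ l, MvPolynomial.aeval t (A s i l) * z t l)

include hT hU hU' hz hode hΘ

theorem ps_mainK (hm : 1 ≤ m) (hV : Deep T U V) : ∃ η : ℝ, 0 < η ∧ η < 1 ∧
    PS (Fintype.card (Pk m J)) fun X => (Set.ncard {a : Pk m J → ℤ | (∀ p, |a p| ≤ X) ∧
      Q4K ω Θ' T U V z η X a} : ℝ) := by
  classical
  obtain ⟨N, c₀, hc₀, hdeep⟩ := hV
  set δ : ℕ := D.Θ.totalDegree + ∑ i, ∑ x, ∑ y, (D.M i x y).totalDegree with hδ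
  have hδM : ∀ i x y, (D.M i x y).totalDegree ≤ δ := by
    intro i x y
    have h1 : (D.M i x y).totalDegree ≤ ∑ y, (D.M i x y).totalDegree :=
      Finset.single_le_sum (f := fun y => (D.M i x y).totalDegree) (fun _ _ => Nat.zero_le _)
        (Finset.mem_univ y)
    have h2 : ∑ y, (D.M i x y).totalDegree ≤ ∑ x, ∑ y, (D.M i x y).totalDegree :=
      Finset.single_le_sum (f := fun x => ∑ y, (D.M i x y).totalDegree)
        (fun _ _ => Nat.zero_le _) (Finset.mem_univ x)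
    have h3 : ∑ x, ∑ y, (D.M i x y).totalDegree ≤ ∑ i, ∑ x, ∑ y, (D.M i x y).totalDegree :=
      Finset.single_le_sum (f := fun i => ∑ x, ∑ y, (D.M i x y).totalDegree)
        (fun _ _ => Nat.zero_le _) (Finset.mem_univ i)
    omega
  obtain ⟨B, E, hbox⟩ := box_core m (Fintype.card (D.Γ × β)) δ (6 * D.c) hm
  have hw : 0 < ‖algebraMap κ ℂ (ω j₀)‖ := norm_pos_iff.2 (by
    rw [Ne, map_eq_zero]
    exact ω.ne_zero j₀)
  have hW0 : 0 ≤ ∑ l : Fin (0 + 1) × J, ‖algebraMap κ ℂ (ω l.2)‖ :=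
    Finset.sum_nonneg fun _ _ => norm_nonneg _
  obtain ⟨η, ε, hη, hη1, hε, X₀, hpar⟩ := paramsM E N 0 hc₀ hw hW0
  refine ⟨η, hη, hη1, ?_⟩
  set n : ℕ := Fintype.card (Pk m J) with hn
  have hmn : m + 1 ≤ n := card_Pk j₀
  refine PS.large X₀ (fun X hX => box_card' hX _ fun a ha => ha.1) (θ := ε)
    (C := 3 ^ (n - m) * (4 ^ m * B * 2)) hε fun X hX hX1 => ?_
  obtain ⟨K, R, hX2, hK2, hKX, hKE, hKR, hXR, hXK, hRd⟩ := hpar X hX
  have hx1 : (1 : ℝ) ≤ X := by exact_mod_cast hX1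
  have hx0 : (0 : ℝ) < X := by linarith
  have hK0 : (0 : ℝ) < K := by exact_mod_cast (by omega : 0 < K)
  set N₄ : ℕ := (2 * (X / K) + 2) ^ m * (B * K ^ (m - 1)) with hN₄
  refine pts_leK (by omega) hX1 (N := N₄) ?_ ?_
  · have h1 : ((2 * (X / K) + 2 : ℕ) : ℝ) ≤ 4 * ((X : ℝ) / K) := by
      have h2 : ((X / K : ℕ) : ℝ) ≤ (X : ℝ) / K := Nat.cast_div_le
      have h3 : (1 : ℝ) ≤ (X : ℝ) / K := by
        rw [le_div_iff₀ hK0, one_mul]
        exact_mod_cast hKX
      push_cast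
      linarith
    have e : (X : ℝ) ^ ((m : ℝ) - ε) = (X : ℝ) ^ (m - 1) * (X : ℝ) ^ (1 - ε) := by
      rw [← Real.rpow_natCast, Nat.cast_sub hm, Nat.cast_one, ← Real.rpow_add hx0]
      congr 1
      ring
    calc (N₄ : ℝ) = ((2 * (X / K) + 2 : ℕ) : ℝ) ^ m * (B * (K : ℝ) ^ (m - 1)) := by
          rw [hN₄]
          push_cast
          ring
      _ ≤ (4 * ((X : ℝ) / K)) ^ m * (B * (K : ℝ) ^ (m - 1)) :=
          mul_le_mul_of_nonneg_right (pow_le_pow_left₀ (by positivity) h1 _) (by positivity)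
      _ = 4 ^ m * B * ((X : ℝ) ^ (m - 1) * ((X : ℝ) / K)) := by
          obtain ⟨k, rfl⟩ : ∃ k, m = k + 1 := ⟨m - 1, by omega⟩
          rw [Nat.add_sub_cancel, mul_pow, div_pow, pow_succ (K : ℝ) k]
          have hKne : (K : ℝ) ≠ 0 := hK0.ne'
          have hKk : (K : ℝ) ^ k ≠ 0 := pow_ne_zero _ hKne
          field_simp
          ring
      _ ≤ 4 ^ m * B * ((X : ℝ) ^ (m - 1) * (2 * (X : ℝ) ^ (1 - ε))) :=
          mul_le_mul_of_nonneg_left (mul_le_mul_of_nonneg_left hXK (by positivity))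
            (by positivity)
      _ = _ := by
          rw [e]
          ring
  · have h1 := count_fibM (dirK (m := m) j₀) (dirK_injective j₀) X N₄
      {a : Pk m J → ℤ | (∀ p, |a p| ≤ X) ∧ Q4K ω Θ' T U V z η X a} (fun a ha => ha.1)
      (fun a₀ ha₀ ha₀0 => by
        change Set.ncard {u : Fin m → ℤ | shK j₀ a₀ u ∈ _} ≤ N₄
        have hdir : ∀ (u : Fin m → ℤ) i, shK j₀ a₀ u (dirK j₀ i) = u i := by
          intro u i
          rw [shK, ha₀0, zero_add, Finset.sum_eq_single i]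
          · rw [if_pos rfl]
          · intro b _ hb
            rw [if_neg fun h => hb (dirK_injective j₀ h).symm]
          · intro h
            exact absurd (Finset.mem_univ _) h
        have hext : ∀ (b : Pk m J → ℤ), (∀ p, |b p| ≤ X) → ∀ p, |extK b p| ≤ (X : ℤ) := by
          intro b hb p
          rcases p with l | l | l
          · change |(0 : ℤ)| ≤ X
            rw [abs_zero]
            exact Int.natCast_nonneg _
          · exact hb _
          · exact hb _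
        refine cube_cover X K (B * K ^ (m - 1)) (by omega) _ (fun u hu i => ?_) fun u₀ hu₀ => ?_
        · have h2 := hu.1 (dirK j₀ i)
          rwa [hdir] at h2
        · refine le_trans (Set.ncard_le_ncard ?_ (box_card K _ fun a ha => ha.1).1)
            (cube_bad ω hT D hU hU' hz hode (δ := δ) (by omega) hδM (fun {ι} => hbox) hdeep hc₀ hη
              hη1 hX2 hK2 hKX hKE hKR hXR hRd (a₀ := extK a₀) (θ := 0) (hext a₀ ha₀)
              (Or.inr ⟨rfl, rfl⟩) ?_ hu₀)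
          · rintro v ⟨hv1, hv2⟩
            have h3 : shM j₀ (extK a₀) (u₀ + v) = extK (shK j₀ a₀ (u₀ + v)) :=
              shM_extK j₀ a₀ (u₀ + v)
            refine ⟨hv1, ?_, ?_⟩
            · rw [h3]
              exact hext _ hv2.1
            · rw [h3]
              exact q4_extK ω D hΘ _ hv2.2
          · have h3 : (fun p => ((extK a₀ p : ℤ) : ℂ)) = extK fun p => (a₀ p : ℂ) := by
              funext p
              rcases p with l | l | l
              · exact Int.cast_zero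
              · rfl
              · rfl
            rw [h3]
            exact FvM_extK _ _ _)
    exact_mod_cast h1

include hΘ0 in
theorem count_K (hm : 1 ≤ m) (hV : Deep T U V) :
    PS (Fintype.card (Pk m J)) fun X => (Set.ncard {a : Pk m J → ℤ | (∀ p, |a p| ≤ X) ∧
      a (Sum.inr ()) ≠ 0 ∧ ptK (fun j => ω j) (fun p => (a p : ℂ)) ∈ V ∧
      KBadM κ U z (ptK (fun j => ω j) (fun p => (a p : ℂ)))} : ℝ) := by
  classical
  obtain ⟨η, hη, hη1, h4⟩ := ps_mainK ω hT D hΘ hU hU' hz hode hm hV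
  have hn : 1 ≤ Fintype.card (Pk m J) := le_trans (by omega) (card_Pk (m := m) j₀)
  have h0 := ps_zero (σ := Pk m J) hn hΘ0
  have h2 := ps_small (σ := Pk m J) (Sum.inr ()) hη hη1
  have h3 := ps_subK ω j₀ hT hη
  refine (((h0.add h2).add h3).add h4).mono fun X hX => ?_
  set S0 : Set (Pk m J → ℤ) := {a | (∀ j, |a j| ≤ X) ∧
      MvPolynomial.eval (fun i => ((a i : ℤ) : ℚ)) Θ' = 0} with hS0
  set S2 : Set (Pk m J → ℤ) := {a | (∀ p, |a p| ≤ X) ∧
      |(a (Sum.inr ()) : ℝ)| ≤ (X : ℝ) ^ (1 - η)} with hS2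
  set S3 : Set (Pk m J → ℤ) := {a | (∀ p, |a p| ≤ X) ∧ a (Sum.inr ()) ≠ 0 ∧
      ‖MvPolynomial.aeval (ptK (fun j => ω j) (fun p => (a p : ℂ))) T‖ ≤ (X : ℝ) ^ (-η)}
    with hS3
  set S4 : Set (Pk m J → ℤ) := {a | (∀ p, |a p| ≤ X) ∧ Q4K ω Θ' T U V z η X a} with hS4
  have hf : ∀ S : Set (Pk m J → ℤ), (∀ a ∈ S, ∀ p, |a p| ≤ X) → S.Finite :=
    fun S hS => (box_card X S hS).1
  have hf0 : S0.Finite := hf S0 fun a ha => ha.1
  have hf2 : S2.Finite := hf S2 fun a ha => ha.1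
  have hf3 : S3.Finite := hf S3 fun a ha => ha.1
  have hf4 : S4.Finite := hf S4 fun a ha => ha.1
  have hsub : {a : Pk m J → ℤ | (∀ p, |a p| ≤ X) ∧
      a (Sum.inr ()) ≠ 0 ∧ ptK (fun j => ω j) (fun p => (a p : ℂ)) ∈ V ∧
      KBadM κ U z (ptK (fun j => ω j) (fun p => (a p : ℂ)))} ⊆ ((S0 ∪ S2) ∪ S3) ∪ S4 := by
    rintro a ⟨ha, hq, hVθ, hbad⟩
    by_cases c0 : MvPolynomial.eval (fun i => ((a i : ℤ) : ℚ)) Θ' = 0
    · exact Or.inl (Or.inl (Or.inl ⟨ha, c0⟩))
    by_cases c2 : |(a (Sum.inr ()) : ℝ)| ≤ (X : ℝ) ^ (1 - η)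
    · exact Or.inl (Or.inl (Or.inr ⟨ha, c2⟩))
    by_cases c3 : ‖MvPolynomial.aeval (ptK (fun j => ω j) (fun p => (a p : ℂ))) T‖ ≤
        (X : ℝ) ^ (-η)
    · exact Or.inl (Or.inr ⟨ha, hq, c3⟩)
    push Not at c2 c3
    exact Or.inr ⟨ha, c0, c2, hVθ, hbad, c3⟩
  have g1 := Set.ncard_le_ncard hsub (((hf0.union hf2).union hf3).union hf4)
  have g2 := Set.ncard_union_le ((S0 ∪ S2) ∪ S3) S4
  have g3 := Set.ncard_union_le (S0 ∪ S2) S3
  have g4 := Set.ncard_union_le S0 S2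
  have g6 : Set.ncard {a : Pk m J → ℤ | (∀ p, |a p| ≤ X) ∧
      a (Sum.inr ()) ≠ 0 ∧ ptK (fun j => ω j) (fun p => (a p : ℂ)) ∈ V ∧
      KBadM κ U z (ptK (fun j => ω j) (fun p => (a p : ℂ)))} ≤
      S0.ncard + S2.ncard + S3.ncard + S4.ncard := by omega
  exact_mod_cast g6

end

end Pool.Agent.Helper79.BB
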