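import Mathlib

/-!
# BB-25: counting: cubes, fibres, projections

* `cube_cover`: `u ↦ (u_j / K)_j` (floor division) maps `S` to the box of the `v` with `-(X/K) - 1 ≤ v_j ≤ X/K`; the fibre over `v` is contained in `K v + {v' | |v'_j| ≤ K}` and `|K v_j| ≤ X + K`.
  `Finset.card_le_mul_card_image` or `Set.ncard` of a finite union.
* `count_fibM`: `S` is the disjoint union over the `a₀` in the box with `a₀ (e i) = 0` (at most `(2X+1)^(card σ - m)` of them: functions on the complement of the range of `e`) of the sets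
  `{a ∈ S | a = a₀ outside the range of e}`, in bijection with the sets in `hfib`.
* `count_proj`: the map `a ↦ (a ∘ inl, a ∘ inr)` is injective.
-/

namespace Pool.Agent.Helper79.BB

/-- the box -/
private noncomputable def cubeBox (σ : Type) [Fintype σ] [DecidableEq σ] (X : ℕ) : Finset (σ → ℤ) :=
  Fintype.piFinset fun _ => Finset.Icc (-(X : ℤ)) X

private lemma mem_cubeBox {σ : Type} [Fintype σ] [DecidableEq σ] {X : ℕ} {a : σ → ℤ} :
    a ∈ cubeBox σ X ↔ ∀ p, |a p| ≤ X := by
  unfold cubeBox
  rw [Fintype.mem_piFinset]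
  refine forall_congr' fun p => ?_
  rw [Finset.mem_Icc, abs_le]

private lemma card_cubeBox {σ : Type} [Fintype σ] [DecidableEq σ] {X : ℕ} :
    (cubeBox σ X).card = (2 * X + 1) ^ Fintype.card σ := by
  unfold cubeBox
  rw [Fintype.card_piFinset]
  simp only [Int.card_Icc]
  rw [Finset.prod_const, Finset.card_univ]
  congr 1
  omega

private lemma cube_fin {σ : Type} [Fintype σ] [DecidableEq σ] {X : ℕ} {S : Set (σ → ℤ)}
    (hS : ∀ a ∈ S, ∀ p, |a p| ≤ X) : S.Finite :=
  (cubeBox σ X).finite_toSet.subset fun a ha => Finset.mem_coe.2 (mem_cubeBox.2 (hS a ha))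

/-- counting by fibres -/
private lemma cube_fibre {α β : Type} [DecidableEq β] {S : Set α} (hS : S.Finite) (f : α → β)
    (T : Finset β) (N : ℕ) (hf : ∀ a ∈ S, f a ∈ T)
    (hn : ∀ b ∈ T, ({a | a ∈ S ∧ f a = b} : Set α).ncard ≤ N) : S.ncard ≤ T.card * N := by
  classical
  have h1 := Finset.card_le_mul_card_image_of_maps_to (s := hS.toFinset) (t := T) (f := f)
    (fun a ha => hf a (hS.mem_toFinset.1 ha)) N (by
      intro b hb
      have h2 := hn b hb
      have h3 : ({a | a ∈ S ∧ f a = b} : Set α) =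
          ((hS.toFinset.filter fun a => f a = b : Finset α) : Set α) := by
        ext a
        simp
      rw [h3, Set.ncard_coe_finset] at h2
      exact h2)
  rw [Set.ncard_eq_toFinset_card S hS, mul_comm]
  exact h1

theorem cube_cover {m : ℕ} (X K N : ℕ) (hK : 1 ≤ K) (S : Set (Fin m → ℤ))
    (hS : ∀ u ∈ S, ∀ i, |u i| ≤ X)
    (h : ∀ u₀ : Fin m → ℤ, (∀ i, |u₀ i| ≤ (X + K : ℕ)) →
      Set.ncard {v : Fin m → ℤ | (∀ i, |v i| ≤ K) ∧ u₀ + v ∈ S} ≤ N) :
    S.ncard ≤ (2 * (X / K) + 2) ^ m * N := by
  have hK0 : (0 : ℤ) < K := by exact_mod_cast hK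
  have hcard : (Fintype.piFinset fun _ : Fin m =>
      Finset.Icc (-((X / K : ℕ) : ℤ) - 1) ((X / K : ℕ) : ℤ)).card = (2 * (X / K) + 2) ^ m := by
    rw [Fintype.card_piFinset]
    simp only [Int.card_Icc]
    rw [Finset.prod_const, Finset.card_univ, Fintype.card_fin]
    congr 1
    omega
  rw [← hcard]
  refine cube_fibre (cube_fin hS) (fun u j => u j / (K : ℤ)) _ N ?_ ?_
  · intro u hu
    rw [Fintype.mem_piFinset]
    intro j
    have h1 := abs_le.1 (hS u hu j)
    have h2 : (X : ℤ) < K * (((X / K : ℕ) : ℤ) + 1) := by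
      exact_mod_cast Nat.lt_mul_div_succ X hK
    rw [Finset.mem_Icc]
    constructor
    · rw [Int.le_ediv_iff_mul_le hK0]
      nlinarith [h1.1]
    · have h3 : u j / (K : ℤ) ≤ (X : ℤ) / K := Int.ediv_le_ediv hK0 h1.2
      rw [Int.natCast_div]
      exact h3
  · intro v _
    by_cases hne : ({u | u ∈ S ∧ (fun j => u j / (K : ℤ)) = v} : Set (Fin m → ℤ)) = ∅
    · rw [hne, Set.ncard_empty]
      exact Nat.zero_le _
    · obtain ⟨u1, hu1, hu1v⟩ := Set.nonempty_iff_ne_empty.2 hne
      have hkey : ∀ u : Fin m → ℤ, (fun j => u j / (K : ℤ)) = v → ∀ i,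
          0 ≤ u i - K * v i ∧ u i - K * v i < K := by
        intro u hu i
        have h1 : v i = u i / (K : ℤ) := by rw [← hu]
        have h2 := Int.emod_add_mul_ediv (u i) K
        have h3 := Int.emod_nonneg (u i) hK0.ne'
        have h4 := Int.emod_lt_of_pos (u i) hK0
        rw [h1]
        constructor <;> linarith
      have hb : ∀ i, |(fun i => (K : ℤ) * v i) i| ≤ (X + K : ℕ) := by
        intro i
        have h1 := abs_le.1 (hS u1 hu1 i)
        have h2 := hkey u1 hu1v i
        show |(K : ℤ) * v i| ≤ _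
        push_cast
        rw [abs_le]
        constructor <;> linarith [h1.1, h1.2, h2.1, h2.2]
      refine le_trans ?_ (h (fun i => (K : ℤ) * v i) hb)
      refine Set.ncard_le_ncard_of_injOn (fun u => u - fun i => (K : ℤ) * v i) ?_ ?_ ?_
      · rintro u ⟨hu, huv⟩
        refine ⟨fun i => ?_, ?_⟩
        · have h2 := hkey u huv i
          show |u i - K * v i| ≤ K
          rw [abs_le]
          constructor <;> linarith [h2.1, h2.2]
        · show (fun i => (K : ℤ) * v i) + (u - fun i => (K : ℤ) * v i) ∈ S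
          rw [add_sub_cancel]
          exact hu
      · intro u _ u' _ huu
        exact sub_left_injective huu
      · exact cube_fin (X := K) fun w hw => hw.1

theorem count_fibM {σ : Type} [Fintype σ] [DecidableEq σ] {m : ℕ} (e : Fin m → σ)
    (he : Function.Injective e) (X N : ℕ) (S : Set (σ → ℤ)) (hS : ∀ a ∈ S, ∀ p, |a p| ≤ X)
    (hfib : ∀ a₀ : σ → ℤ, (∀ p, |a₀ p| ≤ X) → (∀ i, a₀ (e i) = 0) →
      Set.ncard {u : Fin m → ℤ | (fun p => a₀ p + ∑ i, if p = e i then u i else 0) ∈ S} ≤ N) :
    S.ncard ≤ (2 * X + 1) ^ (Fintype.card σ - m) * N := by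
  classical
  have hsum1 : ∀ (u : Fin m → ℤ) (j : Fin m), (∑ i, if e j = e i then u i else 0) = u j := by
    intro u j
    rw [Finset.sum_eq_single j]
    · rw [if_pos rfl]
    · intro i _ hij
      rw [if_neg (fun h => hij (he h).symm)]
    · intro h
      exact absurd (Finset.mem_univ j) h
  have hsum2 : ∀ (u : Fin m → ℤ) (p : σ), (¬ ∃ j, e j = p) →
      (∑ i, if p = e i then u i else 0) = 0 := by
    intro u p hp
    refine Finset.sum_eq_zero fun i _ => ?_
    rw [if_neg (fun h => hp ⟨i, h.symm⟩)]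
  have hcard : (Fintype.piFinset fun p : σ =>
      if (∃ j, e j = p) then ({0} : Finset ℤ) else Finset.Icc (-(X : ℤ)) X).card =
      (2 * X + 1) ^ (Fintype.card σ - m) := by
    rw [Fintype.card_piFinset]
    have h1 : ∀ p : σ, (if (∃ j, e j = p) then ({0} : Finset ℤ) else Finset.Icc (-(X : ℤ)) X).card =
        if (∃ j, e j = p) then 1 else 2 * X + 1 := by
      intro p
      split_ifs
      · rfl
      · rw [Int.card_Icc]
        omega
    rw [Finset.prod_congr rfl fun p _ => h1 p, Finset.prod_ite, Finset.prod_const_one, one_mul,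
      Finset.prod_const]
    congr 1
    have h2 : (Finset.univ.filter fun p : σ => ¬ ∃ j, e j = p) =
        (Finset.univ.image e)ᶜ := by
      ext p
      simp
    rw [h2, Finset.card_compl, Finset.card_image_of_injective _ he, Finset.card_univ,
      Fintype.card_fin]
  rw [← hcard]
  refine cube_fibre (cube_fin hS) (fun a p => if (∃ j, e j = p) then 0 else a p) _ N ?_ ?_
  · intro a ha
    rw [Fintype.mem_piFinset]
    intro p
    by_cases hp : ∃ j, e j = p
    · rw [if_pos hp, if_pos hp]
      exact Finset.mem_singleton_self _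
    · rw [if_neg hp, if_neg hp, Finset.mem_Icc, ← abs_le]
      exact hS a ha p
  · intro a₀ ha₀
    rw [Fintype.mem_piFinset] at ha₀
    have hz : ∀ i, a₀ (e i) = 0 := by
      intro i
      have h1 := ha₀ (e i)
      rw [if_pos ⟨i, rfl⟩] at h1
      exact Finset.mem_singleton.1 h1
    have hb : ∀ p, |a₀ p| ≤ X := by
      intro p
      have h1 := ha₀ p
      by_cases hp : ∃ j, e j = p
      · rw [if_pos hp] at h1
        rw [Finset.mem_singleton.1 h1, abs_zero]
        exact Int.natCast_nonneg _
      · rw [if_neg hp, Finset.mem_Icc, ← abs_le] at h1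
        exact h1
    refine le_trans ?_ (hfib a₀ hb hz)
    refine Set.ncard_le_ncard_of_injOn (fun a i => a (e i)) ?_ ?_ ?_
    · rintro a ⟨ha, haa⟩
      show (fun p => a₀ p + ∑ i, if p = e i then a (e i) else 0) ∈ S
      have h1 : (fun p => a₀ p + ∑ i, if p = e i then a (e i) else 0) = a := by
        funext p
        by_cases hp : ∃ j, e j = p
        · obtain ⟨j, rfl⟩ := hp
          rw [hz, zero_add]
          exact hsum1 (fun i => a (e i)) j
        · rw [hsum2 (fun i => a (e i)) p hp, add_zero, ← haa]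
          show (if (∃ j, e j = p) then 0 else a p) = a p
          rw [if_neg hp]
      rw [h1]
      exact ha
    · rintro a ⟨_, haa⟩ b ⟨_, hbb⟩ hab
      funext p
      by_cases hp : ∃ j, e j = p
      · obtain ⟨j, rfl⟩ := hp
        exact congrFun hab j
      · have h1 := congrFun (haa.trans hbb.symm) p
        simp only [if_neg hp] at h1
        exact h1
    · refine cube_fin (X := X) fun u hu i => ?_
      have h1 := hS _ hu (e i)
      simp only [hz, zero_add] at h1
      rw [hsum1] at h1
      exact h1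

theorem count_proj {α β : Type} [Fintype α] [Fintype β] [DecidableEq α] [DecidableEq β]
    (X N : ℕ) (S : Set (α → ℤ)) (hSf : S.Finite) (hS : S.ncard ≤ N) (S' : Set (α ⊕ β → ℤ))
    (hS' : ∀ a ∈ S', (∀ p, |a p| ≤ X) ∧ (fun l => a (Sum.inl l)) ∈ S) :
    S'.ncard ≤ N * (2 * X + 1) ^ Fintype.card β := by
  have h1 : S'.ncard ≤ (S ×ˢ ((cubeBox β X : Finset (β → ℤ)) : Set (β → ℤ))).ncard := by
    refine Set.ncard_le_ncard_of_injOn (fun a => (fun l => a (Sum.inl l), fun l => a (Sum.inr l)))
      ?_ ?_ ?_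
    · intro a ha
      refine ⟨(hS' a ha).2, ?_⟩
      exact Finset.mem_coe.2 (mem_cubeBox.2 fun p => (hS' a ha).1 (Sum.inr p))
    · intro a _ b _ hab
      have h2 := congrArg Prod.fst hab
      have h3 := congrArg Prod.snd hab
      funext p
      rcases p with p | p
      · exact congrFun h2 p
      · exact congrFun h3 p
    · exact hSf.prod (Finset.finite_toSet _)
  refine h1.trans ?_
  rw [Set.ncard_prod, Set.ncard_coe_finset, card_cubeBox]
  exact Nat.mul_le_mul_right _ hS

end Pool.Agent.Helper79.BB
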