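import Pool.Agent.Helper79.BB.SpecM
import Pool.Agent.Helper79.BB.CubeCover

/-!
# BB-27: counting the parameters by fibres

`count_fibM` (`CubeCover.lean`) with `e = dirM j₀` (`fun p => a₀ p + ∑ i, if p = dirM j₀ i then u i else 0` is `shM j₀ a₀ u` by definition). In the fibre over `a₀`: `FvM ω (shM …) θ = FvM ω a₀ θ` (`FvM_shM`,
casts), `shM j₀ a₀ u (inl l) = a₀ (inl l)`. If all the `a₀ (inl l)` are `0` the fibre is empty. Otherwise the polynomial
`∑_l a₀(inl l) ω_(l.2) X^(l.1) ∈ κ[X]` is not `0` (as in the proof of `mainA` in `AA/Main2.lean`: `ω` is linearly independent over `ℚ`) and of degree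
`≤ dg`, so it has at most `dg` complex roots `θ`; the fibre is the union over these roots of the sets in `h`.
-/

open Polynomial

namespace Pool.Agent.Helper79.BB

open Pool.Agent.Helper79.AA Pool.Agent.Helper79.GX Pool.Agent.Helper64.Per

theorem count_pts {κ : IntermediateField ℚ Qbar} {J : Type} [Fintype J] [DecidableEq J]
    (ω : Module.Basis J ℚ κ) {m dg : ℕ} (j₀ : J) (X N : ℕ)
    (Q : (Px m dg J → ℤ) → ℂ → Prop)
    (h : ∀ (a₀ : Px m dg J → ℤ) (θ : ℂ), (∀ p, |a₀ p| ≤ X) → (∃ l, a₀ (Sum.inl l) ≠ 0) →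
      FvM (fun j => ω j) (fun p => (a₀ p : ℂ)) θ = 0 →
      Set.ncard {u : Fin m → ℤ | (∀ i, |u i| ≤ X) ∧ (∀ p, |shM j₀ a₀ u p| ≤ X) ∧
        Q (shM j₀ a₀ u) θ} ≤ N) :
    Set.ncard {a : Px m dg J → ℤ | (∀ p, |a p| ≤ X) ∧ (∃ l, a (Sum.inl l) ≠ 0) ∧
      ∃ θ : ℂ, FvM (fun j => ω j) (fun p => (a p : ℂ)) θ = 0 ∧ Q a θ} ≤
      (2 * X + 1) ^ (Fintype.card (Px m dg J) - m) * (dg * N) := by
  classical
  have hS : ∀ a ∈ {a : Px m dg J → ℤ | (∀ p, |a p| ≤ X) ∧ (∃ l, a (Sum.inl l) ≠ 0) ∧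
      ∃ θ : ℂ, FvM (fun j => ω j) (fun p => (a p : ℂ)) θ = 0 ∧ Q a θ}, ∀ p, |a p| ≤ X :=
    fun a ha => ha.1
  refine count_fibM (dirM j₀) (dirM_injective j₀) X (dg * N) _ hS fun a₀ ha₀ hz => ?_
  change Set.ncard {u : Fin m → ℤ | shM j₀ a₀ u ∈ {a : Px m dg J → ℤ | (∀ p, |a p| ≤ X) ∧
    (∃ l, a (Sum.inl l) ≠ 0) ∧
      ∃ θ : ℂ, FvM (fun j => ω j) (fun p => (a p : ℂ)) θ = 0 ∧ Q a θ}} ≤ dg * N
  by_cases hex : ∃ l, a₀ (Sum.inl l) ≠ 0
  · set p : κ[X] := ∑ l : Fin (dg + 1) × J, C (((a₀ (Sum.inl l) : ℤ) : κ) * ω l.2) *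
      Polynomial.X ^ (l.1 : ℕ) with hp
    have hval : ∀ θ : ℂ, aeval θ p = FvM (fun j => ω j) (fun q => (a₀ q : ℂ)) θ := by
      intro θ
      rw [hp, map_sum]
      unfold FvM
      refine Finset.sum_congr rfl fun i _ => ?_
      rw [map_mul, aeval_C, map_pow, aeval_X, map_mul, map_intCast]
    have hp0 : p ≠ 0 := by
      intro h0
      obtain ⟨⟨k₀, j₁⟩, hk₀⟩ := hex
      have h3 := congrArg (fun q => coeff q (k₀ : ℕ)) h0
      simp only [hp, finsetSum_coeff, coeff_C_mul, coeff_X_pow, coeff_zero] at h3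
      rw [Fintype.sum_prod_type, Finset.sum_eq_single k₀] at h3
      · simp only [if_true, mul_one] at h3
        have h4 : ∑ j, ((a₀ (Sum.inl (k₀, j)) : ℤ) : ℚ) • ω j = 0 := by
          rw [← h3]
          refine Finset.sum_congr rfl fun j _ => ?_
          rw [Algebra.smul_def, map_intCast]
        have h5 := Fintype.linearIndependent_iff.1 ω.linearIndependent _ h4 j₁
        exact hk₀ (by exact_mod_cast h5)
      · intro b _ hb
        refine Finset.sum_eq_zero fun j _ => ?_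
        rw [if_neg, mul_zero]
        intro h
        exact hb (Fin.ext h.symm)
      · intro h
        exact absurd (Finset.mem_univ _) h
    have hdeg : p.natDegree ≤ dg := by
      rw [hp]
      refine natDegree_sum_le_of_forall_le _ _ fun l _ => ?_
      refine (natDegree_C_mul_X_pow_le _ _).trans ?_
      have := l.1.isLt
      omega
    set R : Finset ℂ := (p.aroots ℂ).toFinset with hR
    have hRcard : R.card ≤ dg := by
      refine (Multiset.toFinset_card_le _).trans ?_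
      refine (Polynomial.card_roots' _).trans ?_
      exact (natDegree_map_le).trans hdeg
    set B : ℂ → Set (Fin m → ℤ) := fun θ => {u : Fin m → ℤ | (∀ i, |u i| ≤ X) ∧
      (∀ p, |shM j₀ a₀ u p| ≤ X) ∧ Q (shM j₀ a₀ u) θ} with hB
    have hBf : ∀ θ, (B θ).Finite := by
      intro θ
      refine (Finset.finite_toSet (Fintype.piFinset (fun _ : Fin m =>
        Finset.Icc (-(X : ℤ)) X))).subset fun u hu => ?_
      rw [Finset.mem_coe, Fintype.mem_piFinset]
      intro i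
      rw [Finset.mem_Icc]
      exact abs_le.1 (hu.1 i)
    have hsub : {u : Fin m → ℤ | shM j₀ a₀ u ∈ {a : Px m dg J → ℤ | (∀ p, |a p| ≤ X) ∧
        (∃ l, a (Sum.inl l) ≠ 0) ∧
        ∃ θ : ℂ, FvM (fun j => ω j) (fun p => (a p : ℂ)) θ = 0 ∧ Q a θ}} ⊆ ⋃ θ ∈ R, B θ := by
      rintro u ⟨hu1, _, θ, hθ, hQ⟩
      rw [Set.mem_iUnion₂]
      refine ⟨θ, ?_, fun i => ?_, hu1, hQ⟩
      · rw [hR, Multiset.mem_toFinset, mem_aroots]
        refine ⟨hp0, ?_⟩
        rw [hval, ← hθ]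
        unfold FvM
        refine Finset.sum_congr rfl fun l _ => ?_
        simp only [shM_inl]
      · have h1 := hu1 (dirM j₀ i)
        rw [shM_dir, hz i, zero_add] at h1
        exact h1
    have hfin : (⋃ θ ∈ R, B θ).Finite := R.finite_toSet.biUnion fun θ _ => hBf θ
    refine (Set.ncard_le_ncard hsub hfin).trans ?_
    refine (Finset.set_ncard_biUnion_le R B).trans ?_
    refine (Finset.sum_le_card_nsmul R _ N fun θ hθ => ?_).trans ?_
    · refine h a₀ θ ha₀ hex ?_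
      rw [← hval]
      rw [hR, Multiset.mem_toFinset, mem_aroots] at hθ
      exact hθ.2
    · rw [smul_eq_mul]
      exact Nat.mul_le_mul_right N hRcard
  · have hempty : {u : Fin m → ℤ | shM j₀ a₀ u ∈ {a : Px m dg J → ℤ | (∀ p, |a p| ≤ X) ∧
        (∃ l, a (Sum.inl l) ≠ 0) ∧
        ∃ θ : ℂ, FvM (fun j => ω j) (fun p => (a p : ℂ)) θ = 0 ∧ Q a θ}} = ∅ := by
      rw [Set.eq_empty_iff_forall_notMem]
      rintro u ⟨_, ⟨l, hl⟩, _⟩
      rw [shM_inl] at hl
      exact hex ⟨l, hl⟩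
    rw [hempty, Set.ncard_empty]
    exact Nat.zero_le _

end Pool.Agent.Helper79.BB
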