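import Pool.Agent.Helper79.BB.PenDefs
import Pool.Agent.Helper79.BB.SpecM

/-!
# BB-24: bad points of the pencils

`x₀ = pmap ω j₀ a θ (ip u₀)`, `y = shM j₀ a u₀` (`shM_cast`: the complex point is the cast of the integer point `y`). Let `g` be the relation of `hbad`.
(1) `aeval x₀ (g r) = ∑_(p : J × ℕ, p.2 ≤ dg) c_(r, p) ω_(p.1) θ^(p.2)` with `c_(r, p) ∈ ℚ`: the set of the numbers `∑_(k ≤ dg) e_k θ^k`, `e_k ∈ κ`, is a ring which contains `κ` and `θ` and is a field, as `θ` is a root of the nonzero polynomial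
`∑_l a(inl l) ω_(l.2) X^(l.1)` of degree `≤ dg` over `κ` (nonzero by `hF`: see the end of the proof of `mainA` in `AA/Main2.lean`), so it contains the coordinates of `x₀` (`ptM`), and
the values `aeval x₀ (g r)`. (E.g. `Algebra.adjoin κ {θ}` `= IntermediateField.adjoin κ {θ}`, `minpoly κ θ` of degree `≤ dg`, `PowerBasis`, then expand the elements of `κ` in the basis `ω`.)
(2) By `D.span` (`hθ`): `Θ(y) aeval x₀ (g r) = ∑_γ x_(γ, r) b_γ(θ)`, `x_(γ, r) = ∑_p c_(r, p) eval y (ρ p γ) ∈ ℚ`. So `∑ x_(γ, r) zpen … = Θ(y) ∑ aeval x₀ (g r) z_r(x₀) = 0`: `x ∈ relQ`.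
(3) If there were `v` with `v(u₀) = x` and `IsRel R _ v` (negation of `BadM`): let `h r ∈ ℚ̄[x]` be `Θ(y)⁻¹ ∑_γ b_γ(θ) v_(γ, r)((x - x⁰) / λ)`, `λ = ω_(j₀) / q`, `x⁰ = ptM ω a θ`
(`θ`, so `b_γ(θ)` and the `x⁰_i`, are algebraic: they are elements of `Qbar`); then `aeval x₀ (h r) = aeval x₀ (g r)` and `∑ h_r z_r = 0` on the image of the ball under `pmap` (`pmap` is injective, an affine
isomorphism, `v` is a relation on the ball), which is a nonempty open subset of `U` (`hu₀`), so on `U` (`hU'`, identity theorem `AnalyticOnNhd.eqOn_zero_of_preconnected_of_eventuallyEq_zero`). This contradicts `hbad`.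
`Qbar` is `algebraicClosure ℚ ℂ` or similar, see `Pool/Agent/Helper64/Per/Defs.lean`.
-/

set_option autoImplicit false

open Polynomial

namespace Pool.Agent.Helper79.BB

open Pool.Agent.Helper79.AA Pool.Agent.Helper79.GX Pool.Agent.Helper64.Per

private theorem pb_val {σ : Type} (Y : σ → ℤ) (P : MvPolynomial σ ℚ) :
    MvPolynomial.aeval (fun p => ((Y p : ℤ) : ℂ)) P =
      ((MvPolynomial.eval (fun i => ((Y i : ℤ) : ℚ)) P : ℚ) : ℂ) := by
  have h1 := MvPolynomial.aeval_algebraMap_apply (B := ℂ) (fun i => ((Y i : ℤ) : ℚ)) P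
  have h2 : (algebraMap ℚ ℂ ∘ fun i => ((Y i : ℤ) : ℚ)) = fun p => ((Y p : ℤ) : ℂ) := by
    funext p
    simp
  rw [h2] at h1
  rw [h1]
  simp [MvPolynomial.aeval_eq_eval]

section

variable {κ : IntermediateField ℚ Qbar} {J : Type} [Fintype J]
    [DecidableEq J] (ω : Module.Basis J ℚ κ) {m dg : ℕ} {j₀ : J} {β : Type} [Fintype β]
    [DecidableEq β] {T : MvPolynomial (Fin m) κ}
    {A : Fin m → Matrix β β (MvPolynomial (Fin m) κ)}

omit [DecidableEq J] in
/-- The polynomial whose root is `θ`. -/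
private theorem pb_F {a : Px m dg J → ℤ} (hF : ∃ l, a (Sum.inl l) ≠ 0)
    {θ : ℂ} (hθ : FvM (fun j => ω j) (fun p => (a p : ℂ)) θ = 0) :
    ∃ F : κ[X], F ≠ 0 ∧ F.natDegree ≤ dg ∧ aeval θ F = 0 := by
  classical
  refine ⟨∑ l : Fin (dg + 1) × J, C (((a (Sum.inl l) : ℤ) : κ) * ω l.2) * X ^ (l.1 : ℕ),
    ?_, ?_, ?_⟩
  · intro h0
    obtain ⟨⟨k₀, j₁⟩, hk₀⟩ := hF
    have h3 := congrArg (fun q => coeff q (k₀ : ℕ)) h0
    simp only [finsetSum_coeff, coeff_C_mul, coeff_X_pow, coeff_zero] at h3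
    rw [Fintype.sum_prod_type, Finset.sum_eq_single k₀] at h3
    · simp only [if_true, mul_one] at h3
      have h4 : ∑ j, ((a (Sum.inl (k₀, j)) : ℤ) : ℚ) • ω j = 0 := by
        rw [← h3]
        refine Finset.sum_congr rfl fun j _ => ?_
        rw [Algebra.smul_def, map_intCast]
      have h5 := Fintype.linearIndependent_iff.1 ω.linearIndependent _ h4 j₁
      exact hk₀ (by exact_mod_cast h5)
    · intro b _ hb
      refine Finset.sum_eq_zero fun j _ => ?_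
      rw [if_neg, mul_zero]
      intro h
      exact hb (Fin.ext h.symm)
    · intro h
      exact absurd (Finset.mem_univ _) h
  · apply natDegree_sum_le_of_forall_le
    intro i _
    refine (natDegree_C_mul_X_pow_le _ _).trans ?_
    have := i.1.isLt
    omega
  · rw [map_sum, ← hθ]
    unfold FvM
    apply Finset.sum_congr rfl
    intro i _
    rw [map_mul, aeval_C, map_pow, aeval_X, map_mul, map_intCast]

/-- The value of a polynomial over `κ` of degree `≤ dg` at `θ`. -/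
private theorem pb_span (D : UniM (fun j => ω j) dg j₀ T A) {Y : Px m dg J → ℤ} {θ : ℂ}
    (hFt : FvM (fun j => ω j) (fun p => ((Y p : ℤ) : ℂ)) θ = 0)
    (hΘ : MvPolynomial.eval (fun p => ((Y p : ℤ) : ℚ)) D.Θ ≠ 0)
    (g : κ[X]) (hg : g.natDegree ≤ dg) :
    ∃ x : D.Γ → ℚ, aeval θ g = ∑ γ, ((x γ : ℚ) : ℂ) *
      (algebraMap κ ℂ (ω (D.b γ).1) * θ ^ (D.b γ).2) := by
  obtain ⟨Θq, hΘq⟩ : ∃ q : ℚ, q = MvPolynomial.eval (fun p => ((Y p : ℤ) : ℚ)) D.Θ := ⟨_, rfl⟩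
  rw [← hΘq] at hΘ
  have hΘC : (Θq : ℂ) ≠ 0 := by exact_mod_cast hΘ
  refine ⟨fun γ => (∑ n ∈ Finset.range (dg + 1), ∑ j, ω.repr (g.coeff n) j *
    MvPolynomial.eval (fun p => ((Y p : ℤ) : ℚ)) (D.ρ (j, n) γ)) / Θq, ?_⟩
  have h1 : aeval θ g = ∑ n ∈ Finset.range (dg + 1), ∑ j,
      ((ω.repr (g.coeff n) j : ℚ) : ℂ) * (algebraMap κ ℂ (ω j) * θ ^ n) := by
    rw [aeval_eq_sum_range' (n := dg + 1) (by omega)]
    apply Finset.sum_congr rfl
    intro n _
    have h2 : algebraMap κ ℂ (g.coeff n) = ∑ j, ((ω.repr (g.coeff n) j : ℚ) : ℂ) *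
        algebraMap κ ℂ (ω j) := by
      conv_lhs => rw [← ω.sum_repr (g.coeff n)]
      rw [map_sum]
      apply Finset.sum_congr rfl
      intro j _
      rw [Algebra.smul_def, map_mul]
      congr 1
    rw [Algebra.smul_def, h2, Finset.sum_mul]
    apply Finset.sum_congr rfl
    intro j _
    ring
  have h3 : ∀ n ∈ Finset.range (dg + 1), ∀ j, (algebraMap κ ℂ (ω j) * θ ^ n) =
      (Θq : ℂ)⁻¹ * ∑ γ, ((MvPolynomial.eval (fun p => ((Y p : ℤ) : ℚ))
        (D.ρ (j, n) γ) : ℚ) : ℂ) * (algebraMap κ ℂ (ω (D.b γ).1) * θ ^ (D.b γ).2) := by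
    intro n hn j
    have h4 := D.span θ (fun p => ((Y p : ℤ) : ℂ)) hFt (j, n)
      (Nat.lt_succ_iff.mp (Finset.mem_range.mp hn))
    simp only [pb_val] at h4
    rw [← hΘq] at h4
    rw [← h4, ← mul_assoc, inv_mul_cancel₀ hΘC, one_mul]
  rw [h1]
  have h5 : ∀ γ, (((∑ n ∈ Finset.range (dg + 1), ∑ j, ω.repr (g.coeff n) j *
      MvPolynomial.eval (fun p => ((Y p : ℤ) : ℚ)) (D.ρ (j, n) γ)) / Θq : ℚ) : ℂ) *
      (algebraMap κ ℂ (ω (D.b γ).1) * θ ^ (D.b γ).2) =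
      ∑ n ∈ Finset.range (dg + 1), ∑ j, ((ω.repr (g.coeff n) j : ℚ) : ℂ) * ((Θq : ℂ)⁻¹ *
        (((MvPolynomial.eval (fun p => ((Y p : ℤ) : ℚ)) (D.ρ (j, n) γ) : ℚ) : ℂ) *
        (algebraMap κ ℂ (ω (D.b γ).1) * θ ^ (D.b γ).2))) := by
    intro γ
    push_cast
    rw [div_mul_eq_mul_div, div_eq_mul_inv, Finset.sum_mul, Finset.sum_mul]
    apply Finset.sum_congr rfl
    intro n _
    rw [Finset.sum_mul, Finset.sum_mul]
    apply Finset.sum_congr rfl
    intro j _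
    ring
  rw [Finset.sum_congr rfl (fun γ _ => h5 γ)]
  conv_rhs => rw [Finset.sum_comm]
  apply Finset.sum_congr rfl
  intro n hn
  conv_rhs => rw [Finset.sum_comm]
  apply Finset.sum_congr rfl
  intro j _
  rw [h3 n hn j, Finset.mul_sum, Finset.mul_sum]

omit [DecidableEq J] in
/-- The value of a polynomial at a point with parameters `Y` and `θ`. -/
private theorem pb_pt (Y : Px m dg J → ℤ) (θ : ℂ) (g : MvPolynomial (Fin m) κ) :
    ∃ f : κ[X], MvPolynomial.aeval (ptM (fun j => ω j) (fun p => ((Y p : ℤ) : ℂ)) θ) g =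
      aeval θ f := by
  refine ⟨MvPolynomial.aeval (fun i => C (((Y (Sum.inr (Sum.inr ())) : ℤ) : κ)⁻¹) *
    ∑ l : Fin (dg + 1) × J, C (((Y (Sum.inr (Sum.inl (i, l))) : ℤ) : κ) * ω l.2) *
      X ^ (l.1 : ℕ)) g, ?_⟩
  have h1 := MvPolynomial.comp_aeval_apply (fun i : Fin m =>
    (C (((Y (Sum.inr (Sum.inr ())) : ℤ) : κ)⁻¹) *
    ∑ l : Fin (dg + 1) × J, C (((Y (Sum.inr (Sum.inl (i, l))) : ℤ) : κ) * ω l.2) *
      X ^ (l.1 : ℕ) : κ[X])) (aeval θ : κ[X] →ₐ[κ] ℂ) g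
  rw [h1]
  congr 2
  funext i
  unfold ptM
  rw [map_mul, aeval_C, map_inv₀, map_intCast, map_sum, div_eq_mul_inv, mul_comm]
  congr 1
  apply Finset.sum_congr rfl
  intro l _
  rw [map_mul, aeval_C, map_pow, aeval_X, map_mul, map_intCast]

end

theorem pen_bad' {κ : IntermediateField ℚ Qbar} [FiniteDimensional ℚ κ] {J : Type} [Fintype J]
    [DecidableEq J] (ω : Module.Basis J ℚ κ) {m dg : ℕ} {j₀ : J} {β : Type} [Fintype β]
    [DecidableEq β] {T : MvPolynomial (Fin m) κ}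
    {A : Fin m → Matrix β β (MvPolynomial (Fin m) κ)} (D : UniM (fun j => ω j) dg j₀ T A)
    {U : Set (Fin m → ℂ)} (hU : IsOpen U) (hU' : IsPreconnected U)
    {z : (Fin m → ℂ) → β → ℂ} (hz : ∀ i, AnalyticOnNhd ℂ (fun t => z t i) U)
    {a : Px m dg J → ℤ} (hq : a (Sum.inr (Sum.inr ())) ≠ 0) {θ : ℂ}
    (hF : (∃ l, a (Sum.inl l) ≠ 0) ∨ (dg = 0 ∧ θ = 0))
    (hθ : FvM (fun j => ω j) (fun p => (a p : ℂ)) θ = 0) {R : ℝ}
    (hR : ∀ u ∈ Metric.ball (0 : Fin m → ℂ) R, pmap (fun j => ω j) j₀ a θ u ∈ U)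
    {u₀ : Fin m → ℤ} (hu₀ : ip u₀ ∈ Metric.ball (0 : Fin m → ℂ) R)
    (hΘ : MvPolynomial.eval (fun p => ((shM j₀ a u₀ p : ℤ) : ℚ)) D.Θ ≠ 0)
    (hbad : KBadM κ U z (pmap (fun j => ω j) j₀ a θ (ip u₀))) :
    BadM R (zpen (fun j => ω j) j₀ D.b z a θ) u₀ := by
  classical
  obtain ⟨hκθ, hred⟩ : IsAlgebraic κ θ ∧ ∀ f : κ[X], ∃ f' : κ[X], f'.natDegree ≤ dg ∧
      aeval θ f' = aeval θ f := by
    rcases hF with hF | ⟨hd, h0⟩
    · obtain ⟨F, hF0, hFdeg, hFt⟩ := pb_F ω hF hθ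
      refine ⟨⟨F, hF0, hFt⟩, fun f => ⟨f % F, ?_, ?_⟩⟩
      · rcases eq_or_ne (f % F) 0 with h0 | h0
        · rw [h0, natDegree_zero]
          exact Nat.zero_le _
        · have h1 : (f % F).degree < F.degree := EuclideanDomain.mod_lt _ hF0
          exact (natDegree_lt_natDegree h0 h1).le.trans hFdeg
      · conv_rhs => rw [← EuclideanDomain.div_add_mod f F]
        rw [map_add, map_mul, hFt, zero_mul, zero_add]
    · rw [h0]
      refine ⟨isAlgebraic_zero, fun f => ⟨C (f.coeff 0), ?_, ?_⟩⟩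
      · rw [natDegree_C]
        exact Nat.zero_le _
      · rw [aeval_C, coeff_zero_eq_aeval_zero']
  obtain ⟨g, hg0, hgn⟩ := hbad
  set Y : Px m dg J → ℤ := shM j₀ a u₀ with hY
  have hcast : shM j₀ (fun p => (a p : ℂ)) (ip u₀) = fun p => ((Y p : ℤ) : ℂ) :=
    shM_cast j₀ a u₀
  have hFY : FvM (fun j => ω j) (fun p => ((Y p : ℤ) : ℂ)) θ = 0 := by
    rw [← hcast, FvM_shM]
    exact hθ
  have hx₀ : pmap (fun j => ω j) j₀ a θ (ip u₀) =
      ptM (fun j => ω j) (fun p => ((Y p : ℤ) : ℂ)) θ := by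
    unfold pmap
    rw [hcast]
  have hx : ∀ i, ∃ x : D.Γ → ℚ,
      MvPolynomial.aeval (pmap (fun j => ω j) j₀ a θ (ip u₀)) (g i) = ∑ γ, ((x γ : ℚ) : ℂ) *
      (algebraMap κ ℂ (ω (D.b γ).1) * θ ^ (D.b γ).2) := by
    intro i
    obtain ⟨f, hf⟩ := pb_pt ω Y θ (g i)
    obtain ⟨f', hf1, hf2⟩ := hred f
    rw [hx₀, hf, ← hf2]
    exact pb_span ω D hFY hΘ _ hf1
  choose x hx using hx
  refine ⟨fun k => x k.2 k.1, ?_, ?_⟩
  · change ∑ k : D.Γ × β, ((x k.2 k.1 : ℚ) : ℂ) * zpen (fun j => ω j) j₀ D.b z a θ (ip u₀) k = 0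
    rw [Fintype.sum_prod_type, Finset.sum_comm]
    rw [← hg0]
    apply Finset.sum_congr rfl
    intro i _
    rw [hx i, Finset.sum_mul]
    apply Finset.sum_congr rfl
    intro γ _
    unfold zpen
    ring
  · rintro ⟨v, hv, hv0⟩
    apply hgn
    -- the algebraic numbers
    have hθalg : θ ∈ algebraicClosure ℚ ℂ := by
      rw [mem_algebraicClosure_iff]
      have h3 : IsAlgebraic κ θ := hκθ
      have : Algebra.IsAlgebraic ℚ κ := inferInstance
      exact IsAlgebraic.restrictScalars ℚ h3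
    set θ' : Qbar := ⟨θ, hθalg⟩ with hθ'
    have hθ'c : algebraMap Qbar ℂ θ' = θ := rfl
    have hωc : ∀ c : κ, algebraMap Qbar ℂ (c : Qbar) = algebraMap κ ℂ c := fun c => rfl
    have hq' : ((a (Sum.inr (Sum.inr ())) : ℤ) : ℂ) ≠ 0 := by exact_mod_cast hq
    have hw : algebraMap κ ℂ (ω j₀) ≠ 0 := by
      rw [Ne, map_eq_zero_iff _ (algebraMap κ ℂ).injective]
      exact ω.ne_zero j₀
    set lam : ℂ := algebraMap κ ℂ (ω j₀) / ((a (Sum.inr (Sum.inr ())) : ℤ) : ℂ) with hlam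
    have hlam0 : lam ≠ 0 := div_ne_zero hw hq'
    set lam' : Qbar := ((ω j₀ : κ) : Qbar) / ((a (Sum.inr (Sum.inr ())) : ℤ) : Qbar) with hlam'
    have hlamc : algebraMap Qbar ℂ lam' = lam := by
      rw [hlam', map_div₀, map_intCast, hωc]
    set c : Fin m → ℂ := ptM (fun j => ω j) (fun p => (a p : ℂ)) θ with hc
    set c' : Fin m → Qbar := fun i => (∑ l : Fin (dg + 1) × J,
      ((a (Sum.inr (Sum.inl (i, l))) : ℤ) : Qbar) * ((ω l.2 : κ) : Qbar) * θ' ^ (l.1 : ℕ)) /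
      ((a (Sum.inr (Sum.inr ())) : ℤ) : Qbar) with hc'
    have hcc : ∀ i, algebraMap Qbar ℂ (c' i) = c i := by
      intro i
      rw [hc', hc]
      simp only [ptM, map_div₀, map_intCast, map_sum, map_mul, map_pow, hωc, hθ'c]
    have hpm : ∀ u : Fin m → ℂ, pmap (fun j => ω j) j₀ a θ u = fun i => c i + lam * u i := by
      intro u
      unfold pmap
      rw [ptM_shM]
    have hinv : ∀ (u : Fin m → ℂ) (V : MvPolynomial (Fin m) ℚ),
        MvPolynomial.aeval (pmap (fun j => ω j) j₀ a θ u) (MvPolynomial.aeval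
          (fun i => (MvPolynomial.C lam'⁻¹ * (MvPolynomial.X i - MvPolynomial.C (c' i)) :
            MvPolynomial (Fin m) Qbar)) V) = MvPolynomial.aeval u V := by
      intro u V
      have h1 := MvPolynomial.comp_aeval_apply
        (fun i => (MvPolynomial.C lam'⁻¹ * (MvPolynomial.X i - MvPolynomial.C (c' i)) :
            MvPolynomial (Fin m) Qbar))
        ((MvPolynomial.aeval (pmap (fun j => ω j) j₀ a θ u) :
          MvPolynomial (Fin m) Qbar →ₐ[Qbar] ℂ).restrictScalars ℚ) V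
      rw [AlgHom.restrictScalars_apply] at h1
      rw [h1]
      congr 2
      funext i
      rw [AlgHom.restrictScalars_apply, map_mul, map_sub, MvPolynomial.aeval_C,
        MvPolynomial.aeval_C, MvPolynomial.aeval_X, map_inv₀, hlamc, hcc, hpm]
      field_simp
      ring
    obtain ⟨h, hh⟩ : ∃ h : β → MvPolynomial (Fin m) Qbar, h = fun i => ∑ γ : D.Γ,
      MvPolynomial.aeval
          (fun i => (MvPolynomial.C lam'⁻¹ * (MvPolynomial.X i - MvPolynomial.C (c' i)) :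
            MvPolynomial (Fin m) Qbar)) (v (γ, i)) *
        MvPolynomial.C (((ω (D.b γ).1 : κ) : Qbar) * θ' ^ (D.b γ).2) := ⟨_, rfl⟩
    have hhs : ∀ (u : Fin m → ℂ) i, MvPolynomial.aeval (pmap (fun j => ω j) j₀ a θ u) (h i) =
        ∑ γ : D.Γ, MvPolynomial.aeval u (v (γ, i)) *
          (algebraMap κ ℂ (ω (D.b γ).1) * θ ^ (D.b γ).2) := by
      intro u i
      rw [hh]
      simp only [map_sum, map_mul, MvPolynomial.aeval_C, hinv, map_pow, hωc, hθ'c]
    refine ⟨h, fun i => ?_, ?_⟩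
    · rw [hhs (ip u₀) i, hx i]
      apply Finset.sum_congr rfl
      intro γ _
      congr 1
      have h1 := hv (γ, i)
      simp only at h1
      rw [← h1]
      exact pb_val u₀ (v (γ, i))
    · have hana : AnalyticOnNhd ℂ (fun x => ∑ i, MvPolynomial.aeval x (h i) * z x i) U := by
        intro t ht'
        apply Finset.analyticAt_fun_sum
        intro i _
        apply AnalyticAt.mul
        · have h2 : ∀ i : Fin m, AnalyticAt ℂ (fun x : Fin m → ℂ => x i) t := fun i =>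
            (ContinuousLinearMap.proj (R := ℂ) (φ := fun _ : Fin m => ℂ) i).analyticAt t
          exact AnalyticAt.aeval_mvPolynomial h2 (h i)
        · exact hz i t ht'
      have hU0 : pmap (fun j => ω j) j₀ a θ (ip u₀) ∈ U := hR _ hu₀
      have hcont : Filter.Tendsto (fun x : Fin m → ℂ => fun i => lam⁻¹ * (x i - c i))
          (nhds (pmap (fun j => ω j) j₀ a θ (ip u₀))) (nhds (ip u₀)) := by
        have h3 : Continuous (fun x : Fin m → ℂ => fun i => lam⁻¹ * (x i - c i)) := by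
          fun_prop
        have h4 := h3.tendsto (pmap (fun j => ω j) j₀ a θ (ip u₀))
        have h5 : (fun i => lam⁻¹ * (pmap (fun j => ω j) j₀ a θ (ip u₀) i - c i)) = ip u₀ := by
          funext i
          rw [hpm]
          field_simp
          ring
        rwa [h5] at h4
      have hev : ∀ᶠ x in nhds (pmap (fun j => ω j) j₀ a θ (ip u₀)),
          (∑ i, MvPolynomial.aeval x (h i) * z x i) = 0 := by
        filter_upwards [hcont.eventually (Metric.isOpen_ball.mem_nhds hu₀)] with x hx1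
        have hx2 : pmap (fun j => ω j) j₀ a θ (fun i => lam⁻¹ * (x i - c i)) = x := by
          rw [hpm]
          funext i
          field_simp
          ring
        have h1 := hv0 _ hx1
        rw [Fintype.sum_prod_type, Finset.sum_comm] at h1
        rw [← h1]
        apply Finset.sum_congr rfl
        intro i _
        conv_lhs => rw [← hx2]
        rw [hhs, Finset.sum_mul]
        apply Finset.sum_congr rfl
        intro γ _
        unfold zpen
        ring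
      intro t ht'
      exact hana.eqOn_zero_of_preconnected_of_eventuallyEq_zero hU' hU0 hev ht'

theorem pen_bad {κ : IntermediateField ℚ Qbar} [FiniteDimensional ℚ κ] {J : Type} [Fintype J]
    [DecidableEq J] (ω : Module.Basis J ℚ κ) {m dg : ℕ} {j₀ : J} {β : Type} [Fintype β]
    [DecidableEq β] {T : MvPolynomial (Fin m) κ}
    {A : Fin m → Matrix β β (MvPolynomial (Fin m) κ)} (D : UniM (fun j => ω j) dg j₀ T A)
    {U : Set (Fin m → ℂ)} (hU : IsOpen U) (hU' : IsPreconnected U)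
    {z : (Fin m → ℂ) → β → ℂ} (hz : ∀ i, AnalyticOnNhd ℂ (fun t => z t i) U)
    {a : Px m dg J → ℤ} (hq : a (Sum.inr (Sum.inr ())) ≠ 0) (hF : ∃ l, a (Sum.inl l) ≠ 0)
    {θ : ℂ} (hθ : FvM (fun j => ω j) (fun p => (a p : ℂ)) θ = 0) {R : ℝ}
    (hR : ∀ u ∈ Metric.ball (0 : Fin m → ℂ) R, pmap (fun j => ω j) j₀ a θ u ∈ U)
    {u₀ : Fin m → ℤ} (hu₀ : ip u₀ ∈ Metric.ball (0 : Fin m → ℂ) R)
    (hΘ : MvPolynomial.eval (fun p => ((shM j₀ a u₀ p : ℤ) : ℚ)) D.Θ ≠ 0)
    (hbad : KBadM κ U z (pmap (fun j => ω j) j₀ a θ (ip u₀))) :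
    BadM R (zpen (fun j => ω j) j₀ D.b z a θ) u₀ :=
  pen_bad' ω D hU hU' hz hq (Or.inl hF) hθ hR hu₀ hΘ hbad

end Pool.Agent.Helper79.BB
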