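import Pool.Agent.Helper79.BB.Defs

/-!
# BB-01: partial derivatives

`pd i f u = fderiv ℂ f u (Pi.single i 1)`. `pd_analyticAt`: `AnalyticAt.fderiv` and composition with the continuous linear map
`L ↦ L (Pi.single i 1)`. `pd_comm`: the second derivative is symmetric (`second_derivative_symmetric_of_eventually`,
`ContDiffAt.isSymmSndFDerivAt`; `fderiv ℂ (pd j f) u v = fderiv ℂ (fderiv ℂ f) u v (Pi.single j 1)`). `pd_aeval`: induction on the polynomial. `pd_line`: chain rule
(the derivative of `s ↦ Function.update u i s` is `Pi.single i 1`).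
-/

namespace Pool.Agent.Helper79.BB

variable {m : ℕ}

theorem pd_congr {f g : (Fin m → ℂ) → ℂ} {u : Fin m → ℂ} (h : f =ᶠ[nhds u] g) (i : Fin m) :
    pd i f u = pd i g u := by
  unfold pd
  rw [h.fderiv_eq]

private lemma Pd_comp {f : (Fin m → ℂ) → ((Fin m → ℂ) →L[ℂ] ℂ)} {u : Fin m → ℂ}
    (h : DifferentiableAt ℂ f u) (v w : Fin m → ℂ) :
    fderiv ℂ (fun u => f u v) u w = fderiv ℂ f u w v := by
  have h1 : HasFDerivAt (fun u => f u v)
      ((ContinuousLinearMap.apply ℂ ℂ v).comp (fderiv ℂ f u)) u :=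
    (ContinuousLinearMap.apply ℂ ℂ v).hasFDerivAt.comp u h.hasFDerivAt
  rw [h1.fderiv]
  rfl

theorem pd_analyticAt {f : (Fin m → ℂ) → ℂ} {u : Fin m → ℂ} (h : AnalyticAt ℂ f u) (i : Fin m) :
    AnalyticAt ℂ (pd i f) u := by
  have h0 : AnalyticAt ℂ (ContinuousLinearMap.apply ℂ ℂ (Pi.single i (1 : ℂ) : Fin m → ℂ))
      (fderiv ℂ f u) := ContinuousLinearMap.analyticAt _ _
  exact AnalyticAt.comp h0 h.fderiv

theorem pd_comm {f : (Fin m → ℂ) → ℂ} {u : Fin m → ℂ} (h : AnalyticAt ℂ f u) (i j : Fin m) :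
    pd i (pd j f) u = pd j (pd i f) u := by
  have hd : DifferentiableAt ℂ (fderiv ℂ f) u := h.fderiv.differentiableAt
  have hs : IsSymmSndFDerivAt ℂ f u := h.contDiffAt.isSymmSndFDerivAt_of_omega
  have e1 : pd i (pd j f) u = fderiv ℂ (fderiv ℂ f) u (Pi.single i 1) (Pi.single j 1) :=
    Pd_comp hd _ _
  have e2 : pd j (pd i f) u = fderiv ℂ (fderiv ℂ f) u (Pi.single j 1) (Pi.single i 1) :=
    Pd_comp hd _ _
  rw [e1, e2]
  exact hs _ _

theorem pd_add {f g : (Fin m → ℂ) → ℂ} {u : Fin m → ℂ} (hf : DifferentiableAt ℂ f u)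
    (hg : DifferentiableAt ℂ g u) (i : Fin m) :
    pd i (fun u => f u + g u) u = pd i f u + pd i g u := by
  unfold pd
  rw [(hf.hasFDerivAt.fun_add hg.hasFDerivAt).fderiv]
  rfl

theorem pd_mul {f g : (Fin m → ℂ) → ℂ} {u : Fin m → ℂ} (hf : DifferentiableAt ℂ f u)
    (hg : DifferentiableAt ℂ g u) (i : Fin m) :
    pd i (fun u => f u * g u) u = pd i f u * g u + f u * pd i g u := by
  unfold pd
  rw [(hf.hasFDerivAt.fun_mul hg.hasFDerivAt).fderiv]
  simp only [ContinuousLinearMap.add_apply, ContinuousLinearMap.smul_apply, smul_eq_mul]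
  ring

theorem pd_const_mul {f : (Fin m → ℂ) → ℂ} {u : Fin m → ℂ} (hf : DifferentiableAt ℂ f u) (c : ℂ)
    (i : Fin m) : pd i (fun u => c * f u) u = c * pd i f u := by
  unfold pd
  rw [(hf.hasFDerivAt.const_mul c).fderiv]
  rfl

theorem pd_pow {f : (Fin m → ℂ) → ℂ} {u : Fin m → ℂ} (hf : DifferentiableAt ℂ f u) (n : ℕ)
    (i : Fin m) : pd i (fun u => f u ^ n) u = n * f u ^ (n - 1) * pd i f u := by
  unfold pd
  rw [fderiv_fun_pow n hf]
  simp only [ContinuousLinearMap.smul_apply, smul_eq_mul, nsmul_eq_mul]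

theorem pd_sum {α : Type} (s : Finset α) {f : α → (Fin m → ℂ) → ℂ} {u : Fin m → ℂ}
    (h : ∀ a ∈ s, DifferentiableAt ℂ (f a) u) (i : Fin m) :
    pd i (fun u => ∑ a ∈ s, f a u) u = ∑ a ∈ s, pd i (f a) u := by
  unfold pd
  rw [(HasFDerivAt.fun_sum fun a ha => (h a ha).hasFDerivAt).fderiv]
  simp

theorem analytic_aeval {k : Type} [CommRing k] [Algebra k ℂ] (P : MvPolynomial (Fin m) k)
    (u : Fin m → ℂ) : AnalyticAt ℂ (fun u : Fin m → ℂ => MvPolynomial.aeval u P) u :=
  AnalyticAt.aeval_mvPolynomial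
    (fun i => (ContinuousLinearMap.proj (R := ℂ) (φ := fun _ : Fin m => ℂ) i).analyticAt u) P

private lemma Pd_proj (i j : Fin m) (u : Fin m → ℂ) :
    pd i (fun u : Fin m → ℂ => u j) u = if j = i then 1 else 0 := by
  have h1 : HasFDerivAt (fun u : Fin m → ℂ => u j)
      (ContinuousLinearMap.proj (R := ℂ) (φ := fun _ : Fin m => ℂ) j) u :=
    (ContinuousLinearMap.proj (R := ℂ) (φ := fun _ : Fin m => ℂ) j).hasFDerivAt
  unfold pd
  rw [h1.fderiv]
  simp only [ContinuousLinearMap.proj_apply, Pi.single_apply]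

theorem pd_aeval {k : Type} [CommRing k] [Algebra k ℂ] (P : MvPolynomial (Fin m) k) (i : Fin m)
    (u : Fin m → ℂ) : pd i (fun u : Fin m → ℂ => MvPolynomial.aeval u P) u =
      MvPolynomial.aeval u (MvPolynomial.pderiv i P) := by
  induction P using MvPolynomial.induction_on generalizing u with
  | C a =>
    simp only [MvPolynomial.aeval_C, MvPolynomial.pderiv_C, map_zero]
    unfold pd
    rw [(hasFDerivAt_const _ u).fderiv]
    rfl
  | add P Q hP hQ =>
    simp only [map_add]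
    rw [pd_add (analytic_aeval P u).differentiableAt (analytic_aeval Q u).differentiableAt, hP, hQ]
  | mul_X P j hP =>
    have h1 : (fun u : Fin m → ℂ => MvPolynomial.aeval u (P * MvPolynomial.X j)) =
        fun u : Fin m → ℂ => MvPolynomial.aeval u P * u j := by
      funext v
      rw [map_mul, MvPolynomial.aeval_X]
    have hj : DifferentiableAt ℂ (fun u : Fin m → ℂ => u j) u :=
      (ContinuousLinearMap.proj (R := ℂ) (φ := fun _ : Fin m => ℂ) j).differentiableAt
    rw [h1, pd_mul (analytic_aeval P u).differentiableAt hj, hP, Pd_proj,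
      Derivation.leibniz, MvPolynomial.pderiv_X]
    simp only [smul_eq_mul, map_add, map_mul, MvPolynomial.aeval_X]
    by_cases hji : j = i
    · subst hji
      simp
      ring
    · rw [if_neg hji, Pi.single_eq_of_ne' (Ne.symm hji)]
      simp
      ring

theorem pd_line {f : (Fin m → ℂ) → ℂ} {u : Fin m → ℂ} {i : Fin m} {s : ℂ}
    (h : DifferentiableAt ℂ f (Function.update u i s)) :
    HasDerivAt (fun s : ℂ => f (Function.update u i s)) (pd i f (Function.update u i s)) s :=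
  h.hasFDerivAt.comp_hasDerivAt s (hasDerivAt_update u i s)

end Pool.Agent.Helper79.BB
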