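import Mathlib

/-!
# BB-26: sublevel sets of polynomials

Induction on `m` (`MvPolynomial.finSuccEquiv`), `m = 0`: `T = c ≠ 0`, `‖c‖ ≤ X^(-η)` only for finitely many `X`: choose `C`. Step `m + 1`: `T = ∑_(k ≤ d) T_k(x_2, …) x_1^k`, `T_d ≠ 0`.
The points `u` with `‖T_d(x')‖ ≤ X^(-η/2)`: by induction at most `C' X^(m - θ')` values of `(u_2, …)`, and at most `2X+1` values of `u_1`. Otherwise
`‖T‖ = ‖T_d(x')‖ ∏_(j ≤ d) ‖x_1 - r_j‖ ≤ X^(-η)` (`r_j` the roots of `T(·, x')`) gives `∏ ‖x_1 - r_j‖ ≤ X^(-η/2)`, so (`d ≥ 1`) `‖x_1 - r_j‖ ≤ X^(-η/(2d))` for some `j`, i.e.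
`|u_1 - (r_j - x⁰_1)/λ| ≤ X^(1 - η/(2d)) / c`: at most `2 X^(1 - η/(2d)) / c + 1` values of `u_1` for every `j`, for each of the `(2X+1)^m` values of `(u_2, …)`. Take
`θ = min(θ', η/(2d), 1, …)`.
-/

namespace Pool.Agent.Helper79.BB

lemma sublevel_card_near (z : ℂ) (ρ : ℝ) (hρ : 0 ≤ ρ) (A : Finset ℤ)
    (h : ∀ a ∈ A, ‖(a : ℂ) - z‖ ≤ ρ) : (A.card : ℝ) ≤ 2 * ρ + 1 := by
  have h1 : A ⊆ Finset.Icc ⌈z.re - ρ⌉ ⌊z.re + ρ⌋ := by
    intro a ha
    have h2 := (Complex.abs_re_le_norm ((a : ℂ) - z)).trans (h a ha)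
    rw [Complex.sub_re, Complex.intCast_re, abs_le] at h2
    rw [Finset.mem_Icc, Int.ceil_le, Int.le_floor]
    constructor <;> linarith [h2.1, h2.2]
  have h3 : (A.card : ℝ) ≤ ((⌊z.re + ρ⌋ + 1 - ⌈z.re - ρ⌉).toNat : ℝ) := by
    have := Finset.card_le_card h1
    rw [Int.card_Icc] at this
    exact_mod_cast this
  refine h3.trans ?_
  have h4 : (((⌊z.re + ρ⌋ + 1 - ⌈z.re - ρ⌉).toNat : ℤ) : ℝ) =
      ((max (⌊z.re + ρ⌋ + 1 - ⌈z.re - ρ⌉) 0 : ℤ) : ℝ) := by
    rw [Int.toNat_eq_max]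
  have h5 : (((⌊z.re + ρ⌋ + 1 - ⌈z.re - ρ⌉).toNat : ℕ) : ℝ) =
      ((max (⌊z.re + ρ⌋ + 1 - ⌈z.re - ρ⌉) 0 : ℤ) : ℝ) := by
    rw [← h4]
    push_cast
    rfl
  rw [h5]
  push_cast
  have h6 := Int.floor_le (z.re + ρ)
  have h7 := Int.le_ceil (z.re - ρ)
  apply max_le <;> linarith

lemma sublevel_prod (y : ℂ) (δ : ℝ) (hδ : 0 ≤ δ) (s : Multiset ℂ)
    (h : ∀ r ∈ s, δ < ‖y - r‖) :
    δ ^ (Multiset.card s) ≤ ‖(s.map (fun r => y - r)).prod‖ ∧
      0 < ‖(s.map (fun r => y - r)).prod‖ := by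
  induction s using Multiset.induction_on with
  | empty => simp
  | cons a s ih =>
    obtain ⟨h1, h2⟩ := ih (fun r hr => h r (Multiset.mem_cons_of_mem hr))
    have h3 := h a (Multiset.mem_cons_self a s)
    rw [Multiset.map_cons, Multiset.prod_cons, Multiset.card_cons, norm_mul, pow_succ']
    exact ⟨mul_le_mul h3.le h1 (by positivity) (norm_nonneg _),
      mul_pos (lt_of_le_of_lt hδ h3) h2⟩

lemma sublevel_exists_root (y : ℂ) (δ : ℝ) (hδ : 0 ≤ δ) (s : Multiset ℂ) (hs : s ≠ 0)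
    (h : ‖(s.map (fun r => y - r)).prod‖ ≤ δ ^ (Multiset.card s)) :
    ∃ r ∈ s, ‖y - r‖ ≤ δ := by
  by_contra hcon
  push Not at hcon
  obtain ⟨a, ha⟩ := Multiset.exists_mem_of_ne_zero hs
  obtain ⟨t, rfl⟩ := Multiset.exists_cons_of_mem ha
  obtain ⟨h1, h2⟩ := sublevel_prod y δ hδ t (fun r hr => hcon r (Multiset.mem_cons_of_mem hr))
  rw [Multiset.map_cons, Multiset.prod_cons, Multiset.card_cons, norm_mul, pow_succ'] at h
  have h3 := hcon a ha
  have h4 : δ * δ ^ (Multiset.card t) ≤ δ * ‖(t.map (fun r => y - r)).prod‖ :=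
    mul_le_mul_of_nonneg_left h1 hδ
  have h5 : δ * ‖(t.map (fun r => y - r)).prod‖ < ‖y - a‖ * ‖(t.map (fun r => y - r)).prod‖ :=
    mul_lt_mul_of_pos_right h3 h2
  linarith

open scoped Classical in
/-- the number of bad points -/
noncomputable def sublevelCard {m : ℕ} (T : MvPolynomial (Fin m) ℂ) (X : ℕ) (x : Fin m → ℂ) (l : ℂ)
    (η : ℝ) : Finset (Fin m → ℤ) :=
  (Fintype.piFinset (fun _ : Fin m => Finset.Icc (-(X : ℤ)) X)).filter
    (fun u => ‖MvPolynomial.eval (fun j => x j + l * (u j : ℂ)) T‖ ≤ (X : ℝ) ^ (-η))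

open scoped Classical in
theorem sublevel_aux (c : ℝ) (hc : 0 < c) : ∀ (m : ℕ) (T : MvPolynomial (Fin m) ℂ), T ≠ 0 →
    ∀ η : ℝ, 0 < η → ∃ θ C : ℝ, 0 < θ ∧ θ ≤ 1 ∧ 0 ≤ C ∧ ∀ X : ℕ, 1 ≤ X →
      ∀ (x : Fin m → ℂ) (l : ℂ), c ≤ ‖l‖ * X →
      ((sublevelCard T X x l η).card : ℝ) ≤ C * (X : ℝ) ^ ((m : ℝ) - θ) := by
  intro m
  induction m with
  | zero =>
    intro T hT η hη
    have h0 : ∀ s : Fin 0 → ℂ, MvPolynomial.eval s T ≠ 0 := by
      intro s hs
      apply hT
      rw [MvPolynomial.eq_C_of_isEmpty T] at hs ⊢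
      rw [MvPolynomial.eval_C] at hs
      rw [hs, map_zero]
    set w := MvPolynomial.eval (fun j : Fin 0 => (0 : ℂ)) T with hw
    have hw0 : 0 < ‖w‖ := norm_pos_iff.2 (h0 _)
    refine ⟨1, ‖w‖ ^ (-(1 / η)), one_pos, le_refl _, by positivity, fun X hX x l _ => ?_⟩
    have hX0 : (0 : ℝ) < X := by exact_mod_cast hX
    by_cases hcard : (sublevelCard T X x l η).card = 0
    · rw [hcard]
      push_cast
      positivity
    · obtain ⟨u, hu⟩ := Finset.card_pos.1 (Nat.pos_of_ne_zero hcard)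
      rw [sublevelCard, Finset.mem_filter] at hu
      have h1 : (fun j => x j + l * (u j : ℂ)) = (fun j : Fin 0 => (0 : ℂ)) :=
        funext fun j => j.elim0
      rw [h1, ← hw] at hu
      have h2 : (sublevelCard T X x l η).card ≤ 1 :=
        Finset.card_le_one.2 fun a _ b _ => Subsingleton.elim a b
      have h3 : ((sublevelCard T X x l η).card : ℝ) ≤ 1 := by exact_mod_cast h2
      refine h3.trans ?_
      have h4 : (X : ℝ) ≤ ‖w‖ ^ (-(1 / η)) := by
        have h5 := Real.rpow_le_rpow_of_nonpos hw0 hu.2 (z := -(1 / η))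
          (neg_nonpos.2 (by positivity))
        rw [← Real.rpow_mul hX0.le] at h5
        have h6 : -η * -(1 / η) = 1 := by field_simp
        rw [h6, Real.rpow_one] at h5
        exact h5
      have h7 : (((0 : ℕ) : ℝ) - 1) = -1 := by norm_num
      rw [h7, Real.rpow_neg_one]
      calc (1 : ℝ) = X * (X : ℝ)⁻¹ := (mul_inv_cancel₀ hX0.ne').symm
        _ ≤ ‖w‖ ^ (-(1 / η)) * (X : ℝ)⁻¹ := by gcongr
  | succ m ih =>
    intro T hT η hη
    set P := MvPolynomial.finSuccEquiv ℂ m T with hP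
    have hP0 : P ≠ 0 := by
      intro h
      apply hT
      exact (MvPolynomial.finSuccEquiv ℂ m).injective (by rw [← hP, h, map_zero])
    set d := P.natDegree with hd
    have hlc : P.leadingCoeff ≠ 0 := Polynomial.leadingCoeff_ne_zero.2 hP0
    obtain ⟨θ', C', hθ', hθ1', hC', hmain⟩ := ih P.leadingCoeff hlc (η / 2) (by positivity)
    set θ := min θ' (η / (2 * ((d : ℝ) + 1))) with hθ
    have hθpos : 0 < θ := lt_min hθ' (by positivity)
    have hθle' : θ ≤ θ' := min_le_left _ _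
    have hθle : θ ≤ η / (2 * ((d : ℝ) + 1)) := min_le_right _ _
    have hθ1 : θ ≤ 1 := hθle'.trans hθ1'
    set K : ℝ := 3 * C' + 3 ^ m * (d * (2 / c + 1)) + 3 ^ (m + 1) with hK
    refine ⟨θ, K, hθpos, hθ1, by positivity, fun X hX x l hl => ?_⟩
    have hX0 : (0 : ℝ) < X := by exact_mod_cast hX
    have hX1 : (1 : ℝ) ≤ X := by exact_mod_cast hX
    have hl0 : 0 < ‖l‖ := by
      rcases (norm_nonneg l).eq_or_lt with h | h
      · rw [← h, zero_mul] at hl
        linarith
      · exact h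
    have hl0' : l ≠ 0 := norm_pos_iff.1 hl0
    -- the box
    set Box := Fintype.piFinset (fun _ : Fin m => Finset.Icc (-(X : ℤ)) X) with hBox
    have hIcc : (Finset.Icc (-(X : ℤ)) X).card = 2 * X + 1 := by
      rw [Int.card_Icc]
      omega
    have hBoxcard : (Box.card : ℝ) ≤ 3 ^ m * (X : ℝ) ^ (m : ℝ) := by
      rw [hBox, Fintype.card_piFinset]
      simp only [hIcc, Finset.prod_const, Finset.card_univ, Fintype.card_fin]
      push_cast
      rw [Real.rpow_natCast, ← mul_pow]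
      gcongr
      linarith
    set S := sublevelCard T X x l η with hS
    set B := sublevelCard P.leadingCoeff X (Fin.tail x) l (η / 2) with hB
    have hBcard : (B.card : ℝ) ≤ C' * (X : ℝ) ^ ((m : ℝ) - θ') := hmain X hX _ l hl
    have hBsub : B ⊆ Box := Finset.filter_subset _ _
    have hmaps : ((S : Set (Fin (m + 1) → ℤ))).MapsTo Fin.tail (Box : Set (Fin m → ℤ)) := by
      intro u hu
      rw [hS, sublevelCard, Finset.coe_filter] at hu
      have h1 := Fintype.mem_piFinset.1 hu.1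
      rw [hBox]
      exact Finset.mem_coe.2 (Fintype.mem_piFinset.2 fun j => h1 j.succ)
    have hcardS := Finset.card_eq_sum_card_fiberwise hmaps
    -- fibres
    have hfib : ∀ b : Fin m → ℤ, ((S.filter (fun u => Fin.tail u = b)).card : ℕ) ≤
        ((Finset.Icc (-(X : ℤ)) X).filter (fun a : ℤ => ‖Polynomial.eval (x 0 + l * (a : ℂ))
          (P.map (MvPolynomial.eval (fun j => Fin.tail x j + l * (b j : ℂ))))‖ ≤
            (X : ℝ) ^ (-η))).card := by
      intro b
      apply Finset.card_le_card_of_injOn (fun u => u 0)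
      · intro u hu
        have hu1 := Finset.mem_filter.1 (Finset.mem_coe.1 hu)
        have hu2 := Finset.mem_filter.1 (show u ∈ sublevelCard T X x l η from hu1.1)
        have h1 := Fintype.mem_piFinset.1 hu2.1
        refine Finset.mem_coe.2 (Finset.mem_filter.2 ⟨h1 0, ?_⟩)
        have h2 := hu2.2
        have h3 : (fun j => x j + l * (u j : ℂ)) =
            (Fin.cons (x 0 + l * (u 0 : ℂ)) (fun j => Fin.tail x j + l * (b j : ℂ)) :
              Fin (m + 1) → ℂ) := by
          funext j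
          refine Fin.cases ?_ (fun i => ?_) j
          · rfl
          · rw [Fin.cons_succ, ← hu1.2]
            rfl
        rw [h3, MvPolynomial.eval_eq_eval_mv_eval'] at h2
        exact h2
      · intro u hu v hv huv
        have hu1 := (Finset.mem_filter.1 (Finset.mem_coe.1 hu)).2
        have hv1 := (Finset.mem_filter.1 (Finset.mem_coe.1 hv)).2
        rw [← Fin.cons_self_tail u, ← Fin.cons_self_tail v, hu1, hv1]
        have : u 0 = v 0 := huv
        rw [this]
    have hfib1 : ∀ b : Fin m → ℤ, ((S.filter (fun u => Fin.tail u = b)).card : ℝ) ≤ 3 * X := by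
      intro b
      have h1 : (S.filter (fun u => Fin.tail u = b)).card ≤ 2 * X + 1 := by
        refine (hfib b).trans ((Finset.card_filter_le _ _).trans hIcc.le)
      have h2 : ((S.filter (fun u => Fin.tail u = b)).card : ℝ) ≤ 2 * X + 1 := by exact_mod_cast h1
      linarith
    -- the case X = 1
    rcases Nat.lt_or_ge 1 X with hX2 | hX2
    swap
    · have hX' : X = 1 := le_antisymm hX2 hX
      have h1 : (S.card : ℝ) ≤ 3 ^ (m + 1) := by
        rw [hcardS]
        push_cast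
        calc ∑ b ∈ Box, ((S.filter (fun u => Fin.tail u = b)).card : ℝ)
            ≤ ∑ b ∈ Box, (3 * X : ℝ) := Finset.sum_le_sum fun b _ => hfib1 b
          _ = Box.card * (3 * X) := by rw [Finset.sum_const, nsmul_eq_mul]
          _ ≤ (3 ^ m * (X : ℝ) ^ (m : ℝ)) * (3 * X) := by gcongr
          _ = 3 ^ (m + 1) := by
            rw [hX']
            push_cast
            rw [Real.one_rpow]
            ring
      rw [hX']
      push_cast
      rw [Real.one_rpow, mul_one]
      refine h1.trans ?_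
      rw [hK]
      have : 0 ≤ 3 * C' + 3 ^ m * (d * (2 / c + 1)) := by positivity
      linarith
    have hX2' : (1 : ℝ) < X := by exact_mod_cast hX2
    have hfib2 : ∀ b ∈ Box, b ∉ B → ((S.filter (fun u => Fin.tail u = b)).card : ℝ) ≤
        d * (2 / c + 1) * (X : ℝ) ^ (1 - θ) := by
      intro b hb hbB
      set q := P.map (MvPolynomial.eval (fun j => Fin.tail x j + l * (b j : ℂ))) with hq
      set F := (Finset.Icc (-(X : ℤ)) X).filter (fun a : ℤ => ‖Polynomial.eval (x 0 + l * (a : ℂ)) q‖ ≤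
            (X : ℝ) ^ (-η)) with hF
      have h1 : (X : ℝ) ^ (-(η / 2)) < ‖MvPolynomial.eval (fun j => Fin.tail x j + l * (b j : ℂ))
          P.leadingCoeff‖ := by
        by_contra hcon
        push Not at hcon
        exact hbB (Finset.mem_filter.2 ⟨hb, hcon⟩)
      have h2 : MvPolynomial.eval (fun j => Fin.tail x j + l * (b j : ℂ)) P.leadingCoeff ≠ 0 := by
        intro h
        rw [h, norm_zero] at h1
        have : 0 ≤ (X : ℝ) ^ (-(η / 2)) := by positivity
        linarith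
      have hqd : q.natDegree = d := Polynomial.natDegree_map_of_leadingCoeff_ne_zero _ h2
      have hql : q.leadingCoeff = MvPolynomial.eval (fun j => Fin.tail x j + l * (b j : ℂ))
          P.leadingCoeff := Polynomial.leadingCoeff_map_of_leadingCoeff_ne_zero _ h2
      have hspl : q.Splits := IsAlgClosed.splits q
      have hroots : Multiset.card q.roots = d := by
        rw [← hqd]
        exact hspl.natDegree_eq_card_roots.symm
      set δ : ℝ := (X : ℝ) ^ (-(η / (2 * (d : ℝ)))) with hδ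
      have hδ0 : 0 ≤ δ := by positivity
      have hprod : ∀ a ∈ F, ∃ r ∈ q.roots.toFinset, ‖(x 0 + l * (a : ℂ)) - r‖ ≤ δ := by
        intro a ha
        have ha2 := (Finset.mem_filter.1 ha).2
        rw [hspl.eval_eq_prod_roots, norm_mul, hql] at ha2
        set Pr := ‖(q.roots.map (fun r => (x 0 + l * (a : ℂ)) - r)).prod‖ with hPr
        have h3 : (X : ℝ) ^ (-(η / 2)) * Pr ≤ (X : ℝ) ^ (-η) :=
          (mul_le_mul_of_nonneg_right h1.le (norm_nonneg _)).trans ha2
        have h4 : (X : ℝ) ^ (-η) = (X : ℝ) ^ (-(η / 2)) * (X : ℝ) ^ (-(η / 2)) := by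
          rw [← Real.rpow_add hX0]
          congr 1
          ring
        rw [h4] at h3
        have h5 : Pr ≤ (X : ℝ) ^ (-(η / 2)) := le_of_mul_le_mul_left h3 (by positivity)
        have hd0 : d ≠ 0 := by
          intro hd0
          have h6 : q.roots = 0 := by
            rw [← Multiset.card_eq_zero, hroots, hd0]
          rw [hPr, h6, Multiset.map_zero, Multiset.prod_zero, norm_one] at h5
          have h7 : (X : ℝ) ^ (-(η / 2)) < 1 :=
            Real.rpow_lt_one_of_one_lt_of_neg hX2' (by linarith)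
          linarith
        have hd0' : (d : ℝ) ≠ 0 := by exact_mod_cast hd0
        have h8 : δ ^ (Multiset.card q.roots) = (X : ℝ) ^ (-(η / 2)) := by
          rw [hroots, hδ, ← Real.rpow_natCast, ← Real.rpow_mul hX0.le]
          congr 1
          field_simp
        have h9 : q.roots ≠ 0 := by
          intro h
          rw [h, Multiset.card_zero] at hroots
          exact hd0 hroots.symm
        obtain ⟨r, hr, hr2⟩ := sublevel_exists_root _ δ hδ0 q.roots h9 (by rw [h8]; exact h5)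
        exact ⟨r, Multiset.mem_toFinset.2 hr, hr2⟩
      set ρ : ℝ := (X : ℝ) ^ (1 - θ) / c with hρ
      have hsub : F ⊆ q.roots.toFinset.biUnion (fun r => F.filter
          (fun a : ℤ => ‖(a : ℂ) - (r - x 0) / l‖ ≤ ρ)) := by
        intro a ha
        obtain ⟨r, hr, hr2⟩ := hprod a ha
        rw [Finset.mem_biUnion]
        refine ⟨r, hr, Finset.mem_filter.2 ⟨ha, ?_⟩⟩
        have h3 : (a : ℂ) - (r - x 0) / l = ((x 0 + l * (a : ℂ)) - r) / l := by
          field_simp
          ring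
        rw [h3, norm_div]
        have h4 : δ ≤ (X : ℝ) ^ (-θ) := by
          rw [hδ]
          apply Real.rpow_le_rpow_of_exponent_le hX1
          rw [neg_le_neg_iff]
          refine hθle.trans ?_
          rcases Nat.eq_zero_or_pos d with h5 | h5
          · exfalso
            rw [Multiset.mem_toFinset] at hr
            have : q.roots = 0 := by rw [← Multiset.card_eq_zero, hroots, h5]
            rw [this] at hr
            exact Multiset.notMem_zero r hr
          · have h6 : (0 : ℝ) < d := by exact_mod_cast h5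
            gcongr
            linarith
        have h7 : c / X ≤ ‖l‖ := by rwa [div_le_iff₀ hX0]
        have h8 : 0 < c / X := by positivity
        calc ‖(x 0 + l * (a : ℂ)) - r‖ / ‖l‖ ≤ (X : ℝ) ^ (-θ) / (c / X) := by
              apply div_le_div₀ (by positivity) (hr2.trans h4) h8 h7
          _ = ρ := by
            rw [hρ, sub_eq_neg_add, Real.rpow_add hX0, Real.rpow_one]
            field_simp
      have h10 : (F.card : ℝ) ≤ d * (2 * ρ + 1) := by
        have h11 : (F.card : ℝ) ≤ ∑ r ∈ q.roots.toFinset, ((F.filter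
          (fun a : ℤ => ‖(a : ℂ) - (r - x 0) / l‖ ≤ ρ)).card : ℝ) := by
          have h12 := (Finset.card_le_card hsub).trans Finset.card_biUnion_le
          exact_mod_cast h12
        refine h11.trans ?_
        calc ∑ r ∈ q.roots.toFinset, ((F.filter
              (fun a : ℤ => ‖(a : ℂ) - (r - x 0) / l‖ ≤ ρ)).card : ℝ)
            ≤ ∑ r ∈ q.roots.toFinset, (2 * ρ + 1) := by
              refine Finset.sum_le_sum fun r _ => ?_
              exact sublevel_card_near _ ρ (by positivity) _ fun a ha =>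
                (Finset.mem_filter.1 ha).2
          _ = q.roots.toFinset.card * (2 * ρ + 1) := by rw [Finset.sum_const, nsmul_eq_mul]
          _ ≤ d * (2 * ρ + 1) := by
            have h12 : (q.roots.toFinset.card : ℝ) ≤ d := by
              exact_mod_cast (Multiset.toFinset_card_le _).trans hroots.le
            have : 0 ≤ 2 * ρ + 1 := by positivity
            gcongr
      have h13 : (1 : ℝ) ≤ (X : ℝ) ^ (1 - θ) := Real.one_le_rpow hX1 (by linarith)
      have h14 : 2 * ρ + 1 ≤ (2 / c + 1) * (X : ℝ) ^ (1 - θ) := by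
        rw [hρ]
        have : 2 * ((X : ℝ) ^ (1 - θ) / c) = 2 / c * (X : ℝ) ^ (1 - θ) := by ring
        rw [this, add_mul, one_mul]
        linarith
      have h15 : ((S.filter (fun u => Fin.tail u = b)).card : ℝ) ≤ F.card := by
        exact_mod_cast hfib b
      calc ((S.filter (fun u => Fin.tail u = b)).card : ℝ) ≤ F.card := h15
        _ ≤ d * (2 * ρ + 1) := h10
        _ ≤ d * ((2 / c + 1) * (X : ℝ) ^ (1 - θ)) := by gcongr
        _ = d * (2 / c + 1) * (X : ℝ) ^ (1 - θ) := by ring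
    -- sum
    have hsum : (S.card : ℝ) ≤ ∑ b ∈ B, (3 * X : ℝ) +
        ∑ b ∈ Box, d * (2 / c + 1) * (X : ℝ) ^ (1 - θ) := by
      rw [hcardS]
      push_cast
      rw [← Finset.sum_filter_add_sum_filter_not Box (fun b => b ∈ B)]
      apply add_le_add
      · refine (Finset.sum_le_sum fun b _ => hfib1 b).trans ?_
        apply Finset.sum_le_sum_of_subset_of_nonneg
        · intro b hb
          exact (Finset.mem_filter.1 hb).2
        · intro b _ _
          positivity
      · refine (Finset.sum_le_sum fun b hb => hfib2 b (Finset.mem_filter.1 hb).1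
          (Finset.mem_filter.1 hb).2).trans ?_
        apply Finset.sum_le_sum_of_subset_of_nonneg (Finset.filter_subset _ _)
        intro b _ _
        positivity
    rw [Finset.sum_const, nsmul_eq_mul, Finset.sum_const, nsmul_eq_mul] at hsum
    have e1 : (X : ℝ) ^ ((m : ℝ) - θ') * X ≤ (X : ℝ) ^ (((m + 1 : ℕ) : ℝ) - θ) := by
      have : (X : ℝ) ^ ((m : ℝ) - θ') * X = (X : ℝ) ^ ((m : ℝ) - θ' + 1) := by
        rw [Real.rpow_add hX0, Real.rpow_one]
      rw [this]
      apply Real.rpow_le_rpow_of_exponent_le hX1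
      push_cast
      linarith
    have e2 : (X : ℝ) ^ (m : ℝ) * (X : ℝ) ^ (1 - θ) = (X : ℝ) ^ (((m + 1 : ℕ) : ℝ) - θ) := by
      rw [← Real.rpow_add hX0]
      congr 1
      push_cast
      ring
    have e3 : 0 ≤ (X : ℝ) ^ (((m + 1 : ℕ) : ℝ) - θ) := by positivity
    calc (S.card : ℝ) ≤ B.card * (3 * X : ℝ) +
          Box.card * (d * (2 / c + 1) * (X : ℝ) ^ (1 - θ)) := hsum
      _ ≤ (C' * (X : ℝ) ^ ((m : ℝ) - θ')) * (3 * X) +
          (3 ^ m * (X : ℝ) ^ (m : ℝ)) * (d * (2 / c + 1) * (X : ℝ) ^ (1 - θ)) := by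
          gcongr
      _ = 3 * C' * ((X : ℝ) ^ ((m : ℝ) - θ') * X) +
          3 ^ m * (d * (2 / c + 1)) * ((X : ℝ) ^ (m : ℝ) * (X : ℝ) ^ (1 - θ)) := by ring
      _ ≤ 3 * C' * (X : ℝ) ^ (((m + 1 : ℕ) : ℝ) - θ) +
          3 ^ m * (d * (2 / c + 1)) * (X : ℝ) ^ (((m + 1 : ℕ) : ℝ) - θ) := by
          rw [e2]
          gcongr
      _ ≤ K * (X : ℝ) ^ (((m + 1 : ℕ) : ℝ) - θ) := by
          rw [hK]
          have : 0 ≤ 3 ^ (m + 1) * (X : ℝ) ^ (((m + 1 : ℕ) : ℝ) - θ) := by positivity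
          linarith

theorem sublevel {m : ℕ} {T : MvPolynomial (Fin m) ℂ} (hT : T ≠ 0) {η c : ℝ} (hη : 0 < η)
    (hc : 0 < c) : ∃ θ C : ℝ, 0 < θ ∧ θ ≤ 1 ∧ 0 ≤ C ∧ ∀ X : ℕ, 1 ≤ X →
      ∀ (x : Fin m → ℂ) (l : ℂ), c ≤ ‖l‖ * X →
      (Set.ncard {u : Fin m → ℤ | (∀ j, |u j| ≤ X) ∧
        ‖MvPolynomial.eval (fun j => x j + l * (u j : ℂ)) T‖ ≤ (X : ℝ) ^ (-η)} : ℝ) ≤
      C * (X : ℝ) ^ ((m : ℝ) - θ) := by
  classical
  obtain ⟨θ, C, h1, h2, h3, h4⟩ := sublevel_aux c hc m T hT η hη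
  refine ⟨θ, C, h1, h2, h3, fun X hX x l hl => ?_⟩
  have h5 : {u : Fin m → ℤ | (∀ j, |u j| ≤ X) ∧
        ‖MvPolynomial.eval (fun j => x j + l * (u j : ℂ)) T‖ ≤ (X : ℝ) ^ (-η)} =
      ((sublevelCard T X x l η : Finset (Fin m → ℤ)) : Set (Fin m → ℤ)) := by
    ext u
    rw [Finset.mem_coe, sublevelCard, Finset.mem_filter, Fintype.mem_piFinset]
    simp only [Set.mem_ofPred_eq, Finset.mem_Icc, abs_le]
  rw [h5, Set.ncard_coe_finset]
  exact h4 X hX x l hl

end Pool.Agent.Helper79.BB
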