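import Pool.Agent.Helper79.BB.BoxCore
import Pool.Agent.Helper79.BB.PenSys
import Pool.Agent.Helper79.BB.PenBad
import Pool.Agent.Helper79.BB.CountPts
import Pool.Agent.Helper79.BB.Sublevel
import Pool.Agent.Helper79.BB.Univ
import Pool.Agent.Helper79.AA.CountB

/-!
# BB: counting the bad parameters (helper79)
-/

open Polynomial

namespace Pool.Agent.Helper79.BB

open Pool.Agent.Helper79.AA Pool.Agent.Helper79.GX Pool.Agent.Helper64.Per

/-- The size of the point. -/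
theorem ptM_bound {κ : IntermediateField ℚ Qbar} {J : Type} [Fintype J] {m dg : ℕ} (ω : J → κ)
    {y : Px m dg J → ℂ} {X M Q : ℝ} (hX : 0 ≤ X) (hM : 1 ≤ M) (hQ : 0 < Q)
    (hy : ∀ p, ‖y p‖ ≤ X) (hq : Q ≤ ‖y (Sum.inr (Sum.inr ()))‖) {t : ℂ} (ht : ‖t‖ ≤ M) :
    ‖ptM ω y t‖ ≤ X * (∑ l : Fin (dg + 1) × J, ‖algebraMap κ ℂ (ω l.2)‖) * M ^ dg / Q := by
  have hM0 : 0 ≤ M := by linarith
  rw [pi_norm_le_iff_of_nonneg (by positivity)]
  intro i
  unfold ptM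
  rw [norm_div]
  refine div_le_div₀ (by positivity) ?_ hQ hq
  refine (norm_sum_le _ _).trans ?_
  rw [Finset.mul_sum, Finset.sum_mul]
  refine Finset.sum_le_sum fun l _ => ?_
  rw [norm_mul, norm_mul, norm_pow]
  refine mul_le_mul (mul_le_mul_of_nonneg_right (hy _) (norm_nonneg _)) ?_ (by positivity)
    (by positivity)
  refine (pow_le_pow_left₀ (norm_nonneg _) ht _).trans (pow_le_pow_right₀ hM ?_)
  have := l.1.2
  omega

theorem card_Px {m dg : ℕ} {J : Type} [Fintype J] (j₀ : J) : m + 1 ≤ Fintype.card (Px m dg J) := by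
  classical
  have h1 : Function.Injective (fun o : Option (Fin m) => (o.elim (Sum.inr (Sum.inr ()))
      (fun i => dirM (dg := dg) j₀ i) : Px m dg J)) := by
    intro a b hab
    cases a with
    | none =>
      cases b with
      | none => rfl
      | some b => simp at hab
    | some a =>
      cases b with
      | none => simp at hab
      | some b =>
        have := dirM_injective j₀ hab
        rw [this]
  have h2 := Fintype.card_le_of_injective _ h1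
  simpa using h2

theorem PS.mulpow {n k : ℕ} {f g : ℕ → ℝ} (hf : PS n f) {C : ℝ} (hC : 0 ≤ C)
    (hg : ∀ X : ℕ, 1 ≤ X → g X ≤ f X * (C * (X : ℝ) ^ k)) :
    PS (n + k) g := by
  obtain ⟨θ, C', h0, h1⟩ := hf
  refine ⟨θ, |C'| * C, h0, fun X hX => ?_⟩
  have hX1 : (1 : ℝ) ≤ X := by exact_mod_cast hX
  have hX0 : (0 : ℝ) < X := by linarith
  have e : (X : ℝ) ^ (((n + k : ℕ) : ℝ) - θ) = (X : ℝ) ^ ((n : ℝ) - θ) * (X : ℝ) ^ k := by
    rw [← Real.rpow_natCast, ← Real.rpow_add hX0]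
    congr 1
    push_cast
    ring
  calc g X ≤ f X * (C * (X : ℝ) ^ k) := hg X hX
    _ ≤ (|C'| * (X : ℝ) ^ ((n : ℝ) - θ)) * (C * (X : ℝ) ^ k) := by
        refine mul_le_mul_of_nonneg_right ((h1 X hX).trans ?_) (by positivity)
        exact mul_le_mul_of_nonneg_right (le_abs_self _) (by positivity)
    _ = _ := by
        rw [e]
        ring

section

variable {κ : IntermediateField ℚ Qbar} {J : Type} [Fintype J]
  [DecidableEq J] (ω : Module.Basis J ℚ κ) {m dg : ℕ}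

theorem ps_zero {σ : Type} [Fintype σ] [DecidableEq σ] (hn : 1 ≤ Fintype.card σ)
    {Θ : MvPolynomial σ ℚ} (hΘ : Θ ≠ 0) : PS (Fintype.card σ) fun X =>
    (Set.ncard {a : σ → ℤ | (∀ j, |a j| ≤ X) ∧
      MvPolynomial.eval (fun i => ((a i : ℤ) : ℚ)) Θ = 0} : ℝ) := by
  obtain ⟨C, hC⟩ := count_zero hΘ
  refine PS.of (θ := 1) (C := C) one_pos fun X hX => ?_
  have h2 : (Set.ncard {a : σ → ℤ | (∀ j, |a j| ≤ X) ∧
      MvPolynomial.eval (fun i => ((a i : ℤ) : ℚ)) Θ = 0} : ℝ) ≤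
      C * (X : ℝ) ^ (Fintype.card σ - 1) := by exact_mod_cast hC X hX
  have h3 : (X : ℝ) ^ ((Fintype.card σ : ℝ) - 1) = (X : ℝ) ^ (Fintype.card σ - 1) := by
    rw [← Real.rpow_natCast, Nat.cast_sub hn, Nat.cast_one]
  rw [h3]
  exact h2

theorem ps_large (hdg : 1 ≤ dg) {η : ℝ} (hη : 0 < η) (hη' : η < 1) :
    PS (Fintype.card (Px m dg J)) fun X => (Set.ncard {a : Px m dg J → ℤ | (∀ p, |a p| ≤ X) ∧
      ∃ t : ℂ, (X : ℝ) ^ η ≤ ‖t‖ ∧ FvM (fun j => ω j) (fun p => (a p : ℂ)) t = 0} : ℝ) := by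
  classical
  have hJ : Nonempty J := ω.index_nonempty
  obtain ⟨C, hC⟩ := count_large (ω := fun j => ω j) (fun j => ω.ne_zero j) hdg hη hη'
  set f : ℕ → ℝ := fun X => (Set.ncard {a : Ix dg J → ℤ | (∀ j, |a j| ≤ X) ∧ ∃ t : ℂ,
    (X : ℝ) ^ η ≤ ‖t‖ ∧ Fv (fun j => ω j) (fun i => (a i : ℂ)) t = 0} : ℝ) with hf
  have hps : PS (Fintype.card (Ix dg J)) f := PS.of hη fun X hX => hC X hX
  have hcard : Fintype.card (Px m dg J) = Fintype.card (Ix dg J) +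
      Fintype.card ((Fin m × (Fin (dg + 1) × J)) ⊕ Unit) := Fintype.card_sum
  rw [hcard]
  refine PS.mulpow hps (C := 3 ^ Fintype.card ((Fin m × (Fin (dg + 1) × J)) ⊕ Unit))
    (by positivity) fun X hX => ?_
  have hX1 : (1 : ℝ) ≤ X := by exact_mod_cast hX
  set S : Set (Ix dg J → ℤ) := {a : Ix dg J → ℤ | (∀ j, |a j| ≤ X) ∧ ∃ t : ℂ,
    (X : ℝ) ^ η ≤ ‖t‖ ∧ Fv (fun j => ω j) (fun i => (a i : ℂ)) t = 0} with hS
  have h1 := count_proj X S.ncard S (box_card X S fun a ha => ha.1).1 le_rfl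
    {a : Px m dg J → ℤ | (∀ p, |a p| ≤ X) ∧
      ∃ t : ℂ, (X : ℝ) ^ η ≤ ‖t‖ ∧ FvM (fun j => ω j) (fun p => (a p : ℂ)) t = 0}
    (fun a ha => ⟨ha.1, fun l => ha.1 (Sum.inl l), ha.2⟩)
  have h2 : (Set.ncard {a : Px m dg J → ℤ | (∀ p, |a p| ≤ X) ∧
      ∃ t : ℂ, (X : ℝ) ^ η ≤ ‖t‖ ∧ FvM (fun j => ω j) (fun p => (a p : ℂ)) t = 0} : ℝ) ≤
      S.ncard * (2 * X + 1) ^ Fintype.card ((Fin m × (Fin (dg + 1) × J)) ⊕ Unit) := by
    exact_mod_cast h1
  refine h2.trans ?_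
  rw [← mul_pow]
  refine mul_le_mul_of_nonneg_left (pow_le_pow_left₀ (by positivity) (by linarith) _)
    (Nat.cast_nonneg _)

theorem ps_small {σ : Type} [Fintype σ] [DecidableEq σ] (p₀ : σ) {η : ℝ} (hη : 0 < η)
    (hη' : η < 1) : PS (Fintype.card σ) fun X => (Set.ncard {a : σ → ℤ | (∀ p, |a p| ≤ X) ∧
      |(a p₀ : ℝ)| ≤ (X : ℝ) ^ (1 - η)} : ℝ) := by
  classical
  have hn : 1 ≤ Fintype.card σ := Fintype.card_pos_iff.2 ⟨p₀⟩
  refine PS.of (θ := η) (C := 3 ^ (Fintype.card σ - 1) * 3) hη fun X hX => ?_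
  have hX1 : (1 : ℝ) ≤ X := by exact_mod_cast hX
  have hX0 : (0 : ℝ) < X := by linarith
  set Y : ℕ := ⌊(X : ℝ) ^ (1 - η)⌋₊ with hY
  have hYle : (Y : ℝ) ≤ (X : ℝ) ^ (1 - η) := Nat.floor_le (by positivity)
  have hx1 : 1 ≤ (X : ℝ) ^ (1 - η) := Real.one_le_rpow hX1 (by linarith)
  have h1 := count_fib p₀ X (2 * Y + 1) {a : σ → ℤ | (∀ p, |a p| ≤ X) ∧
      |(a p₀ : ℝ)| ≤ (X : ℝ) ^ (1 - η)} (fun a ha => ha.1) (fun a _ => by
    have h2 : {l : ℤ | Function.update a p₀ l ∈ {a : σ → ℤ | (∀ p, |a p| ≤ X) ∧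
        |(a p₀ : ℝ)| ≤ (X : ℝ) ^ (1 - η)}} ⊆ (Finset.Icc (-(Y : ℤ)) Y : Finset ℤ) := by
      intro l hl
      have h3 := hl.2
      rw [Function.update_self] at h3
      rw [Finset.mem_coe, Finset.mem_Icc]
      have h4 : l.natAbs ≤ Y := Nat.le_floor (by
        rw [Nat.cast_natAbs, Int.cast_abs]
        exact h3)
      omega
    refine (Set.ncard_le_ncard h2 (Finset.finite_toSet _)).trans ?_
    rw [Set.ncard_coe_finset, Int.card_Icc]
    omega)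
  have h2 : (Set.ncard {a : σ → ℤ | (∀ p, |a p| ≤ X) ∧
      |(a p₀ : ℝ)| ≤ (X : ℝ) ^ (1 - η)} : ℝ) ≤
      (2 * X + 1) ^ (Fintype.card σ - 1) * (2 * Y + 1) := by exact_mod_cast h1
  refine h2.trans ?_
  have e : (X : ℝ) ^ ((Fintype.card σ : ℝ) - η) =
      (X : ℝ) ^ (Fintype.card σ - 1) * (X : ℝ) ^ (1 - η) := by
    rw [← Real.rpow_natCast, Nat.cast_sub hn, Nat.cast_one, ← Real.rpow_add hX0]
    congr 1
    ring
  calc (2 * (X : ℝ) + 1) ^ (Fintype.card σ - 1) * (2 * Y + 1) ≤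
        (3 * (X : ℝ)) ^ (Fintype.card σ - 1) * (3 * (X : ℝ) ^ (1 - η)) :=
        mul_le_mul (pow_le_pow_left₀ (by positivity) (by linarith) _) (by linarith)
          (by positivity) (by positivity)
    _ = _ := by
        rw [mul_pow, e]
        ring

/-- From a bound on the fibres to a power saving. -/
theorem pts_le {n m : ℕ} (hmn : m ≤ n) {X : ℕ} (hX : 1 ≤ X) (dg : ℕ) {C θ s : ℝ} {N : ℕ}
    (hN : (N : ℝ) ≤ C * (X : ℝ) ^ ((m : ℝ) - θ)) (hs : s ≤ (2 * X + 1) ^ (n - m) * (dg * N)) :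
    s ≤ (3 ^ (n - m) * dg * C) * (X : ℝ) ^ ((n : ℝ) - θ) := by
  have hX1 : (1 : ℝ) ≤ X := by exact_mod_cast hX
  have hX0 : (0 : ℝ) < X := by linarith
  have e : (X : ℝ) ^ ((n : ℝ) - θ) = (X : ℝ) ^ (n - m) * (X : ℝ) ^ ((m : ℝ) - θ) := by
    rw [← Real.rpow_natCast, Nat.cast_sub hmn, ← Real.rpow_add hX0]
    congr 1
    ring
  calc s ≤ (2 * X + 1) ^ (n - m) * (dg * N) := hs
    _ ≤ (3 * (X : ℝ)) ^ (n - m) * (dg * (C * (X : ℝ) ^ ((m : ℝ) - θ))) :=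
        mul_le_mul (pow_le_pow_left₀ (by positivity) (by linarith) _)
          (mul_le_mul_of_nonneg_left hN (Nat.cast_nonneg _)) (by positivity) (by positivity)
    _ = _ := by
        rw [mul_pow, e]
        ring

theorem ps_sub (j₀ : J) {T : MvPolynomial (Fin m) κ} (hT : T ≠ 0) {η : ℝ} (hη : 0 < η) :
    PS (Fintype.card (Px m dg J)) fun X => (Set.ncard {a : Px m dg J → ℤ | (∀ p, |a p| ≤ X) ∧
      (∃ l, a (Sum.inl l) ≠ 0) ∧ ∃ θ : ℂ, FvM (fun j => ω j) (fun p => (a p : ℂ)) θ = 0 ∧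
      (a (Sum.inr (Sum.inr ())) ≠ 0 ∧
      ‖MvPolynomial.aeval (ptM (fun j => ω j) (fun p => (a p : ℂ)) θ) T‖ ≤ (X : ℝ) ^ (-η))} :
        ℝ) := by
  classical
  have hw : 0 < ‖algebraMap κ ℂ (ω j₀)‖ := norm_pos_iff.2 (by
    rw [Ne, map_eq_zero]
    exact ω.ne_zero j₀)
  have hTC : MvPolynomial.map (algebraMap κ ℂ) T ≠ 0 := fun h0 => hT
    (MvPolynomial.map_injective _ (algebraMap κ ℂ).injective (by rw [h0, map_zero]))
  obtain ⟨θ', C, hθ0, hθ1, hC0, hC⟩ := sublevel hTC hη hw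
  have hmn : m ≤ Fintype.card (Px m dg J) := le_trans (Nat.le_succ m) (card_Px j₀)
  refine PS.of (θ := θ') (C := 3 ^ (Fintype.card (Px m dg J) - m) * dg * C) hθ0 fun X hX => ?_
  have hX1 : (1 : ℝ) ≤ X := by exact_mod_cast hX
  have hX0 : (0 : ℝ) < X := by linarith
  set N : ℕ := ⌊C * (X : ℝ) ^ ((m : ℝ) - θ')⌋₊ with hN
  refine pts_le hmn hX dg (N := N) (Nat.floor_le (by positivity)) ?_
  have h1 := count_pts ω (m := m) (dg := dg) j₀ X N (fun a θ => a (Sum.inr (Sum.inr ())) ≠ 0 ∧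
      ‖MvPolynomial.aeval (ptM (fun j => ω j) (fun p => (a p : ℂ)) θ) T‖ ≤ (X : ℝ) ^ (-η))
    (fun a₀ θ ha₀ _ _ => by
      by_cases hq : a₀ (Sum.inr (Sum.inr ())) = 0
      · have h2 : {u : Fin m → ℤ | (∀ i, |u i| ≤ X) ∧ (∀ p, |shM j₀ a₀ u p| ≤ X) ∧
            (shM j₀ a₀ u (Sum.inr (Sum.inr ())) ≠ 0 ∧
            ‖MvPolynomial.aeval (ptM (fun j => ω j) (fun p => ((shM j₀ a₀ u p : ℤ) : ℂ)) θ) T‖ ≤
              (X : ℝ) ^ (-η))} = ∅ := by
          rw [Set.eq_empty_iff_forall_notMem]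
          rintro u ⟨-, -, h3, -⟩
          rw [shM_q] at h3
          exact h3 hq
        rw [h2, Set.ncard_empty]
        exact Nat.zero_le _
      · refine Nat.le_floor ?_
        set l : ℂ := algebraMap κ ℂ (ω j₀) / (a₀ (Sum.inr (Sum.inr ())) : ℂ) with hl
        have hql : (1 : ℝ) ≤ |(a₀ (Sum.inr (Sum.inr ())) : ℝ)| := by
          exact_mod_cast Int.one_le_abs hq
        have hqX : |(a₀ (Sum.inr (Sum.inr ())) : ℝ)| ≤ X := by exact_mod_cast ha₀ _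
        have hlX : ‖algebraMap κ ℂ (ω j₀)‖ ≤ ‖l‖ * X := by
          rw [hl, norm_div, Complex.norm_intCast, div_mul_eq_mul_div, le_div_iff₀ (by linarith)]
          exact mul_le_mul_of_nonneg_left hqX (norm_nonneg _)
        refine le_trans ?_ (hC X hX (ptM (fun j => ω j) (fun p => (a₀ p : ℂ)) θ) l hlX)
        have hfin : {u : Fin m → ℤ | (∀ j, |u j| ≤ X) ∧ ‖MvPolynomial.eval (fun j =>
            ptM (fun j => ω j) (fun p => (a₀ p : ℂ)) θ j + l * (u j : ℂ))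
            (MvPolynomial.map (algebraMap κ ℂ) T)‖ ≤ (X : ℝ) ^ (-η)}.Finite :=
          (box_card X _ fun a ha => ha.1).1
        have h2 := Set.ncard_le_ncard (s := {u : Fin m → ℤ | (∀ i, |u i| ≤ X) ∧
            (∀ p, |shM j₀ a₀ u p| ≤ X) ∧ (shM j₀ a₀ u (Sum.inr (Sum.inr ())) ≠ 0 ∧
            ‖MvPolynomial.aeval (ptM (fun j => ω j) (fun p => ((shM j₀ a₀ u p : ℤ) : ℂ)) θ) T‖ ≤
              (X : ℝ) ^ (-η))}) (by
            rintro u ⟨hu1, -, -, hu2⟩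
            refine ⟨hu1, ?_⟩
            have h3 : (fun p => ((shM j₀ a₀ u p : ℤ) : ℂ)) =
                shM j₀ (fun p => (a₀ p : ℂ)) (ip u) := (shM_cast j₀ a₀ u).symm
            rw [h3, ptM_shM] at hu2
            rw [MvPolynomial.eval_map]
            exact hu2) hfin
        exact_mod_cast h2)
  exact_mod_cast h1

end

end Pool.Agent.Helper79.BB
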