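import Pool.Agent.Helper79.BB.CountMain

/-!
# BB: counting the bad parameters, main part (helper79)
-/

open Polynomial

namespace Pool.Agent.Helper79.BB

open Pool.Agent.Helper79.AA Pool.Agent.Helper79.GX Pool.Agent.Helper64.Per

/-- The parameters. -/
theorem paramsM (E N dg : ℕ) {c₀ w W : ℝ} (hc₀ : 0 < c₀) (hw : 0 < w) (hW : 0 ≤ W) :
    ∃ η ε : ℝ, 0 < η ∧ η < 1 ∧ 0 < ε ∧ ∃ X₀ : ℕ, ∀ X : ℕ, X₀ ≤ X → ∃ (K : ℕ) (R : ℝ),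
      2 ≤ X ∧ 2 ≤ K ∧ K ≤ X ∧ (K : ℝ) ^ E ≤ (X : ℝ) ^ (1 / 2 : ℝ) ∧ (K : ℝ) < R ∧
      (X : ℝ) ^ (1 / 2 : ℝ) ≤ R * K ∧ (X : ℝ) / K ≤ 2 * (X : ℝ) ^ (1 - ε) ∧
      w / (X : ℝ) ^ (1 - η) * (2 * R) * (1 + X * W * ((X : ℝ) ^ η) ^ dg / (X : ℝ) ^ (1 - η)) ^ N ≤
        c₀ * ((X : ℝ) ^ (-η)) ^ N := by
  obtain ⟨ε, η₂, hε0, -, -, -, X₁, hX₁⟩ := params (2 * (E + 1)) dg hw hW
  set η : ℝ := 1 / (4 * ((N : ℝ) * (dg + 2) + 1)) with hη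
  have hden : (1 : ℝ) ≤ (N : ℝ) * (dg + 2) + 1 := by
    have : (0 : ℝ) ≤ (N : ℝ) * (dg + 2) := by positivity
    linarith
  have hη0 : 0 < η := by positivity
  have hη1 : η ≤ 1 / 4 := by
    rw [hη]
    exact div_le_div_of_nonneg_left zero_le_one (by norm_num) (by linarith)
  have hηe : η * ((N : ℝ) * (dg + 2) + 1) = 1 / 4 := by
    rw [hη]
    field_simp
  set c₁ : ℝ := c₀ / (2 * w * (1 + W) ^ N) with hc₁
  have hc₁0 : 0 < c₁ := by positivity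
  refine ⟨η, ε, hη0, by linarith, hε0, max X₁ ⌈(2 / c₁) ^ 4⌉₊, fun X hX => ?_⟩
  obtain ⟨K, r₀, ρ₀, hX2, hK2, hKX, hKE, -, -, -, -, -, -, hXK⟩ := hX₁ X ((le_max_left _ _).trans hX)
  have hx2 : (2 : ℝ) ≤ X := by exact_mod_cast hX2
  have hx1 : (1 : ℝ) ≤ X := by linarith
  have hx0 : (0 : ℝ) < X := by linarith
  have hk1 : (1 : ℝ) ≤ K := by exact_mod_cast (by omega : 1 ≤ K)
  have hsq : (K : ℝ) ^ (E + 1) ≤ (X : ℝ) ^ (1 / 2 : ℝ) := by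
    have h1 : ((K : ℝ) ^ (E + 1)) ^ (2 : ℕ) ≤ X := by
      rw [← pow_mul, mul_comm]
      exact hKE
    have h2 : (((K : ℝ) ^ (E + 1)) ^ (2 : ℕ)) ^ (1 / 2 : ℝ) ≤ (X : ℝ) ^ (1 / 2 : ℝ) :=
      Real.rpow_le_rpow (by positivity) h1 (by norm_num)
    rw [← Real.rpow_natCast, ← Real.rpow_mul (by positivity)] at h2
    norm_num at h2
    rw [← Real.sqrt_eq_rpow] at h2 ⊢
    exact h2
  have hKhalf : (K : ℝ) ≤ (X : ℝ) ^ (1 / 2 : ℝ) := by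
    calc (K : ℝ) = (K : ℝ) ^ 1 := (pow_one _).symm
      _ ≤ (K : ℝ) ^ (E + 1) := pow_le_pow_right₀ hk1 (by omega)
      _ ≤ _ := hsq
  set R : ℝ := c₁ * (X : ℝ) ^ (3 / 4 : ℝ) with hR
  have hXc : (2 / c₁) ^ 4 ≤ (X : ℝ) :=
    (Nat.le_ceil _).trans (by exact_mod_cast (le_max_right _ _).trans hX)
  have h14 : 2 / c₁ ≤ (X : ℝ) ^ (1 / 4 : ℝ) := by
    have h1 : ((2 / c₁) ^ (4 : ℕ)) ^ (1 / 4 : ℝ) ≤ (X : ℝ) ^ (1 / 4 : ℝ) :=
      Real.rpow_le_rpow (by positivity) hXc (by norm_num)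
    rw [← Real.rpow_natCast, ← Real.rpow_mul (by positivity)] at h1
    norm_num at h1
    norm_num
    exact h1
  have hR2 : 2 * (X : ℝ) ^ (1 / 2 : ℝ) ≤ R := by
    have h1 : (X : ℝ) ^ (3 / 4 : ℝ) = (X : ℝ) ^ (1 / 4 : ℝ) * (X : ℝ) ^ (1 / 2 : ℝ) := by
      rw [← Real.rpow_add hx0]
      norm_num
    rw [hR, h1, ← mul_assoc]
    refine mul_le_mul_of_nonneg_right ?_ (by positivity)
    calc (2 : ℝ) = c₁ * (2 / c₁) := by field_simp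
      _ ≤ c₁ * (X : ℝ) ^ (1 / 4 : ℝ) := mul_le_mul_of_nonneg_left h14 hc₁0.le
  have hh1 : 1 ≤ (X : ℝ) ^ (1 / 2 : ℝ) := Real.one_le_rpow hx1 (by norm_num)
  have hR0 : 0 < R := by linarith
  refine ⟨K, R, hX2, hK2, hKX, (pow_le_pow_right₀ hk1 (by omega)).trans hsq, by linarith, ?_,
    hXK, ?_⟩
  · calc (X : ℝ) ^ (1 / 2 : ℝ) ≤ R := by linarith
      _ = R * 1 := (mul_one R).symm
      _ ≤ R * K := mul_le_mul_of_nonneg_left hk1 hR0.le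
  · have e1 : (X : ℝ) * W * ((X : ℝ) ^ η) ^ dg / (X : ℝ) ^ (1 - η) =
        W * (X : ℝ) ^ (((dg : ℝ) + 1) * η) := by
      have h1 : ((X : ℝ) ^ η) ^ dg = (X : ℝ) ^ (η * dg) := by
        rw [← Real.rpow_natCast, ← Real.rpow_mul hx0.le]
      rw [h1, div_eq_iff (by positivity)]
      have h2 : (X : ℝ) ^ (((dg : ℝ) + 1) * η) * (X : ℝ) ^ (1 - η) = X * (X : ℝ) ^ (η * dg) := by
        rw [← Real.rpow_add hx0]
        nth_rewrite 2 [← Real.rpow_one (X : ℝ)]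
        rw [← Real.rpow_add hx0]
        congr 1
        ring
      rw [mul_assoc W, h2]
      ring
    have hy1 : 1 ≤ (X : ℝ) ^ (((dg : ℝ) + 1) * η) := Real.one_le_rpow hx1 (by positivity)
    have h2 : (1 + W * (X : ℝ) ^ (((dg : ℝ) + 1) * η)) ^ N ≤
        (1 + W) ^ N * ((X : ℝ) ^ (((dg : ℝ) + 1) * η)) ^ N := by
      rw [← mul_pow]
      refine pow_le_pow_left₀ (by positivity) ?_ _
      generalize (X : ℝ) ^ (((dg : ℝ) + 1) * η) = y at hy1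
      rw [add_mul, one_mul]
      linarith
    have e2 : w / (X : ℝ) ^ (1 - η) * (2 * R) *
        ((1 + W) ^ N * ((X : ℝ) ^ (((dg : ℝ) + 1) * η)) ^ N) = c₀ * ((X : ℝ) ^ (-η)) ^ N := by
      have h3 : ((X : ℝ) ^ (((dg : ℝ) + 1) * η)) ^ N = (X : ℝ) ^ (((dg : ℝ) + 1) * η * N) := by
        rw [← Real.rpow_natCast, ← Real.rpow_mul hx0.le]
      have h4 : ((X : ℝ) ^ (-η)) ^ N = (X : ℝ) ^ (-η * N) := by
        rw [← Real.rpow_natCast, ← Real.rpow_mul hx0.le]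
      have h5 : (X : ℝ) ^ (3 / 4 : ℝ) * (X : ℝ) ^ (((dg : ℝ) + 1) * η * N) =
          (X : ℝ) ^ (-η * N) * (X : ℝ) ^ (1 - η) := by
        rw [← Real.rpow_add hx0, ← Real.rpow_add hx0]
        congr 1
        linear_combination hηe
      rw [h3, h4, hR, hc₁]
      have hy : 0 < (X : ℝ) ^ (1 - η) := by positivity
      have hW1 : 0 < (1 + W) ^ N := by positivity
      calc w / (X : ℝ) ^ (1 - η) * (2 * (c₀ / (2 * w * (1 + W) ^ N) * (X : ℝ) ^ (3 / 4 : ℝ))) *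
            ((1 + W) ^ N * (X : ℝ) ^ (((dg : ℝ) + 1) * η * N)) =
          c₀ * ((X : ℝ) ^ (3 / 4 : ℝ) * (X : ℝ) ^ (((dg : ℝ) + 1) * η * N)) /
            (X : ℝ) ^ (1 - η) := by
            field_simp
        _ = _ := by
            rw [h5]
            field_simp
    rw [e1]
    calc _ ≤ w / (X : ℝ) ^ (1 - η) * (2 * R) *
        ((1 + W) ^ N * ((X : ℝ) ^ (((dg : ℝ) + 1) * η)) ^ N) :=
          mul_le_mul_of_nonneg_left h2 (by positivity)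
      _ = _ := e2

end Pool.Agent.Helper79.BB
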