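import Pool.Agent.Helper79.BB.CountMain2

/-!
# BB: the number of bad parameters (helper79)
-/

open Polynomial

namespace Pool.Agent.Helper79.BB

open Pool.Agent.Helper79.AA Pool.Agent.Helper79.GX Pool.Agent.Helper64.Per

/-- The conclusion of `box_core`. -/
def BoxC (m n δ c B E : ℕ) : Prop := ∀ {ι : Type} [Fintype ι]
    [DecidableEq ι], Fintype.card ι ≤ n → ∀ (K : ℕ) (Λ R : ℝ), 2 ≤ K → (K : ℝ) ^ E ≤ Λ →
    Λ ≤ R * K → ∀ (T : MvPolynomial (Fin m) ℚ)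
    (A : Fin m → Matrix ι ι (MvPolynomial (Fin m) ℚ)) (z : (Fin m → ℂ) → ι → ℂ),
    IsSysM T A R z → (∀ j, T.degreeOf j ≤ δ) → (∀ i k l j, (A i k l).degreeOf j ≤ δ) →
    (∀ (i : Fin m) (a : Fin m → ℤ) (s : ℤ), (∀ j, |pt i a s j| ≤ K) →
      MvPolynomial.eval (fun j => ((pt i a s j : ℤ) : ℚ)) T ≠ 0 →
      Gr (spec i a T) ((A i).map (spec i a)) (s : ℚ) (Λ ^ c)) →
    Set.ncard {u : Fin m → ℤ | (∀ j, |u j| ≤ K) ∧
      MvPolynomial.eval (fun j => ((u j : ℤ) : ℚ)) T ≠ 0 ∧ BadM R z u} ≤ B * K ^ (m - 1)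

section

variable {κ : IntermediateField ℚ Qbar} [FiniteDimensional ℚ κ] {J : Type} [Fintype J]
  [DecidableEq J] (ω : Module.Basis J ℚ κ) {m dg : ℕ} {j₀ : J} {β : Type} [Fintype β]
  [DecidableEq β] {T : MvPolynomial (Fin m) κ}
  {A : Fin m → Matrix β β (MvPolynomial (Fin m) κ)}

/-- The condition for the main part. -/
def Q4 (D : UniM (fun j => ω j) dg j₀ T A) (U V : Set (Fin m → ℂ)) (z : (Fin m → ℂ) → β → ℂ)
    (η : ℝ) (X : ℕ) (a : Px m dg J → ℤ) (θ : ℂ) : Prop :=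
  MvPolynomial.eval (fun p => ((a p : ℤ) : ℚ)) D.Θ ≠ 0 ∧
    (X : ℝ) ^ (1 - η) < |(a (Sum.inr (Sum.inr ())) : ℝ)| ∧ ‖θ‖ ≤ (X : ℝ) ^ η ∧
    ptM (fun j => ω j) (fun p => (a p : ℂ)) θ ∈ V ∧
    KBadM κ U z (ptM (fun j => ω j) (fun p => (a p : ℂ)) θ) ∧
    (X : ℝ) ^ (-η) < ‖MvPolynomial.aeval (ptM (fun j => ω j) (fun p => (a p : ℂ)) θ) T‖

variable (hT : T ≠ 0) (D : UniM (fun j => ω j) dg j₀ T A) {U V : Set (Fin m → ℂ)}
  (hU : IsOpen U) (hU' : IsPreconnected U) {z : (Fin m → ℂ) → β → ℂ}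
  (hz : ∀ i, AnalyticOnNhd ℂ (fun t => z t i) U)
  (hode : ∀ t ∈ U, ∀ s i, MvPolynomial.aeval t T * pd s (fun t => z t i) t =
    ∑ l, MvPolynomial.aeval t (A s i l) * z t l)

include hT hU hU' hz hode

theorem cube_bad {δ B E : ℕ} (hδ : D.Θ.totalDegree ≤ δ)
    (hδM : ∀ i x y, (D.M i x y).totalDegree ≤ δ)
    (hbox : BoxC m (Fintype.card (D.Γ × β)) δ (6 * D.c) B E) {N : ℕ} {c₀ : ℝ}
    (hdeep : ∀ x ∈ V, ∀ y : Fin m → ℂ,
      ‖y - x‖ * (1 + ‖x‖) ^ N ≤ c₀ * ‖MvPolynomial.aeval x T‖ ^ N → y ∈ U) (hc₀ : 0 < c₀)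
    {X K : ℕ} {R η : ℝ} (hη : 0 < η) (hη1 : η < 1) (hX : 2 ≤ X) (hK : 2 ≤ K) (hKX : K ≤ X)
    (hKE : (K : ℝ) ^ E ≤ (X : ℝ) ^ (1 / 2 : ℝ)) (hKR : (K : ℝ) < R)
    (hXR : (X : ℝ) ^ (1 / 2 : ℝ) ≤ R * K)
    (hRd : ‖algebraMap κ ℂ (ω j₀)‖ / (X : ℝ) ^ (1 - η) * (2 * R) *
      (1 + X * (∑ l : Fin (dg + 1) × J, ‖algebraMap κ ℂ (ω l.2)‖) * ((X : ℝ) ^ η) ^ dg /
        (X : ℝ) ^ (1 - η)) ^ N ≤ c₀ * ((X : ℝ) ^ (-η)) ^ N)
    {a₀ : Px m dg J → ℤ} {θ : ℂ} (ha₀ : ∀ p, |a₀ p| ≤ X)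
    (hF : (∃ l, a₀ (Sum.inl l) ≠ 0) ∨ (dg = 0 ∧ θ = 0))
    (hθ : FvM (fun j => ω j) (fun p => (a₀ p : ℂ)) θ = 0) {u₀ : Fin m → ℤ}
    (hu₀ : ∀ i, |u₀ i| ≤ (X + K : ℕ)) :
    Set.ncard {v : Fin m → ℤ | (∀ i, |v i| ≤ K) ∧
      (∀ p, |shM j₀ a₀ (u₀ + v) p| ≤ X) ∧ Q4 ω D U V z η X (shM j₀ a₀ (u₀ + v)) θ} ≤
      B * K ^ (m - 1) := by
  classical
  have hx2 : (2 : ℝ) ≤ X := by exact_mod_cast hX
  have hx1 : (1 : ℝ) ≤ X := by linarith
  have hx0 : (0 : ℝ) < X := by linarith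
  have hk1 : (1 : ℝ) ≤ K := by exact_mod_cast (by omega : 1 ≤ K)
  have hR0 : 0 < R := by linarith
  set S : Set (Fin m → ℤ) := {v : Fin m → ℤ | (∀ i, |v i| ≤ K) ∧
      (∀ p, |shM j₀ a₀ (u₀ + v) p| ≤ X) ∧ Q4 ω D U V z η X (shM j₀ a₀ (u₀ + v)) θ} with hS
  rcases S.eq_empty_or_nonempty with hSe | ⟨v₁, hv₁K, hv₁X, hv₁⟩
  · rw [hSe, Set.ncard_empty]
    exact Nat.zero_le _
  set a : Px m dg J → ℤ := shM j₀ a₀ u₀ with ha
  have hshift : ∀ v, shM j₀ a₀ (u₀ + v) = shM j₀ a v := fun v => (shM_add j₀ a₀ u₀ v).symm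
  have hcast : ∀ v : Fin m → ℤ, (fun p => ((shM j₀ a v p : ℤ) : ℂ)) =
      shM j₀ (fun p => (a p : ℂ)) (ip v) := fun v => (shM_cast j₀ a v).symm
  have hpm : ∀ v : Fin m → ℤ, ptM (fun j => ω j) (fun p => ((shM j₀ a₀ (u₀ + v) p : ℤ) : ℂ)) θ =
      pmap (fun j => ω j) j₀ a θ (ip v) := by
    intro v
    rw [hshift, hcast]
    rfl
  have hqa : a (Sum.inr (Sum.inr ())) = a₀ (Sum.inr (Sum.inr ())) := by rw [ha, shM_q]
  obtain ⟨hv1, hv2, hv3, hv4, hv5, hv6⟩ := hv₁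
  rw [shM_q] at hv2
  have hq0 : a (Sum.inr (Sum.inr ())) ≠ 0 := by
    rw [hqa]
    intro h0
    rw [h0, Int.cast_zero, abs_zero] at hv2
    have : 0 < (X : ℝ) ^ (1 - η) := by positivity
    linarith
  have hFa : (∃ l, a (Sum.inl l) ≠ 0) ∨ (dg = 0 ∧ θ = 0) := by
    rcases hF with ⟨l, hl⟩ | h0
    · exact Or.inl ⟨l, by rw [ha, shM_inl]; exact hl⟩
    · exact Or.inr h0
  have hθa : FvM (fun j => ω j) (fun p => (a p : ℂ)) θ = 0 := by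
    have h1 : (fun p => ((a p : ℤ) : ℂ)) = shM j₀ (fun p => (a₀ p : ℂ)) (ip u₀) :=
      (shM_cast j₀ a₀ u₀).symm
    rw [h1, FvM_shM]
    exact hθ
  -- the polydisc
  set w : ℝ := ‖algebraMap κ ℂ (ω j₀)‖ with hw
  set W : ℝ := ∑ l : Fin (dg + 1) × J, ‖algebraMap κ ℂ (ω l.2)‖ with hW
  have hW0 : 0 ≤ W := Finset.sum_nonneg fun _ _ => norm_nonneg _
  have hxη : 0 < (X : ℝ) ^ (1 - η) := by positivity
  have hball : ∀ u ∈ Metric.ball (0 : Fin m → ℂ) R, pmap (fun j => ω j) j₀ a θ u ∈ U := by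
    intro u hu
    rw [Metric.mem_ball, dist_zero_right] at hu
    set x₁ : Fin m → ℂ := pmap (fun j => ω j) j₀ a θ (ip v₁) with hx₁
    rw [hpm] at hv4 hv6
    refine hdeep x₁ hv4 _ ?_
    have h1 : ‖x₁‖ ≤ X * W * ((X : ℝ) ^ η) ^ dg / (X : ℝ) ^ (1 - η) := by
      rw [hx₁, ← hpm]
      refine ptM_bound (fun j => ω j) hx0.le (Real.one_le_rpow hx1 hη.le) hxη (fun p => ?_) ?_ hv3
      · rw [Complex.norm_intCast]
        exact_mod_cast hv₁X p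
      · rw [shM_q, Complex.norm_intCast]
        exact hv2.le
    have h2 : ‖pmap (fun j => ω j) j₀ a θ u - x₁‖ ≤ w / (X : ℝ) ^ (1 - η) * (2 * R) := by
      have h3 : pmap (fun j => ω j) j₀ a θ u - x₁ =
          (algebraMap κ ℂ (ω j₀) / (a (Sum.inr (Sum.inr ())) : ℂ)) • (u - ip v₁) := by
        rw [hx₁, pmap_eq, pmap_eq]
        funext i
        simp only [Pi.sub_apply, Pi.smul_apply, smul_eq_mul]
        ring
      rw [h3, norm_smul, norm_div, Complex.norm_intCast, hqa]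
      refine mul_le_mul (div_le_div_of_nonneg_left (norm_nonneg _) hxη hv2.le) ?_
        (norm_nonneg _) (by positivity)
      refine (norm_sub_le _ _).trans ?_
      have h4 : ‖ip v₁‖ ≤ K := by
        rw [pi_norm_le_iff_of_nonneg (by positivity)]
        intro i
        rw [ip, Complex.norm_intCast]
        exact_mod_cast hv₁K i
      linarith
    calc ‖pmap (fun j => ω j) j₀ a θ u - x₁‖ * (1 + ‖x₁‖) ^ N ≤
          (w / (X : ℝ) ^ (1 - η) * (2 * R)) *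
            (1 + X * W * ((X : ℝ) ^ η) ^ dg / (X : ℝ) ^ (1 - η)) ^ N := by
          refine mul_le_mul h2 (pow_le_pow_left₀ (by positivity) (by linarith) _)
            (by positivity) (by positivity)
      _ ≤ c₀ * ((X : ℝ) ^ (-η)) ^ N := hRd
      _ ≤ c₀ * ‖MvPolynomial.aeval x₁ T‖ ^ N :=
          mul_le_mul_of_nonneg_left (pow_le_pow_left₀ (by positivity) hv6.le _) hc₀.le
  have hω0 : (fun j => ω j) j₀ ≠ 0 := ω.ne_zero j₀
  have hsys := pen_sys (ω := fun j => ω j) hT D hz hode hω0 hq0 hθa hball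
  have hcount := hbox (ι := D.Γ × β) le_rfl K ((X : ℝ) ^ (1 / 2 : ℝ)) R hK hKE hXR _ _ _ hsys
    (fun j => (specM_degree j₀ a D.Θ j).trans hδ)
    (fun i k l j => (specM_degree j₀ a (D.M i k l) j).trans (hδM i k l)) (fun i c s hc hne => by
      have e1 : spec i c (specM j₀ a D.Θ) = spec (dirM j₀ i) (shM j₀ a c) D.Θ :=
        spec_specM j₀ a i c D.Θ
      have e2 : ((D.M i).map (specM j₀ a)).map (spec i c) =
          (D.M i).map (spec (dirM j₀ i) (shM j₀ a c)) := by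
        ext1 x y
        rw [Matrix.map_apply, Matrix.map_apply, Matrix.map_apply, spec_specM]
      rw [e1, e2]
      have h4 : 2 ≤ 4 * X := by omega
      have hac : ∀ p, |pt (dirM j₀ i) (shM j₀ a c) s p| ≤ (4 * X : ℕ) := by
        intro p
        rw [pt_shM]
        have h5 : ∀ p, |a p| ≤ (X + (X + K) : ℕ) := fun p => shM_abs j₀ ha₀ hu₀ p
        have h6 := shM_abs j₀ h5 hc p
        refine h6.trans ?_
        exact_mod_cast (by omega : X + (X + K) + K ≤ 4 * X)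
      have h7 : MvPolynomial.eval (fun p => ((pt (dirM j₀ i) (shM j₀ a c) s p : ℤ) : ℚ)) D.Θ ≠
          0 := by
        rw [specM_evalZ] at hne
        rw [pt_shM]
        exact hne
      refine gr_mono (D.growth (4 * X) h4 i (shM j₀ a c) s hac h7) (by positivity) ?_
      have h8 : ((4 * X : ℕ) : ℝ) ≤ (X : ℝ) ^ 3 := by
        push_cast
        nlinarith [mul_nonneg hx0.le (by nlinarith : (0 : ℝ) ≤ (X : ℝ) ^ 2 - 4)]
      have h9 : ((X : ℝ) ^ (1 / 2 : ℝ)) ^ (6 * D.c) = ((X : ℝ) ^ 3) ^ D.c := by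
        rw [pow_mul]
        congr 1
        rw [← Real.rpow_natCast, ← Real.rpow_mul hx0.le]
        norm_num
      rw [h9]
      exact pow_le_pow_left₀ (by positivity) h8 _)
  refine le_trans (Set.ncard_le_ncard ?_ (box_card K _ fun a ha => ha.1).1) hcount
  rintro v ⟨hv, hvX, hq1, hq2, hq3, hq4, hq5, hq6⟩
  rw [hshift] at hq1
  refine ⟨hv, ?_, ?_⟩
  · rw [specM_evalZ]
    exact hq1
  · refine pen_bad' ω D hU hU' hz hq0 hFa hθa hball ?_ hq1 ?_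
    · rw [Metric.mem_ball, dist_zero_right, pi_norm_lt_iff hR0]
      intro i
      rw [ip, Complex.norm_intCast]
      have h1 : |(v i : ℝ)| ≤ K := by exact_mod_cast hv i
      linarith
    · rw [hpm] at hq5
      exact hq5

theorem ps_main (hm : 1 ≤ m) (hV : Deep T U V) : ∃ η : ℝ, 0 < η ∧ η < 1 ∧
    PS (Fintype.card (Px m dg J)) fun X => (Set.ncard {a : Px m dg J → ℤ | (∀ p, |a p| ≤ X) ∧
      (∃ l, a (Sum.inl l) ≠ 0) ∧ ∃ θ : ℂ, FvM (fun j => ω j) (fun p => (a p : ℂ)) θ = 0 ∧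
      Q4 ω D U V z η X a θ} : ℝ) := by
  classical
  obtain ⟨N, c₀, hc₀, hdeep⟩ := hV
  set δ : ℕ := D.Θ.totalDegree + ∑ i, ∑ x, ∑ y, (D.M i x y).totalDegree with hδ
  have hδM : ∀ i x y, (D.M i x y).totalDegree ≤ δ := by
    intro i x y
    have h1 : (D.M i x y).totalDegree ≤ ∑ y, (D.M i x y).totalDegree :=
      Finset.single_le_sum (f := fun y => (D.M i x y).totalDegree) (fun _ _ => Nat.zero_le _)
        (Finset.mem_univ y)
    have h2 : ∑ y, (D.M i x y).totalDegree ≤ ∑ x, ∑ y, (D.M i x y).totalDegree :=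
      Finset.single_le_sum (f := fun x => ∑ y, (D.M i x y).totalDegree)
        (fun _ _ => Nat.zero_le _) (Finset.mem_univ x)
    have h3 : ∑ x, ∑ y, (D.M i x y).totalDegree ≤ ∑ i, ∑ x, ∑ y, (D.M i x y).totalDegree :=
      Finset.single_le_sum (f := fun i => ∑ x, ∑ y, (D.M i x y).totalDegree)
        (fun _ _ => Nat.zero_le _) (Finset.mem_univ i)
    omega
  obtain ⟨B, E, hbox⟩ := box_core m (Fintype.card (D.Γ × β)) δ (6 * D.c) hm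
  have hw : 0 < ‖algebraMap κ ℂ (ω j₀)‖ := norm_pos_iff.2 (by
    rw [Ne, map_eq_zero]
    exact ω.ne_zero j₀)
  have hW0 : 0 ≤ ∑ l : Fin (dg + 1) × J, ‖algebraMap κ ℂ (ω l.2)‖ :=
    Finset.sum_nonneg fun _ _ => norm_nonneg _
  obtain ⟨η, ε, hη, hη1, hε, X₀, hpar⟩ := paramsM E N dg hc₀ hw hW0
  refine ⟨η, hη, hη1, ?_⟩
  set n : ℕ := Fintype.card (Px m dg J) with hn
  have hmn : m + 1 ≤ n := card_Px j₀
  refine PS.large X₀ (fun X hX => box_card' hX _ fun a ha => ha.1) (θ := ε)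
    (C := 3 ^ (n - m) * dg * (4 ^ m * B * 2)) hε fun X hX hX1 => ?_
  obtain ⟨K, R, hX2, hK2, hKX, hKE, hKR, hXR, hXK, hRd⟩ := hpar X hX
  have hx1 : (1 : ℝ) ≤ X := by exact_mod_cast hX1
  have hx0 : (0 : ℝ) < X := by linarith
  have hK0 : (0 : ℝ) < K := by exact_mod_cast (by omega : 0 < K)
  set N₄ : ℕ := (2 * (X / K) + 2) ^ m * (B * K ^ (m - 1)) with hN₄
  refine pts_le (by omega) hX1 dg (N := N₄) ?_ ?_
  · have h1 : ((2 * (X / K) + 2 : ℕ) : ℝ) ≤ 4 * ((X : ℝ) / K) := by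
      have h2 : ((X / K : ℕ) : ℝ) ≤ (X : ℝ) / K := Nat.cast_div_le
      have h3 : (1 : ℝ) ≤ (X : ℝ) / K := by
        rw [le_div_iff₀ hK0, one_mul]
        exact_mod_cast hKX
      push_cast
      linarith
    have e : (X : ℝ) ^ ((m : ℝ) - ε) = (X : ℝ) ^ (m - 1) * (X : ℝ) ^ (1 - ε) := by
      rw [← Real.rpow_natCast, Nat.cast_sub hm, Nat.cast_one, ← Real.rpow_add hx0]
      congr 1
      ring
    calc (N₄ : ℝ) = ((2 * (X / K) + 2 : ℕ) : ℝ) ^ m * (B * (K : ℝ) ^ (m - 1)) := by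
          rw [hN₄]
          push_cast
          ring
      _ ≤ (4 * ((X : ℝ) / K)) ^ m * (B * (K : ℝ) ^ (m - 1)) :=
          mul_le_mul_of_nonneg_right (pow_le_pow_left₀ (by positivity) h1 _) (by positivity)
      _ = 4 ^ m * B * ((X : ℝ) ^ (m - 1) * ((X : ℝ) / K)) := by
          obtain ⟨k, rfl⟩ : ∃ k, m = k + 1 := ⟨m - 1, by omega⟩
          rw [Nat.add_sub_cancel, mul_pow, div_pow, pow_succ (K : ℝ) k]
          have hKne : (K : ℝ) ≠ 0 := hK0.ne'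
          have hKk : (K : ℝ) ^ k ≠ 0 := pow_ne_zero _ hKne
          field_simp
          ring
      _ ≤ 4 ^ m * B * ((X : ℝ) ^ (m - 1) * (2 * (X : ℝ) ^ (1 - ε))) :=
          mul_le_mul_of_nonneg_left (mul_le_mul_of_nonneg_left hXK (by positivity))
            (by positivity)
      _ = _ := by
          rw [e]
          ring
  · have h1 := count_pts ω (m := m) (dg := dg) j₀ X N₄ (Q4 ω D U V z η X)
      (fun a₀ θ ha₀ hF hθ => by
        refine cube_cover X K (B * K ^ (m - 1)) (by omega) _ (fun u hu => hu.1) fun u₀ hu₀ => ?_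
        refine le_trans (Set.ncard_le_ncard ?_ (box_card K _ fun a ha => ha.1).1)
          (cube_bad ω hT D hU hU' hz hode (δ := δ) (by omega) hδM (fun {ι} => hbox) hdeep hc₀ hη
            hη1 hX2 hK2 hKX hKE hKR hXR hRd ha₀ (Or.inl hF) hθ hu₀)
        rintro v ⟨hv1, hv2⟩
        exact ⟨hv1, hv2.2.1, hv2.2.2⟩)
    exact_mod_cast h1

include D in
theorem count_main (hm : 1 ≤ m) (hdg : 1 ≤ dg) (hV : Deep T U V) :
    PS (Fintype.card (Px m dg J)) fun X => (Set.ncard {a : Px m dg J → ℤ | (∀ p, |a p| ≤ X) ∧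
      a (Sum.inr (Sum.inr ())) ≠ 0 ∧ ∃ θ : ℂ, FvM (fun j => ω j) (fun p => (a p : ℂ)) θ = 0 ∧
      ptM (fun j => ω j) (fun p => (a p : ℂ)) θ ∈ V ∧
      KBadM κ U z (ptM (fun j => ω j) (fun p => (a p : ℂ)) θ)} : ℝ) := by
  classical
  obtain ⟨η, hη, hη1, h4⟩ := ps_main ω hT D hU hU' hz hode hm hV
  have hn : 1 ≤ Fintype.card (Px m dg J) := le_trans (by omega) (card_Px (m := m) (dg := dg) j₀)
  have h0 := ps_zero (σ := Px m dg J) hn D.Θ_ne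
  have h1 := ps_large ω (m := m) hdg hη hη1
  have h2 := ps_small (σ := Px m dg J) (Sum.inr (Sum.inr ())) hη hη1
  have h3 := ps_sub ω (dg := dg) j₀ hT hη
  refine ((((h0.add h1).add h2).add h3).add h4).mono fun X hX => ?_
  have hx1 : (1 : ℝ) ≤ X := by exact_mod_cast hX
  set S0 : Set (Px m dg J → ℤ) := {a | (∀ j, |a j| ≤ X) ∧
      MvPolynomial.eval (fun i => ((a i : ℤ) : ℚ)) D.Θ = 0} with hS0
  set S1 : Set (Px m dg J → ℤ) := {a | (∀ p, |a p| ≤ X) ∧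
      ∃ t : ℂ, (X : ℝ) ^ η ≤ ‖t‖ ∧ FvM (fun j => ω j) (fun p => (a p : ℂ)) t = 0} with hS1
  set S2 : Set (Px m dg J → ℤ) := {a | (∀ p, |a p| ≤ X) ∧
      |(a (Sum.inr (Sum.inr ())) : ℝ)| ≤ (X : ℝ) ^ (1 - η)} with hS2
  set S3 : Set (Px m dg J → ℤ) := {a | (∀ p, |a p| ≤ X) ∧
      (∃ l, a (Sum.inl l) ≠ 0) ∧ ∃ θ : ℂ, FvM (fun j => ω j) (fun p => (a p : ℂ)) θ = 0 ∧
      (a (Sum.inr (Sum.inr ())) ≠ 0 ∧
      ‖MvPolynomial.aeval (ptM (fun j => ω j) (fun p => (a p : ℂ)) θ) T‖ ≤ (X : ℝ) ^ (-η))}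
    with hS3
  set S4 : Set (Px m dg J → ℤ) := {a | (∀ p, |a p| ≤ X) ∧
      (∃ l, a (Sum.inl l) ≠ 0) ∧ ∃ θ : ℂ, FvM (fun j => ω j) (fun p => (a p : ℂ)) θ = 0 ∧
      Q4 ω D U V z η X a θ} with hS4
  have hf : ∀ S : Set (Px m dg J → ℤ), (∀ a ∈ S, ∀ p, |a p| ≤ X) → S.Finite :=
    fun S hS => (box_card X S hS).1
  have hf0 : S0.Finite := hf S0 fun a ha => ha.1
  have hf1 : S1.Finite := hf S1 fun a ha => ha.1
  have hf2 : S2.Finite := hf S2 fun a ha => ha.1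
  have hf3 : S3.Finite := hf S3 fun a ha => ha.1
  have hf4 : S4.Finite := hf S4 fun a ha => ha.1
  have hsub : {a : Px m dg J → ℤ | (∀ p, |a p| ≤ X) ∧
      a (Sum.inr (Sum.inr ())) ≠ 0 ∧ ∃ θ : ℂ, FvM (fun j => ω j) (fun p => (a p : ℂ)) θ = 0 ∧
      ptM (fun j => ω j) (fun p => (a p : ℂ)) θ ∈ V ∧
      KBadM κ U z (ptM (fun j => ω j) (fun p => (a p : ℂ)) θ)} ⊆
      (((S0 ∪ S1) ∪ S2) ∪ S3) ∪ S4 := by
    rintro a ⟨ha, hq, θ, hθ, hVθ, hbad⟩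
    by_cases c0 : MvPolynomial.eval (fun i => ((a i : ℤ) : ℚ)) D.Θ = 0
    · exact Or.inl (Or.inl (Or.inl (Or.inl ⟨ha, c0⟩)))
    by_cases c1 : ∃ t : ℂ, (X : ℝ) ^ η ≤ ‖t‖ ∧
        FvM (fun j => ω j) (fun p => (a p : ℂ)) t = 0
    · exact Or.inl (Or.inl (Or.inl (Or.inr ⟨ha, c1⟩)))
    have hF : ∃ l, a (Sum.inl l) ≠ 0 := by
      by_contra hcon
      push Not at hcon
      apply c1
      refine ⟨(((X : ℝ) ^ η : ℝ) : ℂ), ?_, ?_⟩
      · rw [Complex.norm_real, Real.norm_of_nonneg (by positivity)]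
      · unfold FvM
        refine Finset.sum_eq_zero fun l _ => ?_
        simp only
        rw [hcon l, Int.cast_zero, zero_mul, zero_mul]
    have hθη : ‖θ‖ ≤ (X : ℝ) ^ η := by
      by_contra hcon
      push Not at hcon
      exact c1 ⟨θ, hcon.le, hθ⟩
    by_cases c2 : |(a (Sum.inr (Sum.inr ())) : ℝ)| ≤ (X : ℝ) ^ (1 - η)
    · exact Or.inl (Or.inl (Or.inr ⟨ha, c2⟩))
    by_cases c3 : ‖MvPolynomial.aeval (ptM (fun j => ω j) (fun p => (a p : ℂ)) θ) T‖ ≤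
        (X : ℝ) ^ (-η)
    · exact Or.inl (Or.inr ⟨ha, hF, θ, hθ, hq, c3⟩)
    push Not at c2 c3
    exact Or.inr ⟨ha, hF, θ, hθ, c0, c2, hθη, hVθ, hbad, c3⟩
  have g1 := Set.ncard_le_ncard hsub ((((hf0.union hf1).union hf2).union hf3).union hf4)
  have g2 := Set.ncard_union_le (((S0 ∪ S1) ∪ S2) ∪ S3) S4
  have g3 := Set.ncard_union_le ((S0 ∪ S1) ∪ S2) S3
  have g4 := Set.ncard_union_le (S0 ∪ S1) S2
  have g5 := Set.ncard_union_le S0 S1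
  have g6 : Set.ncard {a : Px m dg J → ℤ | (∀ p, |a p| ≤ X) ∧
      a (Sum.inr (Sum.inr ())) ≠ 0 ∧ ∃ θ : ℂ, FvM (fun j => ω j) (fun p => (a p : ℂ)) θ = 0 ∧
      ptM (fun j => ω j) (fun p => (a p : ℂ)) θ ∈ V ∧
      KBadM κ U z (ptM (fun j => ω j) (fun p => (a p : ℂ)) θ)} ≤
      S0.ncard + S1.ncard + S2.ncard + S3.ncard + S4.ncard := by omega
  exact_mod_cast g6

end

end Pool.Agent.Helper79.BB
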