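import Pool.Agent.Helper79.BB.StatM
import Pool.Agent.Helper79.AA.UDefs
import Pool.Agent.Helper79.AA.Defs

/-!
# BB: systems in several variables over `ℚ`: definitions

The norm of `Fin m → ℂ` is the maximum norm, so `Metric.ball 0 R` is the polydisc.
-/

namespace Pool.Agent.Helper79.BB

open Pool.Agent.Helper79.AA

section

variable {m : ℕ} {ι : Type} [Fintype ι]

/-- `T ∂z/∂u_i = A_i z` on the polydisc of radius `R` around `0`. -/
structure IsSysM (T : MvPolynomial (Fin m) ℚ)
    (A : Fin m → Matrix ι ι (MvPolynomial (Fin m) ℚ)) (R : ℝ)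
    (z : (Fin m → ℂ) → ι → ℂ) : Prop where
  an : ∀ k, AnalyticOnNhd ℂ (fun u => z u k) (Metric.ball 0 R)
  ode : ∀ u ∈ Metric.ball (0 : Fin m → ℂ) R, ∀ i k,
    MvPolynomial.aeval u T * pd i (fun u => z u k) u = ∑ l, MvPolynomial.aeval u (A i k l) * z u l

/-- The rational linear relations between the numbers `x_k`. -/
def relQ (x : ι → ℂ) : Submodule ℚ (ι → ℚ) where
  carrier := {r | ∑ k, ((r k : ℚ) : ℂ) * x k = 0}
  add_mem' {a b} ha hb := by
    simp only [Set.mem_ofPred_eq] at ha hb ⊢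
    simp only [Pi.add_apply, Rat.cast_add, add_mul, Finset.sum_add_distrib, ha, hb, add_zero]
  zero_mem' := by simp
  smul_mem' c a ha := by
    simp only [Set.mem_ofPred_eq] at ha ⊢
    simp only [Pi.smul_apply, smul_eq_mul, Rat.cast_mul, mul_assoc]
    rw [← Finset.mul_sum, ha, mul_zero]

/-- The complex point of an integer point. -/
def ip (u : Fin m → ℤ) : Fin m → ℂ := fun i => (u i : ℂ)

/-- `v` is a functional relation between the components of `z`. -/
def IsRel (R : ℝ) (z : (Fin m → ℂ) → ι → ℂ) (v : ι → MvPolynomial (Fin m) ℚ) : Prop :=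
  ∀ s ∈ Metric.ball (0 : Fin m → ℂ) R, ∑ k, MvPolynomial.aeval s (v k) * z s k = 0

/-- The components with index in `I` are linearly independent over `ℚ[u]`. -/
def IndepM (R : ℝ) (z : (Fin m → ℂ) → ι → ℂ) (I : Finset ι) : Prop :=
  ∀ v : ι → MvPolynomial (Fin m) ℚ, (∀ k, k ∉ I → v k = 0) → IsRel R z v → v = 0

/-- There is a rational linear relation between the components of `z u` which is not the value at `u` of a
functional relation. -/
def BadM (R : ℝ) (z : (Fin m → ℂ) → ι → ℂ) (u : Fin m → ℤ) : Prop :=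
  ∃ x ∈ relQ (z (ip u)), ¬ ∃ v : ι → MvPolynomial (Fin m) ℚ,
    (∀ k, MvPolynomial.eval (fun i => ((u i : ℤ) : ℚ)) (v k) = x k) ∧ IsRel R z v

/-- Iterated partial derivatives: `pdL [i, j, …] f = ∂_i (∂_j (… f))`. -/
noncomputable def pdL : List (Fin m) → ((Fin m → ℂ) → ℂ) → ((Fin m → ℂ) → ℂ)
  | [], f => f
  | (i :: L), f => pd i (pdL L f)

/-- `T^(n+1) ∂_i (G)` in terms of `T^n G = Q z`. -/
noncomputable def stepM (T : MvPolynomial (Fin m) ℚ)
    (A : Fin m → Matrix ι ι (MvPolynomial (Fin m) ℚ)) (i : Fin m) (n : ℕ)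
    (Q : ι → MvPolynomial (Fin m) ℚ) : ι → MvPolynomial (Fin m) ℚ :=
  fun k => T * MvPolynomial.pderiv i (Q k) + ∑ l, Q l * A i l k -
    (n : MvPolynomial (Fin m) ℚ) * MvPolynomial.pderiv i T * Q k

/-- `T^|L| pdL L (P z) = (nopM T A L P) z`. -/
noncomputable def nopM (T : MvPolynomial (Fin m) ℚ)
    (A : Fin m → Matrix ι ι (MvPolynomial (Fin m) ℚ)) :
    List (Fin m) → (ι → MvPolynomial (Fin m) ℚ) → (ι → MvPolynomial (Fin m) ℚ)
  | [], P => P
  | (i :: L), P => stepM T A i L.length (nopM T A L P)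

/-- The standard list with multiplicities `α`. -/
def lst (α : Fin m → ℕ) : List (Fin m) := (List.finRange m).flatMap fun i => List.replicate (α i) i

/-- The function `P z`. -/
noncomputable def dot (P : ι → MvPolynomial (Fin m) ℚ) (z : (Fin m → ℂ) → ι → ℂ) :
    (Fin m → ℂ) → ℂ := fun u => ∑ k, MvPolynomial.aeval u (P k) * z u k

end

end Pool.Agent.Helper79.BB
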