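import Pool.Agent.Helper79.BB.NopM

/-!
# BB-06: the auxiliary polynomial (dimension count)

Parametrize: for `c : (I × (Fin m → Fin M)) → ℚ` let `P_k = ∑_e c(k,e) ∏_j X_j^(e_j)` for `k ∈ I`, `P_k = 0` for `k ∉ I` (linear and injective in `c`, `degreeOf j < M`).
The linear map `c ↦ (eval s (nopM T A (lst α) P))_(s ∈ G, α ∈ (Fin m → Fin τ))` with values in `∏ (ι → ℚ) ⧸ W s` (`nopM_add`, `nopM_smul`) has a target of
dimension `∑ (card ι - finrank (W s)) ≤ r |G| τ^m < |I| M^m`, so it is not injective (`LinearMap.ker_ne_bot_of_finrank_lt` or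
`LinearMap.exists_ne_zero…`).
-/

namespace Pool.Agent.Helper79.BB

/-- The exponent vector of a function with values in `Fin M`. -/
noncomputable def exPolyExp {m M : ℕ} (e : Fin m → Fin M) : Fin m →₀ ℕ :=
  Finsupp.equivFunOnFinite.symm fun j => (e j : ℕ)

theorem exPolyExp_inj {m M : ℕ} : Function.Injective (exPolyExp (m := m) (M := M)) := by
  intro a b h
  have h1 := Finsupp.equivFunOnFinite.symm.injective h
  funext j
  exact Fin.ext (congrFun h1 j)

/-- The parametrization of the polynomial vectors. -/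
noncomputable def exPolyPhi {m : ℕ} {ι : Type} [Fintype ι] [DecidableEq ι] (I : Finset ι) (M : ℕ) :
    ((I × (Fin m → Fin M)) → ℚ) →ₗ[ℚ] (ι → MvPolynomial (Fin m) ℚ) where
  toFun c := fun k => if h : k ∈ I then
    ∑ e : Fin m → Fin M, MvPolynomial.monomial (exPolyExp e) (c (⟨k, h⟩, e)) else 0
  map_add' c d := by
    funext k
    by_cases h : k ∈ I
    · simp only [h, dif_pos, Pi.add_apply, map_add, Finset.sum_add_distrib]
    · simp only [h, dif_neg, not_false_eq_true, Pi.add_apply, add_zero]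
  map_smul' a c := by
    funext k
    by_cases h : k ∈ I
    · simp only [h, dif_pos, Pi.smul_apply, RingHom.id_apply, Finset.smul_sum, map_smul]
    · simp only [h, dif_neg, not_false_eq_true, Pi.smul_apply, RingHom.id_apply, smul_zero]

theorem exPolyPhi_inj {m : ℕ} {ι : Type} [Fintype ι] [DecidableEq ι] (I : Finset ι) (M : ℕ)
    {c : (I × (Fin m → Fin M)) → ℚ} (h : exPolyPhi I M c = 0) : c = 0 := by
  funext p
  obtain ⟨⟨k, hk⟩, e⟩ := p
  have h1 := congrFun h k
  simp only [exPolyPhi, LinearMap.coe_mk, AddHom.coe_mk, hk, dif_pos, Pi.zero_apply] at h1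
  have h2 := congrArg (MvPolynomial.coeff (exPolyExp e)) h1
  rw [MvPolynomial.coeff_sum, MvPolynomial.coeff_zero, Finset.sum_eq_single e] at h2
  · rw [MvPolynomial.coeff_monomial, if_pos rfl] at h2
    exact h2
  · intro e' _ he
    rw [MvPolynomial.coeff_monomial, if_neg (fun h => he (exPolyExp_inj h))]
  · intro h
    exact absurd (Finset.mem_univ _) h

theorem exPolyPhi_supp {m : ℕ} {ι : Type} [Fintype ι] [DecidableEq ι] (I : Finset ι) (M : ℕ)
    (c : (I × (Fin m → Fin M)) → ℚ) {k : ι} (hk : k ∉ I) : exPolyPhi I M c k = 0 := by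
  simp only [exPolyPhi, LinearMap.coe_mk, AddHom.coe_mk, hk, dif_neg, not_false_eq_true]

theorem exPolyPhi_deg {m : ℕ} {ι : Type} [Fintype ι] [DecidableEq ι] (I : Finset ι) (M : ℕ)
    (c : (I × (Fin m → Fin M)) → ℚ) (k : ι) (j : Fin m) :
    (exPolyPhi I M c k).degreeOf j ≤ M := by
  by_cases hk : k ∈ I
  · simp only [exPolyPhi, LinearMap.coe_mk, AddHom.coe_mk, hk, dif_pos]
    refine (MvPolynomial.degreeOf_sum_le j _ _).trans (Finset.sup_le fun e _ => ?_)
    by_cases h0 : c (⟨k, hk⟩, e) = 0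
    · rw [h0, MvPolynomial.monomial_zero, MvPolynomial.degreeOf_zero]
      exact Nat.zero_le _
    · rw [MvPolynomial.degreeOf_monomial_eq _ _ h0]
      exact (e j).2.le
  · rw [exPolyPhi_supp I M c hk, MvPolynomial.degreeOf_zero]
    exact Nat.zero_le _

/-- The linear map whose kernel is wanted. -/
noncomputable def exPolyL {m : ℕ} {ι : Type} [Fintype ι] [DecidableEq ι]
    (T : MvPolynomial (Fin m) ℚ)
    (A : Fin m → Matrix ι ι (MvPolynomial (Fin m) ℚ)) (G : Finset (Fin m → ℤ))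
    (W : (Fin m → ℤ) → Submodule ℚ (ι → ℚ)) (I : Finset ι) (M τ : ℕ) :
    ((I × (Fin m → Fin M)) → ℚ) →ₗ[ℚ]
      ((p : G × (Fin m → Fin τ)) → ((ι → ℚ) ⧸ W (p.1 : Fin m → ℤ))) where
  toFun c := fun p => Submodule.Quotient.mk (fun k =>
    MvPolynomial.eval (fun i => (((p.1 : Fin m → ℤ) i : ℤ) : ℚ))
      (nopM T A (lst fun j => (p.2 j : ℕ)) (exPolyPhi I M c) k))
  map_add' c d := by
    funext p
    rw [Pi.add_apply, ← Submodule.Quotient.mk_add]
    congr 1
    funext k
    rw [map_add, nopM_add, Pi.add_apply, Pi.add_apply, map_add]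
  map_smul' a c := by
    funext p
    rw [Pi.smul_apply, ← Submodule.Quotient.mk_smul]
    congr 1
    funext k
    rw [map_smul, RingHom.id_apply, nopM_smul, Pi.smul_apply, Pi.smul_apply,
      MvPolynomial.smul_eval, smul_eq_mul]

theorem exPoly_finrank {m : ℕ} {ι : Type} [Fintype ι] [DecidableEq ι] (G : Finset (Fin m → ℤ))
    (W : (Fin m → ℤ) → Submodule ℚ (ι → ℚ)) (r : ℕ)
    (hW : ∀ s ∈ G, Fintype.card ι ≤ Module.finrank ℚ (W s) + r) (τ : ℕ) :
    Module.finrank ℚ ((p : G × (Fin m → Fin τ)) → ((ι → ℚ) ⧸ W (p.1 : Fin m → ℤ))) ≤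
      r * (G.card * τ ^ m) := by
  rw [Module.finrank_pi_fintype]
  calc ∑ p : G × (Fin m → Fin τ), Module.finrank ℚ ((ι → ℚ) ⧸ W (p.1 : Fin m → ℤ))
      ≤ ∑ _p : G × (Fin m → Fin τ), r := by
        refine Finset.sum_le_sum fun p _ => ?_
        have h1 := Submodule.finrank_quotient_add_finrank (W (p.1 : Fin m → ℤ))
        have h2 := hW p.1 p.1.2
        rw [Module.finrank_fintype_fun_eq_card] at h1
        omega
    _ = r * (G.card * τ ^ m) := by
        rw [Finset.sum_const, smul_eq_mul, Finset.card_univ, Fintype.card_prod, Fintype.card_coe,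
          Fintype.card_fun, Fintype.card_fin, Fintype.card_fin, mul_comm]


theorem exists_poly {m : ℕ} {ι : Type} [Fintype ι] [DecidableEq ι] (T : MvPolynomial (Fin m) ℚ)
    (A : Fin m → Matrix ι ι (MvPolynomial (Fin m) ℚ)) (G : Finset (Fin m → ℤ))
    (W : (Fin m → ℤ) → Submodule ℚ (ι → ℚ)) (r : ℕ)
    (hW : ∀ s ∈ G, Fintype.card ι ≤ Module.finrank ℚ (W s) + r) (I : Finset ι) (M τ : ℕ)
    (h : r * (G.card * τ ^ m) < I.card * M ^ m) :
    ∃ P : ι → MvPolynomial (Fin m) ℚ, P ≠ 0 ∧ (∀ k, k ∉ I → P k = 0) ∧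
      (∀ k j, (P k).degreeOf j ≤ M) ∧
      ∀ s ∈ G, ∀ α : Fin m → ℕ, (∀ j, α j < τ) →
        (fun k => MvPolynomial.eval (fun i => ((s i : ℤ) : ℚ)) (nopM T A (lst α) P k)) ∈ W s := by
  have hfr : Module.finrank ℚ
      ((p : G × (Fin m → Fin τ)) → ((ι → ℚ) ⧸ W (p.1 : Fin m → ℤ))) <
      Module.finrank ℚ ((I × (Fin m → Fin M)) → ℚ) := by
    rw [Module.finrank_fintype_fun_eq_card, Fintype.card_prod, Fintype.card_coe,
      Fintype.card_fun, Fintype.card_fin, Fintype.card_fin]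
    exact (exPoly_finrank G W r hW τ).trans_lt h
  have hker := LinearMap.ker_ne_bot_of_finrank_lt (f := exPolyL T A G W I M τ) hfr
  obtain ⟨c, hc, hc0⟩ := (Submodule.ne_bot_iff _).1 hker
  rw [LinearMap.mem_ker] at hc
  refine ⟨exPolyPhi I M c, fun h0 => hc0 (exPolyPhi_inj I M h0),
    fun k hk => exPolyPhi_supp I M c hk, fun k j => exPolyPhi_deg I M c k j, ?_⟩
  intro s hs α hα
  have h1 := congrFun hc (⟨s, hs⟩, fun j => ⟨α j, hα j⟩)
  exact (Submodule.Quotient.mk_eq_zero _).1 h1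

end Pool.Agent.Helper79.BB
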