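import Pool.Agent.Helper79.BB.Pd
import Pool.Agent.Helper79.AA.MBeta

/-!
# BB-04: restriction to coordinate lines

`spec i c` is the restriction to the line through `c` in the direction `i`, with the coordinate `s - c_i`; here `c i = 0`.
* `spec_update`: both sides are algebra homomorphisms in `P` (or `spec_aeval` of `AA/MBeta.lean` and `ptC i c s = update (ip c) i s`).
* `spec_natDegree`: `MvPolynomial.induction_on'` or the sum over the support: a monomial `∏ X_j^(e_j)` goes to `(∏_(j ≠ i) c_j^(e_j)) (c_i + X)^(e_i)`, `e_i ≤ degreeOf i P`.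
* `line_mem`: maximum norm.
* `line_sys`: `pd_line`, `hz.ode`, `spec_update`.
-/

open Polynomial

namespace Pool.Agent.Helper79.BB

open Pool.Agent.Helper79.AA

variable {m : ℕ} {ι : Type} [Fintype ι] [DecidableEq ι] {T : MvPolynomial (Fin m) ℚ}
  {A : Fin m → Matrix ι ι (MvPolynomial (Fin m) ℚ)} {R : ℝ} {z : (Fin m → ℂ) → ι → ℂ}
  {i : Fin m} {c : Fin m → ℤ}

omit [Fintype ι] [DecidableEq ι] in
private theorem ls_ptC (hci : c i = 0) (s : ℂ) : ptC i c s = Function.update (ip c) i s := by
  funext j
  rw [ptC]
  by_cases hj : j = i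
  · subst hj
    rw [if_pos rfl, hci, Function.update_self]
    simp
  · rw [if_neg hj, Function.update_of_ne hj, add_zero]
    rfl

theorem spec_update (hci : c i = 0) (P : MvPolynomial (Fin m) ℚ) (s : ℂ) :
    aeval s (spec i c P) = MvPolynomial.aeval (Function.update (ip c) i s) P := by
  rw [spec_aeval, ls_ptC hci]

theorem spec_evalZ (hci : c i = 0) (P : MvPolynomial (Fin m) ℚ) (s : ℤ) :
    (spec i c P).eval (s : ℚ) =
      MvPolynomial.eval (fun j => ((Function.update c i s j : ℤ) : ℚ)) P := by
  rw [spec_eval]
  have h : pt i c s = Function.update c i s := by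
    funext j
    rw [pt]
    by_cases hj : j = i
    · subst hj
      rw [if_pos rfl, hci, Function.update_self, zero_add]
    · rw [if_neg hj, Function.update_of_ne hj, add_zero]
  rw [h]

theorem spec_natDegree (c : Fin m → ℤ) (P : MvPolynomial (Fin m) ℚ) :
    (spec i c P).natDegree ≤ P.degreeOf i := by
  rw [spec, MvPolynomial.aeval_def, MvPolynomial.eval₂_eq']
  refine natDegree_sum_le_of_forall_le _ _ fun e he => ?_
  refine le_trans natDegree_mul_le ?_
  have h0 : (algebraMap ℚ ℚ[X] (MvPolynomial.coeff e P)).natDegree = 0 := natDegree_C _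
  rw [h0, zero_add]
  refine le_trans (natDegree_prod_le _ _) ?_
  refine le_trans ?_ (MvPolynomial.monomial_le_degreeOf i he)
  have h1 : ∀ j ∈ (Finset.univ : Finset (Fin m)),
      ((C ((c j : ℤ) : ℚ) + if j = i then X else 0 : ℚ[X]) ^ e j).natDegree ≤
        if j = i then e i else 0 := by
    intro j _
    by_cases hj : j = i
    · rw [if_pos hj, if_pos hj]
      refine le_trans natDegree_pow_le ?_
      have h2 : (C ((c j : ℤ) : ℚ) + X : ℚ[X]).natDegree ≤ 1 := by
        refine le_trans (natDegree_add_le _ _) ?_
        rw [natDegree_C, natDegree_X]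
        simp
      rw [hj] at h2 ⊢
      calc e i * (C ((c i : ℤ) : ℚ) + X : ℚ[X]).natDegree ≤ e i * 1 := Nat.mul_le_mul_left _ h2
        _ = e i := mul_one _
    · rw [if_neg hj, if_neg hj, add_zero, ← C_pow, natDegree_C]
  refine le_trans (Finset.sum_le_sum h1) ?_
  rw [Finset.sum_ite_eq' Finset.univ i (fun _ => e i)]
  simp

theorem ip_update (c : Fin m → ℤ) (i : Fin m) (s : ℤ) :
    ip (Function.update c i s) = Function.update (ip c) i (s : ℂ) := by
  funext j
  unfold ip
  by_cases hj : j = i
  · subst hj
    rw [Function.update_self, Function.update_self]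
  · rw [Function.update_of_ne hj, Function.update_of_ne hj]

theorem line_mem (hc : ∀ j, |(c j : ℝ)| < R) {s : ℂ} (hs : s ∈ Metric.ball (0 : ℂ) R) :
    Function.update (ip c) i s ∈ Metric.ball (0 : Fin m → ℂ) R := by
  rw [mem_ball_zero_iff] at hs ⊢
  rw [pi_norm_lt_iff (lt_of_le_of_lt (norm_nonneg s) hs)]
  intro j
  by_cases hj : j = i
  · subst hj
    rw [Function.update_self]
    exact hs
  · rw [Function.update_of_ne hj]
    unfold ip
    rw [Complex.norm_intCast]
    exact hc j

omit [Fintype ι] [DecidableEq ι] in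
private theorem ls_analytic (v : Fin m → ℂ) (i : Fin m) (s : ℂ) :
    AnalyticAt ℂ (fun s : ℂ => Function.update v i s) s := by
  rw [analyticAt_pi_iff]
  intro j
  by_cases hj : j = i
  · subst hj
    simp only [Function.update_self]
    exact analyticAt_id
  · simp only [Function.update_of_ne hj]
    exact analyticAt_const

theorem line_sys (hz : IsSysM T A R z) (hc : ∀ j, |(c j : ℝ)| < R) (hci : c i = 0) :
    IsSys (spec i c T) ((A i).map (spec i c)) R
      (fun s => z (Function.update (ip c) i s)) := by
  constructor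
  · intro k s hs
    have h1 := hz.an k _ (line_mem (i := i) hc hs)
    exact AnalyticAt.fun_comp (g := fun u => z u k) (f := fun s : ℂ => Function.update (ip c) i s)
      h1 (ls_analytic _ _ _)
  · intro s hs k
    have h1 := hz.an k _ (line_mem (i := i) hc hs)
    have h2 := hz.ode _ (line_mem (i := i) hc hs) i k
    have h3 := (pd_line (f := fun u => z u k) (u := ip c) (i := i) (s := s)
      h1.differentiableAt).deriv
    rw [spec_update hci, h3, h2]
    refine Finset.sum_congr rfl fun l _ => ?_
    rw [Matrix.map_apply, spec_update hci]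

end Pool.Agent.Helper79.BB
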