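import Pool.Agent.Helper79.BB.Defs
import Pool.Agent.Helper79.AA.Quo

/-!
# BB-05: one variable: ranks and vanishing

Let `r, c, E, N, Ψ, Φ, B` be as in `exists_quo hR hz`, `y = E z`, `ρ = card ι - r`, `ψ` = the maximal degree of the entries of `Ψ`.
* `z = Ψ y` on the ball? no: for a row vector `x ∈ ℚ^ι`: `x = x Ψ(s) E(s) + x Φ(s) N(s)`, so `x · z(s) = (x Ψ(s)) · y(s)` (as `N z = 0`).
  (1) `{x | x Ψ(s) = 0} ⊆ relQ (z s)` and its dimension is at least `card ι - r`.
  (2) If `¬ BadAt R z s` and `x ∈ relQ (z s)`: `x = v(s)`, `v · z = 0` on the ball, so `(v Ψ) · y = v · z = 0`, `v Ψ = 0` by `Indep`, so `x Ψ(s) = 0`. The space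
  `{x | x Ψ(s) = 0}` has dimension exactly `card ι - r` as `x ↦ x Ψ(s)` is surjective (`y = (y E(s)) Ψ(s)`).
  (3) Let `q = p Ψ`, `deg q ≤ d + ψ`; on the ball `p · z = q · y`. For `s ∈ G` the inclusion (1) is an equality. Claim: `(X - s)^n ∣ q_i` for all `i`: by induction on `j ≤ n`
  let `q = (X - s)^j q'`; then `h(u) = (p z)(u) = (u - s)^j g(u)`, `g = q' · y`, and `iteratedDeriv j h s = j! g(s)` (or: `h` vanishes at `s` to order
  `≥ n`, analytic order). So `q'(s) · y(s) = 0` if `j < n`; `x = q'(s) E(s)` satisfies `x · z(s) = q'(s) · y(s) = 0`, so `0 = x Ψ(s) = q'(s) E(s) Ψ(s) = q'(s)`.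
  The `(X - s)^n`, `s ∈ G`, are coprime, their product has degree `n |G| > d + ψ`, so `q = 0` and `p · z = q · y = 0`.
-/

open Polynomial

namespace Pool.Agent.Helper79.BB

open Pool.Agent.Helper79.AA

private theorem lv_aeval (s : ℤ) (q : ℚ[X]) :
    aeval ((s : ℤ) : ℂ) q = ((q.eval ((s : ℤ) : ℚ) : ℚ) : ℂ) := by
  have h1 : ((s : ℤ) : ℂ) = algebraMap ℚ ℂ ((s : ℤ) : ℚ) := by simp
  rw [h1, aeval_algebraMap_apply]
  rw [eq_ratCast]
  simp [Polynomial.coe_aeval_eq_eval]

/-- If `h` vanishes at `s` to order `n` and `h = (u - s)^j g` near `s` with `j < n` then `g s = 0`. -/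
private theorem lv_order {h g : ℂ → ℂ} {s : ℂ} (hh : AnalyticAt ℂ h s) (hg : ContinuousAt g s)
    {n j : ℕ} (hj : j < n) (h0 : ∀ i < n, iteratedDeriv i h s = 0)
    (he : ∀ᶠ u in nhds s, h u = (u - s) ^ j * g u) : g s = 0 := by
  have h1 : (n : ℕ∞) ≤ analyticOrderAt h s :=
    (natCast_le_analyticOrderAt_iff_iteratedDeriv_eq_zero hh).2 h0
  obtain ⟨g2, hg2, he2⟩ := (natCast_le_analyticOrderAt hh).1 h1
  have h2 : ∀ᶠ u in nhdsWithin s {s}ᶜ, g u = (u - s) ^ (n - j) * g2 u := by
    have h3 : ∀ᶠ u in nhdsWithin s {s}ᶜ, h u = (u - s) ^ j * g u := he.filter_mono nhdsWithin_le_nhds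
    have h4 : ∀ᶠ u in nhdsWithin s {s}ᶜ, h u = (u - s) ^ n • g2 u :=
      he2.filter_mono nhdsWithin_le_nhds
    filter_upwards [h3, h4, self_mem_nhdsWithin] with u hu3 hu4 hu5
    have hus : u - s ≠ 0 := sub_ne_zero.2 hu5
    have h6 : (u - s) ^ n = (u - s) ^ j * (u - s) ^ (n - j) := by
      rw [← pow_add]; congr 1; omega
    rw [hu3, smul_eq_mul, h6, mul_assoc] at hu4
    exact mul_left_cancel₀ (pow_ne_zero _ hus) hu4
  have h5 : Filter.Tendsto g (nhdsWithin s {s}ᶜ) (nhds (g s)) := hg.tendsto.mono_left nhdsWithin_le_nhds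
  have h6 : Filter.Tendsto (fun u => (u - s) ^ (n - j) * g2 u) (nhdsWithin s {s}ᶜ) (nhds 0) := by
    have h7 : ContinuousAt (fun u => (u - s) ^ (n - j) * g2 u) s := by
      refine ContinuousAt.mul ?_ hg2.continuousAt
      exact ((continuous_id.sub continuous_const).pow _).continuousAt
    have h8 : (s - s) ^ (n - j) * g2 s = 0 := by
      rw [sub_self, zero_pow (by omega), zero_mul]
    have h9 := h7.tendsto
    rw [h8] at h9
    exact h9.mono_left nhdsWithin_le_nhds
  have h7 : Filter.Tendsto g (nhdsWithin s {s}ᶜ) (nhds 0) := h6.congr' (h2.mono fun u hu => hu.symm)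
  exact tendsto_nhds_unique h5 h7

theorem line_vanish {ι : Type} [Fintype ι] [DecidableEq ι] {T : ℚ[X]} {A : Matrix ι ι ℚ[X]}
    {R : ℝ} (hR : 0 < R) {z : ℂ → ι → ℂ} (hz : IsSys T A R z) :
    ∃ ρ ψ : ℕ,
      (∀ s : ℤ, (s : ℂ) ∈ Metric.ball (0 : ℂ) R →
        ρ ≤ Module.finrank ℚ (relQ (z (s : ℂ)))) ∧
      (∀ s : ℤ, (s : ℂ) ∈ Metric.ball (0 : ℂ) R → ¬ BadAt R z (s : ℚ) →
        Module.finrank ℚ (relQ (z (s : ℂ))) = ρ) ∧
      ∀ (G : Finset ℤ) (n d : ℕ) (p : ι → ℚ[X]),
        (∀ s ∈ G, (s : ℂ) ∈ Metric.ball (0 : ℂ) R ∧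
          Module.finrank ℚ (relQ (z (s : ℂ))) = ρ) →
        (∀ k, (p k).natDegree ≤ d) →
        (∀ s ∈ G, ∀ j < n, iteratedDeriv j (fun u => ∑ k, aeval u (p k) * z u k) (s : ℂ) = 0) →
        d + ψ < G.card * n →
        ∀ u ∈ Metric.ball (0 : ℂ) R, ∑ k, aeval u (p k) * z u k = 0 := by
  classical
  obtain ⟨r, c, E, N, Ψ, Φ, B, hr, hEΨ, hNΨ, hone, hNz, hInter, hys, hind⟩ := exists_quo hR hz
  set y : ℂ → Fin r → ℂ := fun s i => ∑ k, aeval s (E i k) * z s k with hy
  -- `z = Ψ y`
  have hzy : ∀ s ∈ Metric.ball (0 : ℂ) R, ∀ k, z s k = ∑ i, aeval s (Ψ k i) * y s i := by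
    intro s hs k
    have h1 : ∀ l, (∑ i, aeval s (Ψ k i) * aeval s (E i l)) + (∑ i, aeval s (Φ k i) * aeval s (N i l)) =
        if k = l then (1 : ℂ) else 0 := by
      intro l
      have h2 := congrFun (congrFun hone k) l
      rw [Matrix.add_apply, Matrix.mul_apply, Matrix.mul_apply, Matrix.one_apply] at h2
      have h3 := congrArg (fun q => aeval s q) h2
      simp only [map_add, map_sum, map_mul] at h3
      rw [h3]
      split_ifs <;> simp
    have h2 : ∑ l, ((∑ i, aeval s (Ψ k i) * aeval s (E i l)) +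
        (∑ i, aeval s (Φ k i) * aeval s (N i l))) * z s l = z s k := by
      simp only [h1, ite_mul, one_mul, zero_mul]
      rw [Finset.sum_ite_eq]
      simp
    have h3 : ∑ l, (∑ i, aeval s (Φ k i) * aeval s (N i l)) * z s l = 0 := by
      simp only [Finset.sum_mul]
      rw [Finset.sum_comm]
      refine Finset.sum_eq_zero fun i _ => ?_
      simp only [mul_assoc]
      rw [← Finset.mul_sum, hNz s hs i, mul_zero]
    have h4 : ∑ l, (∑ i, aeval s (Ψ k i) * aeval s (E i l)) * z s l = ∑ i, aeval s (Ψ k i) * y s i := by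
      simp only [Finset.sum_mul]
      rw [Finset.sum_comm]
      refine Finset.sum_congr rfl fun i _ => ?_
      simp only [mul_assoc]
      rw [← Finset.mul_sum]
    rw [← h2]
    simp only [add_mul, Finset.sum_add_distrib]
    rw [h3, h4, add_zero]
  -- the linear maps
  set L : ℤ → (ι → ℚ) →ₗ[ℚ] (Fin r → ℚ) :=
    fun s => Matrix.vecMulLinear (Ψ.map (fun q => q.eval ((s : ℤ) : ℚ))) with hL
  have hLap : ∀ s x i, L s x i = ∑ k, x k * (Ψ k i).eval ((s : ℤ) : ℚ) := by
    intro s x i
    rfl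
  have hEL : ∀ (s : ℤ) (w : Fin r → ℚ), L s (fun k => ∑ i, w i * (E i k).eval ((s : ℤ) : ℚ)) = w := by
    intro s w
    funext j
    rw [hLap]
    simp only [Finset.sum_mul]
    rw [Finset.sum_comm]
    have h1 : ∀ i, ∑ k, w i * (E i k).eval ((s : ℤ) : ℚ) * (Ψ k j).eval ((s : ℤ) : ℚ) =
        w i * (if i = j then 1 else 0) := by
      intro i
      have h2 := congrFun (congrFun hEΨ i) j
      rw [Matrix.mul_apply, Matrix.one_apply] at h2
      have h3 := congrArg (fun q => q.eval ((s : ℤ) : ℚ)) h2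
      simp only [eval_finsetSum, eval_mul] at h3
      simp only [mul_assoc]
      rw [← Finset.mul_sum, h3]
      split_ifs <;> simp
    simp only [h1, mul_ite, mul_one, mul_zero]
    rw [Finset.sum_ite_eq']
    simp
  have hLsurj : ∀ s, Function.Surjective (L s) := fun s w => ⟨_, hEL s w⟩
  have hker : ∀ s, Module.finrank ℚ (LinearMap.ker (L s)) = Fintype.card ι - r := by
    intro s
    have h1 := LinearMap.finrank_range_add_finrank_ker (L s)
    rw [LinearMap.range_eq_top.2 (hLsurj s), finrank_top, Module.finrank_fintype_fun_eq_card,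
      Module.finrank_fintype_fun_eq_card, Fintype.card_fin] at h1
    omega
  -- linear combinations of `z` in terms of `y`
  have hcomb : ∀ s ∈ Metric.ball (0 : ℂ) R, ∀ a : ι → ℂ,
      ∑ k, a k * z s k = ∑ i, (∑ k, a k * aeval s (Ψ k i)) * y s i := by
    intro s hs a
    simp only [Finset.sum_mul]
    rw [Finset.sum_comm]
    refine Finset.sum_congr rfl fun k _ => ?_
    rw [hzy s hs k, Finset.mul_sum]
    exact Finset.sum_congr rfl fun i _ => by ring
  have hle : ∀ s : ℤ, (s : ℂ) ∈ Metric.ball (0 : ℂ) R → LinearMap.ker (L s) ≤ relQ (z (s : ℂ)) := by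
    intro s hs x hx
    show ∑ k, ((x k : ℚ) : ℂ) * z (s : ℂ) k = 0
    rw [hcomb _ hs]
    refine Finset.sum_eq_zero fun i _ => ?_
    have h1 : L s x i = 0 := by
      rw [LinearMap.mem_ker] at hx
      rw [hx]; rfl
    rw [hLap] at h1
    have h2 : (∑ k, ((x k : ℚ) : ℂ) * aeval ((s : ℤ) : ℂ) (Ψ k i)) = 0 := by
      simp only [lv_aeval]
      have h3 := congrArg (fun q : ℚ => (q : ℂ)) h1
      push_cast at h3
      exact h3
    rw [h2, zero_mul]
  refine ⟨Fintype.card ι - r, Finset.univ.sup fun k => Finset.univ.sup fun i => (Ψ k i).natDegree,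
    ?_, ?_, ?_⟩
  · intro s hs
    rw [← hker s]
    exact Submodule.finrank_mono (hle s hs)
  · intro s hs hbad
    suffices heq : relQ (z (s : ℂ)) = LinearMap.ker (L s) by rw [heq, hker s]
    refine le_antisymm ?_ (hle s hs)
    intro x hx
    have hx' : ∑ k, ((x k : ℚ) : ℂ) * z (s : ℂ) k = 0 := hx
    unfold BadAt at hbad
    push Not at hbad
    obtain ⟨v, hv1, hv2⟩ := hbad x (by simpa using hx')
    have h1 : (fun i => ∑ k, v k * Ψ k i) = (0 : Fin r → ℚ[X]) := by
      apply hind
      intro u hu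
      have h2 := hv2 u hu
      rw [hcomb u hu] at h2
      rw [← h2]
      refine Finset.sum_congr rfl fun i _ => ?_
      rw [map_sum]
      congr 1
      exact Finset.sum_congr rfl fun k _ => by rw [map_mul]
    rw [LinearMap.mem_ker]
    funext i
    rw [hLap]
    have h2 := congrArg (fun q => q.eval ((s : ℤ) : ℚ)) (congrFun h1 i)
    simp only [eval_finsetSum, eval_mul, Pi.zero_apply, eval_zero] at h2
    simp only [hv1] at h2
    exact h2
  · intro G n d p hG hd h0 hcard u hu
    have hkereq : ∀ s ∈ G, LinearMap.ker (L s) = relQ (z (s : ℂ)) := by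
      intro s hs
      refine Submodule.eq_of_le_of_finrank_eq (hle s (hG s hs).1) ?_
      rw [hker, (hG s hs).2]
    set q : Fin r → ℚ[X] := fun i => ∑ k, p k * Ψ k i with hq
    have hh : ∀ u ∈ Metric.ball (0 : ℂ) R,
        ∑ k, aeval u (p k) * z u k = ∑ i, aeval u (q i) * y u i := by
      intro u hu
      rw [hcomb u hu]
      refine Finset.sum_congr rfl fun i _ => ?_
      rw [hq, map_sum]
      congr 1
      exact Finset.sum_congr rfl fun k _ => by rw [map_mul]
    have hqdeg : ∀ i, (q i).natDegree ≤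
        d + Finset.univ.sup fun k => Finset.univ.sup fun i => (Ψ k i).natDegree := by
      intro i
      rw [hq]
      refine natDegree_sum_le_of_forall_le _ _ fun k _ => ?_
      refine natDegree_mul_le.trans (add_le_add (hd k) ?_)
      have h1 : (Ψ k i).natDegree ≤ Finset.univ.sup fun i => (Ψ k i).natDegree :=
        Finset.le_sup (f := fun i => (Ψ k i).natDegree) (Finset.mem_univ i)
      exact h1.trans (Finset.le_sup (f := fun k => Finset.univ.sup fun i => (Ψ k i).natDegree)
        (Finset.mem_univ k))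
    have hdiv : ∀ s ∈ G, ∀ j ≤ n, ∀ i, (X - C ((s : ℤ) : ℚ)) ^ j ∣ q i := by
      intro s hs j
      induction j with
      | zero => intro _ i; simp
      | succ j ih =>
        intro hj i
        have ih' := ih (by omega)
        choose q' hq' using ih'
        have hsb := (hG s hs).1
        have hana : AnalyticAt ℂ (fun u => ∑ k, aeval u (p k) * z u k) ((s : ℤ) : ℂ) := by
          refine Finset.analyticAt_fun_sum _ fun k _ => ?_
          exact (AnalyticAt.aeval_polynomial analyticAt_id (p k)).mul (hz.an k _ hsb)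
        have hgc : ContinuousAt (fun u => ∑ i, aeval u (q' i) * y u i) ((s : ℤ) : ℂ) := by
          refine tendsto_finsetSum _ fun i _ => ?_
          exact ((Polynomial.continuous_aeval (q' i)).continuousAt).mul (hys.an i _ hsb).continuousAt
        have hg0 := lv_order hana hgc (n := n) (j := j) (by omega) (h0 s hs) (by
          filter_upwards [Metric.isOpen_ball.mem_nhds hsb] with u hu
          rw [hh u hu, Finset.mul_sum]
          refine Finset.sum_congr rfl fun i _ => ?_
          rw [hq' i, map_mul, map_pow, map_sub, aeval_X, aeval_C]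
          simp only [eq_ratCast, Rat.cast_intCast]
          ring)
        have hx : (fun k => ∑ i, (q' i).eval ((s : ℤ) : ℚ) * (E i k).eval ((s : ℤ) : ℚ)) ∈
            LinearMap.ker (L s) := by
          rw [hkereq s hs]
          show ∑ k, (((∑ i, (q' i).eval ((s : ℤ) : ℚ) * (E i k).eval ((s : ℤ) : ℚ)) : ℚ) : ℂ) *
            z (s : ℂ) k = 0
          rw [← hg0]
          push_cast
          simp only [Finset.sum_mul]
          rw [Finset.sum_comm]
          refine Finset.sum_congr rfl fun i _ => ?_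
          rw [hy]
          simp only [lv_aeval]
          rw [Finset.mul_sum]
          exact Finset.sum_congr rfl fun k _ => by ring
        rw [LinearMap.mem_ker] at hx
        have h1 := hEL s (fun i => (q' i).eval ((s : ℤ) : ℚ))
        rw [hx] at h1
        have h2 : (q' i).eval ((s : ℤ) : ℚ) = 0 := (congrFun h1 i).symm
        obtain ⟨q'', hq''⟩ := dvd_iff_isRoot.2 h2
        rw [hq' i, hq'', pow_succ]
        exact ⟨q'', by ring⟩
    have hq0 : ∀ i, q i = 0 := by
      intro i
      have h1 : (∏ s ∈ G, (X - C ((s : ℤ) : ℚ)) ^ n) ∣ q i := by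
        refine Finset.prod_dvd_of_coprime ?_ fun s hs => hdiv s hs n le_rfl i
        intro a _ b _ hab
        refine IsCoprime.pow ?_
        refine isCoprime_X_sub_C_of_isUnit_sub ?_
        rw [isUnit_iff_ne_zero, sub_ne_zero]
        exact fun h => hab (by exact_mod_cast h)
      by_contra hne
      have h2 := natDegree_le_of_dvd h1 hne
      rw [natDegree_prod _ _ (fun s _ => pow_ne_zero _ (X_sub_C_ne_zero _))] at h2
      simp only [natDegree_pow, natDegree_X_sub_C, mul_one, Finset.sum_const, smul_eq_mul] at h2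
      have h3 := hqdeg i
      omega
    rw [hh u hu]
    simp [hq0]

end Pool.Agent.Helper79.BB
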