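import Pool.Agent.Helper79.BB.Pd

/-!
# BB-03: the vectors `nopM`

* `nopM_add`, `nopM_smul`: induction on `L`.
* `nopM_dot`: induction on `L`. If `T^n G = Q z` on the ball (`G = pdL L (P z)`, `n = L.length`), differentiate:
  `n T^(n-1) (∂_i T) G + T^n ∂_i G = ∑ (∂_i Q_k) z_k + ∑ Q_k ∂_i z_k`, multiply by `T`, use `hz.ode` and `T^n G = Q z`.
* `nopM_deg`: `MvPolynomial.degreeOf_mul_le`, `degreeOf_add_le`, and `degreeOf j (pderiv i P) ≤ degreeOf j P`.
-/

namespace Pool.Agent.Helper79.BB

variable {m : ℕ} {ι : Type} [Fintype ι] {T : MvPolynomial (Fin m) ℚ}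
  {A : Fin m → Matrix ι ι (MvPolynomial (Fin m) ℚ)} {R : ℝ} {z : (Fin m → ℂ) → ι → ℂ}

theorem dot_analytic (hz : ∀ k, AnalyticOnNhd ℂ (fun u => z u k) (Metric.ball 0 R))
    (P : ι → MvPolynomial (Fin m) ℚ) : AnalyticOnNhd ℂ (dot P z) (Metric.ball 0 R) := by
  intro u hu
  unfold dot
  refine Finset.analyticAt_fun_sum _ fun k _ => ?_
  exact (analytic_aeval (P k) u).mul (hz k u hu)

private theorem nm_step_add (i : Fin m) (n : ℕ) (P Q : ι → MvPolynomial (Fin m) ℚ) :
    stepM T A i n (P + Q) = stepM T A i n P + stepM T A i n Q := by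
  funext k
  simp only [stepM, Pi.add_apply, map_add, add_mul, Finset.sum_add_distrib]
  ring

private theorem nm_step_smul (i : Fin m) (n : ℕ) (c : ℚ) (P : ι → MvPolynomial (Fin m) ℚ) :
    stepM T A i n (c • P) = c • stepM T A i n P := by
  funext k
  have h : MvPolynomial.pderiv i (c • P k) = c • MvPolynomial.pderiv i (P k) :=
    Derivation.map_smul _ _ _
  simp only [stepM, Pi.smul_apply, h, mul_smul_comm, smul_mul_assoc, smul_sub, smul_add,
    Finset.smul_sum]

theorem nopM_add (L : List (Fin m)) (P Q : ι → MvPolynomial (Fin m) ℚ) :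
    nopM T A L (P + Q) = nopM T A L P + nopM T A L Q := by
  induction L with
  | nil => rfl
  | cons i L ih =>
    rw [nopM, nopM, nopM, ih, nm_step_add]

theorem nopM_smul (L : List (Fin m)) (c : ℚ) (P : ι → MvPolynomial (Fin m) ℚ) :
    nopM T A L (c • P) = c • nopM T A L P := by
  induction L with
  | nil => rfl
  | cons i L ih =>
    rw [nopM, nopM, ih, nm_step_smul]

private theorem nm_pdL_analytic {f : (Fin m → ℂ) → ℂ} {u : Fin m → ℂ} (hf : AnalyticAt ℂ f u)
    (L : List (Fin m)) : AnalyticAt ℂ (pdL L f) u := by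
  induction L with
  | nil => exact hf
  | cons i L ih => exact pd_analyticAt ih i

theorem nopM_dot (hz : IsSysM T A R z) (L : List (Fin m)) (P : ι → MvPolynomial (Fin m) ℚ) :
    ∀ u ∈ Metric.ball (0 : Fin m → ℂ) R,
      MvPolynomial.aeval u T ^ L.length * pdL L (dot P z) u = dot (nopM T A L P) z u := by
  induction L with
  | nil =>
    intro u _
    simp [pdL, nopM]
  | cons i L ih =>
    intro u hu
    have hG : AnalyticAt ℂ (pdL L (dot P z)) u := nm_pdL_analytic (dot_analytic hz.an P u hu) L
    have hT : AnalyticAt ℂ (fun u : Fin m → ℂ => MvPolynomial.aeval u T) u := analytic_aeval T u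
    obtain ⟨Q, hQ⟩ : ∃ Q, Q = nopM T A L P := ⟨_, rfl⟩
    have h1 : (fun u => MvPolynomial.aeval u T ^ L.length * pdL L (dot P z) u) =ᶠ[nhds u]
        dot Q z := by
      filter_upwards [Metric.isOpen_ball.mem_nhds hu] with v hv
      rw [hQ]
      exact ih v hv
    have h2 := pd_congr h1 i
    rw [pd_mul (f := fun u => MvPolynomial.aeval u T ^ L.length) (g := pdL L (dot P z))
      (hT.pow _).differentiableAt hG.differentiableAt,
      pd_pow (f := fun u => MvPolynomial.aeval u T) hT.differentiableAt, pd_aeval] at h2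
    have h3 : pd i (dot Q z) u = ∑ k, (MvPolynomial.aeval u (MvPolynomial.pderiv i (Q k)) * z u k +
        MvPolynomial.aeval u (Q k) * pd i (fun u => z u k) u) := by
      unfold dot
      rw [pd_sum Finset.univ (f := fun k u => MvPolynomial.aeval u (Q k) * z u k)]
      · refine Finset.sum_congr rfl fun k _ => ?_
        rw [pd_mul (f := fun u => MvPolynomial.aeval u (Q k)) (g := fun u => z u k)
          (analytic_aeval _ u).differentiableAt (hz.an k u hu).differentiableAt, pd_aeval]
      · intro k _
        exact ((analytic_aeval (Q k) u).mul (hz.an k u hu)).differentiableAt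
    rw [h3] at h2
    have h4 : MvPolynomial.aeval u T ^ L.length * pdL L (dot P z) u =
        ∑ k, MvPolynomial.aeval u (Q k) * z u k := by
      rw [ih u hu, ← hQ]
      rfl
    have h5 : MvPolynomial.aeval u T * ∑ k, (MvPolynomial.aeval u (MvPolynomial.pderiv i (Q k)) *
        z u k + MvPolynomial.aeval u (Q k) * pd i (fun u => z u k) u) =
        ∑ k, MvPolynomial.aeval u T * MvPolynomial.aeval u (MvPolynomial.pderiv i (Q k)) * z u k +
        ∑ k, ∑ l, MvPolynomial.aeval u (Q l) * MvPolynomial.aeval u (A i l k) * z u k := by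
      rw [Finset.mul_sum, Finset.sum_comm (f := fun k l =>
        MvPolynomial.aeval u (Q l) * MvPolynomial.aeval u (A i l k) * z u k),
        ← Finset.sum_add_distrib]
      refine Finset.sum_congr rfl fun k _ => ?_
      have h6 := hz.ode u hu i k
      calc MvPolynomial.aeval u T * (MvPolynomial.aeval u (MvPolynomial.pderiv i (Q k)) * z u k +
            MvPolynomial.aeval u (Q k) * pd i (fun u => z u k) u) =
          MvPolynomial.aeval u T * MvPolynomial.aeval u (MvPolynomial.pderiv i (Q k)) * z u k +
            MvPolynomial.aeval u (Q k) * (MvPolynomial.aeval u T * pd i (fun u => z u k) u) := by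
            ring
        _ = _ := by
          rw [h6, Finset.mul_sum]
          congr 1
          refine Finset.sum_congr rfl fun l _ => ?_
          ring
    have h7 : dot (nopM T A (i :: L) P) z u =
        ∑ k, MvPolynomial.aeval u T * MvPolynomial.aeval u (MvPolynomial.pderiv i (Q k)) * z u k +
        ∑ k, ∑ l, MvPolynomial.aeval u (Q l) * MvPolynomial.aeval u (A i l k) * z u k -
        (L.length : ℂ) * MvPolynomial.aeval u (MvPolynomial.pderiv i T) *
          ∑ k, MvPolynomial.aeval u (Q k) * z u k := by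
      rw [nopM, ← hQ]
      unfold dot stepM
      rw [Finset.mul_sum, ← Finset.sum_add_distrib, ← Finset.sum_sub_distrib]
      refine Finset.sum_congr rfl fun k _ => ?_
      simp only [map_sub, map_add, map_mul, map_sum, map_natCast, sub_mul, add_mul,
        Finset.sum_mul]
      ring
    have h8 : pdL (i :: L) (dot P z) u = pd i (pdL L (dot P z)) u := rfl
    have h9 : MvPolynomial.aeval u T * ((L.length : ℂ) * MvPolynomial.aeval u T ^ (L.length - 1)) =
        (L.length : ℂ) * MvPolynomial.aeval u T ^ L.length := by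
      rcases Nat.eq_zero_or_pos L.length with h0 | h0
      · rw [h0]
        simp
      · obtain ⟨n, hn⟩ : ∃ n, L.length = n + 1 := ⟨L.length - 1, by omega⟩
        rw [hn, Nat.add_sub_cancel, pow_succ]
        ring
    rw [h8, h7, ← h5, ← h2, ← h4, List.length_cons, pow_succ]
    linear_combination (-(MvPolynomial.aeval u (MvPolynomial.pderiv i T)) *
      pdL L (dot P z) u) * h9

private theorem nm_deg_pderiv (i j : Fin m) (P : MvPolynomial (Fin m) ℚ) :
    (MvPolynomial.pderiv i P).degreeOf j ≤ P.degreeOf j := by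
  classical
  rw [MvPolynomial.degreeOf_le_iff]
  intro e he
  have h1 : e + Finsupp.single i 1 ∈ P.support := by
    rw [MvPolynomial.mem_support_iff] at he ⊢
    intro h
    apply he
    rw [MvPolynomial.coeff_pderiv, h]
    simp
  have h2 := MvPolynomial.monomial_le_degreeOf j h1
  refine le_trans ?_ h2
  simp

theorem nopM_deg {δ M : ℕ} (hT : ∀ j, T.degreeOf j ≤ δ) (hA : ∀ i k l j, (A i k l).degreeOf j ≤ δ)
    {P : ι → MvPolynomial (Fin m) ℚ} (hP : ∀ k j, (P k).degreeOf j ≤ M) (L : List (Fin m)) :
    ∀ k j, (nopM T A L P k).degreeOf j ≤ M + L.length * δ := by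
  induction L with
  | nil =>
    intro k j
    simpa [nopM] using hP k j
  | cons i L ih =>
    intro k j
    rw [nopM, List.length_cons]
    have e1 : M + (L.length + 1) * δ = δ + (M + L.length * δ) := by ring
    rw [e1]
    unfold stepM
    refine le_trans (MvPolynomial.degreeOf_sub_le _ _ _) (max_le ?_ ?_)
    · refine le_trans (MvPolynomial.degreeOf_add_le _ _ _) (max_le ?_ ?_)
      · refine le_trans (MvPolynomial.degreeOf_mul_le _ _ _) (Nat.add_le_add (hT j) ?_)
        exact le_trans (nm_deg_pderiv i j _) (ih k j)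
      · refine le_trans (MvPolynomial.degreeOf_sum_le _ _ _) (Finset.sup_le fun l _ => ?_)
        refine le_trans (MvPolynomial.degreeOf_mul_le _ _ _) ?_
        rw [add_comm δ]
        exact Nat.add_le_add (ih l j) (hA i l k j)
    · refine le_trans (MvPolynomial.degreeOf_mul_le _ _ _) (Nat.add_le_add ?_ (ih k j))
      refine le_trans (MvPolynomial.degreeOf_mul_le _ _ _) ?_
      have h0 : (((L.length : ℕ) : MvPolynomial (Fin m) ℚ)).degreeOf j = 0 := by
        rw [← map_natCast (MvPolynomial.C (σ := Fin m) (R := ℚ)), MvPolynomial.degreeOf_C]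
      rw [h0, zero_add]
      exact le_trans (nm_deg_pderiv i j _) (hT j)

end Pool.Agent.Helper79.BB
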