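import Pool.Agent.Helper79.BB.PdL
import Pool.Agent.Helper79.BB.NopM
import Pool.Agent.Helper79.BB.LineSys
import Pool.Agent.Helper79.BB.LineVanish
import Pool.Agent.Helper79.BB.ExistsPoly

/-!
# BB-07: the grid theorem (helper79)
-/

open Polynomial

namespace Pool.Agent.Helper79.BB

open Pool.Agent.Helper79.AA

theorem bern (a m : ℕ) (ha : 1 ≤ a) : a ^ m ≤ (a - 1) ^ m + m * a ^ (m - 1) := by
  induction m with
  | zero => simp
  | succ m ih =>
    have h1 : (a - 1) ^ m ≤ a ^ m := Nat.pow_le_pow_left (Nat.sub_le a 1) m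
    rcases Nat.eq_zero_or_pos m with rfl | hm
    · simp
      omega
    obtain ⟨b, rfl⟩ : ∃ b, a = b + 1 := ⟨a - 1, by omega⟩
    obtain ⟨k, rfl⟩ : ∃ k, m = k + 1 := ⟨m - 1, by omega⟩
    simp only [Nat.add_sub_cancel] at ih h1 ⊢
    calc (b + 1) ^ (k + 1 + 1) = (b + 1) * (b + 1) ^ (k + 1) := by ring
      _ ≤ (b + 1) * (b ^ (k + 1) + (k + 1) * (b + 1) ^ k) := Nat.mul_le_mul_left _ ih
      _ = b ^ (k + 1 + 1) + b ^ (k + 1) + (k + 1) * (b + 1) ^ (k + 1) := by ring
      _ ≤ b ^ (k + 1 + 1) + (b + 1) ^ (k + 1) + (k + 1) * (b + 1) ^ (k + 1) := by omega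
      _ = _ := by ring

theorem bern_lt {a m r n : ℕ} (hm : 1 ≤ m) (hr : r ≤ n) (ha : a = 2 * (n + 1) * m) {i : ℕ}
    (hi : r < i) {q : ℕ} (hq : 1 ≤ q) : r * (a * q) ^ m < i * ((a - 1) * q) ^ m := by
  have ha1 : 1 ≤ a := by
    rw [ha]
    have : 1 ≤ 2 * (n + 1) * m := Nat.one_le_iff_ne_zero.2 (by positivity)
    exact this
  have h1 := bern a m ha1
  have h2 : (r + 1) * (a - 1) ^ m ≤ i * (a - 1) ^ m := Nat.mul_le_mul_right _ hi
  have h3 : r * a ^ m < (r + 1) * (a - 1) ^ m := by
    have h4 : (r + 1) * a ^ m ≤ (r + 1) * (a - 1) ^ m + (r + 1) * m * a ^ (m - 1) := by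
      calc (r + 1) * a ^ m ≤ (r + 1) * ((a - 1) ^ m + m * a ^ (m - 1)) := Nat.mul_le_mul_left _ h1
        _ = _ := by ring
    have h5 : (r + 1) * m * a ^ (m - 1) < a ^ m := by
      have h6 : a ^ m = a * a ^ (m - 1) := by
        rw [← pow_succ']
        congr 1
        omega
      rw [h6]
      refine Nat.mul_lt_mul_of_pos_right ?_ (by positivity)
      rw [ha]
      have h7 : (r + 1) * m ≤ (n + 1) * m := Nat.mul_le_mul_right _ (by omega)
      have h8 : 0 < (n + 1) * m := by positivity
      have h9 : 2 * (n + 1) * m = (n + 1) * m + (n + 1) * m := by ring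
      omega
    have h10 : (r + 1) * a ^ m = r * a ^ m + a ^ m := by ring
    omega
  rw [mul_pow, mul_pow, ← mul_assoc, ← mul_assoc]
  exact Nat.mul_lt_mul_of_pos_right (lt_of_lt_of_le h3 h2) (by positivity)

theorem aeval_ip {m : ℕ} (u : Fin m → ℤ) (P : MvPolynomial (Fin m) ℚ) :
    MvPolynomial.aeval (ip u) P =
      ((MvPolynomial.eval (fun i => ((u i : ℤ) : ℚ)) P : ℚ) : ℂ) := by
  have h1 : (MvPolynomial.aeval (ip u) : MvPolynomial (Fin m) ℚ →ₐ[ℚ] ℂ) =
      (Algebra.ofId ℚ ℂ).comp (MvPolynomial.aeval (fun i => ((u i : ℤ) : ℚ))) := by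
    refine MvPolynomial.algHom_ext fun i => ?_
    rw [AlgHom.comp_apply, MvPolynomial.aeval_X, MvPolynomial.aeval_X, Algebra.ofId_apply,
      eq_ratCast, Rat.cast_intCast]
    rfl
  rw [h1, AlgHom.comp_apply, Algebra.ofId_apply, eq_ratCast, MvPolynomial.aeval_eq_eval]

theorem grid_core {m n δ B : ℕ} (hm : 1 ≤ m) (hB : B = 2 * (n + 1) * m * (m * δ + 2)) {ι : Type}
    [Fintype ι] [DecidableEq ι] (hn : Fintype.card ι ≤ n) {T : MvPolynomial (Fin m) ℚ}
    {A : Fin m → Matrix ι ι (MvPolynomial (Fin m) ℚ)} {R : ℝ} (hR : 0 < R)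
    {z : (Fin m → ℂ) → ι → ℂ} (hz : IsSysM T A R z) (hT : ∀ j, T.degreeOf j ≤ δ)
    (hA : ∀ i k l j, (A i k l).degreeOf j ≤ δ) {w : Fin m → ℤ} {ρ : ℕ}
    (hgrid : ∀ e : Fin m → ℕ, (∀ j, e j < B) →
      (∀ j, |((w j + (e j : ℤ) : ℤ) : ℝ)| < R) ∧
      MvPolynomial.eval (fun j => ((w j + (e j : ℤ) : ℤ) : ℚ)) T ≠ 0 ∧
      Module.finrank ℚ (relQ (z (ip fun j => w j + (e j : ℤ)))) = ρ)
    (hline : ∀ e : Fin m → ℕ, (∀ j, e j < B) → ∀ i, ∃ x : ℤ, |(x : ℝ)| < R ∧
      ¬ BadAt R (fun s => z (Function.update (ip fun j => w j + (e j : ℤ)) i s)) (x : ℚ) ∧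
      ρ ≤ Module.finrank ℚ (relQ (z (Function.update (ip fun j => w j + (e j : ℤ)) i (x : ℂ)))))
    {I : Finset ι} (hI : Fintype.card ι < I.card + ρ) : ¬ IndepM R z I := by
  classical
  intro hind
  set N : ℕ := Fintype.card ι with hN
  have hmd : 2 ≤ m * δ + 2 := by omega
  have hBpos : 0 < B := by
    rw [hB]
    positivity
  -- the grid points
  set g : (Fin m → Fin B) → Fin m → ℤ := fun e j => w j + ((e j : ℕ) : ℤ) with hg
  have hgb : ∀ e j, |((g e j : ℤ) : ℝ)| < R := fun e => (hgrid (fun j => e j) fun j => (e j).2).1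
  have hgT : ∀ e, MvPolynomial.eval (fun j => ((g e j : ℤ) : ℚ)) T ≠ 0 := fun e =>
    (hgrid (fun j => e j) fun j => (e j).2).2.1
  have hgρ : ∀ e, Module.finrank ℚ (relQ (z (ip (g e)))) = ρ := fun e =>
    (hgrid (fun j => e j) fun j => (e j).2).2.2
  have hgball : ∀ e, ip (g e) ∈ Metric.ball (0 : Fin m → ℂ) R := by
    intro e
    rw [Metric.mem_ball, dist_zero_right, pi_norm_lt_iff hR]
    intro j
    rw [ip, Complex.norm_intCast]
    exact hgb e j
  have hgTC : ∀ e, MvPolynomial.aeval (ip (g e)) T ≠ 0 := by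
    intro e h0
    rw [aeval_ip] at h0
    exact hgT e (by exact_mod_cast h0)
  -- the lines
  have hupd : ∀ (s : Fin m → ℤ) (i : Fin m) (x : ℂ),
      Function.update (ip (Function.update s i 0)) i x = Function.update (ip s) i x := by
    intro s i x
    rw [ip_update, Function.update_idem]
  have hlines : ∀ (e : Fin m → Fin B) (i : Fin m), ∃ ψ : ℕ,
      ∀ (G : Finset ℤ) (n d : ℕ) (p : ι → ℚ[X]),
        (∀ s ∈ G, |(s : ℝ)| < R ∧
          Module.finrank ℚ (relQ (z (Function.update (ip (g e)) i (s : ℂ)))) = ρ) →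
        (∀ k, (p k).natDegree ≤ d) →
        (∀ s ∈ G, ∀ j < n, iteratedDeriv j (fun u => ∑ k, aeval u (p k) *
          z (Function.update (ip (g e)) i u) k) (s : ℂ) = 0) →
        d + ψ < G.card * n →
        ∀ u ∈ Metric.ball (0 : ℂ) R, ∑ k, aeval u (p k) *
          z (Function.update (ip (g e)) i u) k = 0 := by
    intro e i
    set c : Fin m → ℤ := Function.update (g e) i 0 with hc
    have hcb : ∀ j, |(c j : ℝ)| < R := by
      intro j
      by_cases hj : j = i
      · rw [hc, hj, Function.update_self]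
        simpa using hR
      · rw [hc, Function.update_of_ne hj]
        exact hgb e j
    have hci : c i = 0 := by rw [hc, Function.update_self]
    have hsys := line_sys (i := i) hz hcb hci
    have hfun : (fun s : ℂ => z (Function.update (ip c) i s)) =
        fun s : ℂ => z (Function.update (ip (g e)) i s) := by
      funext s
      rw [hc, hupd]
    rw [hfun] at hsys
    obtain ⟨ρ', ψ, h1, h2, h3⟩ := line_vanish hR hsys
    obtain ⟨x, hx, hxb, hxρ⟩ := hline (fun j => e j) (fun j => (e j).2) i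
    have hmem : ∀ s : ℤ, |(s : ℝ)| < R → (s : ℂ) ∈ Metric.ball (0 : ℂ) R := by
      intro s hs
      rw [Metric.mem_ball, dist_zero_right, Complex.norm_intCast]
      exact hs
    have h4 := h2 x (hmem x hx) hxb
    have h5 := h1 (g e i) (hmem _ (hgb e i))
    have h6 : Function.update (ip (g e)) i ((g e i : ℤ) : ℂ) = ip (g e) := by
      funext j
      by_cases hj : j = i
      · rw [hj, Function.update_self]
        rfl
      · rw [Function.update_of_ne hj]
    rw [h6, hgρ e] at h5
    have h7 : ρ ≤ ρ' := by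
      rw [← h4]
      exact hxρ
    have h8 : ρ' = ρ := le_antisymm h5 h7
    subst h8
    exact ⟨ψ, fun G n d p hG hp hd hlt => h3 G n d p (fun s hs => ⟨hmem s (hG s hs).1, (hG s hs).2⟩)
      hp hd hlt⟩
  choose ψ hψ using hlines
  set τ : ℕ := 1 + ∑ e, ∑ i, ψ e i with hτ
  have hψτ : ∀ e i, ψ e i < τ := by
    intro e i
    have h1 : ψ e i ≤ ∑ i, ψ e i := Finset.single_le_sum (fun _ _ => Nat.zero_le _)
      (Finset.mem_univ i)
    have h2 : ∑ i, ψ e i ≤ ∑ e, ∑ i, ψ e i :=
      Finset.single_le_sum (f := fun e => ∑ i, ψ e i) (fun _ _ => Nat.zero_le _)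
        (Finset.mem_univ e)
    omega
  have hτ1 : 1 ≤ τ := by omega
  set a : ℕ := 2 * (n + 1) * m with ha
  set M : ℕ := (a - 1) * ((m * δ + 2) * τ) with hM
  set r : ℕ := N - ρ with hr
  have hρN : ρ ≤ N := by
    have h1 := Submodule.finrank_le (relQ (z (ip (g fun _ => ⟨0, hBpos⟩))))
    rw [hgρ, Module.finrank_fintype_fun_eq_card] at h1
    exact h1
  have hG : (Finset.univ.image g).card ≤ B ^ m := by
    refine Finset.card_image_le.trans ?_
    rw [Finset.card_univ, Fintype.card_fun, Fintype.card_fin, Fintype.card_fin]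
  obtain ⟨P, hP0, hPI, hPdeg, hPW⟩ := exists_poly T A (Finset.univ.image g)
    (fun s => relQ (z (ip s))) r (fun s hs => by
      obtain ⟨e, -, rfl⟩ := Finset.mem_image.1 hs
      rw [hgρ e]
      omega) I M τ (by
      have h1 : r * (a * ((m * δ + 2) * τ)) ^ m < I.card * ((a - 1) * ((m * δ + 2) * τ)) ^ m :=
        bern_lt hm (by omega : r ≤ n) ha (by omega) (Nat.one_le_iff_ne_zero.2 (by positivity))
      refine lt_of_le_of_lt ?_ h1
      refine Nat.mul_le_mul_left _ ?_
      calc (Finset.univ.image g).card * τ ^ m ≤ B ^ m * τ ^ m := Nat.mul_le_mul_right _ hG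
        _ = (a * ((m * δ + 2) * τ)) ^ m := by
            rw [← mul_pow, hB]
            congr 1
            rw [ha]
            ring)
  -- the function
  set F : (Fin m → ℂ) → ℂ := dot P z with hF
  have hFan : AnalyticOnNhd ℂ F (Metric.ball 0 R) := dot_analytic hz.an P
  have hex : ∃ (l : ℕ) (e : Fin m → Fin B) (L : List (Fin m)), L.length = l ∧
      pdL L F (ip (g e)) ≠ 0 := by
    by_contra hcon
    push Not at hcon
    have e₀ : Fin m → Fin B := fun _ => ⟨0, hBpos⟩
    have h1 := pdL_zero hFan (hgball e₀) fun L => hcon L.length e₀ L rfl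
    exact hP0 (hind P hPI h1)
  classical
  set l₀ := Nat.find hex with hl₀
  obtain ⟨e, L, hLl, hLne⟩ := Nat.find_spec hex
  have hmin : ∀ (e' : Fin m → Fin B) (L' : List (Fin m)), L'.length < L.length →
      pdL L' F (ip (g e')) = 0 := by
    intro e' L' hlt
    by_contra hne
    have h1 := Nat.find_min hex (m := L'.length) (by rw [← hLl]; exact hlt)
    exact h1 ⟨e', L', rfl, hne⟩
  obtain ⟨i, hi, hiL⟩ := exists_max_count hm L
  -- the largest multiplicity is at least `τ`
  have hcount : τ ≤ L.count i := by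
    by_contra hlt
    push Not at hlt
    have h1 := pdL_perm hFan (perm_lst L) (ip (g e)) (hgball e)
    have h2 := nopM_dot hz (lst fun i => L.count i) P (ip (g e)) (hgball e)
    have h3 : dot (nopM T A (lst fun i => L.count i) P) z (ip (g e)) = 0 := by
      have h4 := hPW (g e) (Finset.mem_image_of_mem g (Finset.mem_univ e))
        (fun i => L.count i) fun j => lt_of_le_of_lt (hi j) hlt
      have h5 : ∑ k, ((MvPolynomial.eval (fun i => ((g e i : ℤ) : ℚ))
          (nopM T A (lst fun i => L.count i) P k) : ℚ) : ℂ) * z (ip (g e)) k = 0 := h4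
      rw [dot, ← h5]
      exact Finset.sum_congr rfl fun k _ => by rw [aeval_ip]
    rw [h3] at h2
    rcases mul_eq_zero.1 h2 with h4 | h4
    · exact hgTC e (eq_zero_of_pow_eq_zero h4)
    · exact hLne (h1.trans h4)
  obtain ⟨L', hperm, hiL', hlen⟩ := perm_split L i
  set α : ℕ := L.count i with hα
  have hα1 : 1 ≤ α := by omega
  have hgan := pdL_analytic hFan L'
  set Q : ι → MvPolynomial (Fin m) ℚ := nopM T A L' P with hQ
  set c : Fin m → ℤ := Function.update (g e) i 0 with hc
  have hcb : ∀ j, |(c j : ℝ)| < R := by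
    intro j
    by_cases hj : j = i
    · rw [hc, hj, Function.update_self]
      simpa using hR
    · rw [hc, Function.update_of_ne hj]
      exact hgb e j
  have hci : c i = 0 := by rw [hc, Function.update_self]
  have hballl : ∀ x ∈ Metric.ball (0 : ℂ) R,
      Function.update (ip (g e)) i x ∈ Metric.ball (0 : Fin m → ℂ) R := by
    intro x hx
    rw [← hupd]
    exact line_mem hcb hx
  set φ : ℂ → ℂ := fun x => pdL L' F (Function.update (ip (g e)) i x) with hφ
  set h : ℂ → ℂ := fun x => ∑ k, aeval x (spec i c (Q k)) *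
    z (Function.update (ip (g e)) i x) k with hh
  set t : ℂ → ℂ := fun x => MvPolynomial.aeval (Function.update (ip (g e)) i x) T ^ L'.length
    with ht
  have hht : ∀ x ∈ Metric.ball (0 : ℂ) R, h x = t x * φ x := by
    intro x hx
    have h1 := nopM_dot hz L' P _ (hballl x hx)
    rw [hh, ht, hφ]
    simp only
    rw [hF, h1, dot]
    refine Finset.sum_congr rfl fun k _ => ?_
    rw [spec_update hci, hc, hupd]
  -- the grid points of the line
  have hptl : ∀ e' : Fin B, ip (g (Function.update e i e')) =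
      Function.update (ip (g e)) i ((w i + ((e' : ℕ) : ℤ) : ℤ) : ℂ) := by
    intro e'
    funext j
    by_cases hj : j = i
    · subst hj
      rw [ip, Function.update_self, hg]
      simp only [Function.update_self]
    · rw [ip, Function.update_of_ne hj, ip, hg]
      simp only [Function.update_of_ne hj]
  have hself : Function.update (ip (g e)) i ((g e i : ℤ) : ℂ) = ip (g e) := by
    funext j
    by_cases hj : j = i
    · rw [hj, Function.update_self]
      rfl
    · rw [Function.update_of_ne hj]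
  have hφan : ∀ x ∈ Metric.ball (0 : ℂ) R, AnalyticAt ℂ φ x := by
    have hup : ∀ x : ℂ, AnalyticAt ℂ (fun x : ℂ => Function.update (ip (g e)) i x) x := by
      intro x
      rw [analyticAt_pi_iff]
      intro j
      by_cases hj : j = i
      · subst hj
        simp only [Function.update_self]
        exact analyticAt_id
      · simp only [Function.update_of_ne hj]
        exact analyticAt_const
    intro x hx
    exact (hgan _ (hballl x hx)).comp (hup x)
  have htan : ∀ x : ℂ, AnalyticAt ℂ t x := by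
    intro x
    have h1 : t = fun x => aeval x (spec i c T) ^ L'.length := by
      funext x
      rw [ht]
      simp only
      rw [spec_update hci, hc, hupd]
    rw [h1]
    have h2 : AnalyticOnNhd ℂ (fun s : ℂ => aeval s (spec i c T)) Set.univ :=
      DifferentiableOn.analyticOnNhd
        (fun s _ => ((spec i c T).hasDerivAt_aeval s).differentiableAt.differentiableWithinAt)
        isOpen_univ
    exact (h2 x (Set.mem_univ x)).pow _
  have hder : ∀ (n : ℕ) (x : ℂ), x ∈ Metric.ball (0 : ℂ) R → iteratedDeriv n φ x =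
      pdL (List.replicate n i ++ L') F (Function.update (ip (g e)) i x) := by
    intro n x hx
    rw [pdL_append]
    exact pdL_line hgan (ip (g e)) i n (hballl x hx)
  have hgl : ∀ e' : Fin B, ((w i + ((e' : ℕ) : ℤ) : ℤ) : ℂ) ∈ Metric.ball (0 : ℂ) R := by
    intro e'
    have h1 := hgb (Function.update e i e') i
    rw [hg] at h1
    simp only [Function.update_self] at h1
    rw [Metric.mem_ball, dist_zero_right, Complex.norm_intCast]
    exact h1
  have hφz : ∀ (e' : Fin B), ∀ j < α,
      iteratedDeriv j φ ((w i + ((e' : ℕ) : ℤ) : ℤ) : ℂ) = 0 := by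
    intro e' j hj
    rw [hder j _ (hgl e'), ← hptl]
    refine hmin _ _ ?_
    rw [List.length_append, List.length_replicate]
    omega
  have hhz : ∀ (e' : Fin B), ∀ j < α,
      iteratedDeriv j h ((w i + ((e' : ℕ) : ℤ) : ℤ) : ℂ) = 0 := by
    intro e' j hj
    set x : ℂ := ((w i + ((e' : ℕ) : ℤ) : ℤ) : ℂ) with hx
    have h1 : h =ᶠ[nhds x] fun x => t x * φ x := by
      filter_upwards [Metric.isOpen_ball.mem_nhds (hgl e')] with y hy
      exact hht y hy
    have h2 : (α : ℕ∞) ≤ analyticOrderAt φ x :=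
      (natCast_le_analyticOrderAt_iff_iteratedDeriv_eq_zero (hφan x (hgl e'))).2 (hφz e')
    have h3 : (α : ℕ∞) ≤ analyticOrderAt (fun x => t x * φ x) x := by
      have h4 : analyticOrderAt (fun x => t x * φ x) x = analyticOrderAt t x +
          analyticOrderAt φ x := analyticOrderAt_mul (htan x) (hφan x (hgl e'))
      rw [h4]
      exact h2.trans le_add_self
    rw [h1.iteratedDeriv_eq j]
    exact (natCast_le_analyticOrderAt_iff_iteratedDeriv_eq_zero
      ((htan x).mul (hφan x (hgl e')))).1 h3 j hj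
  set G : Finset ℤ := Finset.univ.image fun e' : Fin B => w i + ((e' : ℕ) : ℤ) with hGdef
  have hGcard : G.card = B := by
    rw [hGdef, Finset.card_image_of_injective, Finset.card_univ, Fintype.card_fin]
    intro x y hxy
    simp only at hxy
    exact Fin.ext (by omega)
  have hQdeg : ∀ k j, (Q k).degreeOf j ≤ M + L'.length * δ := nopM_deg hT hA hPdeg L'
  have hzero := hψ e i G α (M + L'.length * δ) (fun k => spec i c (Q k)) (fun s hs => by
      obtain ⟨e', -, rfl⟩ := Finset.mem_image.1 hs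
      have h1 := hgb (Function.update e i e') i
      have h2 := hgρ (Function.update e i e')
      rw [hptl] at h2
      rw [hg] at h1
      simp only [Function.update_self] at h1
      exact ⟨h1, h2⟩) (fun k => (spec_natDegree c (Q k)).trans (hQdeg k i))
    (fun s hs j hj => by
      obtain ⟨e', -, rfl⟩ := Finset.mem_image.1 hs
      exact hhz e' j hj) (by
      rw [hGcard, hB]
      have h1 := hψτ e i
      have h2 : L'.length ≤ (m - 1) * α := by
        have h3 : L'.length + α ≤ m * α := by rw [hlen]; exact hiL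
        have h4 : m * α = (m - 1) * α + α := by
          obtain ⟨k, rfl⟩ : ∃ k, m = k + 1 := ⟨m - 1, by omega⟩
          rw [Nat.add_sub_cancel]
          ring
        omega
      have h3 : (a - 1) * ((m * δ + 2) * τ) ≤ (a - 1) * ((m * δ + 2) * α) :=
        Nat.mul_le_mul_left _ (Nat.mul_le_mul_left _ hcount)
      have h4 : a * (m * δ + 2) * α = (a - 1) * ((m * δ + 2) * α) + (m * δ + 2) * α := by
        obtain ⟨k, hk⟩ : ∃ k, a = k + 1 := ⟨a - 1, by
          have : 0 < a := by rw [ha]; positivity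
          omega⟩
        rw [hk, Nat.add_sub_cancel]
        ring
      have h5 : L'.length * δ ≤ (m - 1) * α * δ := Nat.mul_le_mul_right _ h2
      have h6 : (m - 1) * α * δ ≤ m * δ * α := by
        calc (m - 1) * α * δ = (m - 1) * (α * δ) := by ring
          _ ≤ m * (α * δ) := Nat.mul_le_mul_right _ (Nat.sub_le m 1)
          _ = _ := by ring
      have h7 : (m * δ + 2) * α = m * δ * α + 2 * α := by ring
      have h8 : M ≤ (a - 1) * ((m * δ + 2) * α) := h3
      have h9 : 2 * (n + 1) * m * (m * δ + 2) * α = a * (m * δ + 2) * α := by rw [ha]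
      omega)
  -- the contradiction
  have hxe : ((g e i : ℤ) : ℂ) ∈ Metric.ball (0 : ℂ) R := by
    rw [Metric.mem_ball, dist_zero_right, Complex.norm_intCast]
    exact hgb e i
  have htne : t ((g e i : ℤ) : ℂ) ≠ 0 := by
    rw [ht]
    simp only
    rw [hself]
    exact pow_ne_zero _ (hgTC e)
  have hφ0 : φ =ᶠ[nhds ((g e i : ℤ) : ℂ)] fun _ => 0 := by
    have h1 : ∀ᶠ x in nhds ((g e i : ℤ) : ℂ), t x ≠ 0 :=
      (htan _).continuousAt.eventually_ne htne
    filter_upwards [h1, Metric.isOpen_ball.mem_nhds hxe] with x hx hxb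
    have h2 := hzero x hxb
    have h3 := hht x hxb
    rw [hh] at h3
    simp only at h3
    rw [h2] at h3
    rcases mul_eq_zero.1 h3.symm with h4 | h4
    · exact absurd h4 hx
    · exact h4
  have h1 := hφ0.iteratedDeriv_eq α
  rw [hder α _ hxe, hself] at h1
  have h2 : iteratedDeriv α (fun _ : ℂ => (0 : ℂ)) ((g e i : ℤ) : ℂ) = 0 := by
    rw [iteratedDeriv_const]
    split_ifs <;> rfl
  rw [h2] at h1
  exact hLne ((pdL_perm hFan hperm (ip (g e)) (hgball e)).trans h1)

end Pool.Agent.Helper79.BB
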