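import Pool.Agent.Helper79.BB.UDefs

/-!
# BB: the universal point over `κ`: definitions

The parameters are the coordinates of the numerators `∑_j y_(i,j) ω_j` of the coordinates of the point, and the common
denominator `q`.
-/

open Polynomial

namespace Pool.Agent.Helper79.BB

open Pool.Agent.Helper79.AA Pool.Agent.Helper79.GX Pool.Agent.Helper64.Per

/-- The direction `i`. -/
abbrev dirK {m : ℕ} {J : Type} (j₀ : J) (i : Fin m) : Pk m J := Sum.inl (i, j₀)

/-- The point `x_i = (∑_j y_(i,j) ω_j) / q`. -/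
noncomputable def ptK {κ : IntermediateField ℚ Qbar} {J : Type} [Fintype J] {m : ℕ} {L : Type}
    [Field L] [Algebra κ L] (ω : J → κ) (y : Pk m J → L) : Fin m → L := fun i =>
  (∑ j, y (Sum.inl (i, j)) * algebraMap κ L (ω j)) / y (Sum.inr ())

/-- The coordinates as elements of the field `k = ℚ(y)`, mapped to `L`. -/
noncomputable def yK (m : ℕ) (J k L : Type) [Field k] [Algebra (MvPolynomial (Pk m J) ℚ) k]
    [Field L] [Algebra k L] : Pk m J → L := fun p =>
  algebraMap k L (algebraMap (MvPolynomial (Pk m J) ℚ) k (MvPolynomial.X p))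

/-- `k = ℚ(y)` and `L = κ(y)`. -/
structure ModK {κ : IntermediateField ℚ Qbar} {J : Type} [Fintype J] [DecidableEq J] (ω : J → κ)
    (m : ℕ) (j₀ : J) {k L : Type} [Field k] [CharZero k]
    [Algebra (MvPolynomial (Pk m J) ℚ) k] [Field L] [CharZero L] [Algebra k L] [Algebra κ L]
    (Dk : Fin m → Derivation ℚ k k) (D : Fin m → Derivation ℚ L L) : Prop where
  frac : IsFractionRing (MvPolynomial (Pk m J) ℚ) k
  fin : FiniteDimensional k L
  der : ∀ i P, Dk i (algebraMap (MvPolynomial (Pk m J) ℚ) k P) =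
    algebraMap (MvPolynomial (Pk m J) ℚ) k (MvPolynomial.pderiv (dirK j₀ i) P)
  ext : ∀ i (c : k), D i (algebraMap k L c) = algebraMap k L (Dk i c)
  const : ∀ i (c : κ), D i (algebraMap κ L c) = 0
  ind : AlgebraicIndependent κ (yK m J k L)
  span : Submodule.span k (Set.range fun j : J => algebraMap κ L (ω j)) = ⊤

/-- The parameters of a point over `κ` as parameters with `D = 0`. -/
def embK {m : ℕ} {J : Type} : Pk m J → Px m 0 J
  | Sum.inl (i, j) => Sum.inr (Sum.inl (i, (0, j)))
  | Sum.inr _ => Sum.inr (Sum.inr ())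

end Pool.Agent.Helper79.BB
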