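import Pool.Agent.Helper79.BB.KDefs

/-!
# BB-30: the model of the universal point over `κ`

`σ = Pk m J`, `L = FractionRing (MvPolynomial σ κ)`, `k = FractionRing (MvPolynomial σ ℚ)`, with the homomorphism `k → L` induced by `MvPolynomial.map (algebraMap ℚ κ)` (injective;
`IsFractionRing.lift`), `RingHom.toAlgebra`. `yK p = X_p`.
* `D i` = extension to `L` of `pderiv (dirK j₀ i)` (a `κ`-derivation; see the lemma `mod0_frac_ext` in `AA/Mod0.lean` and `BB/Mod0.lean`: copy it), `Dk i` = the same for `k` (or the restriction of `D i`, as in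
  `AA/Mod1.lean`). `ext`: both sides are derivations of `k` with values in `L` which agree on the polynomials; or write elements of `k` as quotients (`Derivation.leibniz_div`).
* `ind`: `MvPolynomial σ κ → L` is injective, and it is `aeval (yK …)`.
* `span`, `fin`: as in `AA/Mod1.lean`/`BB/Mod1.lean`, simpler: let `A0` be the `k`-span of the `ω_j`: it is the subalgebra `k[κ]` (`ω` is a basis of `κ` over `ℚ`); it is finite over `k`, so every element of it is algebraic over `k` and
  `A0` is closed under inverses (`Subalgebra.inv_mem_of_algebraic`); it contains `κ` and the `X_p`, so all polynomials over `κ`, and all quotients, so `A0 = L`.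
-/

open Polynomial

namespace Pool.Agent.Helper79.BB

open Pool.Agent.Helper79.AA Pool.Agent.Helper79.GX Pool.Agent.Helper64.Per

/-- Extension of a derivation of a domain to its fraction field. -/
private theorem kMod_frac_ext {k A F : Type} [Field k] [CommRing A] [Field F] [Algebra k A]
    [Algebra k F] [Algebra A F] [IsScalarTower k A F] [IsDomain A] [IsFractionRing A F]
    (d : Derivation k A F) :
    ∃ D' : Derivation k F F, ∀ a, D' (algebraMap A F a) = d a := by
  have hE : Algebra.FormallyEtale A F := .of_isLocalization (nonZeroDivisors A)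
  let e := KaehlerDifferential.tensorKaehlerEquivOfFormallyEtale k A F
  let g : _ →ₗ[F] F := (LinearMap.liftBaseChange F d.liftKaehlerDifferential).comp
    e.symm.toLinearMap
  refine ⟨g.compDer (KaehlerDifferential.D k F), fun a => ?_⟩
  change LinearMap.liftBaseChange F d.liftKaehlerDifferential
      (e.symm (KaehlerDifferential.D k F _)) = _
  rw [KaehlerDifferential.tensorKaehlerEquivOfFormallyEtale_symm_D_algebraMap]
  simp

section core

variable {κ : IntermediateField ℚ Qbar} [FiniteDimensional ℚ κ] {J : Type} [Fintype J]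
    [DecidableEq J] (ω : Module.Basis J ℚ κ) {m : ℕ} (j₀ : J)
    {k : Type} [Field k] [CharZero k] [Algebra (MvPolynomial (Pk m J) ℚ) k]
    [IsFractionRing (MvPolynomial (Pk m J) ℚ) k]
    {L : Type} [Field L] [CharZero L] [Algebra κ L] [Algebra (MvPolynomial (Pk m J) κ) L]
    [IsScalarTower κ (MvPolynomial (Pk m J) κ) L] [IsFractionRing (MvPolynomial (Pk m J) κ) L]
    [Algebra k L]

private theorem kMod_exD (D : Derivation κ L L) (q : Pk m J)
    (hD : ∀ s : MvPolynomial (Pk m J) κ, D (algebraMap (MvPolynomial (Pk m J) κ) L s) =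
      algebraMap (MvPolynomial (Pk m J) κ) L (MvPolynomial.pderiv q s))
    (hk : ∀ P, algebraMap k L (algebraMap (MvPolynomial (Pk m J) ℚ) k P) =
      algebraMap (MvPolynomial (Pk m J) κ) L (MvPolynomial.map (algebraMap ℚ κ) P)) (c : k) :
    ∃ c' : k, algebraMap k L c' = D (algebraMap k L c) := by
  obtain ⟨x, z, hz, rfl⟩ := IsFractionRing.div_surjective (MvPolynomial (Pk m J) ℚ) c
  refine ⟨(algebraMap (MvPolynomial (Pk m J) ℚ) k z)⁻¹ ^ 2 *
    (algebraMap (MvPolynomial (Pk m J) ℚ) k z *
      algebraMap (MvPolynomial (Pk m J) ℚ) k (MvPolynomial.pderiv q x) -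
    algebraMap (MvPolynomial (Pk m J) ℚ) k x *
      algebraMap (MvPolynomial (Pk m J) ℚ) k (MvPolynomial.pderiv q z)), ?_⟩
  rw [map_div₀, Derivation.leibniz_div]
  simp only [map_mul, map_pow, map_inv₀, map_sub, hk, smul_eq_mul, hD, MvPolynomial.pderiv_map]

private theorem kMod_core
    (hk : ∀ P, algebraMap k L (algebraMap (MvPolynomial (Pk m J) ℚ) k P) =
      algebraMap (MvPolynomial (Pk m J) κ) L (MvPolynomial.map (algebraMap ℚ κ) P)) :
    ∃ (Dk : Fin m → Derivation ℚ k k) (D : Fin m → Derivation ℚ L L),
      ModK (fun j => ω j) m j₀ Dk D := by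
  classical
  have hDex : ∀ i : Fin m, ∃ D' : Derivation κ L L, ∀ s : MvPolynomial (Pk m J) κ,
      D' (algebraMap (MvPolynomial (Pk m J) κ) L s) =
        algebraMap (MvPolynomial (Pk m J) κ) L (MvPolynomial.pderiv (dirK j₀ i) s) := by
    intro i
    let d : Derivation κ (MvPolynomial (Pk m J) κ) L :=
      (Algebra.linearMap (MvPolynomial (Pk m J) κ) L).compDer (MvPolynomial.pderiv (dirK j₀ i))
    obtain ⟨D₀, hD₀⟩ := kMod_frac_ext d
    exact ⟨D₀, fun s => hD₀ s⟩
  choose D hD using hDex
  choose F hF using fun i => kMod_exD (D i) (dirK j₀ i) (hD i) hk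
  have hinj : Function.Injective (algebraMap k L) := (algebraMap k L).injective
  let F0 : Fin m → (k →+ k) := fun i =>
    { toFun := F i
      map_zero' := by
        apply hinj
        rw [hF]
        simp
      map_add' := fun x z => by
        apply hinj
        rw [hF, map_add, map_add, map_add, hF, hF] }
  let Dk : Fin m → Derivation ℚ k k := fun i => Derivation.mk' (F0 i).toRatLinearMap (by
    intro x z
    apply hinj
    change algebraMap k L (F i (x * z)) = algebraMap k L (x • F i z + z • F i x)
    rw [hF, map_mul, Derivation.leibniz]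
    simp only [smul_eq_mul, map_add, map_mul, hF])
  have hDk : ∀ i c, Dk i c = F i c := fun _ _ => rfl
  have hyK : yK m J k L = fun p => algebraMap (MvPolynomial (Pk m J) κ) L (MvPolynomial.X p) := by
    funext p
    change algebraMap k L (algebraMap (MvPolynomial (Pk m J) ℚ) k (MvPolynomial.X p)) = _
    rw [hk, MvPolynomial.map_X]
  have hκ : ∀ c : κ, IsAlgebraic k (algebraMap κ L c) := by
    intro c
    have h1 : IsAlgebraic ℚ c := Algebra.IsAlgebraic.isAlgebraic c
    have h2 : IsAlgebraic ℚ (algebraMap κ L c) := h1.algebraMap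
    exact h2.tower_top k
  let M0 : Submonoid L :=
    { carrier := {x | ∃ c : κ, x = algebraMap κ L c}
      one_mem' := ⟨1, by simp⟩
      mul_mem' := by
        rintro _ _ ⟨c, rfl⟩ ⟨c', rfl⟩
        exact ⟨c * c', by rw [map_mul]⟩ }
  have hM0 : ∀ c : κ, algebraMap κ L c ∈ M0 := fun c => ⟨c, rfl⟩
  set A0 : Subalgebra k L := Algebra.adjoin k (M0 : Set L) with hA0
  have hA0span : Subalgebra.toSubmodule A0 = Submodule.span k (M0 : Set L) := by
    rw [hA0, Algebra.adjoin_eq_span, Submonoid.closure_eq]
  have hA0alg : ∀ x ∈ A0, IsAlgebraic k x := by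
    intro x hx
    have h1 : A0 ≤ (algebraicClosure k L).toSubalgebra := by
      apply Algebra.adjoin_le
      rintro _ ⟨c, rfl⟩
      change _ ∈ algebraicClosure k L
      exact mem_algebraicClosure_iff.mpr (hκ c)
    exact mem_algebraicClosure_iff.mp (h1 hx)
  have hpoly : ∀ P : MvPolynomial (Pk m J) κ,
      algebraMap (MvPolynomial (Pk m J) κ) L P ∈ A0 := by
    intro P
    induction P using MvPolynomial.induction_on with
    | C c =>
      have h1 : algebraMap (MvPolynomial (Pk m J) κ) L (MvPolynomial.C c) = algebraMap κ L c :=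
        (IsScalarTower.algebraMap_apply κ (MvPolynomial (Pk m J) κ) L c).symm
      rw [h1]
      exact Algebra.subset_adjoin (hM0 c)
    | add p q hp hq => rw [map_add]; exact add_mem hp hq
    | mul_X p o hp =>
      rw [map_mul]
      refine mul_mem hp ?_
      have h1 : algebraMap (MvPolynomial (Pk m J) κ) L (MvPolynomial.X o) = yK m J k L o := by
        rw [hyK]
      rw [h1]
      exact A0.algebraMap_mem _
  have hA0top : A0 = ⊤ := by
    rw [eq_top_iff]
    intro f _
    obtain ⟨P, Q, _, rfl⟩ := IsFractionRing.div_surjective (MvPolynomial (Pk m J) κ) f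
    rw [div_eq_mul_inv]
    refine mul_mem (hpoly P) ?_
    exact Subalgebra.inv_mem_of_algebraic A0 (x := ⟨_, hpoly Q⟩) (hA0alg _ (hpoly Q))
  have hspan : Submodule.span k (Set.range fun j : J => algebraMap κ L (ω j)) = ⊤ := by
    rw [eq_top_iff, ← Algebra.top_toSubmodule, ← hA0top, hA0span, Submodule.span_le]
    rintro _ ⟨c, rfl⟩
    have h1 : algebraMap κ L c = ∑ j, (ω.repr c j) • algebraMap κ L (ω j) := by
      conv_lhs => rw [← ω.sum_repr c]
      rw [map_sum]
      apply Finset.sum_congr rfl
      intro j _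
      exact map_rat_smul (algebraMap κ L) _ _
    rw [SetLike.mem_coe, h1]
    apply Submodule.sum_mem
    intro j _
    exact Submodule.smul_of_tower_mem _ _ (Submodule.subset_span ⟨j, rfl⟩)
  refine ⟨Dk, fun i => (D i).restrictScalars ℚ, ?_⟩
  refine ⟨inferInstance, ?_, ?_, ?_, ?_, ?_, hspan⟩
  · have hfg : (⊤ : Submodule k L).FG := by
      rw [← hspan]
      exact Submodule.fg_span (Set.finite_range _)
    exact ⟨hfg⟩
  · intro i P
    apply hinj
    rw [hDk, hF, hk, hk, hD, MvPolynomial.pderiv_map]
  · intro i c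
    rw [hDk, hF]
    rfl
  · intro i c
    exact (D i).map_algebraMap c
  · rw [hyK]
    have h1 : AlgebraicIndependent κ (MvPolynomial.X : Pk m J → MvPolynomial (Pk m J) κ) :=
      MvPolynomial.algebraicIndependent_X _ _
    exact h1.map' (f := IsScalarTower.toAlgHom κ (MvPolynomial (Pk m J) κ) L)
      (IsFractionRing.injective (MvPolynomial (Pk m J) κ) L)

end core

theorem exists_modK {κ : IntermediateField ℚ Qbar} [FiniteDimensional ℚ κ] {J : Type} [Fintype J]
    [DecidableEq J] (ω : Module.Basis J ℚ κ) (m : ℕ) (j₀ : J) :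
    ∃ (k L : Type) (_ : Field k) (_ : CharZero k) (_ : Algebra (MvPolynomial (Pk m J) ℚ) k)
      (_ : Field L) (_ : CharZero L) (_ : Algebra k L) (_ : Algebra κ L)
      (Dk : Fin m → Derivation ℚ k k) (D : Fin m → Derivation ℚ L L),
      ModK (fun j => ω j) m j₀ Dk D := by
  let k := FractionRing (MvPolynomial (Pk m J) ℚ)
  let L := FractionRing (MvPolynomial (Pk m J) κ)
  have hch : CharZero L := charZero_of_injective_algebraMap (algebraMap κ L).injective
  let g : MvPolynomial (Pk m J) ℚ →+* L := (algebraMap (MvPolynomial (Pk m J) κ) L).comp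
    (MvPolynomial.map (algebraMap ℚ κ))
  have hg : Function.Injective g :=
    (IsFractionRing.injective (MvPolynomial (Pk m J) κ) L).comp
      (MvPolynomial.map_injective _ (algebraMap ℚ κ).injective)
  let φ : k →+* L := IsFractionRing.lift hg
  let _ : Algebra k L := φ.toAlgebra
  have hk : ∀ P, algebraMap k L (algebraMap (MvPolynomial (Pk m J) ℚ) k P) =
      algebraMap (MvPolynomial (Pk m J) κ) L (MvPolynomial.map (algebraMap ℚ κ) P) :=
    fun P => IsFractionRing.lift_algebraMap hg P
  obtain ⟨Dk, D, h⟩ := kMod_core ω j₀ hk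
  exact ⟨k, L, inferInstance, inferInstance, inferInstance, inferInstance, hch, inferInstance,
    inferInstance, Dk, D, h⟩

end Pool.Agent.Helper79.BB
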