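import Pool.Agent.Helper79.BB.UDefs

/-!
# BB-12: a polynomial in `m` variables as a polynomial in one variable

`tauP i : κ[X_1, …, X_m] → K_i[X]`, `K_i = κ(X_l, l ≠ i)`, see `UDefs.lean`.
* `tauP_pderiv`: `MvPolynomial.induction_on`.
* `tauP_clear`: first find a common denominator `d` of all the coefficients of the `q a` (finitely many: `IsLocalization.exist_integer_multiples_of_finite` with the index set of the pairs
  (`a`, index in the support), or induction); a polynomial `∑ C(algebraMap c_n) X^n` is
  `tauP i (∑ rename (↑) c_n * X_i^n)` (`tauP_rename`).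
* `tauP_injective`: e.g. the evaluation of `tauP i P` at the point `X_i` under the homomorphism `K_i → Frac κ[X_1, …, X_m]` induced by `rename` (injective) is `algebraMap P`
  (`tauP_aeval` with `L = FractionRing (MvPolynomial (Fin m) κ)` and the algebra structure given by `IsFractionRing.lift`).
* `tauP_aeval`: `MvPolynomial.induction_on` or `MvPolynomial.algHom_ext` (both sides are `κ`-algebra homomorphisms).
-/

open Polynomial

namespace Pool.Agent.Helper79.BB

variable {κ : Type} [Field κ] {m : ℕ} (i : Fin m)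

theorem tauP_X_self : tauP (κ := κ) i (MvPolynomial.X i) = Polynomial.X := by
  unfold tauP
  rw [MvPolynomial.aeval_X, dif_pos rfl]

theorem tauP_X_ne {l : Fin m} (h : l ≠ i) : tauP (κ := κ) i (MvPolynomial.X l) =
    Polynomial.C (algebraMap (MvPolynomial {l : Fin m // l ≠ i} κ) (Ki κ i)
      (MvPolynomial.X ⟨l, h⟩)) := by
  unfold tauP
  rw [MvPolynomial.aeval_X, dif_neg h]

theorem tauP_rename (d : MvPolynomial {l : Fin m // l ≠ i} κ) :
    tauP (κ := κ) i (MvPolynomial.rename (fun l : {l : Fin m // l ≠ i} => (l : Fin m)) d) =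
      Polynomial.C (algebraMap (MvPolynomial {l : Fin m // l ≠ i} κ) (Ki κ i) d) := by
  have h : (tauP (κ := κ) i).comp (MvPolynomial.rename (fun l : {l : Fin m // l ≠ i} => (l : Fin m))) =
      (Polynomial.CAlgHom (R := κ) (A := Ki κ i)).comp
        (IsScalarTower.toAlgHom κ (MvPolynomial {l : Fin m // l ≠ i} κ) (Ki κ i)) := by
    apply MvPolynomial.algHom_ext
    intro l
    rw [AlgHom.comp_apply, AlgHom.comp_apply, MvPolynomial.rename_X, tauP_X_ne i l.2]
    rfl
  exact DFunLike.congr_fun h d

theorem mpol_tauP_C (c : κ) : tauP (κ := κ) i (MvPolynomial.C c) =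
    Polynomial.C (algebraMap κ (Ki κ i) c) := by
  unfold tauP
  rw [MvPolynomial.aeval_C]
  rfl

theorem tauP_pderiv (P : MvPolynomial (Fin m) κ) :
    tauP i (MvPolynomial.pderiv i P) = derivative (tauP i P) := by
  induction P using MvPolynomial.induction_on with
  | C c => rw [MvPolynomial.pderiv_C, map_zero, mpol_tauP_C, derivative_C]
  | add p q hp hq => rw [map_add, map_add, map_add, derivative_add, hp, hq]
  | mul_X p n hp =>
    rw [MvPolynomial.pderiv_mul, map_add, map_mul, map_mul, hp, map_mul, derivative_mul]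
    by_cases h : n = i
    · subst h
      rw [MvPolynomial.pderiv_X_self, map_one, tauP_X_self, derivative_X]
    · rw [MvPolynomial.pderiv_X_of_ne h, map_zero, tauP_X_ne i h, derivative_C]

theorem tauP_aeval {L : Type} [Field L] [Algebra κ L] [Algebra (Ki κ i) L] {x : Fin m → L}
    (hc : ∀ c : κ, algebraMap (Ki κ i) L (algebraMap κ (Ki κ i) c) = algebraMap κ L c)
    (hx : ∀ l (h : l ≠ i), algebraMap (Ki κ i) L (algebraMap (MvPolynomial {l : Fin m // l ≠ i} κ)
      (Ki κ i) (MvPolynomial.X ⟨l, h⟩)) = x l) (P : MvPolynomial (Fin m) κ) :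
    aeval (x i) (tauP i P) = MvPolynomial.aeval x P := by
  induction P using MvPolynomial.induction_on with
  | C c => rw [mpol_tauP_C, Polynomial.aeval_C, MvPolynomial.aeval_C, hc]
  | add p q hp hq => rw [map_add, map_add, map_add, hp, hq]
  | mul_X p n hp =>
    rw [map_mul, map_mul, map_mul, hp, MvPolynomial.aeval_X]
    congr 1
    by_cases h : n = i
    · subst h
      rw [tauP_X_self, Polynomial.aeval_X]
    · rw [tauP_X_ne i h, Polynomial.aeval_C, hx]

theorem tauP_injective : Function.Injective (tauP (κ := κ) i) := by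
  classical
  let L := FractionRing (MvPolynomial (Fin m) κ)
  let g : MvPolynomial {l : Fin m // l ≠ i} κ →+* L :=
    (algebraMap (MvPolynomial (Fin m) κ) L).comp
      (MvPolynomial.rename (fun l : {l : Fin m // l ≠ i} => (l : Fin m))).toRingHom
  have hg : Function.Injective g := by
    apply (IsFractionRing.injective (MvPolynomial (Fin m) κ) L).comp
    exact MvPolynomial.rename_injective _ Subtype.val_injective
  have hgX : ∀ d, g d = algebraMap (MvPolynomial (Fin m) κ) L
      (MvPolynomial.rename (fun l : {l : Fin m // l ≠ i} => (l : Fin m)) d) := fun _ => rfl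
  letI : Algebra (Ki κ i) L := (IsFractionRing.lift (K := Ki κ i) hg).toAlgebra
  have hlift : ∀ d, algebraMap (Ki κ i) L
      (algebraMap (MvPolynomial {l : Fin m // l ≠ i} κ) (Ki κ i) d) = g d :=
    fun d => IsFractionRing.lift_algebraMap hg d
  let x : Fin m → L := fun l => algebraMap (MvPolynomial (Fin m) κ) L (MvPolynomial.X l)
  have hx : ∀ P, MvPolynomial.aeval x P = algebraMap (MvPolynomial (Fin m) κ) L P := by
    intro P
    have h : MvPolynomial.aeval x = IsScalarTower.toAlgHom κ (MvPolynomial (Fin m) κ) L := by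
      apply MvPolynomial.algHom_ext
      intro l
      rw [MvPolynomial.aeval_X]
      rfl
    rw [h]
    rfl
  have key : ∀ P, aeval (x i) (tauP i P) = algebraMap (MvPolynomial (Fin m) κ) L P := by
    intro P
    rw [tauP_aeval (x := x) i ?_ ?_ P, hx]
    · intro c
      have h1 : algebraMap κ (Ki κ i) c = algebraMap (MvPolynomial {l : Fin m // l ≠ i} κ) (Ki κ i)
          (MvPolynomial.C c) := by
        rw [← MvPolynomial.algebraMap_eq, ← IsScalarTower.algebraMap_apply]
      rw [h1, hlift, hgX, MvPolynomial.rename_C, ← MvPolynomial.algebraMap_eq,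
        ← IsScalarTower.algebraMap_apply]
    · intro l h
      rw [hlift, hgX, MvPolynomial.rename_X]
  intro P Q h
  apply IsFractionRing.injective (MvPolynomial (Fin m) κ) L
  rw [← key, ← key, h]

theorem mpol_clear_one (q : (Ki κ i)[X]) :
    ∃ d : MvPolynomial {l : Fin m // l ≠ i} κ, d ≠ 0 ∧ ∃ Q : MvPolynomial (Fin m) κ,
      tauP i Q =
        Polynomial.C (algebraMap (MvPolynomial {l : Fin m // l ≠ i} κ) (Ki κ i) d) * q := by
  induction q using Polynomial.induction_on' with
  | add p q hp hq =>
    obtain ⟨d, hd, P, hP⟩ := hp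
    obtain ⟨e, he, Q, hQ⟩ := hq
    refine ⟨d * e, mul_ne_zero hd he,
      MvPolynomial.rename (fun l : {l : Fin m // l ≠ i} => (l : Fin m)) e * P +
      MvPolynomial.rename (fun l : {l : Fin m // l ≠ i} => (l : Fin m)) d * Q, ?_⟩
    rw [map_add, map_mul, map_mul, tauP_rename, tauP_rename, hP, hQ, map_mul, map_mul]
    ring
  | monomial n c =>
    obtain ⟨a, b, hb, rfl⟩ := IsFractionRing.div_surjective
      (A := MvPolynomial {l : Fin m // l ≠ i} κ) c
    have hb0 : b ≠ 0 := nonZeroDivisors.ne_zero hb
    refine ⟨b, hb0, MvPolynomial.rename (fun l : {l : Fin m // l ≠ i} => (l : Fin m)) a *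
      MvPolynomial.X i ^ n, ?_⟩
    have hb1 : algebraMap (MvPolynomial {l : Fin m // l ≠ i} κ) (Ki κ i) b ≠ 0 :=
      IsFractionRing.to_map_ne_zero_of_mem_nonZeroDivisors hb
    rw [map_mul, map_pow, tauP_rename, tauP_X_self, ← Polynomial.C_mul_X_pow_eq_monomial,
      ← mul_assoc, ← Polynomial.C_mul, mul_div_cancel₀ _ hb1]

theorem tauP_clear {α : Type} [Finite α] (q : α → (Ki κ i)[X]) :
    ∃ d : MvPolynomial {l : Fin m // l ≠ i} κ, d ≠ 0 ∧ ∃ Q : α → MvPolynomial (Fin m) κ,
      ∀ a, tauP i (Q a) =
        Polynomial.C (algebraMap (MvPolynomial {l : Fin m // l ≠ i} κ) (Ki κ i) d) * q a := by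
  classical
  haveI := Fintype.ofFinite α
  choose d hd Q hQ using fun a => mpol_clear_one i (q a)
  refine ⟨∏ a, d a, Finset.prod_ne_zero_iff.2 fun a _ => hd a, fun a =>
    MvPolynomial.rename (fun l : {l : Fin m // l ≠ i} => (l : Fin m))
      (∏ b ∈ Finset.univ.erase a, d b) * Q a, fun a => ?_⟩
  rw [map_mul, tauP_rename, hQ, ← Finset.mul_prod_erase Finset.univ d (Finset.mem_univ a),
    map_mul, map_mul]
  ring

end Pool.Agent.Helper79.BB
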