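import Pool.Agent.Helper79.BB.ConvF
import Pool.Agent.Helper79.BB.ConvS
import Pool.Agent.Helper79.AA.Main2

/-!
# BB: the restrictions of the Gauss-Manin connections to the lines are tame (assembly, helper79)
-/

open Polynomial

namespace Pool.Agent.Helper79.BB

open Pool.Agent.Helper79.GX Pool.Agent.Helper64.Per Pool.Agent.Helper79.GA Pool.Agent.Helper79.CU
  Pool.Agent.Helper79.AA

theorem wm_mapM {R S : Type} [CommRing R] [CommRing S] {μ : ℕ} {ι : Type} [DecidableEq ι]
    (φ : R →+* S) (B : Matrix (Fin μ × ι) (Fin μ × ι) R) : (wm B).map φ = wm (B.map φ) := by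
  ext i j
  rcases i with _ | p <;> rcases j with _ | q
  · exact map_zero φ
  · exact map_zero φ
  · exact map_zero φ
  · rw [Matrix.map_apply]
    change φ (if p.2 = q.2 then B p.1 q.1 else 0) = if p.2 = q.2 then φ (B p.1 q.1) else 0
    split_ifs
    · rfl
    · exact map_zero φ

theorem fam_tame {κ : IntermediateField ℚ Qbar} {m : ℕ} (F : FamiliesM κ m) {μ r : ℕ} {ι : Type}
    [Fintype ι] [DecidableEq ι] (E : F.Sub μ r ι) (e : ℕ) (i : Fin m) :
    ∃ (K : Type) (_ : Field K) (_ : CharZero K) (_ : Algebra (Ki κ i) K) (u : K)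
      (Du : Derivation ℚ K K), RatX (Ki κ i) u Du ∧
        TameM Du (fun r r' => aeval u (tauP i (tens e (wm (SubTensorM.B E i)) r r')) /
          aeval u (tauP i F.T)) := by
  have hT' : tauP i F.T ≠ 0 := fun h0 => F.T_ne (tauP_injective i (by rw [h0, map_zero]))
  have hconv := fun s => conv_forms (F.Φ s) i
  choose alg Ψ hΨ using hconv
  have hch : CharZero (Ki κ i) := inferInstance
  have h1 := tame_fam (κ := Ki κ i) (L := F.L) (T := tauP i F.T) hT' Ψ
  have h2 : Matrix.blockDiagonal' (fun s => (Ψ s).A) = (F.A i).map (tauP i) := by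
    have h3 : (fun s => (Ψ s).A) = fun s => ((F.Φ s).A i).map (tauP i) := funext hΨ
    rw [h3]
    exact (Matrix.blockDiagonal'_map _ _ (map_zero _)).symm
  rw [h2] at h1
  obtain ⟨E', hE'⟩ := conv_sub (show SubTensorM F.T F.A μ r ι from E) i
  obtain ⟨K, _, _, _, u, Du, hu, hta⟩ := sub_tame hT' h1 E'
  have htw := tame_words hu hta e
  refine ⟨K, inferInstance, inferInstance, inferInstance, u, Du, hu, ?_⟩
  have h4 : tens e (wm E'.B) = (tens e (wm (SubTensorM.B E i))).map (tauP i) := by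
    rw [hE']
    have h5 := wm_mapM ((tauP i : MvPolynomial (Fin m) κ →ₐ[κ] (Ki κ i)[X]) :
      MvPolynomial (Fin m) κ →+* (Ki κ i)[X]) (SubTensorM.B E i)
    have h6 := tens_map ((tauP i : MvPolynomial (Fin m) κ →ₐ[κ] (Ki κ i)[X]) :
      MvPolynomial (Fin m) κ →+* (Ki κ i)[X]) e (wm (SubTensorM.B E i))
    rw [h5] at h6
    exact h6.symm
  rw [h4] at htw
  exact htw

end Pool.Agent.Helper79.BB
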