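import Pool.Agent.Helper79.BB.Pd
import Pool.Agent.Helper79.AA.Words

/-!
# BB-21: words and sub-connections in several variables

* `words_analyticM`: as `words_analytic` in `AA/Words.lean`.
* `words_odeM`: restrict to the line through `t` in the direction `s`: the functions `x ↦ w (update t s x)`, `x ↦ P (update t s x)`; `pd_line`: the derivative at `x = t s` is `pd s _ t`.
  Apply `tens_ode` of `CU/TensOde.lean` (pointwise at `x = t s`) as in `words_ode` in `AA/Words.lean`.
* `sub_odeM`: as `sub_ode` in `CU/TensOde.lean` (again `tens_ode` for the restriction of `V` to the line, and the product rule; `pd_aeval` for the polynomials), from `E.stable`.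
  The differentiability: `AnalyticAt.differentiableAt`, sums and products.
-/

open Polynomial

namespace Pool.Agent.Helper79.BB

open Pool.Agent.Helper79.AA Pool.Agent.Helper79.GX Pool.Agent.Helper79.CU Pool.Agent.Helper79.GA
  Pool.Agent.Helper64.Per

variable {κ : IntermediateField ℚ Qbar} {m μ : ℕ} {ι : Type} [Fintype ι] [DecidableEq ι]
  {U : Set (Fin m → ℂ)} (hU : IsOpen U) {w : (Fin m → ℂ) → ℂ} (hw : AnalyticOnNhd ℂ w U)
  {P : (Fin m → ℂ) → Matrix ι ι ℂ} (hP : ∀ i j, AnalyticOnNhd ℂ (fun t => P t i j) U)

omit [Fintype ι] in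
private lemma wordsM_wm_map {R S : Type} [CommRing R] [CommRing S] (φ : R →+* S)
    (B : Matrix (Fin μ × ι) (Fin μ × ι) R) : (wm B).map φ = wm (B.map φ) := by
  ext i j
  rcases i with _ | p <;> rcases j with _ | q
  · exact map_zero φ
  · exact map_zero φ
  · exact map_zero φ
  · rw [Matrix.map_apply]
    change φ (if p.2 = q.2 then B p.1 q.1 else 0) = if p.2 = q.2 then φ (B p.1 q.1) else 0
    split_ifs
    · rfl
    · exact map_zero φ

private lemma wordsM_wm_sum {R : Type} [CommRing R] (B : Matrix (Fin μ × ι) (Fin μ × ι) R)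
    (p : (Fin μ × ι) × ι) (f : (Fin μ × ι) × ι → R) :
    ∑ r, (if p.2 = r.2 then B p.1 r.1 else 0) * f r = ∑ r, B p.1 r * f (r, p.2) := by
  rw [Fintype.sum_prod_type]
  refine Finset.sum_congr rfl fun r _ => ?_
  rw [Finset.sum_eq_single p.2]
  · rw [if_pos rfl]
  · intro b _ hb
    rw [if_neg (Ne.symm hb), zero_mul]
  · intro h
    exact absurd (Finset.mem_univ _) h

/-- The derivative along the line through `t` in the direction `s`. -/
private lemma wordsM_line {f : (Fin m → ℂ) → ℂ} {t : Fin m → ℂ} (s : Fin m)
    (hf : DifferentiableAt ℂ f t) :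
    HasDerivAt (fun x : ℂ => f (Function.update t s x)) (pd s f t) (t s) := by
  have hup : Function.update t s (t s) = t := Function.update_eq_self s t
  have h := pd_line (f := f) (u := t) (i := s) (s := t s) (by rw [hup]; exact hf)
  rw [hup] at h
  exact h

include hw hP in
private lemma wordsM_lt (i : Al μ ι) : AnalyticOnNhd ℂ (fun t => lt (w t) (P t) i) U := by
  rcases i with _ | p
  · exact analyticOnNhd_const
  · exact fun x hx => ((hw x hx).fun_pow _).fun_mul (hP _ _ x hx)

include hw hP in
theorem words_analyticM (e : ℕ) (α : Fin e → Al μ ι) :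
    AnalyticOnNhd ℂ (fun t => wd e (w t) (P t) α) U := by
  unfold wd
  exact Finset.analyticOnNhd_fun_prod _ fun j _ => wordsM_lt hw hP (α j)

include hU hw hP in
theorem words_odeM {T : MvPolynomial (Fin m) κ}
    {B : Matrix (Fin μ × ι) (Fin μ × ι) (MvPolynomial (Fin m) κ)} (s : Fin m)
    (hode : ∀ t ∈ U, ∀ (p : Fin μ × ι) (k : ι),
      MvPolynomial.aeval t T * pd s (fun t => w t ^ (p.1 : ℕ) * P t p.2 k) t =
        ∑ q, MvPolynomial.aeval t (B p q) * (w t ^ (q.1 : ℕ) * P t q.2 k)) (e : ℕ)
    (α : Fin e → Al μ ι) {t : Fin m → ℂ} (ht : t ∈ U) :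
    MvPolynomial.aeval t T * pd s (fun t => wd e (w t) (P t) α) t =
      ∑ α', MvPolynomial.aeval t (tens e (wm B) α α') * wd e (w t) (P t) α' := by
  set φ : MvPolynomial (Fin m) κ →+* ℂ :=
    (MvPolynomial.aeval t : MvPolynomial (Fin m) κ →ₐ[κ] ℂ).toRingHom with hφ
  have hup : Function.update t s (t s) = t := Function.update_eq_self s t
  have h1 := (tens_ode (γ := Unit)
    (V := fun x => fun i (_ : Unit) => lt (w (Function.update t s x)) (P (Function.update t s x)) i)
    (t := t s) (T := MvPolynomial.aeval t T) (A := (wm B).map φ)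
    (fun i _ => (wordsM_line s (f := fun t => lt (w t) (P t) i)
      (wordsM_lt hw hP i t ht).differentiableAt).differentiableAt) (fun i _ => ?_) e α
    (fun _ => ())).2
  · rw [← tens_map] at h1
    have h2 := (wordsM_line s (f := fun t => wd e (w t) (P t) α)
      (words_analyticM hw hP e α t ht).differentiableAt).deriv
    rw [← h2]
    refine h1.trans ?_
    refine Finset.sum_congr rfl fun α' _ => ?_
    change φ (tens e (wm B) α α') * wd e (w (Function.update t s (t s)))
      (P (Function.update t s (t s))) α' = φ (tens e (wm B) α α') * wd e (w t) (P t) α'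
    rw [hup]
  · rcases i with _ | p
    · have e1 : (fun x : ℂ => lt (w (Function.update t s x)) (P (Function.update t s x))
        (none : Al μ ι)) = fun _ => (1 : ℂ) := rfl
      rw [e1, deriv_const, mul_zero]
      symm
      refine Finset.sum_eq_zero fun l _ => ?_
      have e2 : (wm B).map φ none l = 0 := map_zero φ
      rw [e2, zero_mul]
    · have e1 := (wordsM_line s (f := fun t => lt (w t) (P t) (some p))
        (wordsM_lt hw hP (some p) t ht).differentiableAt).deriv
      have e3 : (fun t => lt (w t) (P t) (some p)) = fun t => w t ^ (p.1.1 : ℕ) * P t p.1.2 p.2 :=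
        rfl
      rw [e1, e3, hode t ht p.1 p.2, wordsM_wm_map, Fintype.sum_option]
      have e2 : wm (B.map φ) (some p) none = 0 := rfl
      rw [e2, zero_mul, zero_add, hup]
      exact (wordsM_wm_sum (B.map φ) p (fun r => lt (w t) (P t) (some r))).symm

theorem sub_odeM {ι₀ : Type} [Fintype ι₀] [DecidableEq ι₀] {T : MvPolynomial (Fin m) κ}
    {A : Fin m → Matrix ι₀ ι₀ (MvPolynomial (Fin m) κ)} {r : ℕ} (E : SubTensorM T A μ r ι)
    {g : ℕ} {V : (Fin m → ℂ) → Matrix ι₀ (Fin g) ℂ} (hV : IsSolutionM T A U V)
    (c : Matrix (Fin r → Fin g) ι ℂ) {t : Fin m → ℂ} (ht : t ∈ U) (p : Fin μ × ι) (b : ι) :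
    AnalyticAt ℂ (fun t => ∑ I, MvPolynomial.aeval t (E.M p I) * (tpow r (V t) * c) I b) t ∧
    ∀ s, MvPolynomial.aeval t T *
        pd s (fun t => ∑ I, MvPolynomial.aeval t (E.M p I) * (tpow r (V t) * c) I b) t =
      ∑ q, MvPolynomial.aeval t (E.B s p q) *
        ∑ I, MvPolynomial.aeval t (E.M q I) * (tpow r (V t) * c) I b := by
  classical
  have hVa : ∀ i j, AnalyticAt ℂ (fun t => V t i j) t := fun i j => hV.1 i j t ht
  have htp : ∀ I J, AnalyticAt ℂ (fun t => tpow r (V t) I J) t := by
    intro I J
    unfold tpow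
    exact Finset.analyticAt_fun_prod _ fun j _ => hVa _ _
  have hmc : ∀ I, AnalyticAt ℂ (fun t => (tpow r (V t) * c) I b) t := by
    intro I
    have h1 : (fun t => (tpow r (V t) * c) I b) = fun t => ∑ J, tpow r (V t) I J * c J b := by
      funext t
      rw [Matrix.mul_apply]
    rw [h1]
    exact Finset.analyticAt_fun_sum _ fun J _ => (htp I J).fun_mul analyticAt_const
  have hF : AnalyticAt ℂ
      (fun t => ∑ I, MvPolynomial.aeval t (E.M p I) * (tpow r (V t) * c) I b) t :=
    Finset.analyticAt_fun_sum _ fun I _ => (analytic_aeval _ _).fun_mul (hmc I)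
  refine ⟨hF, fun s => ?_⟩
  set φ : MvPolynomial (Fin m) κ →+* ℂ :=
    (MvPolynomial.aeval t : MvPolynomial (Fin m) κ →ₐ[κ] ℂ).toRingHom with hφ
  have hφa : ∀ x : MvPolynomial (Fin m) κ, φ x = MvPolynomial.aeval t x := fun _ => rfl
  have hup : Function.update t s (t s) = t := Function.update_eq_self s t
  have hd : ∀ i k, DifferentiableAt ℂ (fun x : ℂ => V (Function.update t s x) i k) (t s) :=
    fun i k => (wordsM_line s (f := fun t => V t i k) (hVa i k).differentiableAt).differentiableAt
  have ho : ∀ I J, MvPolynomial.aeval t T * pd s (fun t => tpow r (V t) I J) t =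
      ∑ K, φ (tens r (A s) I K) * tpow r (V t) K J := by
    intro I J
    have h1 := (tens_ode (V := fun x : ℂ => V (Function.update t s x)) (t := t s)
      (T := MvPolynomial.aeval t T) (A := (A s).map φ) hd (fun i k => ?_) r I J).2
    · rw [← tens_map] at h1
      have h2 := (wordsM_line s (f := fun t => tpow r (V t) I J)
        (htp I J).differentiableAt).deriv
      rw [← h2]
      refine h1.trans ?_
      refine Finset.sum_congr rfl fun K _ => ?_
      rw [hup, Matrix.map_apply]
    · have h2 := (wordsM_line s (f := fun t => V t i k) (hVa i k).differentiableAt).deriv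
      rw [h2, hV.2 t ht s i k, hup]
      rfl
  have hW : ∀ I, pd s (fun t => (tpow r (V t) * c) I b) t =
      ∑ J, pd s (fun t => tpow r (V t) I J) t * c J b := by
    intro I
    have h1 : (fun t => (tpow r (V t) * c) I b) = fun t => ∑ J, tpow r (V t) I J * c J b := by
      funext t
      rw [Matrix.mul_apply]
    have h2 := (wordsM_line s (f := fun t => (tpow r (V t) * c) I b)
      (hmc I).differentiableAt)
    have h3 : HasDerivAt (fun x : ℂ => (tpow r (V (Function.update t s x)) * c) I b)
        (∑ J, pd s (fun t => tpow r (V t) I J) t * c J b) (t s) := by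
      have h4 : (fun x : ℂ => (tpow r (V (Function.update t s x)) * c) I b) =
          fun x => ∑ J, tpow r (V (Function.update t s x)) I J * c J b := by
        funext x
        rw [Matrix.mul_apply]
      rw [h4]
      exact HasDerivAt.fun_sum fun J _ => (wordsM_line s (f := fun t => tpow r (V t) I J)
        (htp I J).differentiableAt).mul_const _
    exact h2.unique h3
  have hWT : ∀ I, MvPolynomial.aeval t T * pd s (fun t => (tpow r (V t) * c) I b) t =
      ∑ K, φ (tens r (A s) I K) * (tpow r (V t) * c) K b := by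
    intro I
    rw [hW I, Finset.mul_sum]
    have e1 : ∀ J, MvPolynomial.aeval t T * (pd s (fun t => tpow r (V t) I J) t * c J b) =
        ∑ K, φ (tens r (A s) I K) * (tpow r (V t) K J * c J b) := by
      intro J
      rw [← mul_assoc, ho I J, Finset.sum_mul]
      refine Finset.sum_congr rfl fun K _ => ?_
      ring
    rw [Finset.sum_congr rfl fun J _ => e1 J, Finset.sum_comm]
    refine Finset.sum_congr rfl fun K _ => ?_
    rw [Matrix.mul_apply, Finset.mul_sum]
  have hD : pd s (fun t => ∑ I, MvPolynomial.aeval t (E.M p I) * (tpow r (V t) * c) I b) t =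
      ∑ I, (MvPolynomial.aeval t (MvPolynomial.pderiv s (E.M p I)) * (tpow r (V t) * c) I b +
        MvPolynomial.aeval t (E.M p I) * pd s (fun t => (tpow r (V t) * c) I b) t) := by
    have h2 := wordsM_line s hF.differentiableAt
    have h3 : HasDerivAt (fun x : ℂ => ∑ I, MvPolynomial.aeval (Function.update t s x) (E.M p I) *
        (tpow r (V (Function.update t s x)) * c) I b)
        (∑ I, (MvPolynomial.aeval t (MvPolynomial.pderiv s (E.M p I)) * (tpow r (V t) * c) I b +
        MvPolynomial.aeval t (E.M p I) * pd s (fun t => (tpow r (V t) * c) I b) t)) (t s) := by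
      refine HasDerivAt.fun_sum fun I _ => ?_
      have h4 := wordsM_line s (f := fun t => MvPolynomial.aeval t (E.M p I))
        (analytic_aeval (E.M p I) t).differentiableAt
      have h5 := wordsM_line s (f := fun t => (tpow r (V t) * c) I b)
        (hmc I).differentiableAt
      have h6 := h4.fun_mul h5
      rw [hup, pd_aeval] at h6
      exact h6
    exact h2.unique h3
  rw [hD, Finset.mul_sum]
  have e2 : ∀ I, MvPolynomial.aeval t T *
        (MvPolynomial.aeval t (MvPolynomial.pderiv s (E.M p I)) * (tpow r (V t) * c) I b +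
        MvPolynomial.aeval t (E.M p I) * pd s (fun t => (tpow r (V t) * c) I b) t) =
      φ (T * MvPolynomial.pderiv s (E.M p I)) * (tpow r (V t) * c) I b +
        ∑ K, φ (E.M p I * tens r (A s) I K) * (tpow r (V t) * c) K b := by
    intro I
    rw [mul_add, mul_left_comm (MvPolynomial.aeval t T) (MvPolynomial.aeval t (E.M p I)), hWT I,
      Finset.mul_sum, map_mul, hφa, hφa, mul_assoc]
    congr 1
    refine Finset.sum_congr rfl fun K _ => ?_
    rw [map_mul, hφa (E.M p I), mul_assoc]
  rw [Finset.sum_congr rfl fun I _ => e2 I, Finset.sum_add_distrib, Finset.sum_comm,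
    ← Finset.sum_add_distrib]
  have e3 : ∀ K, φ (T * MvPolynomial.pderiv s (E.M p K)) * (tpow r (V t) * c) K b +
      ∑ I, φ (E.M p I * tens r (A s) I K) * (tpow r (V t) * c) K b =
      ∑ q, φ (E.B s p q * E.M q K) * (tpow r (V t) * c) K b := by
    intro K
    rw [← Finset.sum_mul, ← Finset.sum_mul, ← add_mul, ← map_sum, ← map_sum, ← map_add]
    congr 2
    have h1 := E.stable s p K
    rw [Matrix.mul_apply, Matrix.mul_apply] at h1
    exact h1
  rw [Finset.sum_congr rfl fun K _ => e3 K, Finset.sum_comm]
  refine Finset.sum_congr rfl fun q _ => ?_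
  rw [Finset.mul_sum]
  refine Finset.sum_congr rfl fun K _ => ?_
  rw [map_mul, hφa, hφa, mul_assoc]

end Pool.Agent.Helper79.BB
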