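import Pool.Agent.Helper79.BB.CountMain3
import Pool.Agent.Helper79.BB.CountK
import Pool.Agent.Helper79.BB.TameI
import Pool.Agent.Helper79.BB.Words
import Pool.Agent.Helper79.BB.RelK

/-!
# BB: assembly (helper79)
-/

open Polynomial

namespace Pool.Agent.Helper79.BB

open Pool.Agent.Helper79.GX Pool.Agent.Helper64.Per Pool.Agent.Helper79.GA Pool.Agent.Helper79.CU
  Pool.Agent.Helper79.AA

theorem deep_sub {κ : IntermediateField ℚ Qbar} {m : ℕ} {T : MvPolynomial (Fin m) κ}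
    {U V : Set (Fin m → ℂ)} (hV : Deep T U V) : V ⊆ U := by
  obtain ⟨N, c, hc, h⟩ := hV
  intro x hx
  refine h x hx x ?_
  rw [sub_self, norm_zero, zero_mul]
  positivity

/-- Compact subsets are deep. -/
theorem deep_compact {κ : IntermediateField ℚ Qbar} {m : ℕ} (T : MvPolynomial (Fin m) κ)
    {U V : Set (Fin m → ℂ)} (hU : IsOpen U) (hV : IsCompact V) (hVU : V ⊆ U) : Deep T U V := by
  obtain ⟨δ, hδ, h⟩ := hV.exists_thickening_subset_open hU hVU
  refine ⟨0, δ / 2, by positivity, fun x hx y hy => h ?_⟩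
  rw [pow_zero, pow_zero, mul_one, mul_one] at hy
  rw [Metric.mem_thickening_iff]
  exact ⟨x, hx, by rw [dist_eq_norm]; linarith⟩

section

variable {κ : IntermediateField ℚ Qbar} {m : ℕ} {F : FamiliesM κ m} {μ r : ℕ} {ι : Type}
  [Fintype ι] [DecidableEq ι] (E : F.Sub μ r ι) {U : Set (Fin m → ℂ)} (hU : IsOpen U)
  {w : (Fin m → ℂ) → ℂ} (hw : IsBranchM κ U μ w) {P : (Fin m → ℂ) → Matrix ι ι ℂ}
  (hP : E.IsPeriod U w P)

include hU hw hP in
/-- The words in the entries of the period matrix satisfy the system of the words. -/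
theorem words_sys (hμ : 0 < μ) (e : ℕ) :
    (∀ α : Fin e → Al μ ι, AnalyticOnNhd ℂ (fun t => wd e (w t) (P t) α) U) ∧
    ∀ t ∈ U, ∀ s (α : Fin e → Al μ ι),
      MvPolynomial.aeval t F.T * pd s (fun t => wd e (w t) (P t) α) t =
      ∑ α', MvPolynomial.aeval t (tens e (wm (SubTensorM.B E s)) α α') * wd e (w t) (P t) α' := by
  classical
  obtain ⟨g', Vs, cc, hVs, hPV⟩ := hP
  -- the functions `W = M V^{⊗ r} c`
  set W : (Fin m → ℂ) → Matrix (Fin μ × ι) ι ℂ := fun t p k =>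
    ∑ I, MvPolynomial.aeval t (SubTensorM.M E p I) * (tpow r (Vs t) * cc) I k with hW
  have hWP : ∀ t ∈ U, ∀ (l : Fin μ) (x y : ι), w t ^ (l : ℕ) * P t x y = W t (l, x) y := hPV
  have hWode : ∀ t ∈ U, ∀ p k, AnalyticAt ℂ (fun t => W t p k) t ∧
      ∀ s, MvPolynomial.aeval t F.T * pd s (fun t => W t p k) t =
        ∑ q, MvPolynomial.aeval t (SubTensorM.B E s p q) * W t q k := by
    intro t ht p k
    exact sub_odeM E hVs cc ht p k
  have hPan : ∀ x y, AnalyticOnNhd ℂ (fun t => P t x y) U := by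
    intro x y t ht
    have h1 : (fun t => W t (⟨0, by omega⟩, x) y) =ᶠ[nhds t] fun t => P t x y := by
      filter_upwards [hU.mem_nhds ht] with z hz
      have := hWP z hz ⟨0, by omega⟩ x y
      rw [pow_zero, one_mul] at this
      exact this.symm
    exact ((hWode t ht _ _).1).congr h1
  have hode : ∀ s, ∀ t ∈ U, ∀ (p : Fin μ × ι) (k : ι),
      MvPolynomial.aeval t F.T * pd s (fun t => w t ^ (p.1 : ℕ) * P t p.2 k) t =
        ∑ q, MvPolynomial.aeval t (SubTensorM.B E s p q) * (w t ^ (q.1 : ℕ) * P t q.2 k) := by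
    intro s t ht p k
    have h1 : (fun t => w t ^ (p.1 : ℕ) * P t p.2 k) =ᶠ[nhds t] fun t => W t p k := by
      filter_upwards [hU.mem_nhds ht] with z hz
      exact hWP z hz p.1 p.2 k
    rw [pd_congr h1, (hWode t ht p k).2 s]
    exact Finset.sum_congr rfl fun q _ => by rw [← hWP t ht q.1 q.2 k]
  exact ⟨fun α => words_analyticM hw.analytic hPan e α,
    fun t ht s α => words_odeM hU hw.analytic hPan s (hode s) e α ht⟩

variable [FiniteDimensional ℚ κ] [Nonempty ι] (hm : 1 ≤ m) (hU' : IsPreconnected U)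
  (hdet : ∀ t ∈ U, IsUnit (P t).det) {V : Set (Fin m → ℂ)} (hV : Deep F.T U V) {J : Type}
  [Fintype J] (ω : Module.Basis J ℚ κ) (δ : ℕ)

include hU hw hP hm hU' hdet hV

/-- The theorem on the points of bounded degree. -/
theorem mainM {D : ℕ} (hD : 1 ≤ D) :
    PS (Fintype.card (Px m D J)) fun X => ((RelPointM ω U V w P δ D X).ncard : ℝ) := by
  classical
  have hVU := deep_sub hV
  obtain ⟨f, hf⟩ := hw.eqn
  rcases U.eq_empty_or_nonempty with hUe | ⟨t₁, ht₁⟩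
  · refine PS.mono PS.zero fun X _ => ?_
    have : RelPointM ω U V w P δ D X = ∅ := by
      rw [Set.eq_empty_iff_forall_notMem]
      rintro a ⟨_, _, θ, _, h2, _⟩
      have h3 := hVU h2
      rw [hUe] at h3
      exact h3
    rw [this, Set.ncard_empty, Nat.cast_zero]
  have hμ : 0 < μ := by
    rcases Nat.eq_zero_or_pos μ with h0 | h0
    · subst h0
      have h1 := hf _ ht₁
      simp at h1
    · exact h0
  obtain ⟨hzan, hzode⟩ := words_sys E hU hw hP hμ (δ + 1)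
  have hJ : Nonempty J := ω.index_nonempty
  obtain ⟨j₀⟩ := hJ
  obtain ⟨𝔇⟩ := exists_uniM ω (m := m) hD j₀ F.T_ne
    (A := fun i => tens (δ + 1) (wm (SubTensorM.B E i))) fun i => fam_tame F E (δ + 1) i
  have hmain := count_main ω F.T_ne 𝔇 hU hU' hzan hzode hm hD hV
  refine hmain.mono fun X _ => ?_
  have hfin : {a : Px m D J → ℤ | (∀ p, |a p| ≤ X) ∧
      a (Sum.inr (Sum.inr ())) ≠ 0 ∧ ∃ θ : ℂ, FvM (fun j => ω j) (fun p => (a p : ℂ)) θ = 0 ∧
      ptM (fun j => ω j) (fun p => (a p : ℂ)) θ ∈ V ∧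
      KBadM κ U (fun t => wd (μ := μ) (δ + 1) (w t) (P t))
        (ptM (fun j => ω j) (fun p => (a p : ℂ)) θ)}.Finite :=
    (box_card X _ fun a ha => ha.1).1
  have hsub : RelPointM ω U V w P δ D X ⊆ {a : Px m D J → ℤ | (∀ p, |a p| ≤ X) ∧
      a (Sum.inr (Sum.inr ())) ≠ 0 ∧ ∃ θ : ℂ, FvM (fun j => ω j) (fun p => (a p : ℂ)) θ = 0 ∧
      ptM (fun j => ω j) (fun p => (a p : ℂ)) θ ∈ V ∧
      KBadM κ U (fun t => wd (μ := μ) (δ + 1) (w t) (P t))
        (ptM (fun j => ω j) (fun p => (a p : ℂ)) θ)} := by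
    rintro a ⟨ha, hq, θ, hθ, hθV, hrel⟩
    exact ⟨ha, hq, θ, hθ, hθV,
      kbadM_of_rel hf (hVU hθV) (hdet _ (hVU hθV)) hrel⟩
  exact_mod_cast Set.ncard_le_ncard hsub hfin

/-- The theorem on the points over `κ`. -/
theorem mainK : PS (Fintype.card (Pk m J)) fun X =>
    ((RelPointK ω U V w P δ X).ncard : ℝ) := by
  classical
  have hVU := deep_sub hV
  obtain ⟨f, hf⟩ := hw.eqn
  rcases U.eq_empty_or_nonempty with hUe | ⟨t₁, ht₁⟩
  · refine PS.mono PS.zero fun X _ => ?_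
    have : RelPointK ω U V w P δ X = ∅ := by
      rw [Set.eq_empty_iff_forall_notMem]
      rintro a ⟨_, _, h2, _⟩
      have h3 := hVU h2
      rw [hUe] at h3
      exact h3
    rw [this, Set.ncard_empty, Nat.cast_zero]
  have hμ : 0 < μ := by
    rcases Nat.eq_zero_or_pos μ with h0 | h0
    · subst h0
      have h1 := hf _ ht₁
      simp at h1
    · exact h0
  obtain ⟨hzan, hzode⟩ := words_sys E hU hw hP hμ (δ + 1)
  have hJ : Nonempty J := ω.index_nonempty
  obtain ⟨j₀⟩ := hJ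
  obtain ⟨𝔇, Θ', hΘ0, hΘ⟩ := exists_uniK ω (m := m) j₀ F.T_ne
    (A := fun i => tens (δ + 1) (wm (SubTensorM.B E i))) fun i => fam_tame F E (δ + 1) i
  have hmain := count_K ω F.T_ne 𝔇 hΘ0 hΘ hU hU' hzan hzode hm hV
  refine hmain.mono fun X _ => ?_
  have hfin : {a : Pk m J → ℤ | (∀ p, |a p| ≤ X) ∧
      a (Sum.inr ()) ≠ 0 ∧ ptK (fun j => ω j) (fun p => (a p : ℂ)) ∈ V ∧
      KBadM κ U (fun t => wd (μ := μ) (δ + 1) (w t) (P t))
        (ptK (fun j => ω j) (fun p => (a p : ℂ)))}.Finite :=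
    (box_card X _ fun a ha => ha.1).1
  have hsub : RelPointK ω U V w P δ X ⊆ {a : Pk m J → ℤ | (∀ p, |a p| ≤ X) ∧
      a (Sum.inr ()) ≠ 0 ∧ ptK (fun j => ω j) (fun p => (a p : ℂ)) ∈ V ∧
      KBadM κ U (fun t => wd (μ := μ) (δ + 1) (w t) (P t))
        (ptK (fun j => ω j) (fun p => (a p : ℂ)))} := by
    rintro a ⟨ha, hq, hθV, hrel⟩
    exact ⟨ha, hq, hθV, kbadM_of_rel hf (hVU hθV) (hdet _ (hVU hθV)) hrel⟩
  exact_mod_cast Set.ncard_le_ncard hsub hfin

end

end Pool.Agent.Helper79.BB
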