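import Pool.Agent.Helper79.BB.UDefs

/-!
# BB-15: the model of the universal point

As `AA/Mod0.lean` (copy its proof: `mod0_frac_ext`, `mod0_indep`, `mod0_core` there are for a general index type `σ` and exponents `e`; here `σ = Px m dg J`, `i₀ = inl (0, j₀)`, `i₁ = inl (Fin.last dg, j₀)`,
the weights are `w (inl l) = ω l.2`, `w (inr _) = 0`, `e (inl l) = l.1`, `e (inr _) = 0`).
`L` is the field of fractions of `S = κ[Y_p, p ∈ σ]`; `t = Y_(i₀)`, `y_p = Y_p` for `p ≠ i₀` and `y_(i₀) = - ω_(j₀)⁻¹ ∑_(l ≠ (0, j₀)) Y_(inl l) ω_(l.2) t^(l.1)`.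
* The derivations: `D_i = ∂/∂Y_(dirM j₀ i)` extended to the fraction field (`mod0_frac_ext`): `D_i t = 0`, `D_i y_(i₀) = 0`, as `y_(i₀)` does not contain `Y_(dirM j₀ i)`.
* `ind`, `eqn`, `quo`, `gen`: as in `AA/Mod0.lean` (`FvM` is the sum over the `inl l`).
* `trx`: `D_i (x_l) = δ_(il) ω_(j₀) / q` for `x = ptM ω y t`, `q = y (inr (inr ())) ≠ 0`. If `P(x) = 0`, `P ≠ 0` of minimal total degree in `κ[X_1, …, X_m]`, then `D_i` gives
  `(∂_i P)(x) ω_(j₀) / q = 0`, so `∂_i P = 0` for all `i` by minimality, so `P` is constant (characteristic `0`), a contradiction.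
-/

open Polynomial

namespace Pool.Agent.Helper79.BB

open Pool.Agent.Helper79.AA Pool.Agent.Helper79.GX Pool.Agent.Helper64.Per

/-- Extension of a derivation of a domain to its fraction field. -/
private theorem mod0M_frac_ext {k A F : Type} [Field k] [CommRing A] [Field F] [Algebra k A]
    [Algebra k F] [Algebra A F] [IsScalarTower k A F] [IsDomain A] [IsFractionRing A F]
    (d : Derivation k A F) :
    ∃ D' : Derivation k F F, ∀ a, D' (algebraMap A F a) = d a := by
  have hE : Algebra.FormallyEtale A F := .of_isLocalization (nonZeroDivisors A)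
  let e := KaehlerDifferential.tensorKaehlerEquivOfFormallyEtale k A F
  let g : _ →ₗ[F] F := (LinearMap.liftBaseChange F d.liftKaehlerDifferential).comp
    e.symm.toLinearMap
  refine ⟨g.compDer (KaehlerDifferential.D k F), fun a => ?_⟩
  change LinearMap.liftBaseChange F d.liftKaehlerDifferential
      (e.symm (KaehlerDifferential.D k F _)) = _
  rw [KaehlerDifferential.tensorKaehlerEquivOfFormallyEtale_symm_D_algebraMap]
  simp

private theorem mod0M_indep {κ : Type} [Field κ] {σ : Type} [Fintype σ] [DecidableEq σ]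
    (aS : σ → MvPolynomial σ κ) (i₀ : σ) (h : ∀ i, i ≠ i₀ → aS i = MvPolynomial.X i)
    (e : σ → ℕ) (w : σ → κ)
    (heq : ∑ i, aS i * MvPolynomial.C (w i) * MvPolynomial.X i₀ ^ e i = 0)
    (i₁ : σ) (hi₁ : i₁ ≠ i₀) (he : 0 < e i₁) (he0 : e i₀ = 0) (hw : w i₁ ≠ 0) :
    AlgebraicIndependent κ aS := by
  have hX : ∀ i : σ, IsAlgebraic (Algebra.adjoin κ (Set.range aS))
      (MvPolynomial.X i : MvPolynomial σ κ) := by
    intro i
    by_cases hi : i = i₀
    · subst hi
      have hm : ∀ j, aS j * MvPolynomial.C (w j) ∈ Algebra.adjoin κ (Set.range aS) := by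
        intro j
        refine Subalgebra.mul_mem _ (Algebra.subset_adjoin ⟨j, rfl⟩) ?_
        exact (Algebra.adjoin κ (Set.range aS)).algebraMap_mem (w j)
      refine ⟨∑ j, C (⟨aS j * MvPolynomial.C (w j), hm j⟩ :
        Algebra.adjoin κ (Set.range aS)) * X ^ e j, ?_, ?_⟩
      · intro h0
        have h1 := congrArg (fun p => ((p.coeff (e i₁) : Algebra.adjoin κ (Set.range aS)) :
          MvPolynomial σ κ)) h0
        simp only [finsetSum_coeff, coeff_C_mul, coeff_X_pow, coeff_zero] at h1
        rw [AddSubmonoidClass.coe_finsetSum] at h1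
        have h2 := congrArg (MvPolynomial.coeff (Finsupp.single i₁ 1)) h1
        rw [MvPolynomial.coeff_sum, Finset.sum_eq_single i₁] at h2
        · simp only [if_true, mul_one, ZeroMemClass.coe_zero, MvPolynomial.coeff_zero] at h2
          rw [h i₁ hi₁, mul_comm, MvPolynomial.coeff_C_mul, MvPolynomial.coeff_X] at h2
          exact hw (by simpa using h2)
        · intro j _ hj
          by_cases hje : e i₁ = e j
          · have hji : j ≠ i := by
              rintro rfl
              omega
            simp only [if_pos hje, mul_one]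
            rw [h j hji, mul_comm, MvPolynomial.coeff_C_mul, MvPolynomial.coeff_X]
            rw [if_neg, mul_zero]
            intro hs
            exact hj (Finsupp.single_left_injective one_ne_zero hs)
          · simp only [if_neg hje, mul_zero, ZeroMemClass.coe_zero, MvPolynomial.coeff_zero]
        · intro hn
          exact absurd (Finset.mem_univ _) hn
      · rw [map_sum]
        rw [← heq]
        refine Finset.sum_congr rfl fun j _ => ?_
        rw [map_mul, aeval_C, map_pow, aeval_X]
        rfl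
    · rw [← h i hi]
      exact isAlgebraic_algebraMap (⟨aS i, Algebra.subset_adjoin ⟨i, rfl⟩⟩ :
        Algebra.adjoin κ (Set.range aS))
  have hall : ∀ p : MvPolynomial σ κ, IsAlgebraic (Algebra.adjoin κ (Set.range aS)) p := by
    intro p
    induction p using MvPolynomial.induction_on with
    | C c => exact isAlgebraic_algebraMap (⟨MvPolynomial.C c,
        (Algebra.adjoin κ (Set.range aS)).algebraMap_mem c⟩ : Algebra.adjoin κ (Set.range aS))
    | add p q hp hq => exact hp.add hq
    | mul_X p i hp => exact hp.mul (hX i)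
  have halg : Algebra.IsAlgebraic (Algebra.adjoin κ (Set.range aS)) (MvPolynomial σ κ) := ⟨hall⟩
  refine (Algebra.IsAlgebraic.isTranscendenceBasis_of_le_trdeg_of_finite κ aS ?_).1
  rw [MvPolynomial.trdeg_of_isDomain]
  simp

private theorem mod0M_core {κ : Type} [Field κ] [CharZero κ] [Algebra κ ℂ] {σ : Type} [Fintype σ]
    [DecidableEq σ] (i₀ i₁ : σ) (hi₁ : i₁ ≠ i₀) (e : σ → ℕ) (w : σ → κ) (he0 : e i₀ = 0)
    (he1 : 0 < e i₁) (hw0 : w i₀ ≠ 0) (hw1 : w i₁ ≠ 0) {ι : Type} (dir : ι → σ)
    (hd0 : ∀ i, dir i ≠ i₀) (hdw : ∀ i, w (dir i) = 0) (L : Type) [Field L] [CharZero L]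
    [Algebra κ L] [Algebra (MvPolynomial σ κ) L] [IsScalarTower κ (MvPolynomial σ κ) L]
    [IsFractionRing (MvPolynomial σ κ) L] :
    ∃ (D : ι → Derivation κ L L) (t : L) (a : σ → L), AlgebraicIndependent ℚ a ∧
      ∑ i, a i * algebraMap κ L (w i) * t ^ e i = 0 ∧
      (∀ i, D i t = 0) ∧ (∀ i p, D i (a p) = if p = dir i then 1 else 0) ∧
      (∀ f : L, ∃ P Q : MvPolynomial (Option σ) κ,
        MvPolynomial.aeval (fun o => o.elim t a) Q ≠ 0 ∧
        f = MvPolynomial.aeval (fun o => o.elim t a) P /
          MvPolynomial.aeval (fun o => o.elim t a) Q) ∧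
      ∀ P : MvPolynomial (Option σ) κ, MvPolynomial.aeval (fun o => o.elim t a) P = 0 →
        ∀ (t' : ℂ) (a' : σ → ℂ), ∑ i, a' i * algebraMap κ ℂ (w i) * t' ^ e i = 0 →
          MvPolynomial.aeval (fun o => o.elim t' a') P = 0 := by
  classical
  let A0 : (MvPolynomial σ κ) := -(MvPolynomial.C (w i₀)⁻¹) * ∑ j ∈ Finset.univ.erase i₀,
    MvPolynomial.X j * MvPolynomial.C (w j) * MvPolynomial.X i₀ ^ e j
  let aS : σ → (MvPolynomial σ κ) := fun i => if i = i₀ then A0 else MvPolynomial.X i
  have haS : ∀ i, i ≠ i₀ → aS i = MvPolynomial.X i := fun i hi => if_neg hi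
  have haS0 : aS i₀ = A0 := if_pos rfl
  have heqS : ∑ i, aS i * MvPolynomial.C (w i) * MvPolynomial.X i₀ ^ e i = 0 := by
    rw [← Finset.add_sum_erase Finset.univ _ (Finset.mem_univ i₀)]
    have h1 : ∑ i ∈ Finset.univ.erase i₀, aS i * MvPolynomial.C (w i) *
        MvPolynomial.X i₀ ^ e i = ∑ j ∈ Finset.univ.erase i₀,
        MvPolynomial.X j * MvPolynomial.C (w j) * MvPolynomial.X i₀ ^ e j :=
      Finset.sum_congr rfl fun i hi => by rw [haS i (Finset.ne_of_mem_erase hi)]
    rw [h1, haS0, he0, pow_zero, mul_one]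
    have h2 : (MvPolynomial.C (w i₀)⁻¹ : (MvPolynomial σ κ)) * MvPolynomial.C (w i₀) = 1 := by
      rw [← MvPolynomial.C_mul, inv_mul_cancel₀ hw0, MvPolynomial.C_1]
    change (-(MvPolynomial.C (w i₀)⁻¹) * ∑ j ∈ Finset.univ.erase i₀,
      MvPolynomial.X j * MvPolynomial.C (w j) * MvPolynomial.X i₀ ^ e j) *
      MvPolynomial.C (w i₀) + _ = (0 : (MvPolynomial σ κ))
    linear_combination (-(∑ j ∈ Finset.univ.erase i₀,
      MvPolynomial.X j * MvPolynomial.C (w j) * MvPolynomial.X i₀ ^ e j : (MvPolynomial σ κ))) * h2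
  have hpd : ∀ i, MvPolynomial.pderiv (dir i) (aS i₀) = 0 := by
    intro i
    rw [haS0]
    change MvPolynomial.pderiv (dir i) (-(MvPolynomial.C (w i₀)⁻¹) *
      ∑ j ∈ Finset.univ.erase i₀, MvPolynomial.X j * MvPolynomial.C (w j) *
      MvPolynomial.X i₀ ^ e j) = 0
    rw [← MvPolynomial.C_neg, MvPolynomial.pderiv_C_mul, map_sum, Finset.sum_eq_zero, mul_zero]
    intro j _
    by_cases hj : j = dir i
    · rw [hj, hdw i, MvPolynomial.C_0, mul_zero, zero_mul, map_zero]
    · rw [Derivation.leibniz, Derivation.leibniz, MvPolynomial.pderiv_C,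
        MvPolynomial.pderiv_X_of_ne hj, Derivation.leibniz_pow,
        MvPolynomial.pderiv_X_of_ne (hd0 i).symm]
      simp
  have hinj : Function.Injective (algebraMap (MvPolynomial σ κ) L) := IsFractionRing.injective (MvPolynomial σ κ) L
  have hDex : ∀ i, ∃ D' : Derivation κ L L, ∀ s : MvPolynomial σ κ,
      D' (algebraMap (MvPolynomial σ κ) L s) =
        algebraMap (MvPolynomial σ κ) L (MvPolynomial.pderiv (dir i) s) := by
    intro i
    let d : Derivation κ (MvPolynomial σ κ) L :=
      (Algebra.linearMap (MvPolynomial σ κ) L).compDer (MvPolynomial.pderiv (dir i))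
    obtain ⟨D₀, hD₀⟩ := mod0M_frac_ext d
    exact ⟨D₀, fun s => hD₀ s⟩
  choose D hDval using hDex
  let t : L := algebraMap (MvPolynomial σ κ) L (MvPolynomial.X i₀)
  let a : σ → L := fun i => algebraMap (MvPolynomial σ κ) L (aS i)
  have hind : AlgebraicIndependent κ aS := mod0M_indep aS i₀ haS e w heqS i₁ hi₁
    he1 he0 hw1
  have hev : ∀ P : MvPolynomial (Option σ) κ,
      MvPolynomial.aeval (fun o => o.elim t a) P = algebraMap (MvPolynomial σ κ) L
        (MvPolynomial.aeval (fun o => o.elim (MvPolynomial.X i₀) aS) P) := by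
    intro P
    have h1 : (MvPolynomial.aeval (fun o : Option σ => o.elim t a) :
        MvPolynomial (Option σ) κ →ₐ[κ] L) = (IsScalarTower.toAlgHom κ (MvPolynomial σ κ) L).comp
          (MvPolynomial.aeval (fun o : Option σ => o.elim (MvPolynomial.X i₀) aS)) := by
      refine MvPolynomial.algHom_ext fun o => ?_
      rw [AlgHom.comp_apply, MvPolynomial.aeval_X, MvPolynomial.aeval_X]
      cases o <;> rfl
    rw [h1]
    rfl
  refine ⟨D, t, a, ?_⟩
  refine ⟨?_, ?_, ?_, ?_, ?_, ?_⟩
  · have h1 : AlgebraicIndependent κ a :=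
      (hind.map' (f := IsScalarTower.toAlgHom κ (MvPolynomial σ κ) L) hinj)
    exact h1.restrictScalars (algebraMap ℚ κ).injective
  · have h1 := congrArg (algebraMap (MvPolynomial σ κ) L) heqS
    rw [map_sum, map_zero] at h1
    rw [← h1]
    refine Finset.sum_congr rfl fun i _ => ?_
    rw [map_mul, map_mul, map_pow, IsScalarTower.algebraMap_apply κ (MvPolynomial σ κ) L]
    rfl
  · intro i
    change D i (algebraMap (MvPolynomial σ κ) L (MvPolynomial.X i₀)) = 0
    rw [hDval, MvPolynomial.pderiv_X_of_ne (hd0 i).symm, map_zero]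
  · intro i p
    change D i (algebraMap (MvPolynomial σ κ) L (aS p)) = _
    rw [hDval]
    by_cases hp : p = i₀
    · rw [hp, hpd, map_zero, if_neg (hd0 i).symm]
    · rw [haS p hp]
      by_cases hpi : p = dir i
      · rw [if_pos hpi, hpi, MvPolynomial.pderiv_X_self, map_one]
      · rw [if_neg hpi, MvPolynomial.pderiv_X_of_ne hpi, map_zero]
  · intro f
    have hren : ∀ s : (MvPolynomial σ κ), ∃ P : MvPolynomial (Option σ) κ,
        MvPolynomial.aeval (fun o => o.elim t a) P = algebraMap (MvPolynomial σ κ) L s := by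
      intro s
      refine ⟨MvPolynomial.aeval (fun i => if i = i₀ then MvPolynomial.X none else
        MvPolynomial.X (some i)) s, ?_⟩
      rw [hev]
      congr 1
      have h1 : (MvPolynomial.aeval (fun o : Option σ =>
          o.elim (MvPolynomial.X i₀) aS)).comp (MvPolynomial.aeval (fun i : σ =>
          if i = i₀ then (MvPolynomial.X none : MvPolynomial (Option σ) κ) else
            MvPolynomial.X (some i))) = AlgHom.id κ (MvPolynomial σ κ) := by
        refine MvPolynomial.algHom_ext fun i => ?_
        rw [AlgHom.comp_apply, MvPolynomial.aeval_X, AlgHom.id_apply]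
        by_cases hi : i = i₀
        · rw [if_pos hi, MvPolynomial.aeval_X, hi]
          rfl
        · rw [if_neg hi, MvPolynomial.aeval_X]
          exact haS i hi
      exact DFunLike.congr_fun h1 s
    obtain ⟨p, q, hq, rfl⟩ := IsFractionRing.div_surjective (A := (MvPolynomial σ κ)) f
    obtain ⟨P, hP⟩ := hren p
    obtain ⟨Q, hQ⟩ := hren q
    refine ⟨P, Q, ?_, by rw [hP, hQ]⟩
    rw [hQ]
    exact IsFractionRing.to_map_ne_zero_of_mem_nonZeroDivisors hq
  · intro P hP t' a' hF
    rw [hev] at hP
    have hP0 := hinj (hP.trans (map_zero _).symm)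
    let φ : MvPolynomial σ κ →ₐ[κ] ℂ := MvPolynomial.aeval (fun i => if i = i₀ then t' else a' i)
    have hφX : φ (MvPolynomial.X i₀) = t' := by
      change MvPolynomial.aeval _ _ = _
      rw [MvPolynomial.aeval_X, if_pos rfl]
    have hφi : ∀ i, i ≠ i₀ → φ (MvPolynomial.X i) = a' i := by
      intro i hi
      change MvPolynomial.aeval _ _ = _
      rw [MvPolynomial.aeval_X, if_neg hi]
    have hφC : ∀ c : κ, φ (MvPolynomial.C c) = algebraMap κ ℂ c := fun c =>
      MvPolynomial.aeval_C _ c
    have hφ0 : φ (aS i₀) = a' i₀ := by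
      have h1 := congrArg φ heqS
      rw [map_sum, map_zero, ← Finset.add_sum_erase Finset.univ _ (Finset.mem_univ i₀)] at h1
      have h2 := hF
      rw [← Finset.add_sum_erase Finset.univ _ (Finset.mem_univ i₀)] at h2
      have h3 : ∑ i ∈ Finset.univ.erase i₀, φ (aS i * MvPolynomial.C (w i) *
          MvPolynomial.X i₀ ^ e i) = ∑ i ∈ Finset.univ.erase i₀,
          a' i * algebraMap κ ℂ (w i) * t' ^ e i := by
        refine Finset.sum_congr rfl fun i hi => ?_
        rw [haS i (Finset.ne_of_mem_erase hi), map_mul, map_mul, map_pow, hφX, hφC,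
          hφi i (Finset.ne_of_mem_erase hi)]
      rw [h3, map_mul, map_mul, map_pow, hφX, hφC, he0, pow_zero, mul_one] at h1
      rw [he0, pow_zero, mul_one] at h2
      have h5 : algebraMap κ ℂ (w i₀) ≠ 0 := fun h0 => hw0
        ((algebraMap κ ℂ).injective (h0.trans (map_zero _).symm))
      have h6 : φ (aS i₀) * algebraMap κ ℂ (w i₀) = a' i₀ * algebraMap κ ℂ (w i₀) := by
        linear_combination h1 - h2
      exact mul_right_cancel₀ h5 h6
    have h7 : φ.comp (MvPolynomial.aeval (fun o : Option σ =>
        o.elim (MvPolynomial.X i₀) aS)) = MvPolynomial.aeval (fun o => o.elim t' a') := by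
      refine MvPolynomial.algHom_ext fun o => ?_
      rw [AlgHom.comp_apply, MvPolynomial.aeval_X, MvPolynomial.aeval_X]
      cases o with
      | none => exact hφX
      | some i =>
        change φ (aS i) = a' i
        by_cases hi : i = i₀
        · rw [hi, hφ0]
        · rw [haS i hi, hφi i hi]
    rw [← h7, AlgHom.comp_apply, hP0, map_zero]

private theorem mod0M_chain {κ L : Type} [Field κ] [Field L] [Algebra κ L] {m : ℕ}
    (D : Derivation κ L L) (x : Fin m → L) (c : L) (i : Fin m)
    (hD : ∀ l, D (x l) = if l = i then c else 0) (P : MvPolynomial (Fin m) κ) :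
    D (MvPolynomial.aeval x P) = MvPolynomial.aeval x (MvPolynomial.pderiv i P) * c := by
  induction P using MvPolynomial.induction_on with
  | C a => rw [MvPolynomial.aeval_C, D.map_algebraMap, MvPolynomial.pderiv_C, map_zero, zero_mul]
  | add p q hp hq => rw [map_add, map_add, hp, hq, map_add, map_add, add_mul]
  | mul_X p l hp =>
    rw [map_mul, MvPolynomial.aeval_X, D.leibniz, hp, hD, Derivation.leibniz, map_add]
    by_cases hl : l = i
    · subst hl
      rw [if_pos rfl, MvPolynomial.pderiv_X_self]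
      simp only [smul_eq_mul, mul_one, map_mul, MvPolynomial.aeval_X]
      ring
    · rw [if_neg hl, MvPolynomial.pderiv_X_of_ne hl]
      simp only [smul_eq_mul, mul_zero, map_zero, zero_add, map_mul, MvPolynomial.aeval_X]
      ring

private theorem mod0M_trx {κ L : Type} [Field κ] [CharZero κ] [Field L] [Algebra κ L] {m : ℕ}
    (D : Fin m → Derivation κ L L) (x : Fin m → L) (c : L) (hc : c ≠ 0)
    (hD : ∀ i l, D i (x l) = if l = i then c else 0) : AlgebraicIndependent κ x := by
  have key : ∀ n : ℕ, ∀ P : MvPolynomial (Fin m) κ, (∀ s ∈ P.support, s.degree < n) →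
      MvPolynomial.aeval x P = 0 → P = 0 := by
    intro n
    induction n with
    | zero =>
      intro P hP _
      rw [← MvPolynomial.support_eq_empty]
      exact Finset.eq_empty_of_forall_notMem fun s hs => absurd (hP s hs) (Nat.not_lt_zero _)
    | succ n ih =>
      intro P hP h0
      have h1 : ∀ i, MvPolynomial.pderiv i P = 0 := by
        intro i
        refine ih _ ?_ ?_
        · intro s hs
          rw [MvPolynomial.mem_support_iff, MvPolynomial.coeff_pderiv] at hs
          have h2 := hP (s + Finsupp.single i 1)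
            (MvPolynomial.mem_support_iff.2 fun h => hs (by rw [h]; simp))
          rw [map_add, Finsupp.degree_single] at h2
          omega
        · have h2 := mod0M_chain (D i) x c i (hD i) P
          rw [h0, map_zero] at h2
          exact (mul_eq_zero.1 h2.symm).resolve_right hc
      have h2 : P = MvPolynomial.C (MvPolynomial.coeff 0 P) := by
        refine MvPolynomial.ext _ _ fun s => ?_
        rw [MvPolynomial.coeff_C]
        by_cases hs : 0 = s
        · rw [if_pos hs, hs]
        · rw [if_neg hs]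
          obtain ⟨i, hi⟩ : ∃ i, s i ≠ 0 := by
            by_contra hcon
            push Not at hcon
            exact hs (Finsupp.ext fun i => (hcon i).symm)
          have h3 := congrArg (MvPolynomial.coeff (s - Finsupp.single i 1)) (h1 i)
          rw [MvPolynomial.coeff_pderiv, MvPolynomial.coeff_zero] at h3
          have h4 : s - Finsupp.single i 1 + Finsupp.single i 1 = s :=
            tsub_add_cancel_of_le (Finsupp.single_le_iff.2 (Nat.one_le_iff_ne_zero.2 hi))
          rw [h4] at h3
          refine (mul_eq_zero.1 h3).resolve_right ?_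
          exact Nat.cast_add_one_ne_zero _
      rw [h2, MvPolynomial.aeval_C] at h0
      rw [h2, (algebraMap κ L).injective (h0.trans (map_zero _).symm), MvPolynomial.C_0]
  refine algebraicIndependent_iff.2 fun P hP => key (P.totalDegree + 1) P (fun s hs => ?_) hP
  exact Nat.lt_succ_of_le (MvPolynomial.le_totalDegree hs)

private theorem mod0M_all {κ : IntermediateField ℚ Qbar} {J : Type} [Fintype J]
    [DecidableEq J] {ω : J → κ} (hω : ∀ j, ω j ≠ 0) (m : ℕ) {dg : ℕ} (hdg : 1 ≤ dg) (j₀ : J)
    (L : Type) [Field L] [CharZero L] [Algebra κ L] [Algebra (MvPolynomial (Px m dg J) κ) L]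
    [IsScalarTower κ (MvPolynomial (Px m dg J) κ) L]
    [IsFractionRing (MvPolynomial (Px m dg J) κ) L] :
    ∃ (D : Fin m → Derivation ℚ L L) (t : L) (y : Px m dg J → L), Mod0M ω m dg j₀ D t y := by
  classical
  obtain ⟨D, t, y, h1, h3, h4, h5, h6, h7⟩ := mod0M_core (κ := κ) (σ := Px m dg J)
    (Sum.inl (0, j₀)) (Sum.inl (Fin.last dg, j₀)) (by
      intro h
      have h1 := congrArg (fun i : Fin (dg + 1) × J => (i.1 : ℕ)) (Sum.inl.inj h)
      simp only [Fin.val_last, Fin.val_zero] at h1
      omega) (Sum.elim (fun l => (l.1 : ℕ)) fun _ => 0) (Sum.elim (fun l => ω l.2) fun _ => 0) rfl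
    (by
      change 0 < ((Fin.last dg : Fin (dg + 1)) : ℕ)
      rw [Fin.val_last]
      omega) (hω j₀) (hω j₀) (dirM j₀) (fun i h => by cases h) (fun i => rfl) L
  have heqn : FvM ω y t = 0 := by
    rw [Fintype.sum_sum_type] at h3
    simpa [FvM] using h3
  have hq : y (Sum.inr (Sum.inr ())) ≠ 0 := h1.ne_zero _
  have hω0 : algebraMap κ L (ω j₀) ≠ 0 := fun h0 =>
    hω j₀ ((algebraMap κ L).injective (h0.trans (map_zero _).symm))
  have htrx : AlgebraicIndependent κ (ptM ω y t) := by
    refine mod0M_trx D _ (algebraMap κ L (ω j₀) / y (Sum.inr (Sum.inr ())))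
      (div_ne_zero hω0 hq) fun i l => ?_
    have hnum : D i (∑ k : Fin (dg + 1) × J, y (Sum.inr (Sum.inl (l, k))) *
        algebraMap κ L (ω k.2) * t ^ (k.1 : ℕ)) =
        if l = i then algebraMap κ L (ω j₀) else 0 := by
      rw [map_sum]
      have hterm : ∀ k : Fin (dg + 1) × J, D i (y (Sum.inr (Sum.inl (l, k))) *
          algebraMap κ L (ω k.2) * t ^ (k.1 : ℕ)) =
          (if l = i then (if k = (0, j₀) then algebraMap κ L (ω j₀) else 0) else 0) := by
        intro k
        rw [Derivation.leibniz, Derivation.leibniz_pow, h4, Derivation.leibniz,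
          (D i).map_algebraMap, h5]
        by_cases hl : l = i
        · by_cases hk : k = (0, j₀)
          · subst hl
            subst hk
            simp [smul_eq_mul]
          · rw [if_pos hl, if_neg hk, if_neg]
            · simp
            · intro h
              apply hk
              have := Sum.inl.inj (Sum.inr.inj h)
              exact (Prod.ext_iff.1 this).2
        · rw [if_neg hl, if_neg]
          · simp
          · intro h
            apply hl
            have := Sum.inl.inj (Sum.inr.inj h)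
            exact (Prod.ext_iff.1 this).1
      rw [Finset.sum_congr rfl fun k _ => hterm k]
      by_cases hl : l = i
      · simp [hl]
      · simp [hl]
    have hdq : D i (y (Sum.inr (Sum.inr ()))) = 0 := by
      rw [h5, if_neg (fun h => by cases h)]
    change D i ((∑ k : Fin (dg + 1) × J, y (Sum.inr (Sum.inl (l, k))) *
        algebraMap κ L (ω k.2) * t ^ (k.1 : ℕ)) / y (Sum.inr (Sum.inr ()))) = _
    rw [div_eq_mul_inv, Derivation.leibniz, hnum, Derivation.leibniz_inv, hdq, smul_zero,
      smul_zero, zero_add, smul_eq_mul]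
    by_cases hl : l = i
    · rw [if_pos hl, if_pos hl, div_eq_mul_inv]
      ring
    · rw [if_neg hl, if_neg hl, mul_zero]
  refine ⟨fun i => (D i).restrictScalars ℚ, t, y, ⟨h1, htrx, heqn,
    fun i c => (D i).map_algebraMap c, h4, h5, h6, ?_⟩⟩
  intro P hP t' y' hF
  refine h7 P hP t' y' ?_
  rw [Fintype.sum_sum_type]
  simpa [FvM] using hF

theorem exists_mod0M {κ : IntermediateField ℚ Qbar} [FiniteDimensional ℚ κ] {J : Type} [Fintype J]
    [DecidableEq J] {ω : J → κ} (hω : ∀ j, ω j ≠ 0) (m : ℕ) {dg : ℕ} (hdg : 1 ≤ dg) (j₀ : J) :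
    ∃ (L : Type) (_ : Field L) (_ : CharZero L) (_ : Algebra κ L) (D : Fin m → Derivation ℚ L L)
      (t : L) (y : Px m dg J → L), Mod0M ω m dg j₀ D t y := by
  classical
  have hch : CharZero (FractionRing (MvPolynomial (Px m dg J) κ)) :=
    charZero_of_injective_algebraMap
      (algebraMap κ (FractionRing (MvPolynomial (Px m dg J) κ))).injective
  obtain ⟨D, t, y, h⟩ := mod0M_all hω m hdg j₀ (FractionRing (MvPolynomial (Px m dg J) κ))
  exact ⟨FractionRing (MvPolynomial (Px m dg J) κ), inferInstance, hch, inferInstance, D, t, y, h⟩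

end Pool.Agent.Helper79.BB
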