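import Pool.Agent.Helper79.BB.Pd

/-!
# BB-02: iterated partial derivatives

* `pdL_analytic`, `pdL_congr`: induction on `L` (the ball is open).
* `pdL_perm`: induction on the permutation (`List.Perm.rec`): `swap` is `pd_comm` for `pdL L f`, `cons` is `pd_congr`.
* `pdL_append`: `pdL (L ++ L') f = pdL L (pdL L' f)`, by definition.
* `pdL_line`: induction on `n` (`iteratedDeriv_succ`): near `s` the function `iteratedDeriv n (…)` is `pdL (replicate n i) f (update c i ·)` (the set of the `s`
  with `update c i s` in the ball is open), then `pd_line`.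
* `pdL_zero`: let `u₀` be the point. By induction on `j ≤ m`: for every `L`, `pdL L f` vanishes at all points `u` of the ball with
  `u k = u₀ k` for all `k ≥ j`. Step: `u` with `u k = u₀ k` for `k > j`, let `u' = update u j (u₀ j)`; the function `s ↦ pdL L f (update u' j s)` is analytic on the disc
  of radius `R` and all its derivatives at `u₀ j` are `0` (`pdL_line` for `pdL L f`, induction hypothesis), so it is `0` (identity theorem:
  `AnalyticOnNhd.eqOn_zero_of_preconnected_of_eventuallyEq_zero`, `AnalyticAt.analyticOrderAt`…, the disc is convex).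
* `perm_split`, `perm_lst`: `List.perm_iff_count`. `exists_max_count`: `∑_i count i L = L.length`.
-/

namespace Pool.Agent.Helper79.BB

variable {m : ℕ}

theorem pdL_analytic {f : (Fin m → ℂ) → ℂ} {R : ℝ}
    (hf : AnalyticOnNhd ℂ f (Metric.ball 0 R)) (L : List (Fin m)) :
    AnalyticOnNhd ℂ (pdL L f) (Metric.ball 0 R) := by
  induction L with
  | nil => exact hf
  | cons i L ih => exact fun u hu => pd_analyticAt (ih u hu) i

theorem pdL_append (L L' : List (Fin m)) (f : (Fin m → ℂ) → ℂ) :
    pdL (L ++ L') f = pdL L (pdL L' f) := by
  induction L with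
  | nil => rfl
  | cons i L ih =>
    change pd i (pdL (L ++ L') f) = pd i (pdL L (pdL L' f))
    rw [ih]

theorem pdL_perm {f : (Fin m → ℂ) → ℂ} {R : ℝ} (hf : AnalyticOnNhd ℂ f (Metric.ball 0 R))
    {L L' : List (Fin m)} (h : L.Perm L') :
    ∀ u ∈ Metric.ball (0 : Fin m → ℂ) R, pdL L f u = pdL L' f u := by
  induction h with
  | nil => exact fun u _ => rfl
  | cons x _ ih =>
    intro u hu
    refine pd_congr ?_ x
    filter_upwards [Metric.isOpen_ball.mem_nhds hu] with v hv
    exact ih v hv
  | swap x y l =>
    intro u hu
    exact pd_comm (pdL_analytic hf l u hu) y x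
  | trans _ _ h1 h2 =>
    intro u hu
    rw [h1 u hu, h2 u hu]

theorem pdL_line {f : (Fin m → ℂ) → ℂ} {R : ℝ} (hf : AnalyticOnNhd ℂ f (Metric.ball 0 R))
    (c : Fin m → ℂ) (i : Fin m) (n : ℕ) {s : ℂ}
    (h : Function.update c i s ∈ Metric.ball (0 : Fin m → ℂ) R) :
    iteratedDeriv n (fun s : ℂ => f (Function.update c i s)) s =
      pdL (List.replicate n i) f (Function.update c i s) := by
  induction n generalizing s with
  | zero => rfl
  | succ n ih =>
    rw [iteratedDeriv_succ]
    have hc : Continuous fun s : ℂ => Function.update c i s :=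
      continuous_const.update i continuous_id
    have h1 : iteratedDeriv n (fun s : ℂ => f (Function.update c i s)) =ᶠ[nhds s]
        fun s => pdL (List.replicate n i) f (Function.update c i s) := by
      filter_upwards [hc.continuousAt.preimage_mem_nhds (Metric.isOpen_ball.mem_nhds h)] with t ht
      exact ih ht
    rw [h1.deriv_eq, List.replicate_succ]
    exact (pd_line (pdL_analytic hf (List.replicate n i) _ h).differentiableAt).deriv

theorem pdL_zero {f : (Fin m → ℂ) → ℂ} {R : ℝ} (hf : AnalyticOnNhd ℂ f (Metric.ball 0 R))
    {u₀ : Fin m → ℂ} (hu₀ : u₀ ∈ Metric.ball (0 : Fin m → ℂ) R) (h : ∀ L, pdL L f u₀ = 0) :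
    ∀ u ∈ Metric.ball (0 : Fin m → ℂ) R, f u = 0 := by
  have hR : 0 < R := by
    by_contra hR
    rw [Metric.ball_eq_empty.2 (not_lt.1 hR)] at hu₀
    exact hu₀
  have hball : ∀ u : Fin m → ℂ, u ∈ Metric.ball (0 : Fin m → ℂ) R ↔ ∀ k, ‖u k‖ < R := by
    intro u
    rw [mem_ball_zero_iff, pi_norm_lt_iff hR]
  have key : ∀ j : ℕ, j ≤ m → ∀ u ∈ Metric.ball (0 : Fin m → ℂ) R,
      (∀ k : Fin m, j ≤ (k : ℕ) → u k = u₀ k) → ∀ L, pdL L f u = 0 := by
    intro j
    induction j with
    | zero =>
      intro _ u _ hk L
      have : u = u₀ := funext fun k => hk k (Nat.zero_le _)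
      rw [this, h]
    | succ j ih =>
      intro hj u hu hk L
      have hj' : j < m := hj
      set i : Fin m := ⟨j, hj'⟩ with hi
      have hupd : ∀ s : ℂ, ‖s‖ < R → Function.update u i s ∈ Metric.ball (0 : Fin m → ℂ) R := by
        intro s hs
        rw [hball]
        intro k
        by_cases hki : k = i
        · subst hki
          rwa [Function.update_self]
        · rw [Function.update_of_ne hki]
          exact (hball u).1 hu k
      have hu₀i : ‖u₀ i‖ < R := (hball u₀).1 hu₀ i
      set φ : ℂ → ℂ := fun s => pdL L f (Function.update u i s) with hφ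
      have hLan := pdL_analytic hf L
      have hφd : ∀ s ∈ Metric.ball (0 : ℂ) R, DifferentiableAt ℂ φ s := by
        intro s hs
        rw [mem_ball_zero_iff] at hs
        exact (pd_line (hLan _ (hupd s hs)).differentiableAt).differentiableAt
      have hφan : AnalyticOnNhd ℂ φ (Metric.ball (0 : ℂ) R) :=
        DifferentiableOn.analyticOnNhd
          (fun s hs => (hφd s hs).differentiableWithinAt) Metric.isOpen_ball
      have hder : ∀ n, iteratedDeriv n φ (u₀ i) = 0 := by
        intro n
        rw [hφ, pdL_line hLan u i n (hupd _ hu₀i), ← pdL_append]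
        refine ih (Nat.le_of_succ_le hj) _ (hupd _ hu₀i) ?_ _
        intro k hjk
        by_cases hki : k = i
        · subst hki
          rw [Function.update_self]
        · rw [Function.update_of_ne hki]
          refine hk k ?_
          have : (k : ℕ) ≠ j := fun h' => hki (Fin.ext h')
          omega
      have hloc : φ =ᶠ[nhds (u₀ i)] 0 := by
        have hr : 0 < R - ‖u₀ i‖ := by linarith
        filter_upwards [Metric.ball_mem_nhds (u₀ i) hr] with s hs
        have hsub : Metric.ball (u₀ i) (R - ‖u₀ i‖) ⊆ Metric.ball (0 : ℂ) R := by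
          intro t ht
          rw [mem_ball_iff_norm] at ht
          rw [mem_ball_zero_iff]
          calc ‖t‖ = ‖(t - u₀ i) + u₀ i‖ := by rw [sub_add_cancel]
            _ ≤ ‖t - u₀ i‖ + ‖u₀ i‖ := norm_add_le _ _
            _ < R := by linarith
        have h1 := Complex.taylorSeries_eq_on_ball
          (f := φ) (c := u₀ i) (r := R - ‖u₀ i‖)
          (fun t ht => (hφd t (hsub ht)).differentiableWithinAt) hs
        rw [← h1]
        simp [hder]
      have hzero := hφan.eqOn_zero_of_preconnected_of_eventuallyEq_zero
        (convex_ball (0 : ℂ) R).isPreconnected (by rwa [mem_ball_zero_iff]) hloc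
      have h2 : φ (u i) = 0 := hzero (by rw [mem_ball_zero_iff]; exact (hball u).1 hu i)
      rw [hφ] at h2
      simpa using h2
  intro u hu
  exact key m le_rfl u hu (fun k hk => absurd k.2 (not_lt.2 hk)) []

theorem perm_split (L : List (Fin m)) (i : Fin m) :
    ∃ L' : List (Fin m), L.Perm (List.replicate (L.count i) i ++ L') ∧ i ∉ L' ∧
      L'.length + L.count i = L.length := by
  classical
  have hp : L.Perm (List.replicate (L.count i) i ++ L.filter fun j => !(j == i)) := by
    rw [List.perm_iff_count]
    intro a
    rw [List.count_append, List.count_replicate]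
    by_cases ha : a = i
    · subst ha
      have : List.count a (L.filter fun j => !(j == a)) = 0 := by
        rw [List.count_eq_zero]
        intro h
        have := List.of_mem_filter h
        simp at this
      rw [this]
      simp
    · have h1 : List.count a (L.filter fun j => !(j == i)) = List.count a L := by
        rw [List.count_filter]
        simp [ha]
      rw [h1, if_neg (by simpa using fun h => ha h.symm), zero_add]
  refine ⟨_, hp, ?_, ?_⟩
  · intro h
    have := List.of_mem_filter h
    simp at this
  · have := hp.length_eq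
    rw [List.length_append, List.length_replicate] at this
    omega

theorem perm_lst (L : List (Fin m)) : L.Perm (lst fun i => L.count i) := by
  classical
  rw [List.perm_iff_count]
  intro a
  unfold lst
  rw [List.count_flatMap]
  have h : (List.map (List.count a ∘ fun i => List.replicate (List.count i L) i)
      (List.finRange m)).sum = ∑ i : Fin m, List.count a (List.replicate (List.count i L) i) := by
    rw [Fin.sum_univ_def]
    rfl
  rw [h]
  simp only [List.count_replicate]
  rw [Finset.sum_eq_single a]
  · simp
  · intro b _ hb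
    simp [hb]
  · intro h
    exact absurd (Finset.mem_univ a) h

theorem exists_max_count (hm : 1 ≤ m) (L : List (Fin m)) :
    ∃ i, (∀ j, L.count j ≤ L.count i) ∧ L.length ≤ m * L.count i := by
  classical
  obtain ⟨i, -, hi⟩ := Finset.exists_max_image (Finset.univ : Finset (Fin m))
    (fun i => L.count i) ⟨⟨0, hm⟩, Finset.mem_univ _⟩
  refine ⟨i, fun j => hi j (Finset.mem_univ j), ?_⟩
  have h1 := (perm_lst L).length_eq
  unfold lst at h1
  rw [List.length_flatMap] at h1
  have h2 : (List.map (fun a => (List.replicate (List.count a L) a).length)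
      (List.finRange m)).sum = ∑ i : Fin m, L.count i := by
    rw [Fin.sum_univ_def]
    simp
  rw [h2] at h1
  rw [h1]
  calc ∑ j : Fin m, L.count j ≤ ∑ _j : Fin m, L.count i :=
        Finset.sum_le_sum fun j _ => hi j (Finset.mem_univ j)
    _ = m * L.count i := by simp

end Pool.Agent.Helper79.BB
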