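import Pool.Agent.Helper79.BB.UDefs

/-!
# BB: the pencils: definitions
-/

namespace Pool.Agent.Helper79.BB

open Pool.Agent.Helper79.AA Pool.Agent.Helper79.GX Pool.Agent.Helper64.Per

variable {κ : IntermediateField ℚ Qbar} {J : Type} [Fintype J] [DecidableEq J] {m dg : ℕ}

/-- The affine map `u ↦ x⁰ + (ω_(j₀) / q) u`, `x⁰` the point with parameters `a` and `θ`. -/
noncomputable def pmap (ω : J → κ) (j₀ : J) (a : Px m dg J → ℤ) (θ : ℂ) (u : Fin m → ℂ) :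
    Fin m → ℂ :=
  ptM ω (shM j₀ (fun p => (a p : ℂ)) u) θ

/-- The functions `b_γ(θ) z_r(x⁰ + (ω_(j₀) / q) u)`. -/
noncomputable def zpen {Γ β : Type} (ω : J → κ) (j₀ : J) (b : Γ → J × ℕ)
    (z : (Fin m → ℂ) → β → ℂ) (a : Px m dg J → ℤ) (θ : ℂ) (u : Fin m → ℂ) : Γ × β → ℂ :=
  fun p => algebraMap κ ℂ (ω (b p.1).1) * θ ^ (b p.1).2 * z (pmap ω j₀ a θ u) p.2

end Pool.Agent.Helper79.BB
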