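import Pool.Agent.Helper79.BB.Defs
import Pool.Agent.Helper79.GA.Defs

/-!
# BB: the universal point: definitions

`y = (y_p)`, `p ∈ Px m dg J`, are the coefficients of `F_y = ∑_k (∑_j y_(k,j) ω_j) t^k` and of `G_1, …, G_m`, and the denominator `q`.
The universal point is `x = (G_1(t) / q, …, G_m(t) / q)`, `F_y(t) = 0`. The direction `dirM j₀ i` is the constant term
`(i, (0, j₀))` of `G_i`.
-/

open Polynomial

namespace Pool.Agent.Helper79.BB

open Pool.Agent.Helper79.AA Pool.Agent.Helper79.GX Pool.Agent.Helper64.Per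

/-- The direction `i`. -/
abbrev dirM {m dg : ℕ} {J : Type} (j₀ : J) (i : Fin m) : Px m dg J := Sum.inr (Sum.inl (i, (0, j₀)))

section

variable {κ : IntermediateField ℚ Qbar} {J : Type} [Fintype J] {m dg : ℕ} {L : Type} [Field L]
  [Algebra κ L]

/-- `F_y(t)`. -/
noncomputable def FvM (ω : J → κ) (y : Px m dg J → L) (t : L) : L :=
  ∑ l : Fin (dg + 1) × J, y (Sum.inl l) * algebraMap κ L (ω l.2) * t ^ (l.1 : ℕ)

/-- The point `(G_1(t) / q, …, G_m(t) / q)`. -/
noncomputable def ptM (ω : J → κ) (y : Px m dg J → L) (t : L) : Fin m → L := fun i =>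
  (∑ l : Fin (dg + 1) × J, y (Sum.inr (Sum.inl (i, l))) * algebraMap κ L (ω l.2) *
    t ^ (l.1 : ℕ)) / y (Sum.inr (Sum.inr ()))

end

section

variable {J : Type} [DecidableEq J] {m dg : ℕ}

/-- The points `y + ∑ u_i e_(dirM i)`. -/
def shM {R : Type} [CommRing R] (j₀ : J) (y : Px m dg J → R) (u : Fin m → R) : Px m dg J → R :=
  fun p => y p + ∑ i, if p = dirM j₀ i then u i else 0

/-- The restriction of a polynomial to this `m`-dimensional space. -/
noncomputable def specM (j₀ : J) (a : Px m dg J → ℤ) :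
    MvPolynomial (Px m dg J) ℚ →ₐ[ℚ] MvPolynomial (Fin m) ℚ :=
  MvPolynomial.aeval fun p => MvPolynomial.C ((a p : ℤ) : ℚ) +
    ∑ i, if p = dirM j₀ i then MvPolynomial.X i else 0

end

/-- A model of the field generated by the coordinates `y` of the universal point, the field `κ` and
the root `t`. -/
structure Mod0M {κ : IntermediateField ℚ Qbar} {J : Type} [Fintype J] [DecidableEq J] (ω : J → κ)
    (m dg : ℕ) (j₀ : J) {L : Type} [Field L] [CharZero L] [Algebra κ L]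
    (D : Fin m → Derivation ℚ L L) (t : L) (y : Px m dg J → L) : Prop where
  ind : AlgebraicIndependent ℚ y
  trx : AlgebraicIndependent κ (ptM ω y t)
  eqn : FvM ω y t = 0
  const : ∀ i (c : κ), D i (algebraMap κ L c) = 0
  dt : ∀ i, D i t = 0
  der : ∀ i p, D i (y p) = if p = dirM j₀ i then 1 else 0
  quo : ∀ f : L, ∃ P Q : MvPolynomial (Option (Px m dg J)) κ,
    MvPolynomial.aeval (fun o => o.elim t y) Q ≠ 0 ∧
    f = MvPolynomial.aeval (fun o => o.elim t y) P / MvPolynomial.aeval (fun o => o.elim t y) Q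
  gen : ∀ P : MvPolynomial (Option (Px m dg J)) κ,
    MvPolynomial.aeval (fun o => o.elim t y) P = 0 →
    ∀ (t' : ℂ) (y' : Px m dg J → ℂ), FvM ω y' t' = 0 →
      MvPolynomial.aeval (fun o => o.elim t' y') P = 0

/-- The coordinates as elements of the field `k = ℚ(y)`, mapped to `L`. -/
noncomputable def yM (m dg : ℕ) (J k L : Type) [Field k] [Algebra (MvPolynomial (Px m dg J) ℚ) k]
    [Field L] [Algebra k L] : Px m dg J → L := fun p =>
  algebraMap k L (algebraMap (MvPolynomial (Px m dg J) ℚ) k (MvPolynomial.X p))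

/-- The same with the subfield `k = ℚ(y)`. -/
structure ModM {κ : IntermediateField ℚ Qbar} {J : Type} [Fintype J] [DecidableEq J] (ω : J → κ)
    (m dg : ℕ) (j₀ : J) {k L : Type} [Field k] [CharZero k]
    [Algebra (MvPolynomial (Px m dg J) ℚ) k] [Field L] [CharZero L] [Algebra k L] [Algebra κ L]
    (Dk : Fin m → Derivation ℚ k k) (D : Fin m → Derivation ℚ L L) (t : L) : Prop where
  frac : IsFractionRing (MvPolynomial (Px m dg J) ℚ) k
  fin : FiniteDimensional k L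
  der : ∀ i P, Dk i (algebraMap (MvPolynomial (Px m dg J) ℚ) k P) =
    algebraMap (MvPolynomial (Px m dg J) ℚ) k (MvPolynomial.pderiv (dirM j₀ i) P)
  ext : ∀ i (c : k), D i (algebraMap k L c) = algebraMap k L (Dk i c)
  const : ∀ i (c : κ), D i (algebraMap κ L c) = 0
  dt : ∀ i, D i t = 0
  trx : AlgebraicIndependent κ (ptM ω (yM m dg J k L) t)
  eqn : FvM ω (yM m dg J k L) t = 0
  span : Submodule.span k (Set.range fun p : J × ℕ => algebraMap κ L (ω p.1) * t ^ p.2) = ⊤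
  gen : ∀ P : MvPolynomial (Option (Px m dg J)) κ,
    MvPolynomial.aeval (fun o => o.elim t (yM m dg J k L)) P = 0 →
    ∀ (t' : ℂ) (y' : Px m dg J → ℂ), FvM ω y' t' = 0 →
      MvPolynomial.aeval (fun o => o.elim t' y') P = 0

/-- The universal push-forward: the basis `b_γ = ω_(b γ).1 t^(b γ).2` of `L` over `k = ℚ(y)`, the matrices
`M_i / Θ` of the push-forward of the connection `∂z/∂x_i = (A_i / T) z` in the directions
`dirM j₀ i`. -/
structure UniM {κ : IntermediateField ℚ Qbar} {J : Type} [Fintype J] [DecidableEq J] (ω : J → κ)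
    {m : ℕ} (dg : ℕ) (j₀ : J) {β : Type} [Fintype β] [DecidableEq β] (T : MvPolynomial (Fin m) κ)
    (A : Fin m → Matrix β β (MvPolynomial (Fin m) κ)) where
  Γ : Type
  [fΓ : Fintype Γ]
  [dΓ : DecidableEq Γ]
  b : Γ → J × ℕ
  Θ : MvPolynomial (Px m dg J) ℚ
  Θ_ne : Θ ≠ 0
  M : Fin m → Matrix (Γ × β) (Γ × β) (MvPolynomial (Px m dg J) ℚ)
  ρ : J × ℕ → Γ → MvPolynomial (Px m dg J) ℚ
  c : ℕ
  growth : ∀ X : ℕ, 2 ≤ X → ∀ (i : Fin m) (a : Px m dg J → ℤ) (u : ℤ),
    (∀ p, |pt (dirM j₀ i) a u p| ≤ X) →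
    MvPolynomial.eval (fun p => ((pt (dirM j₀ i) a u p : ℤ) : ℚ)) Θ ≠ 0 →
    Gr (spec (dirM j₀ i) a Θ) ((M i).map (spec (dirM j₀ i) a)) (u : ℚ) ((X : ℝ) ^ c)
  ident : ∀ (t : ℂ) (y : Px m dg J → ℂ), FvM ω y t = 0 → y (Sum.inr (Sum.inr ())) ≠ 0 →
    ∀ (i : Fin m) (γ : Γ) (r r' : β),
    MvPolynomial.aeval y Θ * algebraMap κ ℂ (ω j₀) * (algebraMap κ ℂ (ω (b γ).1) * t ^ (b γ).2 *
      MvPolynomial.aeval (ptM ω y t) (A i r r')) =
    y (Sum.inr (Sum.inr ())) * MvPolynomial.aeval (ptM ω y t) T *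
      ∑ γ', MvPolynomial.aeval y (M i (γ, r) (γ', r')) *
        (algebraMap κ ℂ (ω (b γ').1) * t ^ (b γ').2)
  span : ∀ (t : ℂ) (y : Px m dg J → ℂ), FvM ω y t = 0 → ∀ p : J × ℕ, p.2 ≤ dg →
    MvPolynomial.aeval y Θ * (algebraMap κ ℂ (ω p.1) * t ^ p.2) =
      ∑ γ, MvPolynomial.aeval y (ρ p γ) * (algebraMap κ ℂ (ω (b γ).1) * t ^ (b γ).2)

attribute [instance] UniM.fΓ UniM.dΓ

/-- A relation at `x₀` with coefficients in `κ(x₀)` which is not the value of a functional relation over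
`ℚ̄[x]`. -/
def KBadM (κ : IntermediateField ℚ Qbar) {m : ℕ} {β : Type} [Fintype β] (U : Set (Fin m → ℂ))
    (z : (Fin m → ℂ) → β → ℂ) (x₀ : Fin m → ℂ) : Prop :=
  ∃ g : β → MvPolynomial (Fin m) κ, ∑ i, MvPolynomial.aeval x₀ (g i) * z x₀ i = 0 ∧
    ¬ ∃ h : β → MvPolynomial (Fin m) Qbar,
      (∀ i, MvPolynomial.aeval x₀ (h i) = MvPolynomial.aeval x₀ (g i)) ∧
      ∀ x ∈ U, ∑ i, MvPolynomial.aeval x (h i) * z x i = 0

/-! ### The other variables as constants -/

/-- The field of rational functions in the variables `≠ i`. -/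
abbrev Ki (κ : Type) [Field κ] {m : ℕ} (i : Fin m) : Type :=
  FractionRing (MvPolynomial {l : Fin m // l ≠ i} κ)

/-- A polynomial as a polynomial in the variable `i`. -/
noncomputable def tauP {κ : Type} [Field κ] {m : ℕ} (i : Fin m) :
    MvPolynomial (Fin m) κ →ₐ[κ] (Ki κ i)[X] :=
  MvPolynomial.aeval fun l => if h : l = i then Polynomial.X else
    Polynomial.C (algebraMap (MvPolynomial {l : Fin m // l ≠ i} κ) (Ki κ i) (MvPolynomial.X ⟨l, h⟩))

end Pool.Agent.Helper79.BB
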